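import Pool.Agent.Lib.MP_1c0d65_gt.Nz.Reg

/-! The abstract spectral data of a Dirac system. -/

set_option autoImplicit false

open scoped ContDiff Topology
open Set MeasureTheory Function Filter

noncomputable section

namespace Pool.Agent.Lib.MP_1c0d65_gt.Nz

open Pool.Agent.Lib.MP_1c0d65_gt.PW

variable {W : Type} [NormedAddCommGroup W] [InnerProductSpace ℝ W] [FiniteDimensional ℝ W]
  [CompleteSpace W] {C : Cl W}
  {X : Type} [TopologicalSpace X] [T2Space X] [CompactSpace X] [MeasurableSpace X]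
  [BorelSpace X] {μ : Measure X}

omit [T2Space X] [CompactSpace X] [BorelSpace X] in
theorem Sy.sec_zero (S : Sy X μ C) (u : S.sec) : S.Sm 0 u.1 := fun a => (u.2 a).of_le (by simp)

/-- A smooth section as an element of `L²`. -/
def Sy.jL (S : Sy X μ C) : S.sec →ₗ[ℝ] Lp W 2 μ where
  toFun u := ((S.sec_zero u).memLp 2).toLp u.1
  map_add' u v := MemLp.toLp_add ((S.sec_zero u).memLp 2) ((S.sec_zero v).memLp 2)
  map_smul' r u := MemLp.toLp_const_smul r ((S.sec_zero u).memLp 2)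

theorem Sy.jL_ae (S : Sy X μ C) (u : S.sec) : (S.jL u : X → W) =ᵐ[μ] u.1 :=
  MemLp.coeFn_toLp ((S.sec_zero u).memLp 2)

theorem Sy.inner_jL (S : Sy X μ C) (φ : Lp W 2 μ) (u : S.sec) :
    inner ℝ φ (S.jL u) = ∫ x, inner ℝ (φ x) (u.1 x) ∂μ := by
  rw [L2.inner_def]
  refine integral_congr_ae ?_
  filter_upwards [S.jL_ae u] with x hx
  rw [hx]

theorem Sy.inner_jL2 (S : Sy X μ C) (u v : S.sec) :
    inner ℝ (S.jL u) (S.jL v) = ∫ x, inner ℝ (u.1 x) (v.1 x) ∂μ := by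
  rw [S.inner_jL]
  refine integral_congr_ae ?_
  filter_upwards [S.jL_ae u] with x hx
  rw [hx]

/-- The Dirac operator on smooth sections. -/
def Sy.DL (S : Sy X μ C) : S.sec →ₗ[ℝ] S.sec where
  toFun u := ⟨S.D u.1, Sy.Sm.D u.2⟩
  map_add' u v := Subtype.ext (S.D_add u.2 v.2)
  map_smul' r u := Subtype.ext (S.D_smul r u.2)

/-- The grading on smooth sections. -/
def Sy.eL (S : Sy X μ C) : S.sec →ₗ[ℝ] S.sec where
  toFun u := ⟨fun x => C.ε (u.1 x), Sy.Sm.eps u.2⟩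
  map_add' u v := Subtype.ext (funext fun x => by simp)
  map_smul' r u := Subtype.ext (funext fun x => by simp)

theorem Sy.exists_ab (S : Sy X μ C) : ∃ A : Ab (Lp W 2 μ) S.sec,
    (∀ u, (A.j u : X → W) =ᵐ[μ] u.1) ∧ (∀ u, (A.D u).1 = S.D u.1) ∧
      ∀ u x, (A.e u).1 x = C.ε (u.1 x) := by
  have := S.fin
  refine ⟨⟨S.jL, S.DL, S.eL, ?_, ?_, ?_, ?_, ?_, ?_, ?_, ?_⟩, S.jL_ae, fun _ => rfl,
    fun _ _ => rfl⟩
  · intro u v h
    refine Subtype.ext ((S.sec_zero u).eq_of_ae (S.sec_zero v) ?_)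
    exact (S.jL_ae u).symm.trans (h ▸ S.jL_ae v)
  · have : Dense ((LinearMap.range S.jL : Submodule ℝ (Lp W 2 μ)) : Set (Lp W 2 μ)) := by
      rw [Submodule.dense_iff_topologicalClosure_eq_top,
        Submodule.topologicalClosure_eq_top_iff, eq_bot_iff]
      intro φ hφ
      refine S.dense φ fun u hu => ?_
      rw [← S.inner_jL φ ⟨u, hu⟩, real_inner_comm]
      exact hφ _ ⟨_, rfl⟩
    exact this
  · intro u v
    rw [S.inner_jL2, S.inner_jL2]
    exact S.symm u.2 v.2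
  · intro u
    refine Subtype.ext (funext fun x => ?_)
    exact congrArg (fun a : W →L[ℝ] W => a (u.1 x)) C.ε_sq
  · intro u v
    rw [S.inner_jL2, S.inner_jL2]
    refine integral_congr_ae (.of_forall fun x => ?_)
    change inner ℝ (C.ε (u.1 x)) (v.1 x) = inner ℝ (u.1 x) (C.ε (v.1 x))
    rw [← ContinuousLinearMap.adjoint_inner_right, ← ContinuousLinearMap.star_eq_adjoint, C.ε_star]
  · intro u
    refine Subtype.ext (funext fun x => ?_)
    change C.ε (S.D u.1 x) = -S.D (fun x => C.ε (u.1 x)) x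
    rw [S.D_eps u.2, neg_neg]
  · intro φ l h
    obtain ⟨u, hu, e⟩ := S.reg (φ := φ) (a := l) fun u hu => by
      have := h ⟨u, hu⟩
      rw [S.inner_jL, S.inner_jL, ← integral_const_mul] at this
      simp only [real_inner_smul_left]
      exact this
    exact ⟨⟨u, hu⟩, Lp.ext ((S.jL_ae ⟨u, hu⟩).trans e.symm)⟩
  · intro δ hδ
    obtain ⟨K, R, h⟩ := S.exists_par 0
    obtain ⟨T, hT, hc⟩ := h.cpt hδ
    refine ⟨T, hT, fun φ f hw => hc φ f fun u hu => ?_⟩
    have := hw ⟨u, hu⟩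
    rwa [S.inner_jL, S.inner_jL] at this

end Pool.Agent.Lib.MP_1c0d65_gt.Nz
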