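import Pool.Agent.Lib.MP_1c0d65_gt.PW.Stokes

/-! Charts that are defined on all of the model space. -/

set_option autoImplicit false

open scoped Manifold ContDiff Topology
open Set Function Metric

noncomputable section

namespace Pool.Agent.Lib.MP_1c0d65_gt.Nz

open Pool.Agent.Lib.MP_1c0d65_gt.PW

/-- A diffeomorphism from `E` onto a polydisc. -/
theorem exists_poly (y : E) {r : ℝ} (hr : 0 < r) : ∃ e : OpenPartialHomeomorph E E,
    e.source = univ ∧ e.target = ball y r ∧ ContDiff ℝ ∞ e ∧ ContDiffOn ℝ ∞ e.symm (ball y r) := by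
  refine ⟨(OpenPartialHomeomorph.univBall y.1 r).prod (OpenPartialHomeomorph.univBall y.2 r),
    by simp, ?_, ?_, ?_⟩
  · rw [OpenPartialHomeomorph.prod_target, OpenPartialHomeomorph.univBall_target _ hr,
      OpenPartialHomeomorph.univBall_target _ hr, ball_prod_same]
  · exact (OpenPartialHomeomorph.contDiff_univBall.comp contDiff_fst).prodMk
      (OpenPartialHomeomorph.contDiff_univBall.comp contDiff_snd)
  · rw [← ball_prod_same]
    exact (OpenPartialHomeomorph.contDiffOn_univBall_symm.comp contDiffOn_fst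
      fun _ h => h.1).prodMk
      (OpenPartialHomeomorph.contDiffOn_univBall_symm.comp contDiffOn_snd fun _ h => h.2)

variable {X : Type} [TopologicalSpace X] [ChartedSpace E X] [IsManifold 𝓘(ℝ, E) ∞ X]

theorem exists_chart_univ (x : X) : ∃ e : OpenPartialHomeomorph X E, IsChart e ∧
    e.target = univ ∧ x ∈ e.source := by
  obtain ⟨r, hr, h⟩ := Metric.isOpen_iff.1 (chartAt E x).open_target _ (mem_chart_target E x)
  obtain ⟨e, h1, h2, h3, h4⟩ := exists_poly (chartAt E x x) hr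
  have m : ∀ z, e z ∈ ball (chartAt E x x) r := fun z => h2 ▸ e.map_source (h1 ▸ trivial)
  refine ⟨(chartAt E x).trans e.symm, ⟨?_, fun z _ => ?_⟩, ?_, mem_chart_source E x, ?_⟩
  · exact h4.contMDiffOn.comp (contMDiffOn_chart.mono inter_subset_left) fun y hy => h2 ▸ hy.2
  · exact ((contMDiffOn_chart_symm.contMDiffAt
      ((chartAt E x).open_target.mem_nhds (h (m z)))).comp z
      h3.contMDiff.contMDiffAt).contMDiffWithinAt
  · rw [OpenPartialHomeomorph.trans_target]
    exact eq_univ_of_forall fun z => ⟨show z ∈ e.source from h1 ▸ trivial, h (m z)⟩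
  · change chartAt E x x ∈ e.target
    exact h2 ▸ mem_ball_self hr

/-- Finitely many charts onto `E` and a partition of unity. -/
structure Chs (X : Type) [TopologicalSpace X] [ChartedSpace E X] where
  n : ℕ
  e : Fin n → OpenPartialHomeomorph X E
  ch : ∀ a, IsChart (e a)
  tg : ∀ a, (e a).target = univ
  r : Fin n → X → ℝ
  hr : ∀ a, ContMDiff 𝓘(ℝ, E) 𝓘(ℝ, ℝ) ∞ (r a)
  sub : ∀ a, tsupport (r a) ⊆ (e a).source
  r0 : ∀ a x, 0 ≤ r a x
  sum : ∀ x, ∑ a, r a x = 1
  dsum : ∀ x, ∑ a, dfn (r a) x = 0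

theorem exists_chs [T2Space X] [CompactSpace X] : Nonempty (Chs X) := by
  choose e h1 h2 h3 using exists_chart_univ (X := X)
  obtain ⟨s, ρ, k1, k2, k3, k4, k5⟩ := St.exists_partition (fun x => (e x).source)
    (fun x => (e x).open_source) fun x => ⟨x, h3 x⟩
  let φ := s.equivFin.symm
  exact ⟨⟨s.card, fun a => e (φ a), fun a => h1 _, fun a => h2 _, fun a => ρ (φ a),
    fun a => k1 _, fun a => k2 _, fun a => k3 _, fun x => (φ.sum_comp fun i => ρ i x).trans (k4 x),
    fun x => (φ.sum_comp fun i => dfn (ρ i) x).trans (k5 x)⟩⟩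

namespace Chs

omit [IsManifold 𝓘(ℝ, E) ∞ X]

variable (T : Chs X)

/-- The parametrisations. -/
def ψ (a : Fin T.n) : E → X := (T.e a).symm

theorem mem (a : Fin T.n) (z : E) : z ∈ (T.e a).target := T.tg a ▸ trivial

theorem emb (a : Fin T.n) : Topology.IsOpenEmbedding (T.ψ a) :=
  (T.e a).symm.isOpenEmbedding (T.tg a)

theorem ψ_mem (a : Fin T.n) (z : E) : T.ψ a z ∈ (T.e a).source := (T.e a).map_target (T.mem a z)

theorem e_ψ (a : Fin T.n) (z : E) : T.e a (T.ψ a z) = z := (T.e a).right_inv (T.mem a z)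

theorem ψ_e (a : Fin T.n) {x : X} (h : x ∈ (T.e a).source) : T.ψ a (T.e a x) = x :=
  (T.e a).left_inv h

theorem range_ψ (a : Fin T.n) : range (T.ψ a) = (T.e a).source :=
  (range_subset_iff.2 (T.ψ_mem a)).antisymm fun _ h => ⟨_, T.ψ_e a h⟩

theorem smAt (a : Fin T.n) (z : E) : SmAt ∞ (T.ψ a) z := (T.ch a).smAt (T.mem a z)

theorem inv (a : Fin T.n) (z : E) : (dif (T.ψ a) z).IsInvertible := (T.ch a).inv (T.mem a z)

theorem invFun_eq (a : Fin T.n) {x : X} (h : x ∈ range (T.ψ a)) : invFun (T.ψ a) x = T.e a x := by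
  obtain ⟨z, rfl⟩ := h
  rw [leftInverse_invFun (T.emb a).injective, T.e_ψ]

theorem cover (x : X) : ∃ a, x ∈ range (T.ψ a) := by
  obtain ⟨a, -, h⟩ := Finset.exists_ne_zero_of_sum_ne_zero (T.sum x ▸ one_ne_zero)
  exact ⟨a, T.range_ψ a ▸ T.sub a (subset_tsupport _ h)⟩

theorem tr_at (a b : Fin T.n) {z : E} (h : T.ψ a z ∈ range (T.ψ b)) :
    ContDiffAt ℝ ∞ (T.e b ∘ T.ψ a) z := (T.ch b).loc le_rfl (T.smAt a z) (T.range_ψ b ▸ h)

theorem tr (a b : Fin T.n) :
    ContDiffOn ℝ ∞ (fun z => invFun (T.ψ b) (T.ψ a z)) (T.ψ a ⁻¹' range (T.ψ b)) :=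
  ContDiffOn.congr (fun _ h => (T.tr_at a b h).contDiffWithinAt) fun _ h => T.invFun_eq b h

/-- The partition of unity in the charts. -/
def ρ (a : Fin T.n) (z : E) : ℝ := T.r a (T.ψ a z)

theorem hρ (a : Fin T.n) : ContDiff ℝ ∞ (T.ρ a) :=
  contDiff_iff_contDiffAt.2 fun z => FnAt.comp_plot (T.hr a _) (T.smAt a z)

theorem cρ [CompactSpace X] (a : Fin T.n) : HasCompactSupport (T.ρ a) :=
  HasCompactSupport.intro ((isClosed_tsupport (T.r a)).isCompact.image_of_continuousOn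
    ((T.e a).continuousOn.mono (T.sub a))) fun z hz =>
    image_eq_zero_of_notMem_tsupport (f := T.r a) fun h => hz ⟨_, h, T.e_ψ a z⟩

theorem extend_ρ (a : Fin T.n) (x : X) : extend (T.ψ a) (T.ρ a) 0 x = T.r a x := by
  by_cases h : ∃ z, T.ψ a z = x
  · obtain ⟨z, rfl⟩ := h
    exact (T.emb a).injective.extend_apply _ _ _
  · rw [extend_apply' _ _ _ h, Pi.zero_apply, image_eq_zero_of_notMem_tsupport (f := T.r a)
      fun k => h (by have := T.sub a k; rwa [← T.range_ψ] at this)]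

theorem sum_ρ (x : X) : ∑ a, extend (T.ψ a) (T.ρ a) 0 x = 1 := by
  simp only [T.extend_ρ, T.sum]

end Chs

end Pool.Agent.Lib.MP_1c0d65_gt.Nz
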