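import Pool.Agent.Lib.MP_1c0d65_gt.Nz.Sys

/-! The class of local heat kernels, global kernels, and the abstract spectral data. -/

set_option autoImplicit false

open scoped ContDiff Topology
open Set MeasureTheory Function Filter

noncomputable section

namespace Pool.Agent.Lib.MP_1c0d65_gt.Nz

open Pool.Agent.Lib.MP_1c0d65_gt.PW

/-- Time, the point `x`, the pole `y`. -/
abbrev Z : Type := ℝ × E × E

/-- The constant of the heat kernel in dimension four. -/
def c0 : ℝ := (16 * Real.pi ^ 2)⁻¹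

section
variable {V : Type} [NormedAddCommGroup V] [NormedSpace ℝ V]

/-- The time derivative. -/
def ds (F : Z → V) (z : Z) : V := fderiv ℝ F z (1, 0)

/-- The derivative along a vector field on `E × E`. -/
def dv (v : E × E → E × E) (F : Z → V) (z : Z) : V := fderiv ℝ F z (0, v z.2)

/-- Compact support in the space variables. -/
def Supp (F : Z → V) : Prop :=
  ∃ K : Set E, IsCompact K ∧ ∀ z : Z, 0 < z.1 → F z ≠ 0 → z.2.1 ∈ K ∧ z.2.2 ∈ K

namespace Fr

variable (f : Fr)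

/-- The coordinates of `x - y` in the frame at `y`. -/
def eta (i : Fin 4) (q : E × E) : ℝ := co i (f.θ q.2 (q.1 - q.2))

/-- The `r`-th power of the ideal of the diagonal. -/
def I : ℕ → (E × E → V) → Prop
  | 0, c => ContDiff ℝ ∞ c
  | r + 1, c => ∃ d : Fin 4 → E × E → V, (∀ i, I r (d i)) ∧ c = fun q => ∑ i, f.eta i q • d i q

/-- The derivative along a frame vector in the first variable. -/
def dx (i : Fin 4) (c : E × E → V) (q : E × E) : V := fderiv ℝ c q (f.e i q.1, 0)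

/-- The Gaussian. -/
def ex (z : Z) : ℝ := Real.exp (-(∑ i, f.eta i z.2 ^ 2) / (4 * z.1))

/-- The generators. -/
def gen (p : ℤ) (c : E × E → V) (z : Z) : V := (z.1 ^ p * f.ex z) • c z.2

/-- Kernels of order `s ^ (n / 2)`. -/
inductive T (n : ℤ) : (Z → V) → Prop
  | gen (p : ℤ) (r : ℕ) (c : E × E → V) : f.I r c → n ≤ 2 * p + r → T n (f.gen p c)
  | add {F G : Z → V} : T n F → T n G → T n (F + G)
  | congr {F G : Z → V} : T n F → (∀ z : Z, 0 < z.1 → G z = F z) → T n G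

/-- The derivative along a frame vector in `x`. -/
def eX (i : Fin 4) (F : Z → V) : Z → V := dv (fun q => (f.e i q.1, 0)) F

/-- A heat operator with lower order coefficients `β`, `γ`. -/
def heat {A : Type} [NormedRing A] [NormedAlgebra ℝ A] (β : Fin 4 → E × E → A) (γ : E × E → A)
    (F : Z → A) (z : Z) : A :=
  ds F z - ∑ i, f.eX i (f.eX i F) z + ∑ i, β i z.2 * f.eX i F z + γ z.2 * F z

end Fr
end

variable {W : Type} [NormedAddCommGroup W] [InnerProductSpace ℝ W] [FiniteDimensional ℝ W]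
  [CompleteSpace W] {C : Cl W}

/-- The first order coefficient in the Weitzenboeck formula. -/
def Loc.b (L : Loc C) (k : Fin 4) (z : E) : ℝ := ∑ i, L.Γ i k i z

/-- A gauge `G` in which the connection is radial to first order. -/
structure Loc.Gauge (L : Loc C) (G : E × E → W →L[ℝ] W) (B : Fin 4 → E × E → W →L[ℝ] W) :
    Prop where
  hG : ContDiff ℝ ∞ G
  g1 : ∀ q, star (G q) * G q = 1
  g2 : ∀ q, G q * star (G q) = 1
  diag : ∀ y, G (y, y) = 1
  even : ∀ q, C.ε * G q = G q * C.ε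
  hB : ∀ i, ContDiff ℝ ∞ (B i)
  conj : ∀ i q, L.dx i G q + L.A i q.1 * G q = G q * B i q
  skew : ∀ i q, star (B i q) = -B i q
  rad : ∀ i, L.I 2 fun q => B i q - (1 / 2 : ℝ) • ∑ k, L.eta k q • L.Om k i q.2

/-- The heat equation for the square of the Dirac operator, with error `R`. -/
def Loc.Heat (L : Loc C) (K R : Z → W →L[ℝ] W) : Prop :=
  ∀ s, 0 < s → ∀ x y w, HasDerivAt (fun t => K (t, x, y) w)
    (R (s, x, y) w - L.D (L.D fun x' => K (s, x', y) w) x) s

/-- A local parametrix. -/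
structure Loc.Par (L : Loc C) (N : ℤ) (K R : Z → W →L[ℝ] W) : Prop where
  hK : L.T (-4) K
  hR : L.T N R
  heat : L.Heat K R
  lead : L.T (-3) (K - L.gen (-2) fun _ => c0 • (1 : W →L[ℝ] W))
  diag : ∃ K' : Z → W →L[ℝ] W, L.T 1 K' ∧ ∀ s, 0 < s → ∀ y,
    C.str (K (s, y, y)) = c0 * L.dens y + C.str (K' (s, y, y))

/-- A local parametrix with cut-off. -/
structure Loc.Cut (L : Loc C) (ρ : E → ℝ) (N : ℤ) (K R : Z → W →L[ℝ] W) : Prop where
  hK : L.T (-4) K
  sK : Supp K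
  hR : L.T N R
  sR : Supp R
  heat : L.Heat K R
  lead : ∃ χ : E → ℝ, ContDiff ℝ ∞ χ ∧ HasCompactSupport χ ∧ (∀ y, ρ y ≠ 0 → χ y = 1) ∧
    L.T (-3) (K - L.gen (-2) fun q => (c0 * ρ q.2 * χ q.1) • (1 : W →L[ℝ] W))
  diag : ∃ K' : Z → W →L[ℝ] W, L.T 1 K' ∧ ∀ s, 0 < s → ∀ y,
    C.str (K (s, y, y)) = ρ y * (c0 * L.dens y + C.str (K' (s, y, y)))

/-- A Dirac system in a measurable global frame. -/
structure Sy (X : Type) [TopologicalSpace X] [MeasurableSpace X] (μ : Measure X) (C : Cl W)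
    extends Atl X μ C where
  g : Fin n → X → W →L[ℝ] W
  g_meas : ∀ a, StronglyMeasurable (g a)
  g1 : ∀ a x, star (g a x) * g a x = 1
  g2 : ∀ a x, g a x * star (g a x) = 1
  g_even : ∀ a x, C.ε * g a x = g a x * C.ε
  g_sm : ∀ a b, ContDiffOn ℝ ∞ (fun z => g b (ψ a z) * star (g a (ψ a z)))
    (ψ a ⁻¹' range (ψ b))
  D : (X → W) → X → W
  hD : ∀ u : X → W, (∀ a, ContDiff ℝ ∞ fun z => g a (ψ a z) (u (ψ a z))) → ∀ a z,
    g a (ψ a z) (D u (ψ a z)) = (L a).D (fun z => g a (ψ a z) (u (ψ a z))) z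

variable {X : Type} [TopologicalSpace X] [MeasurableSpace X] {μ : Measure X}

/-- The adjoint of the integral operator with kernel `k`. -/
def op (μ : Measure X) (k : X → X → W →L[ℝ] W) (φ : X → W) (y : X) : W :=
  ∫ x, star (k x y) (φ x) ∂μ

/-- `T` is that operator on `L²`. -/
def IsOp (k : X → X → W →L[ℝ] W) (T : Lp W 2 μ →L[ℝ] Lp W 2 μ) : Prop :=
  ∀ φ : Lp W 2 μ, (T φ : X → W) =ᵐ[μ] op μ k φ

open Classical in
/-- That operator, when it exists. -/
def Op (μ : Measure X) (k : X → X → W →L[ℝ] W) : Lp W 2 μ →L[ℝ] Lp W 2 μ :=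
  if h : ∃ T, IsOp (μ := μ) k T then h.choose else 0

/-- Bounded measurable kernels. -/
def Bm (k : X → X → W →L[ℝ] W) : Prop :=
  StronglyMeasurable (uncurry k) ∧ ∃ c : ℝ, ∀ x y, ‖k x y‖ ≤ c

/-- The graded Hilbert-Schmidt norm of the column `y`. -/
def Cl.col (C : Cl W) (μ : Measure X) (k : X → X → W →L[ℝ] W) (y : X) : ℝ :=
  ∫ x, ∑ j, inner ℝ (C.ε (k x y (stdOrthonormalBasis ℝ W j))) (k x y (stdOrthonormalBasis ℝ W j)) ∂μ

namespace Sy

variable (S : Sy X μ C)

/-- The local representative of a section. -/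
def loc (a : Fin S.n) (u : X → W) (z : E) : W := S.g a (S.ψ a z) (u (S.ψ a z))

/-- Sections of class `C ^ l`. -/
def Sm (l : WithTop ℕ∞) (u : X → W) : Prop := ∀ a, ContDiff ℝ l (S.loc a u)

/-- The section with local representative `f`, extended by zero. -/
def up (a : Fin S.n) (f : E → W) (x : X) : W := star (S.g a x) (extend (S.ψ a) f 0 x)

/-- The global kernel of a local kernel. -/
def lift (a : Fin S.n) (F : Z → W →L[ℝ] W) (s : ℝ) (x y : X) : W →L[ℝ] W :=
  star (S.g a x) * extend (Prod.map (S.ψ a) (S.ψ a)) (fun q => F (s, q)) 0 (x, y) * S.g a y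

/-- Global kernels of order `s ^ (n / 2)`. -/
def Ker (n : ℤ) (K : ℝ → X → X → W →L[ℝ] W) : Prop :=
  ∃ F : Fin S.n → Z → W →L[ℝ] W, (∀ a, (S.L a).T n (F a) ∧ Supp (F a)) ∧
    ∀ s, 0 < s → ∀ x y, K s x y = ∑ a, S.lift a (F a) s x y

/-- The sum of the local kernels. -/
def glue (F : Fin S.n → Z → W →L[ℝ] W) (s : ℝ) (x y : X) : W →L[ℝ] W :=
  S.κ⁻¹ • ∑ a, S.lift a (F a) s x y

/-- A global parametrix. -/
structure Par (N : ℤ) (K R : ℝ → X → X → W →L[ℝ] W) : Prop where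
  hK : S.Ker (-4) K
  hR : S.Ker N R
  heat : ∀ s, 0 < s → ∀ x y w, HasDerivAt (fun t => K t x y w)
    (R s x y w - S.D (S.D fun x' => K s x' y w) x) s
  delta : ∀ u, S.Sm ∞ u → ∀ y, Tendsto (fun s => op μ (K s) u y) (𝓝[>] 0) (𝓝 (u y))
  diag : Tendsto (fun s => ∫ y, C.str (K s y y) ∂μ) (𝓝[>] 0) (𝓝 S.ind)

/-- `φ` is a weak solution of `D D φ = f`. -/
def Weak (φ f : X → W) : Prop :=
  ∀ u, S.Sm ∞ u → ∫ x, inner ℝ (φ x) (S.D (S.D u) x) ∂μ = ∫ x, inner ℝ (f x) (u x) ∂μ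

/-- Smooth sections. -/
def sec : Submodule ℝ (X → W) where
  carrier := {u | S.Sm ∞ u}
  zero_mem' := fun a => by
    have : S.loc a 0 = fun _ => 0 := by funext z; simp [loc]
    rw [this]; exact contDiff_const
  add_mem' := fun {u v} hu hv a => by
    have : S.loc a (u + v) = fun z => S.loc a u z + S.loc a v z := by funext z; simp [loc]
    rw [this]; exact (hu a).add (hv a)
  smul_mem' := fun r {u} hu a => by
    have : S.loc a (r • u) = fun z => r • S.loc a u z := by funext z; simp [loc]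
    rw [this]; exact (hu a).const_smul r

end Sy

/-- An odd symmetric operator on a dense space `S` of a Hilbert space, with regularity of weak
eigenvectors and a compactness estimate. -/
structure Ab (H S : Type) [NormedAddCommGroup H] [InnerProductSpace ℝ H] [AddCommGroup S]
    [Module ℝ S] where
  j : S →ₗ[ℝ] H
  D : S →ₗ[ℝ] S
  e : S →ₗ[ℝ] S
  inj : Injective j
  dense : DenseRange j
  symm : ∀ u v, inner ℝ (j (D u)) (j v) = inner ℝ (j u) (j (D v))
  e_sq : ∀ u, e (e u) = u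
  e_symm : ∀ u v, inner ℝ (j (e u)) (j v) = inner ℝ (j u) (j (e v))
  anti : ∀ u, e (D u) = -D (e u)
  reg : ∀ (φ : H) (l : ℝ), (∀ u, inner ℝ φ (j (D (D u))) = l * inner ℝ φ (j u)) → ∃ u, j u = φ
  cpt : ∀ δ : ℝ, 0 < δ → ∃ T : H →L[ℝ] H, IsCompactOperator T ∧ ∀ φ f : H,
    (∀ u, inner ℝ φ (j (D (D u))) = inner ℝ f (j u)) → ‖φ - T φ‖ ≤ δ * (‖φ‖ + ‖f‖)

/-- The kernel of parity `σ`. -/
def Ab.ker {H S : Type} [NormedAddCommGroup H] [InnerProductSpace ℝ H] [AddCommGroup S]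
    [Module ℝ S] (A : Ab H S) (σ : ℝ) : Submodule ℝ S :=
  LinearMap.ker A.D ⊓ Module.End.eigenspace A.e σ

end Pool.Agent.Lib.MP_1c0d65_gt.Nz
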