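import Pool.Agent.Lib.MP_1c0d65_gt.Nz.Sys

/-! The divergence of a frame and the symmetry of the local Dirac operator. -/

set_option autoImplicit false

open scoped ContDiff Topology
open Set MeasureTheory Function

noncomputable section

namespace Pool.Agent.Lib.MP_1c0d65_gt.Nz

open Pool.Agent.Lib.MP_1c0d65_gt.PW

theorem sym_sum (v : E) : ∑ l, co l v • bs l = v := by
  ext <;> simp [co, bs, Fin.sum_univ_four]

theorem sym_co (i j : Fin 4) : co i (bs j) = if i = j then 1 else 0 := by
  fin_cases i <;> fin_cases j <;> simp [co, bs]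

/-- The basis `bs`. -/
def symB : Module.Basis (Fin 4) ℝ E := Module.Basis.ofEquivFun
  { toFun := fun v i => co i v
    invFun := fun t => ∑ l, t l • bs l
    map_add' := fun v w => funext fun i => map_add _ v w
    map_smul' := fun c v => funext fun i => map_smul _ c v
    left_inv := sym_sum
    right_inv := fun t => funext fun i => by simp [sym_co] }

theorem symB_apply (i : Fin 4) : symB i = bs i := by
  simp [symB, Pi.single_apply]

theorem symB_repr (v : E) (i : Fin 4) : symB.repr v i = co i v := rfl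

/-- The determinant of four vectors. -/
def symW : ContinuousMultilinearMap ℝ (fun _ : Fin 4 => E) ℝ :=
  ⟨symB.det.toMultilinearMap, by
    change Continuous fun v : Fin 4 → E => (symB.toMatrix v).det
    exact Continuous.matrix_det (continuous_matrix fun i j =>
      (co i).continuous.comp (continuous_apply j))⟩

namespace Fr

variable (f : Fr)

theorem e_sm (i : Fin 4) : ContDiff ℝ ∞ (f.e i) := f.hM.clm_apply contDiff_const

theorem sum_e (z v : E) : ∑ j, co j (f.θ z v) • f.e j z = v := by
  conv_rhs => rw [← f.Mθ z v, ← sym_sum (f.θ z v)]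
  simp [e]

theorem det_M (z : E) : (f.M z).det = symW fun j => f.e j z := by
  have h := symB.det_comp (f.M z : E →ₗ[ℝ] E) symB
  rw [symB.det_self, mul_one] at h
  refine h.symm.trans (congrArg symB.det (funext fun j => ?_))
  simp [e, symB_apply]

theorem det_mul (z : E) : (f.θ z).det * (f.M z).det = 1 := by
  have h : (f.θ z : E →ₗ[ℝ] E) ∘ₗ (f.M z : E →ₗ[ℝ] E) = LinearMap.id :=
    LinearMap.ext fun v => f.θM z v
  have h2 := congrArg LinearMap.det h
  rwa [LinearMap.det_comp, LinearMap.det_id] at h2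

theorem w_ne (z : E) : symW (fun j => f.e j z) ≠ 0 := by
  rw [← f.det_M]; exact right_ne_zero_of_mul_eq_one (f.det_mul z)

theorem m_eq : f.m = fun z => |symW fun j => f.e j z|⁻¹ := funext fun z => by
  rw [m, eq_inv_of_mul_eq_one_left (f.det_mul z), abs_inv, f.det_M]

theorem m_pos (z : E) : 0 < f.m z := by
  rw [m_eq]; exact inv_pos.2 (abs_pos.2 (f.w_ne z))

theorem m_sm : ContDiff ℝ ∞ f.m := by
  rw [m_eq]
  exact ((symW.contDiff.comp (contDiff_pi.2 f.e_sm)).abs f.w_ne).inv
    fun z => abs_ne_zero.2 (f.w_ne z)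

theorem w_update (z : E) (j : Fin 4) (v : E) :
    symW (update (fun j => f.e j z) j v) = co j (f.θ z v) * symW fun j => f.e j z := by
  conv_lhs => rw [← f.sum_e z v]
  change symB.det _ = _ * symB.det _
  rw [AlternatingMap.map_update_sum, Finset.sum_eq_single j]
  · rw [AlternatingMap.map_update_smul, update_eq_self, smul_eq_mul]
  · intro k _ hk
    rw [AlternatingMap.map_update_smul, AlternatingMap.map_update_self _ _ hk.symm, smul_zero]
  · simp

/-- Jacobi's formula. -/
theorem fderiv_m (z v : E) :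
    fderiv ℝ f.m z v = -(f.m z * ∑ j, co j (f.θ z (fderiv ℝ (f.e j) z v))) := by
  have h1 := HasFDerivAt.multilinear_comp symW
    fun j => ((f.e_sm j).differentiable (by simp) z).hasFDerivAt
  have h2 := (hasDerivAt_inv (abs_ne_zero.2 (f.w_ne z))).comp_hasFDerivAt z (h1.abs (f.w_ne z))
  have h3 := h2.fderiv
  rw [m_eq]
  refine (congrArg (· v) h3).trans ?_
  simp only [smul_apply, sum_apply,
    ContinuousLinearMap.comp_apply, ContinuousMultilinearMap.toContinuousLinearMap_apply,
    f.w_update, ← Finset.sum_mul, smul_eq_mul]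
  have h4 := f.w_ne z
  generalize (symW fun j => f.e j z) = w at h4 ⊢
  rcases lt_or_gt_of_ne h4 with h | h
  · rw [abs_of_neg h, sign_neg h]; simp; field_simp
  · rw [abs_of_pos h, sign_pos h]; simp; field_simp

theorem tr_eq (z : E) (T : E →L[ℝ] E) :
    ∑ l, co l (T (bs l)) = ∑ j, co j (f.θ z (T (f.e j z))) := by
  have h1 : ∀ l, co l (T (bs l)) = ∑ j, co l (T (f.e j z)) * co j (f.θ z (bs l)) := fun l => by
    conv_lhs => rw [← f.sum_e z (bs l)]
    simp [mul_comm]
  have h2 : ∀ j, co j (f.θ z (T (f.e j z))) = ∑ l, co l (T (f.e j z)) * co j (f.θ z (bs l)) :=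
    fun j => by
      conv_lhs => rw [← sym_sum (T (f.e j z))]
      simp
  simp only [h1, h2]
  exact Finset.sum_comm

end Fr

theorem sym_haar : (volume : Measure E).IsAddHaarMeasure :=
  Measure.prod.instIsAddHaarMeasure _ _

theorem sym_int {g : E → ℝ} (hg : ContDiff ℝ 1 g) (hc : HasCompactSupport g) (v : E) :
    ∫ z, fderiv ℝ g z v = 0 := by
  have := sym_haar
  have hi : Integrable fun z => fderiv ℝ g z v :=
    ((hg.continuous_fderiv (by simp)).clm_apply continuous_const).integrable_of_hasCompactSupport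
      (hc.fderiv_apply ℝ v)
  have h := integral_mul_fderiv_eq_neg_fderiv_mul_of_integrable (μ := volume) (f := fun _ => (1 : ℝ))
    (g := g) (v := v) (by simp) (by simpa using hi)
    (by simpa using hg.continuous.integrable_of_hasCompactSupport hc)
    (fun _ _ => differentiableAt_const _) (fun z _ => hg.differentiable (by simp) z)
  simpa using h

/-- The divergence theorem for a frame vector. -/
theorem Fr.int_d (f : Fr) (k : Fin 4) {g : E → ℝ} (hg : ContDiff ℝ 1 g)
    (hc : HasCompactSupport g) :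
    ∫ z, f.m z * (f.d k g z - (∑ j, f.γ k j j z) * g z) = 0 := by
  have hm : ContDiff ℝ 1 f.m := f.m_sm.of_le (by simp)
  have he : ContDiff ℝ 1 (f.e k) := (f.e_sm k).of_le (by simp)
  have hs : ∀ l, ContDiff ℝ 1 fun z => f.m z * g z * co l (f.e k z) := fun l =>
    (hm.mul hg).mul ((co l).contDiff.comp he)
  have hk : ∀ l, HasCompactSupport fun z => f.m z * g z * co l (f.e k z) := fun l =>
    (hc.mul_left (f := f.m)).mul_right
  have e : ∀ z, f.m z * (f.d k g z - (∑ j, f.γ k j j z) * g z) =
      ∑ l, fderiv ℝ (fun z => f.m z * g z * co l (f.e k z)) z (bs l) := fun z => by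
    have h1 := (hm.differentiable (by simp) z).hasFDerivAt
    have h2 := (hg.differentiable (by simp) z).hasFDerivAt
    have h3 := (he.differentiable (by simp) z).hasFDerivAt
    have h4 : ∀ l, fderiv ℝ (fun z => f.m z * g z * co l (f.e k z)) z (bs l) =
        f.m z * g z * co l (fderiv ℝ (f.e k) z (bs l)) +
          (f.m z * fderiv ℝ g z (co l (f.e k z) • bs l) +
            g z * fderiv ℝ f.m z (co l (f.e k z) • bs l)) := fun l => by
      have h := ((h1.mul h2).mul ((co l).hasFDerivAt.comp z h3)).fderiv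
      rw [show (fun z => f.m z * g z * co l (f.e k z)) = f.m * g * (co l ∘ f.e k) from rfl, h]
      simp; ring
    simp only [h4, Finset.sum_add_distrib, ← Finset.mul_sum, ← map_sum, sym_sum]
    rw [f.tr_eq z, f.fderiv_m]
    simp only [Fr.γ, Fr.d, map_sub, Finset.sum_sub_distrib]
    ring
  simp only [e]
  rw [integral_finsetSum]
  · exact Finset.sum_eq_zero fun l _ => sym_int (hs l) (hk l) _
  · exact fun l _ => (((hs l).continuous_fderiv (by simp)).clm_apply
      continuous_const).integrable_of_hasCompactSupport ((hk l).fderiv_apply ℝ _)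

variable {W : Type} [NormedAddCommGroup W] [InnerProductSpace ℝ W] [FiniteDimensional ℝ W]
  [CompleteSpace W] {C : Cl W}

omit [FiniteDimensional ℝ W] in
theorem sym_skew {a : W →L[ℝ] W} (h : star a = -a) (x y : W) :
    inner ℝ (a x) y = -inner ℝ x (a y) := by
  rw [← ContinuousLinearMap.adjoint_inner_right, ← ContinuousLinearMap.star_eq_adjoint, h,
    neg_apply, inner_neg_right]

theorem Loc.sum_γ (L : Loc C) (k : Fin 4) (z : E) : ∑ j, L.γ k j j z = ∑ j, L.Γ j k j z :=
  Finset.sum_congr rfl fun j _ => by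
    have h1 := L.Γ_skew k j j z
    have h2 := L.Γ_skew j j k z
    rw [L.tors]; linarith

theorem Loc.nab_sm (L : Loc C) (i : Fin 4) {u : E → W} (hu : ContDiff ℝ ∞ u) :
    ContDiff ℝ ∞ (L.nab i u) :=
  ((hu.fderiv_right (m := ∞) (by simp)).clm_apply (L.e_sm i)).add ((L.hA i).clm_apply hu)

theorem Loc.D_sm (L : Loc C) {u : E → W} (hu : ContDiff ℝ ∞ u) : ContDiff ℝ ∞ (L.D u) :=
  ContDiff.sum fun i _ => (C.c i).contDiff.comp (L.nab_sm i hu)

theorem Loc.nab_supp (L : Loc C) (i : Fin 4) {v : E → W} (hc : HasCompactSupport v) :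
    HasCompactSupport (L.nab i v) := by
  refine HasCompactSupport.intro hc.isCompact fun z hz => ?_
  have h1 : fderiv ℝ v z = 0 := by
    by_contra h
    exact hz (tsupport_fderiv_subset ℝ (subset_tsupport _ h))
  simp [Loc.nab, Fr.d, h1, image_eq_zero_of_notMem_tsupport hz]

theorem Loc.D_supp (L : Loc C) {v : E → W} (hc : HasCompactSupport v) :
    HasCompactSupport (L.D v) := by
  refine HasCompactSupport.intro hc.isCompact fun z hz => ?_
  have h1 : fderiv ℝ v z = 0 := by
    by_contra h
    exact hz (tsupport_fderiv_subset ℝ (subset_tsupport _ h))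
  simp [Loc.D, Loc.nab, Fr.d, h1, image_eq_zero_of_notMem_tsupport hz]

omit [FiniteDimensional ℝ W] [CompleteSpace W] in
theorem sym_d_inner (f : Fr) (k : Fin 4) {u v : E → W} {z : E} (hu : DifferentiableAt ℝ u z)
    (hv : DifferentiableAt ℝ v z) : f.d k (fun z => inner ℝ (u z) (v z)) z =
      inner ℝ (f.d k u z) (v z) + inner ℝ (u z) (f.d k v z) := by
  rw [Fr.d, fderiv_inner_apply ℝ hu hv, add_comm]; rfl

/-- The pointwise Green formula. -/
theorem Loc.green (L : Loc C) {u v : E → W} {z : E} (hu : DifferentiableAt ℝ u z)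
    (hv : DifferentiableAt ℝ v z) : inner ℝ (u z) (L.D v z) - inner ℝ (L.D u z) (v z) =
      ∑ k, (L.d k (fun z => inner ℝ (u z) (C.c k (v z))) z -
        (∑ j, L.γ k j j z) * inner ℝ (u z) (C.c k (v z))) := by
  have h1 : ∀ k, L.d k (fun z => inner ℝ (u z) (C.c k (v z))) z =
      inner ℝ (L.d k u z) (C.c k (v z)) + inner ℝ (u z) (C.c k (L.d k v z)) := fun k => by
    rw [sym_d_inner _ k hu (v := fun z => C.c k (v z)) ((C.c k).differentiableAt.comp z hv)]
    congr 2
    exact congrArg (· (L.e k z)) ((C.c k).hasFDerivAt.comp z hv.hasFDerivAt).fderiv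
  have h2 : ∀ i, inner ℝ (u z) (L.A i z (C.c i (v z))) - inner ℝ (u z) (C.c i (L.A i z (v z))) =
      ∑ k, L.Γ i k i z * inner ℝ (u z) (C.c k (v z)) := fun i => by
    have h := congrArg (fun a : W →L[ℝ] W => inner ℝ (u z) (a (v z))) (L.comm i i z)
    simpa [inner_sub_right, inner_sum, inner_smul_right] using h
  have h3 : ∑ k, (∑ j, L.γ k j j z) * inner ℝ (u z) (C.c k (v z)) =
      ∑ i, ∑ k, L.Γ i k i z * inner ℝ (u z) (C.c k (v z)) := by
    simp only [L.sum_γ, Finset.sum_mul]
    exact Finset.sum_comm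
  rw [Finset.sum_sub_distrib, h3, Loc.D, Loc.D, inner_sum, sum_inner, ← Finset.sum_sub_distrib,
    ← Finset.sum_sub_distrib]
  refine Finset.sum_congr rfl fun i _ => ?_
  rw [← h2, h1, sym_skew (C.c_star i), Loc.nab, Loc.nab, map_add, inner_add_right, inner_add_left,
    sym_skew (L.skew i z)]
  ring

/-- Local symmetry (file Nz/Sym.lean), for 55's frame independence by adjointness. -/
theorem Loc.symm (L : Loc C) {u v : E → W} (hu : ContDiff ℝ ∞ u) (hv : ContDiff ℝ ∞ v)
    (hc : HasCompactSupport v) :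
    ∫ z, L.m z * inner ℝ (L.D u z) (v z) = ∫ z, L.m z * inner ℝ (u z) (L.D v z) := by
  have hs : ∀ {a b : E → W}, HasCompactSupport b →
      HasCompactSupport fun z => (inner ℝ (a z) (b z) : ℝ) := fun {a b} hb =>
    HasCompactSupport.intro hb.isCompact fun z hz => by
      simp [image_eq_zero_of_notMem_tsupport hz]
  have hi : ∀ {a b : E → W}, Continuous a → Continuous b → HasCompactSupport b →
      Integrable fun z => L.m z * inner ℝ (a z) (b z) := fun ha hb hc =>
    (L.m_sm.continuous.mul (ha.inner hb)).integrable_of_hasCompactSupport (hs hc).mul_left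
  have hg : ∀ k, ContDiff ℝ ∞ fun z => (inner ℝ (u z) (C.c k (v z)) : ℝ) := fun k =>
    hu.inner ℝ ((C.c k).contDiff.comp hv)
  have hk : ∀ k, HasCompactSupport fun z => (inner ℝ (u z) (C.c k (v z)) : ℝ) := fun k =>
    hs (b := fun z => C.c k (v z)) (hc.comp_left (g := C.c k) (map_zero _))
  symm
  rw [← sub_eq_zero, ← integral_sub (hi hu.continuous (L.D_sm hv).continuous (L.D_supp hc))
    (hi (L.D_sm hu).continuous hv.continuous hc)]
  simp only [← mul_sub, fun z => L.green (hu.differentiable (by simp) z)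
    (hv.differentiable (by simp) z)]
  rw [show (fun z => L.m z * ∑ k, (L.d k (fun z => inner ℝ (u z) (C.c k (v z))) z -
      (∑ j, L.γ k j j z) * inner ℝ (u z) (C.c k (v z)))) = fun z => ∑ k, L.m z *
        (L.d k (fun z => inner ℝ (u z) (C.c k (v z))) z -
      (∑ j, L.γ k j j z) * inner ℝ (u z) (C.c k (v z))) from funext fun z => Finset.mul_sum _ _ _,
    integral_finsetSum]
  · exact Finset.sum_eq_zero fun k _ => L.int_d k ((hg k).of_le (by simp)) (hk k)
  · intro k _
    refine (L.m_sm.continuous.mul (Continuous.sub ?_ (Continuous.mul ?_ (hg k).continuous))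
      ).integrable_of_hasCompactSupport (HasCompactSupport.mul_left ?_)
    · exact ((hg k).continuous_fderiv (by simp)).clm_apply (L.e_sm k).continuous
    · simp only [L.sum_γ]
      exact continuous_finsetSum _ fun j _ => (L.hΓ j k j).continuous
    · refine HasCompactSupport.intro (hk k).isCompact fun z hz => ?_
      have h1 : fderiv ℝ (fun z => (inner ℝ (u z) (C.c k (v z)) : ℝ)) z = 0 := by
        by_contra h
        exact hz (tsupport_fderiv_subset ℝ (subset_tsupport _ h))
      simp [Fr.d, h1, image_eq_zero_of_notMem_tsupport hz]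

end Pool.Agent.Lib.MP_1c0d65_gt.Nz
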