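import Pool.Agent.Lib.MP_1c0d65_gt.Nz.Cls

/-! The Weitzenboeck formula of a local Dirac operator. -/

set_option autoImplicit false

open scoped ContDiff Topology
open Set Function

noncomputable section

namespace Pool.Agent.Lib.MP_1c0d65_gt.Nz

open Pool.Agent.Lib.MP_1c0d65_gt.PW

theorem wz_sum_co (v : E) : ∑ k, co k v • bs k = v := by
  obtain ⟨a, b⟩ := v
  simp [Fin.sum_univ_four, co, bs]

theorem wz_co_bs (i j : Fin 4) : co i (bs j) = if i = j then 1 else 0 := by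
  fin_cases i <;> fin_cases j <;> simp [co, bs]

namespace Fr

variable (f : Fr) {V : Type} [NormedAddCommGroup V] [NormedSpace ℝ V]

theorem wz_e (i : Fin 4) : ContDiff ℝ ∞ (f.e i) := f.hM.clm_apply contDiff_const

theorem wz_d (i : Fin 4) {u : E → V} (hu : ContDiff ℝ ∞ u) : ContDiff ℝ ∞ (f.d i u) :=
  (hu.fderiv_right (m := ∞) (by simp)).clm_apply (f.wz_e i)

theorem wz_γ (i j k : Fin 4) : ContDiff ℝ ∞ (f.γ i j k) :=
  (co k).contDiff.comp (f.hθ.clm_apply ((f.wz_d i (f.wz_e j)).sub (f.wz_d j (f.wz_e i))))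

theorem wz_expand (z v : E) : ∑ k, co k (f.θ z v) • f.e k z = v := by
  simp only [e, ← map_smul, ← map_sum, wz_sum_co, f.Mθ]

theorem wz_γ_skew (i j k : Fin 4) (z : E) : f.γ i j k z = -f.γ j i k z := by
  simp only [γ, ← map_neg, neg_sub]

theorem wz_d_add (i : Fin 4) {u v : E → V} (hu : ContDiff ℝ ∞ u) (hv : ContDiff ℝ ∞ v) (z : E) :
    f.d i (fun z => u z + v z) z = f.d i u z + f.d i v z := by
  simp only [d]
  rw [fderiv_fun_add (hu.differentiable (by simp) z) (hv.differentiable (by simp) z)]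
  rfl

theorem wz_d_sum (i : Fin 4) {ι : Type} (s : Finset ι) {u : ι → E → V}
    (hu : ∀ a, ContDiff ℝ ∞ (u a)) (z : E) :
    f.d i (fun z => ∑ a ∈ s, u a z) z = ∑ a ∈ s, f.d i (u a) z := by
  simp only [d]
  rw [fderiv_fun_sum fun a _ => (hu a).differentiable (by simp) z]
  simp

theorem wz_d_apply (i : Fin 4) {V' : Type} [NormedAddCommGroup V'] [NormedSpace ℝ V']
    {A : E → V →L[ℝ] V'} {u : E → V} (hA : ContDiff ℝ ∞ A) (hu : ContDiff ℝ ∞ u) (z : E) :
    f.d i (fun z => A z (u z)) z = f.d i A z (u z) + A z (f.d i u z) := by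
  simp only [d]
  rw [fderiv_clm_apply (hA.differentiable (by simp) z) (hu.differentiable (by simp) z)]
  simp [add_comm]

theorem wz_d_clm (i : Fin 4) {V' : Type} [NormedAddCommGroup V'] [NormedSpace ℝ V']
    (A : V →L[ℝ] V') {u : E → V} (hu : ContDiff ℝ ∞ u) (z : E) :
    f.d i (fun z => A (u z)) z = A (f.d i u z) := by
  rw [f.wz_d_apply i (A := fun _ => A) contDiff_const hu]
  simp [d]

theorem wz_d_smul (i : Fin 4) {r : E → ℝ} {u : E → V} (hr : ContDiff ℝ ∞ r)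
    (hu : ContDiff ℝ ∞ u) (z : E) :
    f.d i (fun z => r z • u z) z = f.d i r z • u z + r z • f.d i u z := by
  simp only [d]
  rw [fderiv_fun_smul (hr.differentiable (by simp) z) (hu.differentiable (by simp) z)]
  simp [add_comm]

/-- The commutator of two frame derivatives. -/
theorem wz_comm (i j : Fin 4) {u : E → V} (hu : ContDiff ℝ ∞ u) (z : E) :
    f.d i (f.d j u) z - f.d j (f.d i u) z = ∑ k, f.γ i j k z • f.d k u z := by
  have hu' : ContDiff ℝ ∞ (fderiv ℝ u) := hu.fderiv_right (m := ∞) (by simp)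
  have h : ∀ i j, f.d i (f.d j u) z =
      fderiv ℝ (fderiv ℝ u) z (f.e i z) (f.e j z) + fderiv ℝ u z (f.d i (f.e j) z) :=
    fun i j => f.wz_d_apply i hu' (f.wz_e j) z
  have s : IsSymmSndFDerivAt ℝ u z := hu.contDiffAt.isSymmSndFDerivAt (by
    simp only [minSmoothness_of_isRCLikeNormedField]; exact ENat.LEInfty.out)
  rw [h, h, s (f.e i z) (f.e j z), add_sub_add_left_eq_sub, ← map_sub,
    ← f.wz_expand z (f.d i (f.e j) z - f.d j (f.e i) z), map_sum]
  simp only [map_smul]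
  rfl

end Fr

variable {W : Type} [NormedAddCommGroup W] [InnerProductSpace ℝ W] [FiniteDimensional ℝ W]
  [CompleteSpace W] {C : Cl W}

namespace Loc

variable (L : Loc C) {u v : E → W}

theorem wz_nab (i : Fin 4) (hu : ContDiff ℝ ∞ u) : ContDiff ℝ ∞ (L.nab i u) :=
  (L.wz_d i hu).add ((L.hA i).clm_apply hu)

theorem wz_D (hu : ContDiff ℝ ∞ u) : ContDiff ℝ ∞ (L.D u) :=
  ContDiff.sum fun i _ => (C.c i).contDiff.comp (L.wz_nab i hu)

theorem wz_Om (i j : Fin 4) : ContDiff ℝ ∞ (L.Om i j) :=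
  (((L.wz_d i (L.hA j)).sub (L.wz_d j (L.hA i))).add
    (((L.hA i).mul (L.hA j)).sub ((L.hA j).mul (L.hA i)))).sub
    (ContDiff.sum fun k _ => (L.wz_γ i j k).smul (L.hA k))

theorem wz_En : ContDiff ℝ ∞ L.En :=
  ((ContDiff.sum fun i _ => ContDiff.sum fun j _ =>
    contDiff_const.mul (L.wz_Om i j)).const_smul (1 / 2 : ℝ)).neg

theorem wz_dens : ContDiff ℝ ∞ L.dens := by
  let τ : (W →L[ℝ] W) →ₗ[ℝ] ℝ := (LinearMap.trace ℝ W).comp
    ((ContinuousLinearMap.coeLM ℝ).comp (LinearMap.mulLeft ℝ C.ε))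
  exact (LinearMap.toContinuousLinearMap τ).contDiff.comp
    (((L.wz_En.mul L.wz_En).const_smul (1 / 2 : ℝ)).add
      ((ContDiff.sum fun i _ => ContDiff.sum fun j _ =>
        (L.wz_Om i j).mul (L.wz_Om i j)).const_smul (1 / 12 : ℝ)))

theorem wz_Om_skew (i j : Fin 4) (z : E) : L.Om i j z = -L.Om j i z := by
  simp only [Om, L.wz_γ_skew i j, neg_smul, Finset.sum_neg_distrib]
  abel

theorem wz_nab_add (i : Fin 4) (hu : ContDiff ℝ ∞ u) (hv : ContDiff ℝ ∞ v) (z : E) :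
    L.nab i (fun z => u z + v z) z = L.nab i u z + L.nab i v z := by
  simp only [nab, L.wz_d_add i hu hv, map_add]
  abel

theorem wz_nab_sum (i : Fin 4) {ι : Type} (s : Finset ι) {u : ι → E → W}
    (hu : ∀ a, ContDiff ℝ ∞ (u a)) (z : E) :
    L.nab i (fun z => ∑ a ∈ s, u a z) z = ∑ a ∈ s, L.nab i (u a) z := by
  simp only [nab, L.wz_d_sum i s hu, map_sum, Finset.sum_add_distrib]

theorem wz_nab_smul (i : Fin 4) {r : E → ℝ} (hr : ContDiff ℝ ∞ r) (hu : ContDiff ℝ ∞ u) (z : E) :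
    L.nab i (fun z => r z • u z) z = L.d i r z • u z + r z • L.nab i u z := by
  simp only [nab, L.wz_d_smul i hr hu, map_smul, smul_add]
  abel

/-- The connection is a Clifford connection. -/
theorem wz_nab_c (i j : Fin 4) (hu : ContDiff ℝ ∞ u) (z : E) :
    L.nab i (fun z => C.c j (u z)) z = C.c j (L.nab i u z) + ∑ k, L.Γ i k j z • C.c k (u z) := by
  have h := congrArg (fun a : W →L[ℝ] W => a (u z)) (L.comm i j z)
  simp only [sub_apply, mul_apply_eq_comp,
    sum_apply, smul_apply] at h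
  simp only [nab, L.wz_d_clm i (C.c j) hu, map_add, ← h]
  abel

theorem wz_nab_ε (i : Fin 4) (hu : ContDiff ℝ ∞ u) (z : E) :
    L.nab i (fun z => C.ε (u z)) z = C.ε (L.nab i u z) := by
  have h := congrArg (fun a : W →L[ℝ] W => a (u z)) (L.even i z)
  simp only [mul_apply_eq_comp] at h
  simp only [nab, L.wz_d_clm i C.ε hu, map_add, h]

/-- The Dirac operator is odd. -/
theorem wz_D_ε (hu : ContDiff ℝ ∞ u) (z : E) :
    L.D (fun z => C.ε (u z)) z = -C.ε (L.D u z) := by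
  simp only [D, L.wz_nab_ε _ hu, map_sum, ← Finset.sum_neg_distrib]
  refine Finset.sum_congr rfl fun i _ => ?_
  have h := congrArg (fun a : W →L[ℝ] W => a (L.nab i u z)) (C.odd i)
  simp only [mul_apply_eq_comp, neg_apply] at h
  rw [h, neg_neg]

theorem wz_D_smul {r : E → ℝ} (hr : ContDiff ℝ ∞ r) (hu : ContDiff ℝ ∞ u) (z : E) :
    L.D (fun z => r z • u z) z = ∑ i, L.d i r z • C.c i (u z) + r z • L.D u z := by
  simp only [D, L.wz_nab_smul _ hr hu, map_add, map_smul, Finset.sum_add_distrib,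
    Finset.smul_sum]

/-- The commutator of two covariant derivatives. -/
theorem nab_comm (i j : Fin 4) (hu : ContDiff ℝ ∞ u) (z : E) :
    L.nab i (L.nab j u) z - L.nab j (L.nab i u) z =
      L.Om i j z (u z) + ∑ k, L.γ i j k z • L.nab k u z := by
  have h : ∀ i j, L.nab i (L.nab j u) z = L.d i (L.d j u) z + (L.d i (L.A j) z (u z) +
      L.A j z (L.d i u z)) + (L.A i z (L.d j u z) + L.A i z (L.A j z (u z))) := fun i j => by
    rw [← L.wz_d_apply i (L.hA j) hu, ← L.wz_d_add i (L.wz_d j hu) ((L.hA j).clm_apply hu),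
      ← map_add]
    rfl
  have h2 := L.wz_comm i j hu z
  rw [h, h]
  simp only [Om, nab, smul_add, Finset.sum_add_distrib, ← h2, sub_apply,
    add_apply, mul_apply_eq_comp, sum_apply,
    smul_apply]
  abel

/-- The Weitzenboeck formula. -/
theorem wz_weitz (hu : ContDiff ℝ ∞ u) (z : E) :
    L.D (L.D u) z = -∑ i, L.nab i (L.nab i u) z + ∑ i, ∑ k, L.Γ i k i z • L.nab k u z
      - L.En z (u z) := by
  obtain ⟨H, hH⟩ : ∃ H : Fin 4 → Fin 4 → W, ∀ i j,
      H i j = L.nab i (L.nab j u) z - ∑ k, L.Γ i k j z • L.nab k u z := ⟨_, fun _ _ => rfl⟩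
  have h1 : L.D (L.D u) z = ∑ i, ∑ j, C.c i (C.c j (H i j)) := by
    refine Finset.sum_congr rfl fun i _ => ?_
    rw [← map_sum]
    refine congrArg _ ?_
    rw [show L.D u = fun z => ∑ j, C.c j (L.nab j u z) from rfl,
      L.wz_nab_sum i _ (u := fun j z => C.c j (L.nab j u z))
        fun j => (C.c j).contDiff.comp (L.wz_nab j hu)]
    simp only [L.wz_nab_c i _ (L.wz_nab _ hu), hH, map_sub, map_sum, map_smul,
      Finset.sum_add_distrib, Finset.sum_sub_distrib]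
    rw [sub_eq_add_neg, Finset.sum_comm]
    simp only [← Finset.sum_neg_distrib, ← neg_smul]
    refine congrArg _ (Finset.sum_congr rfl fun j _ => Finset.sum_congr rfl fun k _ => ?_)
    rw [L.Γ_skew i j k]
  have h2 : ∀ i j, L.Om i j z (u z) = H i j - H j i := fun i j => by
    have := L.nab_comm i j hu z
    simp only [L.tors, sub_smul, Finset.sum_sub_distrib] at this
    rw [hH, hH, eq_sub_of_add_eq this.symm]
    abel
  have h3 : ∀ i w, C.c i (C.c i w) = -w := fun i w =>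
    congrArg (fun a : W →L[ℝ] W => a w) (C.c_sq i)
  have h4 : ∀ i j, i ≠ j → ∀ w, C.c i (C.c j w) = -C.c j (C.c i w) := fun i j h w =>
    congrArg (fun a : W →L[ℝ] W => a w) (C.c_anti i j h)
  have h5 : -∑ i, L.nab i (L.nab i u) z + ∑ i, ∑ k, L.Γ i k i z • L.nab k u z = -∑ i, H i i := by
    simp only [hH, Finset.sum_sub_distrib]
    abel
  have h6 : L.En z (u z) = -((1 / 2 : ℝ) • ∑ i, ∑ j, C.c i (C.c j (H i j - H j i))) := by
    simp only [En, neg_apply, smul_apply, sum_apply, mul_apply_eq_comp, h2]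
  rw [h1, h5, h6]
  simp only [map_sub, Fin.sum_univ_four,
    h3, h4 1 0 (by decide), h4 2 0 (by decide), h4 3 0 (by decide), h4 2 1 (by decide),
    h4 3 1 (by decide), h4 3 2 (by decide)]
  module

end Loc

theorem Cl.exists_str (C : Cl W) : ∃ l : (W →L[ℝ] W) →L[ℝ] ℝ, ∀ a, l a = C.str a :=
  ⟨LinearMap.toContinuousLinearMap ((LinearMap.trace ℝ W).comp
    ((ContinuousLinearMap.coeLM ℝ).comp (LinearMap.mulLeft ℝ C.ε))), fun _ => rfl⟩

theorem wz_tr_comm (a b : W →L[ℝ] W) :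
    LinearMap.trace ℝ W (a * b : W →L[ℝ] W) = LinearMap.trace ℝ W (b * a : W →L[ℝ] W) :=
  LinearMap.trace_mul_comm ℝ (a : W →ₗ[ℝ] W) (b : W →ₗ[ℝ] W)

theorem Cl.str_eq_sum (C : Cl W) (a : W →L[ℝ] W) : C.str a =
    ∑ j, inner ℝ (stdOrthonormalBasis ℝ W j) (C.ε (a (stdOrthonormalBasis ℝ W j))) :=
  LinearMap.trace_eq_sum_inner _ (stdOrthonormalBasis ℝ W)

theorem wz_tr_star (a : W →L[ℝ] W) :
    LinearMap.trace ℝ W (star a : W →L[ℝ] W) = LinearMap.trace ℝ W a := by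
  rw [LinearMap.trace_eq_sum_inner _ (stdOrthonormalBasis ℝ W),
    LinearMap.trace_eq_sum_inner _ (stdOrthonormalBasis ℝ W)]
  refine Finset.sum_congr rfl fun j _ => ?_
  rw [real_inner_comm]
  exact ContinuousLinearMap.adjoint_inner_left a _ _

theorem Cl.wz_str_comm (C : Cl W) {g : W →L[ℝ] W} (a : W →L[ℝ] W) (h2 : C.ε * g = g * C.ε) :
    C.str (g * a) = C.str (a * g) := by
  rw [Cl.str, Cl.str, ← mul_assoc, h2, mul_assoc, wz_tr_comm, mul_assoc]

theorem Cl.str_conj (C : Cl W) {g a : W →L[ℝ] W} (h1 : g * star g = 1)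
    (h2 : C.ε * g = g * C.ε) : C.str (star g * a * g) = C.str a ∧ C.str (g * a) = C.str (a * g) :=
  ⟨by rw [← C.wz_str_comm _ h2, ← mul_assoc, h1, one_mul], C.wz_str_comm a h2⟩

theorem Cl.str_one (C : Cl W) : C.str 1 = 0 := by
  obtain ⟨l, hl⟩ := C.exists_str
  have e : ∀ a : W →L[ℝ] W, LinearMap.trace ℝ W a = l (C.ε * a) := fun a => by
    rw [hl, Cl.str, ← mul_assoc, C.ε_sq, one_mul]
  have h := wz_tr_comm (C.ε * C.c 0) (C.c 0)
  rw [← mul_assoc, ← neg_neg (C.c 0 * C.ε), ← C.odd, neg_mul, e, e, mul_assoc, C.c_sq, mul_neg,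
    mul_one, neg_neg, mul_neg, C.ε_sq, map_neg, hl] at h
  linarith

theorem Cl.str_skew (C : Cl W) {a : W →L[ℝ] W} (h : star a = -a) : C.str a = 0 := by
  obtain ⟨l, hl⟩ := C.exists_str
  have h1 : C.str (star a) = C.str a := by
    rw [Cl.str, Cl.str, ← wz_tr_star (C.ε * a), star_mul, C.ε_star, wz_tr_comm]
  rw [h, ← hl, map_neg, hl] at h1
  linarith

theorem Loc.D_smooth (L : Loc C) {u : E → W} (hu : ContDiff ℝ ∞ u) : ContDiff ℝ ∞ (L.D u) :=
  L.wz_D hu

theorem Loc.Om_smooth (L : Loc C) (i j : Fin 4) : ContDiff ℝ ∞ (L.Om i j) := L.wz_Om i j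

theorem Loc.En_smooth (L : Loc C) : ContDiff ℝ ∞ L.En := L.wz_En

theorem Loc.b_smooth (L : Loc C) (k : Fin 4) : ContDiff ℝ ∞ (L.b k) :=
  ContDiff.sum fun i _ => L.hΓ i k i

theorem Loc.dens_smooth (L : Loc C) : ContDiff ℝ ∞ L.dens := L.wz_dens

theorem Loc.wz_dA_skew (L : Loc C) (i j : Fin 4) (z : E) :
    star (L.d i (L.A j) z) = -L.d i (L.A j) z := by
  let σ : (W →L[ℝ] W) →L[ℝ] W →L[ℝ] W := (starL' ℝ : (W →L[ℝ] W) ≃L[ℝ] _)
  have h1 := L.wz_d_clm i σ (L.hA j) z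
  have h2 := L.wz_d_clm i (-ContinuousLinearMap.id ℝ _) (L.hA j) z
  rw [show (fun z => σ (L.A j z)) = fun z => (-ContinuousLinearMap.id ℝ _) (L.A j z) from
    funext fun z => L.skew j z, h2] at h1
  exact h1.symm

theorem Loc.Om_skew (L : Loc C) (i j : Fin 4) (z : E) : star (L.Om i j z) = -L.Om i j z := by
  simp only [Loc.Om, star_sub, star_add, star_mul, star_sum, star_smul, star_trivial, L.skew,
    L.wz_dA_skew, neg_mul_neg, smul_neg, Finset.sum_neg_distrib]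
  abel

theorem Loc.Om_anti (L : Loc C) (i j : Fin 4) (z : E) : L.Om i j z = -L.Om j i z :=
  L.wz_Om_skew i j z

theorem Loc.D_eps (L : Loc C) {u : E → W} (hu : ContDiff ℝ ∞ u) (z : E) :
    L.D (fun x => C.ε (u x)) z = -C.ε (L.D u z) := L.wz_D_ε hu z

theorem Loc.weitz (L : Loc C) {u : E → W} (hu : ContDiff ℝ ∞ u) (z : E) : L.D (L.D u) z =
    -∑ i, L.nab i (L.nab i u) z + ∑ k, L.b k z • L.nab k u z - L.En z (u z) := by
  rw [L.wz_weitz hu, Finset.sum_comm (f := fun i k => L.Γ i k i z • L.nab k u z)]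
  simp only [Loc.b, Finset.sum_smul]

end Pool.Agent.Lib.MP_1c0d65_gt.Nz
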