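import Pool.Agent.Lib.MP_1c0d65_gt.Nz.Sec
import Pool.Agent.Lib.MP_1c0d65_gt.Nz.Sym
import Pool.Agent.Lib.MP_1c0d65_gt.Nz.Weitz

/-! The global Dirac operator on smooth sections: linearity, locality, symmetry, density. -/

set_option autoImplicit false

open scoped ContDiff Topology
open Set MeasureTheory Function Filter

noncomputable section

namespace Pool.Agent.Lib.MP_1c0d65_gt.Nz

open Pool.Agent.Lib.MP_1c0d65_gt.PW

variable {W : Type} [NormedAddCommGroup W] [InnerProductSpace ℝ W] [FiniteDimensional ℝ W]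
  [CompleteSpace W] {C : Cl W}

variable {X : Type} [TopologicalSpace X] [T2Space X] [CompactSpace X] [MeasurableSpace X]
  [BorelSpace X] {μ : Measure X}

section alg

omit [T2Space X] [CompactSpace X] [BorelSpace X]

theorem Sy.dop_inj (S : Sy X μ C) (a : Fin S.n) (x : X) {v w : W}
    (h : S.g a x v = S.g a x w) : v = w := by
  have e : ∀ t, star (S.g a x) (S.g a x t) = t := fun t => congrArg (· t) (S.g1 a x)
  rw [← e v, h, e]

theorem Sy.dop_norm (S : Sy X μ C) (a : Fin S.n) (x : X) (w : W) : ‖S.g a x w‖ = ‖w‖ :=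
  (ContinuousLinearMap.norm_map_iff_adjoint_comp_self _).2 (S.g1 a x) w

theorem Sy.loc_D (S : Sy X μ C) {u : X → W} (h : S.Sm ∞ u) (a : Fin S.n) :
    S.loc a (S.D u) = (S.L a).D (S.loc a u) := funext (S.hD u h a)

theorem Sy.Sm.dop0 {S : Sy X μ C} {u : X → W} (h : S.Sm ∞ u) : S.Sm 0 u :=
  fun a => (h a).of_le (by simp)

theorem Sy.loc_eps (S : Sy X μ C) (a : Fin S.n) (u : X → W) :
    S.loc a (fun x => C.ε (u x)) = fun z => C.ε (S.loc a u z) :=
  funext fun z => (congrArg (· (u (S.ψ a z))) (S.g_even a (S.ψ a z))).symm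

theorem Sy.inner_up (S : Sy X μ C) (a : Fin S.n) (u : X → W) (w : E → W) (x : X) :
    inner ℝ (u x) (S.up a w x) =
      extend (S.ψ a) (fun z => (inner ℝ (S.loc a u z) (w z) : ℝ)) 0 x := by
  by_cases hx : ∃ z, S.ψ a z = x
  · obtain ⟨z, rfl⟩ := hx
    rw [Sy.up, (S.emb a).injective.extend_apply, (S.emb a).injective.extend_apply,
      ContinuousLinearMap.star_eq_adjoint, ContinuousLinearMap.adjoint_inner_right]
    rfl
  · rw [Sy.up, extend_apply' _ _ _ hx, extend_apply' _ _ _ hx]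
    simp

theorem dop_local (L : Loc C) {u : E → W} {z : E} (h : u =ᶠ[𝓝 z] fun _ => 0) : L.D u z = 0 := by
  simp [Loc.D, Loc.nab, Fr.d, h.fderiv_eq, h.eq_of_nhds]

end alg

theorem Sy.ext_loc (S : Sy X μ C) {u v : X → W} (h : ∀ a, S.loc a u = S.loc a v) : u = v :=
  funext fun x => by
    obtain ⟨a, z, rfl, -⟩ := S.cover x
    exact S.dop_inj a _ (congrFun (h a) z)

omit [T2Space X] [CompactSpace X] [BorelSpace X] in
theorem Sy.Sm.D {S : Sy X μ C} {u : X → W} (h : S.Sm ∞ u) : S.Sm ∞ (S.D u) := fun a => by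
  rw [S.loc_D h]
  exact (S.L a).D_smooth (h a)

omit [T2Space X] [CompactSpace X] [BorelSpace X] in
theorem Sy.Sm.eps {S : Sy X μ C} {l : WithTop ℕ∞} {u : X → W} (h : S.Sm l u) :
    S.Sm l fun x => C.ε (u x) := fun a => by
  rw [S.loc_eps]
  exact C.ε.contDiff.comp (h a)

theorem Sy.D_add (S : Sy X μ C) {u v : X → W} (hu : S.Sm ∞ u) (hv : S.Sm ∞ v) :
    S.D (u + v) = S.D u + S.D v := S.ext_loc fun a => by
  have e : ∀ u v : X → W, S.loc a (u + v) = S.loc a u + S.loc a v := fun u v => by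
    funext z; simp [Sy.loc]
  rw [S.loc_D (S.sec.add_mem hu hv), e, e, S.loc_D hu, S.loc_D hv]
  exact funext fun z => (S.L a).D_add (hu a) (hv a) z

theorem Sy.D_smul (S : Sy X μ C) (r : ℝ) {u : X → W} (hu : S.Sm ∞ u) :
    S.D (r • u) = r • S.D u := S.ext_loc fun a => by
  have e : ∀ u : X → W, S.loc a (r • u) = r • S.loc a u := fun u => by
    funext z; simp [Sy.loc]
  rw [S.loc_D (S.sec.smul_mem r hu), e, e, S.loc_D hu]
  exact funext fun z => (S.L a).D_smul r (hu a) z

theorem Sy.D_eps (S : Sy X μ C) {u : X → W} (hu : S.Sm ∞ u) (x : X) :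
    S.D (fun x => C.ε (u x)) x = -C.ε (S.D u x) := by
  obtain ⟨a, z, rfl, -⟩ := S.cover x
  refine S.dop_inj a _ ((congrFun (S.loc_D hu.eps a) z).trans ?_)
  rw [S.loc_eps, (S.L a).D_eps (hu a), ← S.loc_D hu, map_neg]
  exact congrArg Neg.neg (congrFun (S.loc_eps a (S.D u)) z).symm

theorem Sy.D_up (S : Sy X μ C) (a : Fin S.n) {u : E → W} (hu : ContDiff ℝ ∞ u)
    (hc : HasCompactSupport u) : S.D (S.up a u) = S.up a ((S.L a).D u) := by
  have hs := S.up_sm le_rfl a hu hc
  funext x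
  by_cases hx : ∃ z, S.ψ a z = x
  · obtain ⟨z, rfl⟩ := hx
    refine S.dop_inj a _ ((congrFun (S.loc_D hs a) z).trans ?_)
    rw [S.loc_up]
    exact (congrFun (S.loc_up a _) z).symm
  · obtain ⟨b, z, rfl, -⟩ := S.cover x
    refine S.dop_inj b _ ((congrFun (S.loc_D hs b) z).trans ?_)
    have hK : IsClosed (S.ψ a '' tsupport u) :=
      (hc.isCompact.image (S.emb a).continuous).isClosed
    rw [Sy.up, extend_apply' _ _ _ hx, Pi.zero_apply, map_zero, map_zero]
    refine dop_local _ ?_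
    filter_upwards [(S.emb b).continuous.continuousAt.preimage_mem_nhds
      (hK.isOpen_compl.mem_nhds fun ⟨y, _, hy⟩ => hx ⟨y, hy⟩)] with z' hz'
    rw [Sy.loc, Sy.up]
    by_cases h' : ∃ y, S.ψ a y = S.ψ b z'
    · obtain ⟨y, hy⟩ := h'
      rw [← hy, (S.emb a).injective.extend_apply,
        image_eq_zero_of_notMem_tsupport fun h => hz' ⟨y, h, hy⟩, map_zero, map_zero]
    · rw [extend_apply' _ _ _ h', Pi.zero_apply, map_zero, map_zero]

theorem Sy.int_up (S : Sy X μ C) (a : Fin S.n) (u : X → W) (w : E → W) :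
    ∫ x, inner ℝ (u x) (S.up a w x) ∂μ =
      S.κ * ∫ z, (S.L a).m z * inner ℝ (S.loc a u z) (w z) := by
  simp only [S.inner_up]
  rw [S.integral_ext, ← integral_const_mul]
  simp only [smul_eq_mul, mul_assoc]

theorem Sy.Sm.int_inner {S : Sy X μ C} {u v : X → W} (hu : S.Sm 0 u) (hv : S.Sm 0 v) :
    Integrable (fun x => (inner ℝ (u x) (v x) : ℝ)) μ := by
  have := S.fin
  obtain ⟨c, hc⟩ := hu.bdd
  obtain ⟨d, hd⟩ := hv.bdd
  exact Integrable.of_bound (hu.meas.inner hv.meas).aestronglyMeasurable (c * d)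
    (ae_of_all _ fun x => (norm_inner_le_norm _ _).trans
      (mul_le_mul (hc x) (hd x) (norm_nonneg _) ((norm_nonneg _).trans (hc x))))

theorem Sy.symm (S : Sy X μ C) {u v : X → W} (hu : S.Sm ∞ u) (hv : S.Sm ∞ v) :
    ∫ x, inner ℝ (S.D u x) (v x) ∂μ = ∫ x, inner ℝ (u x) (S.D v x) ∂μ := by
  have e : v = ∑ a, S.up a fun z => S.ρ a z • S.loc a v z :=
    funext fun x => by rw [Finset.sum_apply, S.sum_up]
  rw [e]
  refine (Finset.sum_induction _ (fun v : X → W => S.Sm ∞ v ∧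
    ∫ x, inner ℝ (S.D u x) (v x) ∂μ = ∫ x, inner ℝ (u x) (S.D v x) ∂μ) ?_ ?_ fun a _ => ?_).2
  · rintro v w ⟨h1, h2⟩ ⟨h3, h4⟩
    refine ⟨S.sec.add_mem h1 h3, ?_⟩
    simp only [S.D_add h1 h3, Pi.add_apply, inner_add_right]
    rw [integral_add (hu.D.dop0.int_inner h1.dop0) (hu.D.dop0.int_inner h3.dop0),
      integral_add (hu.dop0.int_inner h1.D.dop0) (hu.dop0.int_inner h3.D.dop0), h2, h4]
  · have h0 : S.D 0 = 0 := by simpa using S.D_smul 0 hu
    exact ⟨S.sec.zero_mem, by simp [h0]⟩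
  · have h1 : ContDiff ℝ ∞ fun z => S.ρ a z • S.loc a v z := (S.hρ a).smul (hv a)
    have h2 : HasCompactSupport fun z => S.ρ a z • S.loc a v z := (S.cρ a).smul_right
    refine ⟨S.up_sm le_rfl a h1 h2, ?_⟩
    rw [S.D_up a h1 h2, S.int_up, S.int_up, S.loc_D hu, (S.L a).symm (hu a) h1 h2]

omit [T2Space X] [CompactSpace X] in
theorem Atl.dop_comap (T : Atl X μ C) (a : Fin T.n) : μ.comap (T.ψ a) =
    volume.withDensity fun z => ENNReal.ofReal (T.κ * (T.L a).m z) := by
  ext s hs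
  rw [(T.emb a).measurableEmbedding.comap_apply, T.vol a s hs, withDensity_apply _ hs]

omit [T2Space X] [CompactSpace X] in
theorem Atl.dop_int {V : Type} [NormedAddCommGroup V] [NormedSpace ℝ V] (T : Atl X μ C)
    (a : Fin T.n) {F : X → V} (hF : Integrable F μ) :
    Integrable fun z => (T.κ * (T.L a).m z) • F (T.ψ a z) := by
  have me := (T.emb a).measurableEmbedding
  have h1 : Integrable F ((μ.comap (T.ψ a)).map (T.ψ a)) := by
    rw [me.map_comap]; exact hF.restrict
  have hm : Measurable fun z => ENNReal.ofReal (T.κ * (T.L a).m z) :=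
    (continuous_const.mul (T.L a).m_sm.continuous).measurable.ennreal_ofReal
  rw [me.integrable_map_iff, T.dop_comap,
    integrable_withDensity_iff_integrable_smul' hm (by simp)] at h1
  refine h1.congr (ae_of_all _ fun z => ?_)
  simp only [comp_apply, ENNReal.toReal_ofReal (mul_pos T.hκ ((T.L a).m_pos z)).le]

theorem Atl.ae_of_charts (T : Atl X μ C) {p : X → Prop} (h : ∀ a, ∀ᵐ z, p (T.ψ a z)) :
    ∀ᵐ x ∂μ, p x := by
  have h1 : ∀ a, ∀ᵐ x ∂μ, x ∈ range (T.ψ a) → p x := fun a => by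
    have me := (T.emb a).measurableEmbedding
    rw [← ae_restrict_iff' me.measurableSet_range, ← me.map_comap, me.ae_map_iff, T.dop_comap]
    exact (withDensity_absolutelyContinuous _ _).ae_le (h a)
  filter_upwards [ae_all_iff.2 h1] with x hx
  obtain ⟨a, z, hz, -⟩ := T.cover x
  exact hx a ⟨z, hz⟩

theorem Sy.dense (S : Sy X μ C) (φ : Lp W 2 μ)
    (h : ∀ u, S.Sm ∞ u → ∫ x, inner ℝ (φ x) (u x) ∂μ = 0) : φ = 0 := by
  have := S.fin
  have hφ : Integrable φ μ := (Lp.memLp φ).integrable one_le_two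
  rw [Lp.eq_zero_iff_ae_eq_zero]
  refine S.ae_of_charts (p := fun x => φ x = 0) fun a => ?_
  have h1 : Integrable (fun x => S.g a x (φ x)) μ := hφ.norm.mono'
    (isBoundedBilinearMap_apply.continuous.comp_aestronglyMeasurable
      ((S.g_meas a).aestronglyMeasurable.prodMk hφ.1))
    (ae_of_all _ fun x => (S.dop_norm a x _).le)
  have h2 := S.dop_int a h1
  refine (ae_eq_zero_of_integral_contDiff_smul_eq_zero h2.locallyIntegrable
    fun γ hγ cγ => ?_).mono fun z hz => S.dop_inj a _ (((smul_eq_zero.1 hz).resolve_left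
      (mul_pos S.hκ ((S.L a).m_pos z)).ne').trans (map_zero _).symm)
  · refine ext_inner_left ℝ fun w => ?_
    have h3 := h _ (S.up_sm le_rfl a (u := fun z => γ z • w) (hγ.smul contDiff_const) cγ.smul_right)
    rw [S.int_up, ← integral_const_mul] at h3
    rw [inner_zero_right, ← integral_inner
      (h2.locallyIntegrable.integrable_smul_left_of_hasCompactSupport hγ.continuous cγ), ← h3]
    refine integral_congr_ae (ae_of_all _ fun z => ?_)
    simp only [inner_smul_right, Sy.loc]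
    rw [real_inner_comm]
    ring

end Pool.Agent.Lib.MP_1c0d65_gt.Nz
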