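import Pool.Agent.Lib.MP_1c0d65_gt.Nz.Cls

/-! Integral operators with bounded measurable kernels. -/

set_option autoImplicit false

open scoped ContDiff Topology
open Set MeasureTheory Function Filter

noncomputable section

namespace Pool.Agent.Lib.MP_1c0d65_gt.Nz

open Pool.Agent.Lib.MP_1c0d65_gt.PW

variable {W : Type} [NormedAddCommGroup W] [InnerProductSpace ℝ W] [FiniteDimensional ℝ W]
  [CompleteSpace W]

variable {Y : Type} [MeasurableSpace Y] {ν : Measure Y} [IsFiniteMeasure ν]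
  {k k' : Y → Y → W →L[ℝ] W}

theorem op_star (a : W →L[ℝ] W) : ‖star a‖ = ‖a‖ := ContinuousLinearMap.adjoint.norm_map a

theorem op_le (a : W →L[ℝ] W) (w : W) : ‖star a w‖ ≤ ‖a‖ * ‖w‖ :=
  op_star a ▸ (star a).le_opNorm w

theorem op_nsq (f : Lp W 2 ν) : ‖f‖ ^ 2 = ∫ x, ‖f x‖ ^ 2 ∂ν := by
  rw [← real_inner_self_eq_norm_sq, L2.inner_def]
  simp only [real_inner_self_eq_norm_sq]

theorem Bm.op_col (h : Bm k) (y : Y) : StronglyMeasurable fun x => k x y :=
  h.1.comp_measurable measurable_prodMk_right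

theorem Bm.op_row (h : Bm k) (y : Y) : StronglyMeasurable fun x => k y x :=
  h.1.comp_measurable measurable_prodMk_left

theorem Bm.op_mul (h : Bm k) {g : Y → ℝ} (hg : Integrable g ν) (y : Y) :
    Integrable (fun x => ‖k x y‖ * g x) ν :=
  let ⟨c, hc⟩ := h.2
  hg.bdd_mul (c := c) (h.op_col y).norm.aestronglyMeasurable
    (Eventually.of_forall fun x => by simpa using hc x y)

theorem Bm.op_int (h : Bm k) {φ : Y → W} (hφ : Integrable φ ν) (y : Y) :
    Integrable (fun x => star (k x y) (φ x)) ν :=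
  (h.op_mul hφ.norm y).mono'
    (isBoundedBilinearMap_apply.continuous.comp_aestronglyMeasurable
      ((continuous_star.comp_stronglyMeasurable (h.op_col y)).aestronglyMeasurable.prodMk hφ.1))
    (Eventually.of_forall fun _ => op_le _ _)

theorem Bm.op_meas (h : Bm k) {φ : Y → W} (hφ : StronglyMeasurable φ) :
    StronglyMeasurable (op ν k φ) :=
  StronglyMeasurable.integral_prod_left (f := fun x y => star (k x y) (φ x))
    (isBoundedBilinearMap_apply.continuous.comp_stronglyMeasurable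
      ((continuous_star.comp_stronglyMeasurable h.1).prodMk (hφ.comp_measurable measurable_fst)))

theorem Bm.op_bound (h : Bm k) {φ : Y → W} (hφ : Integrable φ ν) (y : Y) :
    ‖op ν k φ y‖ ≤ ∫ x, ‖k x y‖ * ‖φ x‖ ∂ν :=
  norm_integral_le_of_norm_le (h.op_mul hφ.norm y) (Eventually.of_forall fun _ => op_le _ _)

theorem Bm.op_memLp (h : Bm k) (φ : Lp W 2 ν) : MemLp (op ν k φ) 2 ν := by
  obtain ⟨c, hc⟩ := h.2
  have iφ : Integrable φ ν := (Lp.memLp φ).integrable (by norm_num)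
  refine MemLp.of_bound (h.op_meas (Lp.stronglyMeasurable φ)).aestronglyMeasurable
    (∫ x, c * ‖φ x‖ ∂ν) (Eventually.of_forall fun y => (h.op_bound iφ y).trans ?_)
  exact integral_mono (h.op_mul iφ.norm y) (iφ.norm.const_mul c) fun x =>
    mul_le_mul_of_nonneg_right (hc x y) (norm_nonneg _)

theorem Bm.op_schur (h : Bm k) {c : ℝ} (hc : 0 ≤ c) (h1 : ∀ y, (∫ x, ‖k x y‖ ∂ν) ≤ c)
    (h2 : ∀ y, (∫ x, ‖k y x‖ ∂ν) ≤ c) (φ ψ : Lp W 2 ν) (e : (ψ : Y → W) =ᵐ[ν] op ν k φ) :
    ‖ψ‖ ≤ c * ‖φ‖ := by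
  have iφ : Integrable φ ν := (Lp.memLp φ).integrable (by norm_num)
  have i2 : Integrable (fun x => ‖φ x‖ ^ 2) ν := (Lp.memLp φ).norm.integrable_sq
  have a1 : ∀ y, ‖op ν k φ y‖ ^ 2 ≤ c * ∫ x, ‖k x y‖ * ‖φ x‖ ^ 2 ∂ν := by
    intro y
    have j0 : Integrable (fun x => ‖k x y‖) ν := by
      simpa using h.op_mul (integrable_const (1 : ℝ)) y
    have j1 := h.op_mul iφ.norm y
    have j2 := h.op_mul i2 y
    have d := discrim_le_zero (a := c) (b := -2 * ∫ x, ‖k x y‖ * ‖φ x‖ ∂ν)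
      (c := ∫ x, ‖k x y‖ * ‖φ x‖ ^ 2 ∂ν) fun t => by
        have p : 0 ≤ ∫ x, (t ^ 2 * ‖k x y‖ - 2 * t * (‖k x y‖ * ‖φ x‖)) +
            ‖k x y‖ * ‖φ x‖ ^ 2 ∂ν := integral_nonneg fun x => by
          have := mul_nonneg (norm_nonneg (k x y)) (sq_nonneg (‖φ x‖ - t))
          simp only [Pi.zero_apply]
          nlinarith
        rw [integral_add (by exact (j0.const_mul _).sub (j1.const_mul _)) j2,
          integral_sub (j0.const_mul _) (j1.const_mul _), integral_const_mul,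
          integral_const_mul] at p
        nlinarith [mul_le_mul_of_nonneg_left (h1 y) (sq_nonneg t)]
    have b := pow_le_pow_left₀ (norm_nonneg _) (h.op_bound iφ y) 2
    rw [discrim] at d
    nlinarith
  obtain ⟨b, hb⟩ := h.2
  have ip : Integrable (uncurry fun x y => ‖k x y‖ * ‖φ x‖ ^ 2) (ν.prod ν) :=
    (i2.comp_fst ν).bdd_mul (c := b) h.1.norm.aestronglyMeasurable
      (Eventually.of_forall fun p => by simpa using hb p.1 p.2)
  refine (pow_le_pow_iff_left₀ (norm_nonneg _) (by positivity) two_ne_zero).1 ?_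
  rw [mul_pow, op_nsq, op_nsq]
  calc ∫ y, ‖ψ y‖ ^ 2 ∂ν ≤ ∫ y, c * ∫ x, ‖k x y‖ * ‖φ x‖ ^ 2 ∂ν ∂ν :=
        integral_mono_ae (Lp.memLp ψ).norm.integrable_sq (ip.integral_prod_right.const_mul c)
          (e.mono fun y hy => by simpa only [hy] using a1 y)
    _ = c * ∫ x, ∫ y, ‖k x y‖ * ‖φ x‖ ^ 2 ∂ν ∂ν := by
        rw [integral_const_mul, integral_integral_swap ip]
    _ ≤ c * ∫ x, c * ‖φ x‖ ^ 2 ∂ν := by
        refine mul_le_mul_of_nonneg_left (integral_mono ip.integral_prod_left (i2.const_mul c)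
          fun x => ?_) hc
        simp only [integral_mul_const]
        exact mul_le_mul_of_nonneg_right (h2 x) (sq_nonneg _)
    _ = _ := by rw [integral_const_mul]; ring

theorem Bm.op_l1 (h : Bm k) {c : ℝ} (hc : ∀ x y, ‖k x y‖ ≤ c) (y : Y) :
    (∫ x, ‖k x y‖ ∂ν) ≤ |c| * ν.real univ ∧ (∫ x, ‖k y x‖ ∂ν) ≤ |c| * ν.real univ :=
  ⟨(le_abs_self _).trans (norm_integral_le_of_norm_le_const (f := fun x => ‖k x y‖)
      (Eventually.of_forall fun x => by simpa using (hc x y).trans (le_abs_self c))),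
    (le_abs_self _).trans (norm_integral_le_of_norm_le_const (f := fun x => ‖k y x‖)
      (Eventually.of_forall fun x => by simpa using (hc y x).trans (le_abs_self c)))⟩

theorem Bm.isOp (h : Bm k) : IsOp k (Op ν k) := by
  have ex : ∃ T, IsOp (μ := ν) k T := by
    obtain ⟨c, hc⟩ := h.2
    have i : ∀ φ : Lp W 2 ν, Integrable φ ν := fun φ => (Lp.memLp φ).integrable (by norm_num)
    refine ⟨LinearMap.mkContinuous
      { toFun := fun φ => (h.op_memLp φ).toLp _
        map_add' := fun φ ψ => ?_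
        map_smul' := fun r φ => ?_ } (|c| * ν.real univ) fun φ =>
      h.op_schur (by positivity) (fun y => (h.op_l1 hc y).1) (fun y => (h.op_l1 hc y).2) φ _
        (h.op_memLp φ).coeFn_toLp, fun φ => (h.op_memLp φ).coeFn_toLp⟩
    · rw [← MemLp.toLp_add]
      refine MemLp.toLp_congr _ _ (Eventually.of_forall fun y => ?_)
      rw [Pi.add_apply, op, op, op, ← integral_add (h.op_int (i φ) y) (h.op_int (i ψ) y)]
      exact integral_congr_ae ((Lp.coeFn_add φ ψ).mono fun x hx => by simp only [hx]; simp)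
    · rw [RingHom.id_apply, ← MemLp.toLp_const_smul]
      refine MemLp.toLp_congr _ _ (Eventually.of_forall fun y => ?_)
      rw [Pi.smul_apply, op, op, ← integral_smul]
      exact integral_congr_ae ((Lp.coeFn_smul r φ).mono fun x hx => by simp only [hx]; simp)
  rw [Op, dif_pos ex]
  exact ex.choose_spec

theorem Bm.sub_smul (h : Bm k) (h' : Bm k') (r : ℝ) : Bm fun x y => k x y - r • k' x y := by
  obtain ⟨c, hc⟩ := h.2
  obtain ⟨d, hd⟩ := h'.2
  refine ⟨h.1.sub (h'.1.const_smul r), c + ‖r‖ * d, fun x y => (norm_sub_le _ _).trans ?_⟩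
  rw [norm_smul]
  exact add_le_add (hc x y) (mul_le_mul_of_nonneg_left (hd x y) (norm_nonneg r))

theorem Bm.Op_sub_smul (h : Bm k) (h' : Bm k') (r : ℝ) :
    Op ν (fun x y => k x y - r • k' x y) = Op ν k - r • Op ν k' := by
  refine ContinuousLinearMap.ext fun φ => Lp.ext ?_
  have i : Integrable φ ν := (Lp.memLp φ).integrable (by norm_num)
  filter_upwards [(h.sub_smul h' r).isOp φ, h.isOp φ, h'.isOp φ,
    Lp.coeFn_sub (Op ν k φ) (r • Op ν k' φ), Lp.coeFn_smul r (Op ν k' φ)] with y e1 e2 e3 e4 e5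
  change _ = (Op ν k φ - r • Op ν k' φ : Lp W 2 ν) y
  rw [e1, e4, Pi.sub_apply, e5, Pi.smul_apply, e2, e3, op, op, op, ← integral_smul,
    ← integral_sub (h.op_int i y) (by exact (h'.op_int i y).smul r)]
  refine integral_congr_ae (Eventually.of_forall fun x => ?_)
  simp [ContinuousLinearMap.star_eq_adjoint]

theorem Bm.schur (h : Bm k) {c : ℝ} (hc : 0 ≤ c) (h1 : ∀ y, (∫ x, ‖k x y‖ ∂ν) ≤ c)
    (h2 : ∀ y, (∫ x, ‖k y x‖ ∂ν) ≤ c) : ‖Op ν k‖ ≤ c :=
  ContinuousLinearMap.opNorm_le_bound _ hc fun φ => h.op_schur hc h1 h2 φ _ (h.isOp φ)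

theorem Bm.hasDerivAt_Op {K : ℝ → Y → Y → W →L[ℝ] W} {K' K'' : ℝ → Y → Y → W →L[ℝ] W} {s δ c : ℝ}
    (hδ : 0 < δ) (hK : ∀ t ∈ Metric.ball s δ, Bm (K t)) (hK' : Bm (K' s))
    (h1 : ∀ t ∈ Metric.ball s δ, ∀ x y, HasDerivAt (fun t => K t x y) (K' t x y) t)
    (h2 : ∀ t ∈ Metric.ball s δ, ∀ x y, HasDerivAt (fun t => K' t x y) (K'' t x y) t)
    (h3 : ∀ t ∈ Metric.ball s δ, ∀ x y, ‖K'' t x y‖ ≤ c) :
    HasDerivAt (fun t => Op ν (K t)) (Op ν (K' s)) s := by
  have hs := Metric.mem_ball_self (x := s) hδ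
  refine (hasDerivAt_iff_isLittleO (F := Lp W 2 ν →L[ℝ] Lp W 2 ν)).2
    (Asymptotics.IsBigO.trans_isLittleO (Asymptotics.IsBigO.of_bound (|c| * ν.real univ) ?_)
      (Asymptotics.isLittleO_pow_sub_sub s one_lt_two))
  filter_upwards [Metric.ball_mem_nhds s hδ] with t ht
  have b1 := (hK t ht).sub_smul (hK s hs) 1
  have b2 := b1.sub_smul hK' (t - s)
  have e : Op ν (K t) - Op ν (K s) - (t - s) • Op ν (K' s) =
      Op ν fun x y => (K t x y - (1 : ℝ) • K s x y) - (t - s) • K' s x y := by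
    rw [b1.Op_sub_smul hK', (hK t ht).Op_sub_smul (hK s hs), one_smul]
  have hb : ∀ x y, ‖(K t x y - (1 : ℝ) • K s x y) - (t - s) • K' s x y‖ ≤
      |c| * ‖t - s‖ * ‖t - s‖ := by
    intro x y
    have sub : Metric.closedBall s ‖t - s‖ ⊆ Metric.ball s δ :=
      Metric.closedBall_subset_ball (by rwa [← dist_eq_norm])
    have := (convex_closedBall s ‖t - s‖).norm_image_sub_le_of_norm_hasDerivWithin_le
      (f := fun u => K u x y - u • K' s x y) (f' := fun u => K' u x y - K' s x y)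
      (C := |c| * ‖t - s‖) (x := s) (y := t)
      (fun u hu => (((h1 u (sub hu) x y).sub ((hasDerivAt_id u).smul_const
          (K' s x y))).congr_deriv (by rw [one_smul])).hasDerivWithinAt)
      (fun u hu => ((convex_ball s δ).norm_image_sub_le_of_norm_hasDerivWithin_le
        (fun v hv => (h2 v hv x y).hasDerivWithinAt)
        (fun v hv => (h3 v hv x y).trans (le_abs_self c)) hs (sub hu)).trans
          (mul_le_mul_of_nonneg_left (mem_closedBall_iff_norm.1 hu) (abs_nonneg c)))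
      (Metric.mem_closedBall_self (norm_nonneg _)) (mem_closedBall_iff_norm.2 le_rfl)
    refine le_of_eq_of_le (congrArg norm ?_) this
    rw [one_smul, _root_.sub_smul]; abel
  rw [e]
  refine (b2.schur (by positivity) (fun y => (b2.op_l1 hb y).1)
    fun y => (b2.op_l1 hb y).2).trans (le_of_eq ?_)
  rw [abs_of_nonneg (by positivity), norm_pow, norm_norm]; ring

end Pool.Agent.Lib.MP_1c0d65_gt.Nz
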