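import Pool.Agent.Lib.MP_1c0d65_gt.Nz.Ker
import Pool.Agent.Lib.MP_1c0d65_gt.Nz.Dop
import Pool.Agent.Lib.MP_1c0d65_gt.Nz.Op

/-! The graded Hilbert-Schmidt norm of a parametrix tends to the integral of the index density. -/

set_option autoImplicit false
set_option linter.unusedSectionVars false

open scoped ContDiff Topology
open Set MeasureTheory Function Filter

noncomputable section

namespace Pool.Agent.Lib.MP_1c0d65_gt.Nz

open Pool.Agent.Lib.MP_1c0d65_gt.PW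

variable {W : Type} [NormedAddCommGroup W] [InnerProductSpace ℝ W] [FiniteDimensional ℝ W]
  [CompleteSpace W] {C : Cl W}

theorem col_adj (C : Cl W) (a b : W) : inner ℝ (C.ε a) b = inner ℝ a (C.ε b) := by
  conv_lhs => rw [← C.ε_star]
  rw [ContinuousLinearMap.star_eq_adjoint, ContinuousLinearMap.adjoint_inner_left]

theorem col_norm (C : Cl W) (a : W) : ‖C.ε a‖ = ‖a‖ :=
  (ContinuousLinearMap.norm_map_iff_adjoint_comp_self _).2
    (by rw [← ContinuousLinearMap.star_eq_adjoint, C.ε_star]; exact C.ε_sq) a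

theorem col_le (C : Cl W) (a b : W →L[ℝ] W) {w : W} (hw : ‖w‖ = 1) :
    ‖(inner ℝ (C.ε (a w)) (b w) : ℝ)‖ ≤ ‖a‖ * ‖b‖ := by
  refine (norm_inner_le_norm _ _).trans ?_
  rw [col_norm]
  exact mul_le_mul (by simpa [hw] using a.le_opNorm w) (by simpa [hw] using b.le_opNorm w)
    (norm_nonneg _) (norm_nonneg _)

theorem col_pow {p q : ℝ} (hp : 0 < p) (h1 : p ≤ 1) (h : p ≤ q) :
    p ^ (2 + 4 : ℤ) * q ^ (-4 : ℤ) ≤ 1 := by
  have hq : 0 < q := hp.trans_le h
  rw [show (2 + 4 : ℤ) = (6 : ℕ) by norm_num, show (-4 : ℤ) = -((4 : ℕ) : ℤ) by norm_num, zpow_neg,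
    zpow_natCast, zpow_natCast, mul_inv_le_iff₀ (pow_pos hq 4), one_mul]
  exact (pow_le_pow_of_le_one hp.le h1 (by norm_num)).trans (pow_le_pow_left₀ hp.le h 4)

variable {X : Type} [TopologicalSpace X] [T2Space X] [CompactSpace X] [MeasurableSpace X]
  [BorelSpace X] {μ : Measure X}

theorem col_bd (C : Cl W) {k k' : X → W →L[ℝ] W} {w : W} (hw : ‖w‖ = 1)
    (hk : Integrable (fun x => ‖k x‖) μ) {A B : ℝ} (hA : ∫ x, ‖k x‖ ∂μ ≤ A) (h0 : 0 ≤ B)
    (hB : ∀ x, ‖k' x‖ ≤ B) : ‖∫ x, (inner ℝ (C.ε (k x w)) (k' x w) : ℝ) ∂μ‖ ≤ A * B := by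
  refine (norm_integral_le_of_norm_le (hk.mul_const B) (ae_of_all _ fun x =>
    (col_le C _ _ hw).trans (mul_le_mul_of_nonneg_left (hB x) (norm_nonneg _)))).trans ?_
  rw [integral_mul_const]
  exact mul_le_mul_of_nonneg_right hA h0

theorem col_unif {S : Sy X μ C} {n : ℤ} {K : ℝ → X → X → W →L[ℝ] W} (h : S.Ker n K) {δ : ℝ}
    (hδ : 0 < δ) : ∃ B : ℝ, 0 ≤ B ∧ ∀ s ∈ Icc δ 1, ∀ x y, ‖K s x y‖ ≤ B := by
  obtain ⟨c, hc⟩ := h.sup
  obtain ⟨B, hB⟩ := isCompact_Icc.exists_bound_of_continuousOn (s := Icc δ 1)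
    (f := fun s : ℝ => c * √s ^ n) (continuousOn_const.mul
      (Real.continuous_sqrt.continuousOn.zpow₀ n fun s hs =>
        Or.inl (Real.sqrt_pos.2 (hδ.trans_le hs.1)).ne'))
  exact ⟨max B 0, le_max_right _ _, fun s hs x y => (hc s ⟨hδ.trans_le hs.1, hs.2⟩ x y).trans
    ((le_abs_self _).trans ((hB s hs).trans (le_max_left _ _)))⟩

theorem col_DD (S : Sy X μ C) {u v : X → W} (hu : S.Sm ∞ u) (hv : S.Sm ∞ v) :
    ∫ x, inner ℝ (C.ε (S.D (S.D u) x)) (v x) ∂μ = ∫ x, inner ℝ (C.ε (u x)) (S.D (S.D v) x) ∂μ := by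
  have h1 := S.symm hu.eps hv.D
  have h2 := S.symm hu.D.eps hv
  simp only [S.D_eps hu, S.D_eps hu.D, inner_neg_left, integral_neg] at h1 h2
  linarith

variable [IsFiniteMeasure μ] {S : Sy X μ C} {N : ℤ} {K R : ℝ → X → X → W →L[ℝ] W}

theorem col_deriv (h : S.Par N K R) {a b : ℝ} (ha : 0 < a) (hab : a < b) (hb : b ≤ 1) (y : X)
    {w : W} (hw : ‖w‖ = 1) :
    HasDerivAt (fun t => ∫ x, (inner ℝ (C.ε (K t x y w)) (K (b - t) x y w) : ℝ) ∂μ)
      (∫ x, inner ℝ (C.ε (R a x y w)) (K (b - a) x y w) ∂μ -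
        ∫ x, inner ℝ (C.ε (K a x y w)) (R (b - a) x y w) ∂μ) a := by
  obtain ⟨K', hK', hd⟩ := h.hK.ds
  have hd' : ∀ s, 0 < s → ∀ x, HasDerivAt (fun t => K t x y w) (K' s x y w) s := fun s hs x => by
    simpa using (hd s hs x y).clm_apply (hasDerivAt_const s w)
  obtain ⟨δ, hδ, h1, h2⟩ : ∃ δ : ℝ, 0 < δ ∧ δ < a ∧ a < b - δ :=
    ⟨min a (b - a) / 2, half_pos (lt_min ha (sub_pos.2 hab)),
      by have := min_le_left a (b - a); linarith, by have := min_le_right a (b - a); linarith⟩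
  obtain ⟨B, B0, hB⟩ := col_unif h.hK hδ
  obtain ⟨B', -, hB'⟩ := col_unif hK' hδ
  have hba : 0 < b - a := sub_pos.2 hab
  have i1 : ∀ {n m : ℤ} {F G : ℝ → X → X → W →L[ℝ] W}, S.Ker n F → S.Ker m G → ∀ {s t : ℝ},
      0 < s → 0 < t → Integrable (fun x => (inner ℝ (C.ε (F s x y w)) (G t x y w) : ℝ)) μ :=
    fun hF hG _ _ hs ht => (hF.smx hs y w).eps.dop0.int_inner (hG.smx ht y w).dop0
  have key := (hasDerivAt_integral_of_dominated_loc_of_deriv_le (μ := μ) (𝕜 := ℝ)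
    (F := fun t x => (inner ℝ (C.ε (K t x y w)) (K (b - t) x y w) : ℝ))
    (F' := fun t x => (inner ℝ (C.ε (K' t x y w)) (K (b - t) x y w) : ℝ) -
      inner ℝ (C.ε (K t x y w)) (K' (b - t) x y w))
    (bound := fun _ => B' * B + B * B') (Ioo_mem_nhds h1 h2)
    (eventually_of_mem (Ioo_mem_nhds ha hab) fun t ht =>
      (i1 h.hK h.hK ht.1 (sub_pos.2 ht.2)).1) (i1 h.hK h.hK ha hba)
    ((i1 hK' h.hK ha hba).sub (i1 h.hK hK' ha hba)).1
    (ae_of_all _ fun x t ht => ?_) (integrable_const _) (ae_of_all _ fun x t ht => ?_)).2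
  · refine key.congr_deriv (Eq.symm ?_)
    have e : ∀ s, 0 < s → ∀ x, K' s x y w =
        R s x y w - S.D (S.D fun x' => K s x' y w) x := fun s hs x =>
      (hd' s hs x).unique (h.heat s hs x y w)
    have s1 := h.hK.smx ha y w
    have s2 := h.hK.smx hba y w
    rw [integral_sub (i1 hK' h.hK ha hba) (i1 h.hK hK' ha hba)]
    simp only [e a ha, e _ hba, map_sub, inner_sub_left, inner_sub_right]
    rw [integral_sub (i1 h.hR h.hK ha hba) (s1.D.D.eps.dop0.int_inner s2.dop0),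
      integral_sub (i1 h.hK h.hR ha hba) (s1.eps.dop0.int_inner s2.D.D.dop0), col_DD S s1 s2]
    ring
  · have m1 : t ∈ Icc δ 1 := ⟨ht.1.le, by linarith [ht.2]⟩
    have m2 : b - t ∈ Icc δ 1 := ⟨by linarith [ht.2], by linarith [ht.1]⟩
    exact (norm_sub_le _ _).trans (add_le_add
      ((col_le C _ _ hw).trans (mul_le_mul (hB' t m1 x y) (hB _ m2 x y) (norm_nonneg _)
        ((norm_nonneg _).trans (hB' t m1 x y))))
      ((col_le C _ _ hw).trans (mul_le_mul (hB t m1 x y) (hB' _ m2 x y) (norm_nonneg _) B0)))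
  · have d1 := C.ε.hasFDerivAt.comp_hasDerivAt t (hd' t (hδ.trans ht.1) x)
    have d2 := (hd' (b - t) (by linarith [ht.2]) x).comp_const_sub b t
    refine (d1.inner ℝ d2).congr_deriv ?_
    rw [inner_neg_right]
    simp only [Function.comp]
    ring

theorem col_lim (h : S.Par N K R) {b : ℝ} (h0 : 0 < b) (hb : b ≤ 1) (y : X) {w : W}
    (hw : ‖w‖ = 1) :
    Tendsto (fun t => ∫ x, (inner ℝ (C.ε (K t x y w)) (K (b - t) x y w) : ℝ) ∂μ) (𝓝[>] 0)
      (𝓝 (inner ℝ w (C.ε (K b y y w)))) := by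
  obtain ⟨K', hK', hd⟩ := h.hK.ds
  obtain ⟨B, B0, hB⟩ := col_unif hK' (half_pos h0)
  obtain ⟨c, hc⟩ := h.hK.l1
  have su := h.hK.smx h0 y w
  have t1 := (tendsto_const_nhds (x := w)).inner (𝕜 := ℝ) (h.delta _ su.eps y)
  have t2 : Tendsto (fun t : ℝ => c * (B * t)) (𝓝[>] 0) (𝓝 0) := by
    have : Continuous fun t : ℝ => c * (B * t) := by fun_prop
    simpa using (this.tendsto 0).mono_left nhdsWithin_le_nhds
  have t3 : Tendsto (fun t => ∫ x, (inner ℝ (C.ε (K t x y w)) (K (b - t) x y w) : ℝ) ∂μ -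
      inner ℝ w (op μ (K t) (fun x => C.ε (K b x y w)) y)) (𝓝[>] 0) (𝓝 0) := by
    refine squeeze_zero_norm' (eventually_of_mem (Ioo_mem_nhdsGT (half_pos h0)) fun t ht => ?_) t2
    have ht1 : t ∈ Ioc (0 : ℝ) 1 := ⟨ht.1, by linarith [ht.2]⟩
    have st := h.hK.smx ht.1 y w
    have sb := h.hK.smx (show 0 < b - t by linarith [ht.2]) y w
    have e1 : inner ℝ w (op μ (K t) (fun x => C.ε (K b x y w)) y) =
        ∫ x, (inner ℝ (C.ε (K t x y w)) (K b x y w) : ℝ) ∂μ := by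
      rw [op, ← integral_inner ((h.hK.bm ht1).op_int
        (memLp_one_iff_integrable.1 (su.eps.dop0.memLp 1)) y)]
      simp only [ContinuousLinearMap.star_eq_adjoint, ContinuousLinearMap.adjoint_inner_right,
        col_adj]
    have e2 : ∀ x, ‖K (b - t) x y - K b x y‖ ≤ B * t := fun x => by
      have := (convex_Icc (b / 2) 1).norm_image_sub_le_of_norm_hasDerivWithin_le
        (f := fun s => K s x y) (f' := fun s => K' s x y)
        (fun s hs => (hd s ((half_pos h0).trans_le hs.1) x y).hasDerivWithinAt)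
        (fun s hs => hB s hs x y) (x := b) (y := b - t) ⟨by linarith, hb⟩
        ⟨by linarith [ht.2], by linarith [ht.1]⟩
      rwa [sub_sub_cancel_left, norm_neg, Real.norm_of_nonneg ht.1.le] at this
    have e3 := col_bd C hw ((h.hK.bm ht1).ker_int (ν := μ) y).1 (hc t ht1 y).1
      (mul_nonneg B0 ht.1.le) e2
    rw [e1, ← integral_sub (st.eps.dop0.int_inner sb.dop0) (st.eps.dop0.int_inner su.dop0)]
    simpa [inner_sub_right] using e3
  simpa using t3.add t1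

theorem col_est (h : S.Par 2 K R) : ∃ c : ℝ, ∀ t ∈ Ioc (0 : ℝ) (1 / 2), ∀ y, ∀ w : W, ‖w‖ = 1 →
    ‖∫ x, (inner ℝ (C.ε (K t x y w)) (K t x y w) : ℝ) ∂μ - inner ℝ w (C.ε (K (2 * t) y y w))‖ ≤
      c * t := by
  obtain ⟨c1, h1⟩ := h.hK.sup
  obtain ⟨c2, h2⟩ := h.hK.l1
  obtain ⟨c3, h3⟩ := h.hR.sup
  obtain ⟨c4, h4⟩ := h.hR.l1
  refine ⟨|c4| * |c1| + |c2| * |c3|, fun t ht y w hw => ?_⟩
  have hb : 2 * t ≤ 1 := by linarith [ht.2]
  have bd : ∀ a ∈ Ioc 0 t, ‖∫ x, (inner ℝ (C.ε (R a x y w)) (K (2 * t - a) x y w) : ℝ) ∂μ -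
      ∫ x, inner ℝ (C.ε (K a x y w)) (R (2 * t - a) x y w) ∂μ‖ ≤ |c4| * |c1| + |c2| * |c3| := by
    intro a ha
    have m1 : a ∈ Ioc (0 : ℝ) 1 := ⟨ha.1, by linarith [ha.2, ht.2]⟩
    have m2 : 2 * t - a ∈ Ioc (0 : ℝ) 1 := ⟨by linarith [ha.2, ht.1], by linarith [ha.1]⟩
    have p1 := Real.sqrt_pos.2 m1.1
    have p2 := Real.sqrt_pos.2 m2.1
    have ab : ∀ (c r : ℝ) (n : ℤ), 0 < r → c * r ^ n ≤ |c| * r ^ n := fun c r n hr =>
      mul_le_mul_of_nonneg_right (le_abs_self c) (zpow_pos hr n).le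
    refine (norm_sub_le _ _).trans (add_le_add ?_ ?_)
    · refine (col_bd C hw ((h.hR.bm m1).ker_int (ν := μ) y).1 ((h4 a m1 y).1.trans (ab _ _ _ p1))
        (mul_nonneg (abs_nonneg c1) (zpow_pos p2 _).le)
        fun x => (h1 _ m2 x y).trans (ab _ _ _ p2)).trans ?_
      rw [mul_mul_mul_comm]
      exact mul_le_of_le_one_right (by positivity) (col_pow p1 (Real.sqrt_le_one.2 m1.2)
        (Real.sqrt_le_sqrt (by linarith [ha.2])))
    · refine (col_bd C hw ((h.hK.bm m1).ker_int (ν := μ) y).1 ((h2 a m1 y).1.trans (ab _ _ _ p1))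
        (mul_nonneg (abs_nonneg c3) (zpow_pos p2 _).le)
        fun x => (h3 _ m2 x y).trans (ab _ _ _ p2)).trans ?_
      rw [neg_add_cancel, zpow_zero, mul_one, ← mul_assoc]
      exact mul_le_of_le_one_right (by positivity)
        (zpow_le_one₀ p2 (Real.sqrt_le_one.2 m2.2) (by norm_num))
  have t1 := (tendsto_const_nhds (x := ∫ x, (inner ℝ (C.ε (K t x y w)) (K t x y w) : ℝ) ∂μ)).sub
    (col_lim h (mul_pos two_pos ht.1) hb y hw)
  refine le_of_tendsto t1.norm (eventually_of_mem (Ioc_mem_nhdsGT ht.1) fun a ha => ?_)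
  have := (convex_Ioc 0 t).norm_image_sub_le_of_norm_hasDerivWithin_le
    (fun s hs => (col_deriv h hs.1 (by linarith [hs.2, ht.1]) hb y hw).hasDerivWithinAt) bd
    (x := a) (y := t) ha ⟨ht.1, le_rfl⟩
  rw [show 2 * t - t = t by ring, Real.norm_of_nonneg (sub_nonneg.2 ha.2)] at this
  exact this.trans (mul_le_mul_of_nonneg_left (by linarith [ha.1]) (by positivity))

theorem col_meas (C : Cl W) {k : X → X → W →L[ℝ] W} (h : Bm k) :
    StronglyMeasurable (C.col μ k) := by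
  refine StronglyMeasurable.integral_prod_left (f := fun x y => ∑ j,
    (inner ℝ (C.ε (k x y (stdOrthonormalBasis ℝ W j))) (k x y (stdOrthonormalBasis ℝ W j)) : ℝ)) ?_
  have : Continuous fun a : W →L[ℝ] W => ∑ j,
      (inner ℝ (C.ε (a (stdOrthonormalBasis ℝ W j))) (a (stdOrthonormalBasis ℝ W j)) : ℝ) := by
    fun_prop
  exact this.comp_stronglyMeasurable h.1

omit [IsFiniteMeasure μ] in
theorem Sy.Par.col [IsFiniteMeasure μ] {S : Sy X μ C} {K R : ℝ → X → X → W →L[ℝ] W}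
    (h : S.Par 2 K R) : Tendsto (fun s => ∫ y, C.col μ (K s) y ∂μ) (𝓝[>] 0) (𝓝 S.ind) := by
  obtain ⟨c, hc⟩ := col_est h
  obtain ⟨l, hl⟩ := C.exists_str
  have t0 : Tendsto (fun s : ℝ => 2 * s) (𝓝[>] 0) (𝓝[>] 0) := by
    refine tendsto_nhdsWithin_iff.2 ⟨?_, eventually_of_mem self_mem_nhdsWithin fun s hs =>
      mem_Ioi.2 (mul_pos two_pos hs)⟩
    have : Continuous fun t : ℝ => 2 * t := by fun_prop
    simpa using (this.tendsto 0).mono_left nhdsWithin_le_nhds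
  have t1 := h.diag.comp t0
  have t2 : Tendsto (fun t : ℝ => Module.finrank ℝ W * (c * t) * μ.real univ) (𝓝[>] 0) (𝓝 0) := by
    have : Continuous fun t : ℝ => Module.finrank ℝ W * (c * t) * μ.real univ := by fun_prop
    simpa using (this.tendsto 0).mono_left nhdsWithin_le_nhds
  have t3 : Tendsto (fun t => ∫ y, C.col μ (K t) y ∂μ - ∫ y, C.str (K (2 * t) y y) ∂μ) (𝓝[>] 0)
      (𝓝 0) := by
    refine squeeze_zero_norm' (eventually_of_mem (Ioc_mem_nhdsGT one_half_pos) fun t ht => ?_) t2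
    have m1 : t ∈ Ioc (0 : ℝ) 1 := ⟨ht.1, by linarith [ht.2]⟩
    have m2 : 2 * t ∈ Ioc (0 : ℝ) 1 := ⟨mul_pos two_pos ht.1, by linarith [ht.2]⟩
    have e1 : ∀ y, ‖C.col μ (K t) y - C.str (K (2 * t) y y)‖ ≤ Module.finrank ℝ W * (c * t) := by
      intro y
      rw [Cl.col, C.str_eq_sum, integral_finsetSum _ fun j _ =>
        (h.hK.smx ht.1 y _).eps.dop0.int_inner (h.hK.smx ht.1 y _).dop0, ← Finset.sum_sub_distrib]
      refine (norm_sum_le_of_le _ fun j _ =>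
        hc t ht y _ ((stdOrthonormalBasis ℝ W).orthonormal.1 j)).trans ?_
      simp
    obtain ⟨b1, b, hb⟩ := h.hK.bm m2
    have i1 : Integrable (fun y => C.str (K (2 * t) y y)) μ := by
      simp only [← hl]
      exact l.integrable_comp (Integrable.of_bound
        (b1.comp_measurable (measurable_id.prodMk measurable_id)).aestronglyMeasurable b
        (ae_of_all _ fun y => hb y y))
    have i2 : Integrable (fun y => C.col μ (K t) y - C.str (K (2 * t) y y)) μ :=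
      Integrable.of_bound ((col_meas C (h.hK.bm m1)).aestronglyMeasurable.sub i1.1) _
        (ae_of_all _ e1)
    have i3 : Integrable (fun y => C.col μ (K t) y) μ :=
      (i2.add i1).congr (ae_of_all _ fun y => sub_add_cancel _ _)
    rw [← integral_sub i3 i1]
    exact norm_integral_le_of_norm_le_const (ae_of_all _ e1)
  simpa using t3.add t1

end Pool.Agent.Lib.MP_1c0d65_gt.Nz
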