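import Pool.Agent.Lib.MP_1c0d65_gt.Nz.Tc
import Pool.Agent.Lib.MP_1c0d65_gt.Nz.Weitz

/-! The heat operator of the Dirac operator in a gauge. -/

set_option autoImplicit false

open scoped ContDiff Topology
open Set Function

noncomputable section

namespace Pool.Agent.Lib.MP_1c0d65_gt.Nz

open Pool.Agent.Lib.MP_1c0d65_gt.PW

theorem cj_slice {V : Type} [NormedAddCommGroup V] [NormedSpace ℝ V] {c : E × E → V}
    (hc : ContDiff ℝ ∞ c) (y : E) : ContDiff ℝ ∞ fun x => c (x, y) :=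
  hc.comp (contDiff_id.prodMk contDiff_const)

theorem Fr.cj_dx {V : Type} [NormedAddCommGroup V] [NormedSpace ℝ V] (f : Fr) {c : E × E → V}
    (hc : ContDiff ℝ ∞ c) (i : Fin 4) (x y : E) :
    f.d i (fun x' => c (x', y)) x = f.dx i c (x, y) := by
  have h := ((hc.differentiable (by simp) (x, y)).hasFDerivAt.comp x
    (hasFDerivAt_prodMk_left (𝕜 := ℝ) x y)).fderiv
  simp only [Fr.d, Fr.dx]
  rw [show (fun x' => c (x', y)) = c ∘ fun x' => (x', y) from rfl, h]
  rfl

theorem Fr.cj_d_mul {A : Type} [NormedRing A] [NormedAlgebra ℝ A] (f : Fr) (i : Fin 4)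
    {a b : E → A} (ha : ContDiff ℝ ∞ a) (hb : ContDiff ℝ ∞ b) (z : E) :
    f.d i (fun z => a z * b z) z = f.d i a z * b z + a z * f.d i b z := by
  simp only [Fr.d]
  rw [fderiv_fun_mul' (ha.differentiable (by simp) z) (hb.differentiable (by simp) z)]
  simp [add_comm]

variable {W : Type} [NormedAddCommGroup W] [InnerProductSpace ℝ W] [FiniteDimensional ℝ W]
  [CompleteSpace W] {C : Cl W}

theorem Loc.Gauge.cj_nab {L : Loc C} {G : E × E → W →L[ℝ] W}
    {B : Fin 4 → E × E → W →L[ℝ] W} (h : L.Gauge G B) {φ : E → W →L[ℝ] W}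
    (hφ : ContDiff ℝ ∞ φ) (i : Fin 4) (y : E) (w : W) :
    L.nab i (fun x => (G (x, y) * φ x) w) =
      fun x => (G (x, y) * (B i (x, y) * φ x + L.d i φ x)) w := by
  funext x
  have h1 := L.wz_d_clm i (ContinuousLinearMap.apply ℝ W w) ((cj_slice h.hG y).mul hφ) x
  rw [L.cj_d_mul i (cj_slice h.hG y) hφ, L.cj_dx h.hG] at h1
  rw [mul_add, ← mul_assoc, ← h.conj, add_mul]
  simp only [ContinuousLinearMap.apply_apply] at h1
  rw [Loc.nab, h1]
  simp only [add_apply, mul_apply_eq_comp]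
  abel

theorem Loc.Gauge.heat {L : Loc C} {G : E × E → W →L[ℝ] W} {B : Fin 4 → E × E → W →L[ℝ] W}
    (h : L.Gauge G B) {n : ℤ} {F : Z → W →L[ℝ] W} (hF : L.T n F) :
    L.Heat (fun z => G z.2 * F z) fun z => G z.2 * L.heat
      (fun i q => L.b i q.1 • (1 : W →L[ℝ] W) - (2 : ℝ) • B i q)
      (fun q => ∑ i, (L.b i q.1 • B i q - L.dx i (B i) q - B i q * B i q)
        - star (G q) * L.En q.1 * G q) F z := by
  intro s hs x y w
  have hφ : ContDiff ℝ ∞ fun x => F (s, x, y) := cj_slice (hF.smooth_s hs) y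
  have d1 : ∀ i, L.d i (fun x => F (s, x, y)) = fun x => L.eX i F (s, x, y) := fun i =>
    funext fun x => hF.d_eq hs i x y
  have hψ : ∀ i, ContDiff ℝ ∞ fun x => L.eX i F (s, x, y) := fun i => d1 i ▸ L.wz_d i hφ
  have hb : ∀ i, ContDiff ℝ ∞ fun x => B i (x, y) * F (s, x, y) := fun i =>
    (cj_slice (h.hB i) y).mul hφ
  have n1 : ∀ i, L.nab i (fun x => (G (x, y) * F (s, x, y)) w) =
      fun x => (G (x, y) * (B i (x, y) * F (s, x, y) + L.eX i F (s, x, y))) w := fun i => by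
    rw [h.cj_nab hφ, d1]
  have n2 : ∀ i, L.nab i (L.nab i fun x => (G (x, y) * F (s, x, y)) w) x =
      (G (x, y) * (B i (x, y) * (B i (x, y) * F (s, x, y) + L.eX i F (s, x, y)) +
        (L.dx i (B i) (x, y) * F (s, x, y) + B i (x, y) * L.eX i F (s, x, y) +
          L.eX i (L.eX i F) (s, x, y)))) w := fun i => by
    rw [n1, h.cj_nab ((hb i).add (hψ i))]
    simp only
    rw [L.wz_d_add i (hb i) (hψ i), L.cj_d_mul i (cj_slice (h.hB i) y) hφ, L.cj_dx (h.hB i), d1,
      (hF.eX i).d_eq hs]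
  have e : L.En x ((G (x, y) * F (s, x, y)) w) =
      G (x, y) ((star (G (x, y)) * L.En x * G (x, y)) (F (s, x, y) w)) := by
    rw [← mul_apply_eq_comp (G (x, y)), ← mul_assoc, ← mul_assoc, h.g2, one_mul]
    rfl
  have hd := ((G (x, y)).comp (ContinuousLinearMap.apply ℝ W w)).hasFDerivAt.comp_hasDerivAt s
    (hF.hasDerivAt hs (x, y))
  refine HasDerivAt.congr_deriv hd ?_
  simp only
  rw [L.weitz (u := fun x => (G (x, y) * F (s, x, y)) w)
    (((cj_slice h.hG y).mul hφ).clm_apply contDiff_const), e]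
  simp only [n2]
  simp only [n1]
  simp only [Fr.heat, mul_apply_eq_comp, add_apply, sub_apply, smul_apply,
    one_apply_eq_self, map_add, map_sub, map_smul, Fin.sum_univ_four,
    ContinuousLinearMap.comp_apply, ContinuousLinearMap.apply_apply]
  module

end Pool.Agent.Lib.MP_1c0d65_gt.Nz
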