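import Pool.Agent.Lib.MP_1c0d65_gt.Nz.Cls

/-! A Dirac system given by a cocycle has a measurable global frame. -/

set_option autoImplicit false

open scoped ContDiff Topology
open Set MeasureTheory Function Filter

noncomputable section

namespace Pool.Agent.Lib.MP_1c0d65_gt.Nz

open Pool.Agent.Lib.MP_1c0d65_gt.PW

variable {W : Type} [NormedAddCommGroup W] [InnerProductSpace ℝ W] [FiniteDimensional ℝ W]
  [CompleteSpace W] {C : Cl W}

namespace Sys

section alg

variable {X : Type} [TopologicalSpace X] [MeasurableSpace X] {μ : Measure X} (S : Sys X μ C)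

theorem cv_cover (x : X) : ∃ a, x ∈ range (S.ψ a) := by
  by_contra h
  have h0 : ∀ a, extend (S.ψ a) (S.ρ a) 0 x = 0 := fun a => by
    rw [extend_apply' _ _ _ (fun hx => h ⟨a, hx⟩)]; rfl
  have := S.sum x
  simp [h0] at this

open Classical in
/-- The charts that contain `x`. -/
def cvSet (x : X) : Finset (Fin S.n) := Finset.univ.filter fun a => x ∈ range (S.ψ a)

theorem mem_cvSet {x : X} {a : Fin S.n} : a ∈ S.cvSet x ↔ x ∈ range (S.ψ a) := by
  simp only [cvSet, Finset.mem_filter, Finset.mem_univ, true_and]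

/-- The first chart that contains `x`. -/
def idx (x : X) : Fin S.n :=
  (S.cvSet x).min' ((S.cv_cover x).imp fun _ h => S.mem_cvSet.2 h)

theorem idx_mem (x : X) : x ∈ range (S.ψ (S.idx x)) := S.mem_cvSet.1 (Finset.min'_mem _ _)

theorem idx_le {x : X} {a : Fin S.n} (h : x ∈ range (S.ψ a)) : S.idx x ≤ a :=
  Finset.min'_le _ _ (S.mem_cvSet.2 h)

/-- The coordinates of `x` in its first chart. -/
def pt (x : X) : E := invFun (S.ψ (S.idx x)) x

theorem ψ_pt (x : X) : S.ψ (S.idx x) (S.pt x) = x := invFun_eq (S.idx_mem x)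

open Classical in
/-- The transition map, extended by the identity. -/
def hx (a c : Fin S.n) : X → W →L[ℝ] W :=
  (range (S.ψ a) ∩ range (S.ψ c)).piecewise (S.h a c) fun _ => 1

/-- The global frame. -/
def gg (a : Fin S.n) (x : X) : W →L[ℝ] W := S.hx a (S.idx x) x

theorem gg_of_mem {a : Fin S.n} {x : X} (h : x ∈ range (S.ψ a)) :
    S.gg a x = S.h a (S.idx x) x := by
  classical
  unfold gg hx
  exact piecewise_eq_of_mem _ _ _ (mem_inter h (S.idx_mem x))

theorem gg_of_notMem {a : Fin S.n} {x : X} (h : x ∉ range (S.ψ a)) : S.gg a x = 1 := by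
  classical
  unfold gg hx
  exact piecewise_eq_of_notMem _ _ _ fun h' => h (mem_of_mem_inter_left h')

theorem h_self' {a : Fin S.n} {x : X} (h : x ∈ range (S.ψ a)) : S.h a a x = 1 := by
  obtain ⟨z, rfl⟩ := h
  exact S.h_self a z

theorem gg1 (a : Fin S.n) (x : X) : star (S.gg a x) * S.gg a x = 1 := by
  by_cases h : x ∈ range (S.ψ a)
  · rw [S.gg_of_mem h, S.h_star _ _ _ h (S.idx_mem x), S.h_coc _ _ _ _ (S.idx_mem x) h (S.idx_mem x),
      S.h_self' (S.idx_mem x)]
  · rw [S.gg_of_notMem h, star_one, mul_one]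

theorem gg2 (a : Fin S.n) (x : X) : S.gg a x * star (S.gg a x) = 1 := by
  by_cases h : x ∈ range (S.ψ a)
  · rw [S.gg_of_mem h, S.h_star _ _ _ h (S.idx_mem x), S.h_coc _ _ _ _ h (S.idx_mem x) h,
      S.h_self' h]
  · rw [S.gg_of_notMem h, star_one, mul_one]

theorem gg_even (a : Fin S.n) (x : X) : C.ε * S.gg a x = S.gg a x * C.ε := by
  by_cases h : x ∈ range (S.ψ a)
  · rw [S.gg_of_mem h, S.h_even _ _ _ h (S.idx_mem x)]
  · rw [S.gg_of_notMem h, mul_one, one_mul]

theorem gg_tr {a b : Fin S.n} {x : X} (ha : x ∈ range (S.ψ a)) (hb : x ∈ range (S.ψ b)) :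
    S.gg b x * star (S.gg a x) = S.h b a x := by
  rw [S.gg_of_mem ha, S.gg_of_mem hb, S.h_star _ _ _ ha (S.idx_mem x),
    S.h_coc _ _ _ _ hb (S.idx_mem x) ha]

/-- The local representatives. -/
def lc (u : X → W) (a : Fin S.n) (z : E) : W := S.gg a (S.ψ a z) (u (S.ψ a z))

theorem lc_cp (u : X → W) : S.Cp S.h (S.lc u) := by
  intro a b z z' h
  have ha : S.ψ a z ∈ range (S.ψ a) := ⟨z, rfl⟩
  have hb : S.ψ a z ∈ range (S.ψ b) := ⟨z', h.symm⟩
  simp only [lc, ← h]
  rw [S.gg_of_mem ha, S.gg_of_mem hb, ← S.h_coc _ _ _ _ hb ha (S.idx_mem _)]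
  rfl

/-- The section with given local representatives. -/
def gl (v : Fin S.n → E → W) (x : X) : W := v (S.idx x) (S.pt x)

theorem lc_gl {v : Fin S.n → E → W} (hv : S.Cp S.h v) : S.lc (S.gl v) = v := by
  funext a z
  have h := hv _ a _ z (S.ψ_pt (S.ψ a z))
  rw [S.ψ_pt] at h
  rw [h, lc, S.gg_of_mem ⟨z, rfl⟩]
  rfl

theorem lc_inj {u : X → W} (h : S.lc u = 0) : u = 0 := by
  funext x
  have h1 : S.gg (S.idx x) x (u x) = 0 := by
    have := congrFun (congrFun h (S.idx x)) (S.pt x)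
    rwa [lc, S.ψ_pt] at this
  rwa [S.gg_of_mem (S.idx_mem x), S.h_self' (S.idx_mem x)] at h1

end alg

variable {X : Type} [TopologicalSpace X] [MeasurableSpace X] [BorelSpace X] {μ : Measure X}
  (S : Sys X μ C)

theorem measurable_idx : Measurable S.idx := by
  refine measurable_to_countable' fun c => ?_
  have : S.idx ⁻¹' {c} = range (S.ψ c) \ ⋃ a : {a // a < c}, range (S.ψ a.1) := by
    ext x
    simp only [mem_preimage, mem_singleton_iff, Set.mem_sdiff, mem_iUnion, not_exists]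
    constructor
    · rintro rfl
      exact ⟨S.idx_mem x, fun a ha => (S.idx_le ha).not_gt a.2⟩
    · rintro ⟨h1, h2⟩
      exact le_antisymm (S.idx_le h1) (not_lt.1 fun hlt => h2 ⟨_, hlt⟩ (S.idx_mem x))
  rw [this]
  exact (S.emb c).isOpen_range.measurableSet.diff
    (MeasurableSet.iUnion fun a => (S.emb a.1).isOpen_range.measurableSet)

theorem measurable_hx (a c : Fin S.n) : Measurable (S.hx a c) := by
  classical
  refine ContinuousOn.measurable_piecewise ?_ continuousOn_const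
    ((S.emb a).isOpen_range.inter (S.emb c).isOpen_range).measurableSet
  rintro x ⟨ha, z, rfl⟩
  refine ContinuousAt.continuousWithinAt ((S.emb c).continuousAt_iff.1 ?_)
  exact (S.h_sm c a).continuousOn.continuousAt
    (((S.emb a).isOpen_range.preimage (S.emb c).continuous).mem_nhds ha)

theorem gg_meas (a : Fin S.n) : StronglyMeasurable (S.gg a) := by
  have : ProperSpace W := FiniteDimensional.proper_real W
  refine Measurable.stronglyMeasurable fun s hs => ?_
  have : S.gg a ⁻¹' s = ⋃ c, S.idx ⁻¹' {c} ∩ S.hx a c ⁻¹' s := by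
    ext x
    simp [gg]
  rw [this]
  exact MeasurableSet.iUnion fun c =>
    (S.measurable_idx (measurableSet_singleton c)).inter (S.measurable_hx a c hs)

/-- The system in the global frame. -/
def toSy : Sy X μ C where
  toAtl := S.toAtl
  g := S.gg
  g_meas := S.gg_meas
  g1 := S.gg1
  g2 := S.gg2
  g_even := S.gg_even
  g_sm a b := (S.h_sm a b).congr fun z hz => S.gg_tr ⟨z, rfl⟩ hz
  D u := S.gl fun a => (S.L a).D (S.lc u a)
  hD u hu a z := congrFun (congrFun (S.lc_gl (S.cov (S.lc u) hu (S.lc_cp u))) a) z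

end Sys

variable {X : Type} [TopologicalSpace X] [T2Space X] [CompactSpace X] [MeasurableSpace X]
  [BorelSpace X] {μ : Measure X}

set_option linter.unusedSectionVars false in
theorem Sys.exists_sy (S : Sys X μ C) : ∃ T : Sy X μ C, T.ind = S.ind ∧
    ∀ (σ : ℝ) (P : Submodule ℝ T.sec),
      (∀ u, u ∈ P ↔ T.D u.1 = 0 ∧ ∀ x, C.ε (u.1 x) = σ • u.1 x) →
      Nonempty (P ≃ₗ[ℝ] S.ker σ) := by
  refine ⟨S.toSy, rfl, fun σ P hP => ?_⟩
  have hm : ∀ u : P, S.lc u.1.1 ∈ S.ker σ := fun u => by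
    obtain ⟨h1, h2⟩ := (hP u.1).1 u.2
    refine ⟨u.1.2, S.lc_cp _, fun a z => ?_, fun a z => ?_⟩
    · have := S.toSy.hD u.1.1 u.1.2 a z
      rw [h1, Pi.zero_apply, map_zero] at this
      exact this.symm
    · have := congrArg (fun T : W →L[ℝ] W => T (u.1.1 (S.ψ a z))) (S.gg_even a (S.ψ a z))
      simp only [mul_apply_eq_comp, h2, map_smul] at this
      exact this
  let Φ : P →ₗ[ℝ] S.ker σ :=
    { toFun := fun u => ⟨S.lc u.1.1, hm u⟩
      map_add' := fun u v => by ext a z; simp [Sys.lc]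
      map_smul' := fun r u => by ext a z; simp [Sys.lc] }
  refine ⟨LinearEquiv.ofBijective Φ ⟨?_, ?_⟩⟩
  · rw [injective_iff_map_eq_zero]
    intro u hu
    exact Subtype.ext (Subtype.ext (S.lc_inj (congrArg Subtype.val hu)))
  · rintro ⟨v, h1, h2, h3, h4⟩
    have hv := S.lc_gl h2
    have hs : S.gl v ∈ S.toSy.sec := fun a => by
      have : S.toSy.loc a (S.gl v) = v a := congrFun hv a
      rw [this]; exact h1 a
    refine ⟨⟨⟨S.gl v, hs⟩, (hP _).2 ⟨?_, fun x => h4 _ _⟩⟩, Subtype.ext hv⟩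
    funext x
    change (S.L (S.idx x)).D (S.lc (S.gl v) (S.idx x)) (S.pt x) = 0
    rw [hv]
    exact h3 _ _

end Pool.Agent.Lib.MP_1c0d65_gt.Nz
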