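import Pool.Agent.Lib.MP_1c0d65_gt.Nz.Key
import Pool.Agent.Lib.MP_1c0d65_gt.Nz.Weitz

/-! The parametrix in a radial gauge and its supertrace on the diagonal. -/

set_option autoImplicit false

open scoped ContDiff Topology
open Set Function Filter

noncomputable section

namespace Pool.Agent.Lib.MP_1c0d65_gt.Nz

open Pool.Agent.Lib.MP_1c0d65_gt.PW

section
variable {A A' : Type} [NormedRing A] [NormedAlgebra ℝ A] [NormedRing A'] [NormedAlgebra ℝ A']
  {f : Fr} {n : ℤ}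

theorem ld_nhds {z : Z} (hz : 0 < z.1) : {z : Z | 0 < z.1} ∈ 𝓝 z :=
  (isOpen_lt continuous_const continuous_fst).mem_nhds hz

theorem ld_fderiv {F : Z → A} (h : f.T n F) (l : A →L[ℝ] A') {z : Z} (hz : 0 < z.1) (v : Z) :
    fderiv ℝ (fun z => l (F z)) z v = l (fderiv ℝ F z v) := by
  have := (h.smooth.contDiffAt (ld_nhds hz)).differentiableAt (by simp)
  exact congrArg (fun a : Z →L[ℝ] A' => a v) (l.hasFDerivAt.comp z this.hasFDerivAt).fderiv

theorem ld_eX {F : Z → A} (h : f.T n F) (l : A →L[ℝ] A') (i : Fin 4) {z : Z} (hz : 0 < z.1) :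
    f.eX i (fun z => l (F z)) z = l (f.eX i F z) := ld_fderiv h l hz _

/-- The heat operator with scalar coefficients. -/
def ldH (f : Fr) (b : Fin 4 → E → ℝ) (F : Z → A) : Z → A :=
  f.heat (fun i q => b i q.1 • (1 : A)) (fun _ => 0) F

theorem ldH_map (b : Fin 4 → E → ℝ) {F : Z → A} (h : f.T n F) (l : A →L[ℝ] A') {z : Z}
    (hz : 0 < z.1) : ldH f b (fun z => l (F z)) z = l (ldH f b F z) := by
  have h2 : ∀ i, f.eX i (f.eX i fun z => l (F z)) z = l (f.eX i (f.eX i F) z) := fun i => by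
    rw [← ld_eX (h.eX i) l i hz]
    have e : (f.eX i fun z => l (F z)) =ᶠ[𝓝 z] fun z => l (f.eX i F z) := by
      filter_upwards [ld_nhds hz] with w hw using ld_eX h l i hw
    exact congrArg (fun a : Z →L[ℝ] A' => a (0, f.e i z.2.1, 0)) e.fderiv_eq
  have h1 : ds (fun z => l (F z)) z = l (ds F z) := ld_fderiv h l hz _
  simp only [ldH, Fr.heat, h1, h2, ld_eX h l _ hz, smul_mul_assoc, one_mul, zero_mul, add_zero,
    map_add, map_sub, map_sum, map_smul]

/-- The perturbation. -/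
def ldP (f : Fr) (B : Fin 4 → E × E → A) (γ : E × E → A) (F : Z → A) (z : Z) : A :=
  γ z.2 * F z - (2 : ℝ) • ∑ i, B i z.2 * f.eX i F z

theorem ld_split (b : Fin 4 → E → ℝ) (B : Fin 4 → E × E → A) (γ : E × E → A) (F : Z → A) (z : Z) :
    f.heat (fun i q => b i q.1 • (1 : A) - (2 : ℝ) • B i q) γ F z =
      ldH f b F z + ldP f B γ F z := by
  simp only [ldH, ldP, Fr.heat, sub_mul, smul_mul_assoc, Finset.sum_sub_distrib, Finset.smul_sum,
    zero_mul]
  abel

theorem ld_mul {r : ℕ} {c : E × E → A} {F : Z → A} (hc : f.I r c) (h : f.T n F) :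
    f.T (n + r) fun z => c z.2 * F z := Fr.T.bil hc h (ContinuousLinearMap.mul ℝ A)

theorem ld_Imul {r t : ℕ} {c d : E × E → A} (hc : f.I r c) (hd : f.I t d) :
    f.I (r + t) fun q => c q * d q := hc.bil hd (ContinuousLinearMap.mul ℝ A)

theorem ld_Ismul {r t : ℕ} {c : E × E → ℝ} {d : E × E → A} (hc : f.I r c) (hd : f.I t d) :
    f.I (r + t) fun q => c q • d q := hc.bil hd (ContinuousLinearMap.lsmul ℝ ℝ)

variable {B : Fin 4 → E × E → A} {γ En : E × E → A}

theorem ldP_T (hB : ∀ i, f.I 1 (B i)) (hγ : f.I 0 γ) {F : Z → A} (h : f.T n F) :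
    f.T n (ldP f B γ F) := by
  have h1 : f.T n fun z => γ z.2 * F z := (ld_mul hγ h).mono (by simp)
  have h2 : f.T n fun z => ∑ i, B i z.2 * f.eX i F z :=
    Fr.T.sum _ fun i _ => (ld_mul (hB i) (h.eX i)).mono (by simp)
  exact h1.sub (h2.smul 2)

theorem ldP_add {m : ℤ} {F G : Z → A} (hF : f.T n F) (hG : f.T m G) {z : Z} (hz : 0 < z.1) :
    ldP f B γ (F + G) z = ldP f B γ F z + ldP f B γ G z := by
  have h := f.heat_add (β := fun i q => (0 : ℝ) • (1 : A) - (2 : ℝ) • B i q) (γ := γ) hF hG hz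
  have h' : ldH f (fun _ _ => 0) (F + G) z = ldH f (fun _ _ => 0) F z + ldH f (fun _ _ => 0) G z :=
    f.heat_add hF hG hz
  rw [ld_split (fun _ _ => 0), ld_split (fun _ _ => 0), ld_split (fun _ _ => 0), h'] at h
  refine add_left_cancel (h.trans ?_)
  abel

theorem ldP_gen (hB : ∀ i, f.I 1 (B i)) (hγ : f.I 1 fun q => γ q + En q)
    (hR : f.I 3 fun q => ∑ i, ((1 / 2 : ℝ) * ∑ j, f.eta j q * f.dx i (f.eta j) q) • B i q)
    (p : ℤ) {c : E × E → A} (hc : f.I 0 c) :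
    f.T (2 * p + 1) (ldP f B γ (f.gen p c) + f.gen p fun q => En q * c q) := by
  have h1 := Fr.T.gen (n := 2 * p + 1) p _ _ (ld_Imul hγ hc) (by simp)
  have h2 := Fr.T.gen (n := 2 * p + 1) p _ _
    (Fr.I.sum Finset.univ fun i _ => ld_Imul (hB i) (hc.dx i)) (by simp)
  have h3 := Fr.T.gen (n := 2 * p + 1) (p - 1) _ _ (ld_Imul hR hc) (by simp; omega)
  refine (h1.sub ((h2.sub h3).smul 2)).congr fun z hz => ?_
  simp only [Pi.add_apply, Pi.sub_apply, Pi.smul_apply, ldP, f.eX_gen p hc.smooth _ hz, Fr.gen,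
    mul_sub, add_mul, mul_smul_comm, smul_mul_assoc, Finset.sum_sub_distrib, Finset.smul_sum,
    Finset.sum_mul, smul_add]
  abel

theorem ld_dx_mul {c d : E × E → A} (hc : ContDiff ℝ ∞ c) (hd : ContDiff ℝ ∞ d) (i : Fin 4) :
    f.dx i (fun q => c q * d q) = fun q => c q * f.dx i d q + f.dx i c q * d q := by
  funext q
  rw [Fr.dx, fderiv_fun_mul' (hc.differentiable (by simp) q) (hd.differentiable (by simp) q)]
  rfl

theorem ld_dx_add {c d : E × E → A} (hc : ContDiff ℝ ∞ c) (hd : ContDiff ℝ ∞ d) (i : Fin 4)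
    (q : E × E) : f.dx i (fun q => c q + d q) q = f.dx i c q + f.dx i d q := by
  rw [Fr.dx, fderiv_fun_add (hc.differentiable (by simp) q) (hd.differentiable (by simp) q)]
  rfl

theorem ld_dx_sum {c : Fin 4 → E × E → A} (hc : ∀ k, ContDiff ℝ ∞ (c k)) (i : Fin 4) :
    f.dx i (fun q => ∑ k, c k q) = fun q => ∑ k, f.dx i (c k) q := by
  funext q
  rw [Fr.dx, fderiv_fun_sum fun k _ => (hc k).differentiable (by simp) q]
  simp only [sum_apply, Fr.dx]

theorem ld_dx_smul (a : ℝ) {c : E × E → A} (hc : ContDiff ℝ ∞ c) (i : Fin 4) :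
    f.dx i (fun q => a • c q) = fun q => a • f.dx i c q := by
  funext q
  rw [Fr.dx, fderiv_fun_const_smul (hc.differentiable (by simp) q)]
  rfl

theorem ld_dx_eta {O : E → A} (hO : ContDiff ℝ ∞ O) (i k : Fin 4) (y : E) :
    f.dx i (fun q => f.eta k q • O q.2) (y, y) = if k = i then O y else 0 := by
  have h1 := (f.eta_smooth k).differentiable (by simp) (y, y)
  have h2 : DifferentiableAt ℝ (fun q : E × E => O q.2) (y, y) :=
    (hO.comp contDiff_snd).differentiable (by simp) _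
  have h3 := f.dx_eta_diag i k y
  rw [Fr.dx] at h3
  rw [Fr.dx, fderiv_fun_smul h1 h2]
  simp [f.eta_diag, h3]

variable {O : Fin 4 → Fin 4 → E → A}

theorem ld_B0 (hO : ∀ i j, ContDiff ℝ ∞ (O i j)) (i : Fin 4) :
    f.I 1 fun q => (1 / 2 : ℝ) • ∑ k, f.eta k q • O k i q.2 :=
  (Fr.I.sum _ fun k _ => Fr.I.eta_smul (r := 0) ((hO k i).comp contDiff_snd) k).smul _

theorem ld_B (hO : ∀ i j, ContDiff ℝ ∞ (O i j))
    (rad : ∀ i, f.I 2 fun q => B i q - (1 / 2 : ℝ) • ∑ k, f.eta k q • O k i q.2) (i : Fin 4) :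
    f.I 1 (B i) := by
  simpa only [sub_add_cancel] using ((rad i).mono one_le_two).add (ld_B0 hO i)

theorem ld_dxB (hO : ∀ i j, ContDiff ℝ ∞ (O i j))
    (rad : ∀ i, f.I 2 fun q => B i q - (1 / 2 : ℝ) • ∑ k, f.eta k q • O k i q.2) (j i : Fin 4)
    (y : E) : f.dx j (B i) (y, y) = (1 / 2 : ℝ) • O j i y := by
  have h := ld_dx_add (f := f) (rad i).smooth (ld_B0 (f := f) hO i).smooth j (y, y)
  simp only [sub_add_cancel] at h
  have h0 := Fr.I.diag (r := 0) ((rad i).dx j) y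
  have hs : ∀ k, ContDiff ℝ ∞ fun q : E × E => f.eta k q • O k i q.2 := fun k =>
    (f.eta_smooth k).smul ((hO k i).comp contDiff_snd)
  rw [h0, zero_add, ld_dx_smul _ (ContDiff.sum fun k _ => hs k), ld_dx_sum hs] at h
  simpa [ld_dx_eta (hO _ i)] using h

theorem ld_R (hO : ∀ i j, ContDiff ℝ ∞ (O i j)) (anti : ∀ i j y, O i j y = -O j i y)
    (rad : ∀ i, f.I 2 fun q => B i q - (1 / 2 : ℝ) • ∑ k, f.eta k q • O k i q.2) :
    f.I 3 fun q => ∑ i, ((1 / 2 : ℝ) * ∑ j, f.eta j q * f.dx i (f.eta j) q) • B i q := by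
  have h1 : ∀ i, f.I 2 fun q => ∑ j, f.eta j q • (f.dx i (f.eta j) q - if j = i then 1 else 0) :=
    fun i => Fr.I.sum _ fun j _ => (f.dx_eta i j).eta_smul j
  have h2 := ((Fr.I.sum Finset.univ fun i _ => ld_Ismul (h1 i) (ld_B hO rad i)).add
    (Fr.I.sum Finset.univ fun i _ => (rad i).eta_smul i)).smul (1 / 2)
  convert h2 using 2 with q
  have h3 : ∑ i, ∑ k, (f.eta i q * f.eta k q) • O k i q.2 = 0 := by
    have e : ∑ i, ∑ k, (f.eta i q * f.eta k q) • O k i q.2 =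
        -∑ i, ∑ k, (f.eta i q * f.eta k q) • O k i q.2 := by
      conv_lhs => rw [Finset.sum_comm]
      simp only [← Finset.sum_neg_distrib, ← smul_neg]
      exact Finset.sum_congr rfl fun i _ => Finset.sum_congr rfl fun k _ => by
        rw [anti, mul_comm]
    linear_combination (norm := module) (1 / 2 : ℝ) • e
  have h4 : ∑ i, f.eta i q • ((1 / 2 : ℝ) • ∑ k, f.eta k q • O k i q.2) = 0 := by
    simp only [smul_comm (f.eta _ q) (1 / 2 : ℝ), Finset.smul_sum, smul_smul (f.eta _ q)]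
    simp only [← Finset.smul_sum, h3, smul_zero]
  have h5 : ∀ i, ∑ j, f.eta j q • (f.dx i (f.eta j) q - if j = i then 1 else 0) =
      ∑ j, f.eta j q * f.dx i (f.eta j) q - f.eta i q := fun i => by
    simp [mul_sub, Finset.sum_sub_distrib]
  simp only [h5]
  simp only [smul_sub (f.eta _ q), sub_smul, Finset.sum_sub_distrib, h4, sub_zero,
    sub_add_cancel, mul_smul]
  rw [Finset.smul_sum]

theorem ld_lap (hO : ∀ i j, ContDiff ℝ ∞ (O i j))
    (rad : ∀ i, f.I 2 fun q => B i q - (1 / 2 : ℝ) • ∑ k, f.eta k q • O k i q.2) (y : E) :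
    ∑ j, f.dx j (f.dx j fun q => ∑ i, B i q * B i q) (y, y) =
      (1 / 2 : ℝ) • ∑ i, ∑ j, O i j y * O i j y := by
  have hB := ld_B hO rad
  rw [Finset.smul_sum]
  refine Finset.sum_congr rfl fun j _ => ?_
  have hd := fun i => ((hB i).dx j).smooth
  rw [ld_dx_sum fun i => (hB i).smooth.mul (hB i).smooth]
  simp only [ld_dx_mul (hB _).smooth (hB _).smooth]
  rw [ld_dx_sum fun i => ((hB i).smooth.mul (hd i)).add ((hd i).mul (hB i).smooth),
    Finset.smul_sum]
  refine Finset.sum_congr rfl fun i _ => ?_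
  rw [ld_dx_add ((hB i).smooth.mul (hd i)) ((hd i).mul (hB i).smooth),
    ld_dx_mul (hB i).smooth (hd i), ld_dx_mul (hd i) (hB i).smooth]
  simp only [Fr.I.diag (r := 0) (hB i) y, ld_dxB hO rad, zero_mul, mul_zero, zero_add, add_zero,
    smul_mul_assoc, mul_smul_comm]
  module

theorem ld_proj (l : A →L[ℝ] ℝ) : ∃ π : A →L[ℝ] A, (∀ a, l (π a) = 0) ∧ ∀ a, l a = 0 → π a = a := by
  by_cases h : ∀ a, l a = 0
  · exact ⟨.id ℝ A, h, fun _ _ => rfl⟩
  push Not at h
  obtain ⟨a0, h0⟩ := h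
  exact ⟨.id ℝ A - l.smulRight ((l a0)⁻¹ • a0), fun a => by simp [h0], fun a ha => by simp [ha]⟩

theorem ld_main [CompleteSpace A] {b : Fin 4 → E → ℝ} (hb : ∀ i, ContDiff ℝ ∞ (b i))
    (hO : ∀ i j, ContDiff ℝ ∞ (O i j)) (anti : ∀ i j y, O i j y = -O j i y)
    (rad : ∀ i, f.I 2 fun q => B i q - (1 / 2 : ℝ) • ∑ k, f.eta k q • O k i q.2)
    (hE : f.I 0 En) (l : A →L[ℝ] ℝ) (l1 : l 1 = 0) (lB : ∀ i q, l (B i q) = 0)
    (lE : ∀ q, l (En q) = 0) (N : ℤ) :
    ∃ F K' : Z → A, f.T (-4) F ∧ f.T N (f.heat (fun i q => b i q.1 • (1 : A) - (2 : ℝ) • B i q)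
      (fun q => ∑ i, (b i q.1 • B i q - f.dx i (B i) q - B i q * B i q) - En q) F) ∧
      f.T (-3) (F - f.gen (-2) fun _ => c0 • (1 : A)) ∧ f.T 1 K' ∧
      ∀ s, 0 < s → ∀ y, l (F (s, y, y)) = c0 * l ((1 / 2 : ℝ) • (En (y, y) * En (y, y)) +
        (1 / 12 : ℝ) • ∑ i, ∑ j, O i j y * O i j y) + l (K' (s, y, y)) := by
  have hB := ld_B hO rad
  have hb' : ∀ i, f.I 0 fun q : E × E => b i q.1 := fun i => (hb i).comp contDiff_fst
  have hQ : f.I 2 fun q => ∑ i, B i q * B i q := Fr.I.sum _ fun i _ => ld_Imul (hB i) (hB i)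
  have hD : f.I 1 fun q => ∑ i, f.dx i (B i) q :=
    f.had1 (ContDiff.sum fun i _ => ((hB i).dx i).smooth) fun y => Finset.sum_eq_zero fun i _ => by
      rw [ld_dxB hO rad]
      linear_combination (norm := module) (1 / 4 : ℝ) • anti i i y
  have hR := ld_R hO anti rad
  -- the linear part `γ₁` and the full coefficient `γ`
  obtain ⟨γ₁, hγ₁⟩ : ∃ γ₁ : E × E → A,
    γ₁ = fun q => ∑ i, b i q.1 • B i q - ∑ i, f.dx i (B i) q - En q := ⟨_, rfl⟩
  have g1 : f.I 1 fun q => γ₁ q + En q := by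
    simpa only [hγ₁, sub_add_cancel] using
      (Fr.I.sum Finset.univ fun i _ => ld_Ismul (hb' i) (hB i)).sub hD
  have g0 : f.I 0 γ₁ := by simpa only [add_sub_cancel_right] using (g1.mono zero_le_one).sub hE
  have lγ : ∀ q, l (γ₁ q) = 0 := fun q => by
    have : ∀ i, l (f.dx i (B i) q) = 0 := fun i => by
      have h := (l.hasFDerivAt.comp q ((hB i).smooth.differentiable (by simp) q).hasFDerivAt).fderiv
      rw [show l ∘ B i = fun _ => 0 from funext (lB i), fderiv_fun_const] at h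
      exact (congrArg (fun a : E × E →L[ℝ] ℝ => a (f.e i q.1, 0)) h).symm
    simp [hγ₁, lB, lE, this]
  generalize hγ : (fun q : E × E =>
    ∑ i, (b i q.1 • B i q - f.dx i (B i) q - B i q * B i q) - En q) = γ
  have eγ : ∀ q, γ q = γ₁ q - ∑ i, B i q * B i q := fun q => by
    simp only [← hγ, hγ₁, Finset.sum_sub_distrib]
    abel
  have g1' : f.I 1 fun q => γ q + En q := by
    simpa only [eγ, sub_add_eq_add_sub] using g1.sub (hQ.mono one_le_two)
  have g0' : f.I 0 γ := by simpa only [add_sub_cancel_right] using (g1'.mono zero_le_one).sub hE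
  have eP : ∀ F z, ldP f B γ F z = ldP f B γ₁ F z - (∑ i, B i z.2 * B i z.2) * F z := fun F z => by
    simp only [ldP, eγ, sub_mul]
    abel
  have hβ : ∀ i, ContDiff ℝ ∞ fun q : E × E => b i q.1 • (1 : A) - (2 : ℝ) • B i q := fun i =>
    ((hb' i).smooth.smul contDiff_const).sub ((hB i).smooth.const_smul _)
  have hβA : ∀ i, ContDiff ℝ ∞ fun q : E × E => b i q.1 • (1 : A) := fun i =>
    (hb' i).smooth.smul contDiff_const
  have hβR : ∀ i, ContDiff ℝ ∞ fun q : E × E => b i q.1 • (1 : ℝ) := fun i =>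
    (hb' i).smooth.smul contDiff_const
  -- the scalar part
  have c1 : f.I 0 fun _ => c0 := contDiff_const
  have cA : f.I 0 fun _ => c0 • (1 : A) := contDiff_const
  have t0 := Fr.T.gen (n := -4) (-2) _ _ c1 (by simp)
  have s0 : f.T (-5) (ldH f b (f.gen (-2) fun _ => c0)) :=
    ((f.key hβR (γ := fun _ => 0) contDiff_const (-2) c1).mono (by norm_num)).congr fun z _ => by
      simp [ldH, Fr.gen, Fr.dx, show ∀ i, f.dx i (fun _ => c0) = fun _ => 0 from
        fun i => funext fun q => by simp [Fr.dx]]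
  obtain ⟨k', k1, k2⟩ := f.solve hβR (γ := fun _ => 0) contDiff_const (by norm_num) s0.neg N
  let u : ℝ →L[ℝ] A := (ContinuousLinearMap.id ℝ ℝ).smulRight 1
  have tk := t0.add (k1.mono (by norm_num))
  obtain ⟨K0, hK0⟩ : ∃ K0 : Z → A, K0 = fun z => u ((f.gen (-2) (fun _ => c0) + k') z) := ⟨_, rfl⟩
  have T0 : f.T (-4) K0 := hK0 ▸ tk.map u
  have H0 : f.T N (ldH f b K0) := (k2.map u).congr fun z hz => by
    rw [hK0, ldH_map b tk u hz, ldH, f.heat_add t0 k1 hz, add_comm]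
    simp [ldH]
  have e0 : K0 = (f.gen (-2) fun _ => c0 • (1 : A)) + fun z => u (k' z) := by
    funext z
    simp [hK0, u, Fr.gen, add_smul, smul_smul]
  have t0A := Fr.T.gen (n := -4) (-2) _ _ cA (by simp)
  have k1A : f.T (-3) fun z => u (k' z) := k1.map u
  have lK0 : ∀ z : Z, 0 < z.1 → l (ldP f B γ₁ K0 z) = 0 := fun z hz => by
    simp only [hK0, ldP, ld_eX tk u _ hz]
    simp [u, lγ, lB]
  -- the linear part
  have cE := hE.smul c0
  have t1 := Fr.T.gen (n := -2) (-1) _ _ cE (by simp)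
  have s1 : f.T (-3) (-(ldP f B γ₁ K0 + ldH f b (f.gen (-1) fun q => c0 • En q))) := by
    have a1 := ldP_gen hB g1 hR (-2) cA
    have a2 := f.key hβA (γ := fun _ => 0) contDiff_const (-1) cE
    have a3 := Fr.T.gen (n := -3) (-1) _ _
      (Fr.I.sum Finset.univ fun i _ => (cE.dx i).dx i) (by simp)
    refine (((a1.add (ldP_T hB g0 k1A)).add a2).sub a3).neg.congr fun z hz => ?_
    simp only [Pi.neg_apply, Pi.add_apply, Pi.sub_apply, e0, ldP_add t0A k1A hz, ldH]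
    norm_num [Fr.gen]
    abel
  obtain ⟨k₁, m1, m2⟩ := f.solve hβA (γ := fun _ => 0) contDiff_const (by norm_num) s1 N
  obtain ⟨π, π1, π2⟩ := ld_proj l
  have m1' : f.T (-1) fun z => π (k₁ z) := m1.map π
  obtain ⟨K1, hK1⟩ : ∃ K1 : Z → A, K1 = (f.gen (-1) fun q => c0 • En q) + fun z => π (k₁ z) :=
    ⟨_, rfl⟩
  have T1 : f.T (-2) K1 := hK1 ▸ t1.add (m1'.mono (by norm_num))
  have lg : (fun z => l (f.gen (-1) (fun q => c0 • En q) z)) = 0 := by
    funext z
    simp [Fr.gen, lE]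
  have H1 : f.T N (ldH f b K1 + ldP f B γ₁ K0) := (m2.map π).congr fun z hz => by
    have a1 : l (ldH f b (f.gen (-1) fun q => c0 • En q) z) = 0 := by
      rw [← ldH_map b t1 l hz, lg]
      simp [ldH, Fr.heat, ds, show ∀ i, f.eX i (0 : Z → ℝ) = 0 from
        fun i => funext fun q => by simp [Fr.eX, dv]]
    have a2 := ldH_map b m1 π hz
    have a3 := π2 ((ldP f B γ₁ K0 + ldH f b (f.gen (-1) fun q => c0 • En q)) z)
      (by rw [Pi.add_apply, map_add, lK0 z hz, a1, add_zero])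
    rw [Pi.add_apply, hK1, ldH, f.heat_add t1 m1' hz, Pi.sub_apply, map_sub, Pi.neg_apply, map_neg,
      a3]
    simp only [ldH] at a2
    rw [a2]
    simp only [ldH, Pi.add_apply]
    abel
  -- the quadratic part
  have cQ := hQ.smul (c0 / 3)
  have cL : f.I 0 fun q => ∑ i, f.dx i (f.dx i fun q => (c0 / 3) • ∑ i, B i q * B i q) q :=
    Fr.I.sum Finset.univ fun i _ => (cQ.dx i).dx i
  have c2 : f.I 0 _ := (cL.add (ld_Imul hE cE)).smul (1 / 2)
  set cq := fun q => (c0 / 3) • ∑ i, B i q * B i q with hcq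
  set ce := fun q => (1 / 2 : ℝ) • (∑ i, f.dx i (f.dx i cq) q + En q * c0 • En q) with hce
  have t2 := Fr.T.gen (n := 0) (-1) _ _ cQ (by simp)
  have t3 := Fr.T.gen (n := 0) 0 _ _ c2 (by simp)
  have T01 := T0.add (T1.mono (by norm_num))
  have T2 := t2.add t3
  have s2 : f.T (-1) fun z => (∑ i, B i z.2 * B i z.2) * K0 z - ldP f B γ K1 z -
      f.heat (fun i q => b i q.1 • (1 : A) - (2 : ℝ) • B i q) γ (f.gen (-1) cq + f.gen 0 ce) z := by
    have a1 := ld_mul hQ k1A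
    have a2 := ldP_gen hB g1' hR (-1) cE
    have a3 := f.key hβ g0'.smooth (-1) cQ
    have a4 := f.key hβ g0'.smooth 0 c2
    have a5 := Fr.T.gen (n := -1) 0 _ _ (Fr.I.sum Finset.univ fun i _ => (c2.dx i).dx i) (by simp)
    refine (((((a1.sub a2).sub (ldP_T hB g0' m1')).sub a3).sub a4).add a5).congr fun z hz => ?_
    rw [f.heat_add t2 t3 hz]
    simp only [Pi.add_apply, Pi.sub_apply, e0, hK1, ldP_add t1 m1' hz, mul_add]
    generalize (fun q => ∑ i, f.dx i (f.dx i ce) q) = w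
    generalize f.heat _ γ (f.gen (-1) cq) z = w1
    generalize f.heat _ γ (f.gen 0 ce) z = w2
    have e1 : ce z.2 = (1 / 2 : ℝ) • (∑ i, f.dx i (f.dx i cq) z.2 + En z.2 * c0 • En z.2) := rfl
    have e2 : cq z.2 = (c0 / 3) • ∑ i, B i z.2 * B i z.2 := rfl
    norm_num [Fr.gen, e1, e2]
    module
  obtain ⟨K3, n1, n2⟩ := f.solve hβ g0'.smooth (by norm_num) s2 N
  refine ⟨_, K3, (T01.add (T2.mono (by norm_num))).add (n1.mono (by norm_num)),
    ((H0.add H1).add n2).congr fun z hz => ?_, ?_, n1, fun s hs y => ?_⟩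
  · rw [f.heat_add (T01.add (T2.mono (by norm_num))) n1 hz, f.heat_add T01 T2 hz,
      f.heat_add T0 T1 hz, ld_split b B γ K0, ld_split b B γ K1, eP K0]
    simp only [Pi.add_apply, Pi.sub_apply]
    abel
  · refine (((k1A.add (T1.mono (by norm_num))).add (T2.mono (by norm_num))).add
      (n1.mono (by norm_num))).congr fun z _ => ?_
    simp only [e0, Pi.add_apply, Pi.sub_apply]
    abel
  · have a1 : f.ex (s, y, y) = 1 := by simp [Fr.ex, f.eta_diag]
    have a2 := ld_lap hO rad y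
    simp only [Pi.add_apply, map_add, hK0, hK1, π1, Fr.gen, a1, hce, hcq,
      Fr.I.diag (r := 1) hQ y, ld_dx_smul _ hQ.smooth, ld_dx_smul _ (hQ.dx _).smooth,
      ← Finset.smul_sum, a2]
    simp [u, l1, lE]
    ring

end

variable {W : Type} [NormedAddCommGroup W] [InnerProductSpace ℝ W] [FiniteDimensional ℝ W]
  [CompleteSpace W] {C : Cl W}

theorem Loc.lead (L : Loc C) {B : Fin 4 → E × E → W →L[ℝ] W} {En : E × E → W →L[ℝ] W}
    (_hB : ∀ i, ContDiff ℝ ∞ (B i)) (skew : ∀ i q, star (B i q) = -B i q)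
    (rad : ∀ i, L.I 2 fun q => B i q - (1 / 2 : ℝ) • ∑ k, L.eta k q • L.Om k i q.2)
    (hE : ContDiff ℝ ∞ En) (sE : ∀ q, C.str (En q) = 0) (dE : ∀ y, En (y, y) = L.En y) (N : ℤ) :
    ∃ F K' : Z → W →L[ℝ] W, L.T (-4) F ∧ L.T N (L.heat
      (fun i q => L.b i q.1 • (1 : W →L[ℝ] W) - (2 : ℝ) • B i q)
      (fun q => ∑ i, (L.b i q.1 • B i q - L.dx i (B i) q - B i q * B i q) - En q) F) ∧
      L.T (-3) (F - L.gen (-2) fun _ => c0 • (1 : W →L[ℝ] W)) ∧ L.T 1 K' ∧
      ∀ s, 0 < s → ∀ y, C.str (F (s, y, y)) = c0 * L.dens y + C.str (K' (s, y, y)) := by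
  obtain ⟨l, hl⟩ := C.exists_str
  simpa only [hl, dE, Loc.dens] using ld_main (f := L.toFr) (En := En) L.b_smooth L.Om_smooth
    L.Om_anti rad hE l (by rw [hl, C.str_one]) (fun i q => by rw [hl, C.str_skew (skew i q)])
    (fun q => by rw [hl, sE]) N

end Pool.Agent.Lib.MP_1c0d65_gt.Nz
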