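import Pool.Agent.Lib.MP_1c0d65_gt.Nz.Gauge
import Pool.Agent.Lib.MP_1c0d65_gt.Nz.Conj
import Pool.Agent.Lib.MP_1c0d65_gt.Nz.Lead

/-! The local parametrix and its cut-off. -/

set_option autoImplicit false

open scoped ContDiff Topology
open Set MeasureTheory Function Filter

noncomputable section

namespace Pool.Agent.Lib.MP_1c0d65_gt.Nz

open Pool.Agent.Lib.MP_1c0d65_gt.PW

variable {W : Type} [NormedAddCommGroup W] [InnerProductSpace ℝ W] [FiniteDimensional ℝ W]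
  [CompleteSpace W] {C : Cl W}

theorem Loc.par (L : Loc C) (sE : ∀ z, C.str (L.En z) = 0) (N : ℤ) : ∃ K R, L.Par N K R := by
  obtain ⟨G, B, h⟩ := L.gauge
  have hs : ContDiff ℝ ∞ fun q => star (G q) :=
    (starL' ℝ : (W →L[ℝ] W) ≃L[ℝ] (W →L[ℝ] W)).contDiff.comp h.hG
  obtain ⟨F, K', hF, hR, hl, hK', hd⟩ := L.lead (En := fun q => star (G q) * L.En q.1 * G q)
    h.hB h.skew h.rad ((hs.mul (L.En_smooth.comp contDiff_fst)).mul h.hG)
    (fun q => by rw [(C.str_conj (h.g2 q) (h.even q)).1, sE]) (fun y => by simp [h.diag]) N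
  have hG : L.I 0 G := h.hG
  have mul : ∀ {n : ℤ} {H : Z → W →L[ℝ] W}, L.T n H → L.T n fun z => G z.2 * H z := fun hH => by
    simpa using Fr.T.bil hG hH (ContinuousLinearMap.mul ℝ (W →L[ℝ] W))
  refine ⟨_, _, mul hF, mul hR, h.heat hF, ?_, K', hK', fun s hs y => ?_⟩
  · have h1 : L.I 1 fun q => G q - 1 :=
      L.had1 (h.hG.sub contDiff_const) fun y => by rw [h.diag, sub_self]
    have h2 : L.T (-4) (L.gen (-2) fun _ => c0 • (1 : W →L[ℝ] W)) :=
      .gen _ 0 _ contDiff_const (by norm_num)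
    have h3 := Fr.T.bil h1 h2 (ContinuousLinearMap.mul ℝ (W →L[ℝ] W))
    refine ((mul hl).add (h3.mono (by norm_num))).congr fun z _ => ?_
    simp only [Pi.sub_apply, Pi.add_apply, ContinuousLinearMap.mul_apply', mul_sub, sub_mul,
      one_mul]
    abel
  · simpa [h.diag] using hd s hs y

theorem Supp.imp {V V' : Type} [NormedAddCommGroup V] [NormedSpace ℝ V] [NormedAddCommGroup V']
    [NormedSpace ℝ V'] {F : Z → V} {G : Z → V'} (h : Supp F) (h0 : ∀ z, F z = 0 → G z = 0) :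
    Supp G :=
  let ⟨K, hK, hF⟩ := h
  ⟨K, hK, fun z hz hG => hF z hz fun e => hG (h0 z e)⟩

theorem Supp.add' {V : Type} [NormedAddCommGroup V] [NormedSpace ℝ V] {F G : Z → V} (h : Supp F)
    (h' : Supp G) : Supp fun z => F z + G z := by
  obtain ⟨K, hK, hF⟩ := h
  obtain ⟨K', hK', hG⟩ := h'
  refine ⟨K ∪ K', hK.union hK', fun z hz e => ?_⟩
  by_cases h0 : F z = 0
  · have := hG z hz fun e' => e (by simp [h0, e'])
    exact ⟨Or.inr this.1, Or.inr this.2⟩
  · exact ⟨Or.inl (hF z hz h0).1, Or.inl (hF z hz h0).2⟩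

theorem Supp.sum4 {V : Type} [NormedAddCommGroup V] [NormedSpace ℝ V] {F : Fin 4 → Z → V}
    (h : ∀ i, Supp (F i)) : Supp fun z => ∑ i, F i z := by
  simpa only [Fin.sum_univ_four] using (((h 0).add' (h 1)).add' (h 2)).add' (h 3)

/-- The Dirac operator in the first variable of a kernel. -/
def Loc.DK (L : Loc C) (F : Z → W →L[ℝ] W) (z : Z) : W →L[ℝ] W :=
  ∑ i, C.c i * (L.eX i F z + L.A i z.2.1 * F z)

theorem Loc.DK_T (L : Loc C) {n : ℤ} {F : Z → W →L[ℝ] W} (h : L.T n F) :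
    L.T (n - 1) (L.DK F) := by
  refine Fr.T.sum _ fun i _ => ?_
  have hA : L.I 0 fun q : E × E => L.A i q.1 := (L.hA i).comp contDiff_fst
  exact ((h.eX i).add ((Fr.T.bil hA h (ContinuousLinearMap.mul ℝ (W →L[ℝ] W))).mono
    (by simp))).map (ContinuousLinearMap.mul ℝ (W →L[ℝ] W) (C.c i))

theorem Loc.DK_supp (L : Loc C) {F : Z → W →L[ℝ] W} (h : Supp F) : Supp (L.DK F) :=
  Supp.sum4 fun i => ((h.dv _).add' (h.imp (G := fun z => L.A i z.2.1 * F z)
    fun z e => by rw [e, mul_zero])).imp fun z e => by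
      rw [show L.eX i F z + L.A i z.2.1 * F z = 0 from e, mul_zero]

omit [FiniteDimensional ℝ W] [CompleteSpace W] in
theorem Fr.T.col_smooth {f : Fr} {n : ℤ} {F : Z → W →L[ℝ] W} (h : f.T n F) {s : ℝ} (hs : 0 < s)
    (y : E) : ContDiff ℝ ∞ fun x => F (s, x, y) :=
  (h.smooth_s hs).comp (contDiff_id.prodMk contDiff_const)

theorem Loc.D_col (L : Loc C) {n : ℤ} {F : Z → W →L[ℝ] W} (h : L.T n F) {s : ℝ} (hs : 0 < s)
    (y : E) (w : W) : (L.D fun x => F (s, x, y) w) = fun x => L.DK F (s, x, y) w := by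
  funext x
  have h1 := ((h.col_smooth hs y).differentiable (by simp) x).hasFDerivAt.clm_apply
    (hasFDerivAt_const w x)
  simp only [Loc.D, Loc.nab, Loc.DK, ← h.d_eq hs, Fr.d, h1.fderiv]
  simp

theorem Loc.D_fsmul (L : Loc C) {g : E → ℝ} (hg : ContDiff ℝ ∞ g) (r : ℝ) {u : E → W}
    (hu : ContDiff ℝ ∞ u) : (L.D fun x => (r * g x) • u x) =
      (fun x => (r * g x) • L.D u x) + fun x => ∑ i, (r * L.d i g x) • C.c i (u x) := by
  funext x
  have h1 := ((hg.differentiable (by simp) x).hasFDerivAt.const_mul r).fun_smul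
    (hu.differentiable (by simp) x).hasFDerivAt
  simp only [Loc.D, Loc.nab, Fr.d, h1.fderiv, Pi.add_apply, Finset.smul_sum,
    ← Finset.sum_add_distrib]
  refine Finset.sum_congr rfl fun i _ => ?_
  simp only [add_apply, smul_apply,
    ContinuousLinearMap.smulRight_apply, map_add, map_smul, smul_add, smul_eq_mul]
  abel

theorem Loc.cut (L : Loc C) (sE : ∀ z, C.str (L.En z) = 0) {ρ : E → ℝ} (hρ : ContDiff ℝ ∞ ρ)
    (cρ : HasCompactSupport ρ) (N : ℤ) : ∃ K R, L.Cut ρ N K R := by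
  obtain ⟨K, R, h⟩ := L.par sE N
  obtain ⟨χ, hχ, cχ, h1⟩ : ∃ χ : E → ℝ, ContDiff ℝ ∞ χ ∧ HasCompactSupport χ ∧
      ∀ y ∈ tsupport ρ, ∀ᶠ x in 𝓝 y, χ x = 1 := by
    obtain ⟨r, hr, hb⟩ := cρ.isBounded.subset_ball_lt 0 0
    let b : ContDiffBump (0 : E) := ⟨r, r + 1, hr, by linarith⟩
    exact ⟨b, b.contDiff, b.hasCompactSupport, fun y hy => b.eventuallyEq_one_of_mem_ball (hb hy)⟩
  have hd : ∀ i, ContDiff ℝ ∞ (L.d i χ) := fun i =>
    (hχ.fderiv_right (m := ∞) (by simp)).clm_apply (L.e_smooth i)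
  have hφ : L.I 0 fun q : E × E => ρ q.2 * χ q.1 :=
    (hρ.comp contDiff_snd).mul (hχ.comp contDiff_fst)
  have hψ : ∀ i r, L.I r fun q : E × E => ρ q.2 * L.d i χ q.1 := fun i r => by
    refine L.offdiag ((hρ.comp contDiff_snd).mul ((hd i).comp contDiff_fst)) (fun y => ?_) r
    by_cases hy : y ∈ tsupport ρ
    · have h2 : ∀ᶠ x in 𝓝 y, L.d i χ x = 0 := by
        filter_upwards [(h1 y hy).eventually_nhds] with x hx
        rw [Fr.d, Filter.EventuallyEq.fderiv_eq (f := fun _ => (1 : ℝ)) hx]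
        simp
      filter_upwards [(continuous_fst.tendsto (y, y)).eventually h2] with q hq
      exact mul_eq_zero_of_right _ hq
    · filter_upwards [(continuous_snd.tendsto (y, y)).eventually
        (notMem_tsupport_iff_eventuallyEq.1 hy)] with q hq
      exact mul_eq_zero_of_left hq _
  have hm : ∀ {n : ℤ} {H : Z → W →L[ℝ] W}, L.T n H →
      L.T n fun z => (ρ z.2.2 * χ z.2.1) • H z := fun hH => by
    simpa using Fr.T.bil hφ hH (ContinuousLinearMap.lsmul ℝ ℝ)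
  obtain ⟨P, hP⟩ : ∃ P : (Z → W →L[ℝ] W) → Z → W →L[ℝ] W,
      ∀ H, P H = fun z => ∑ i, (ρ z.2.2 * L.d i χ z.2.1) • (C.c i * H z) := ⟨_, fun _ => rfl⟩
  have hPT : ∀ {n : ℤ} {H : Z → W →L[ℝ] W}, L.T n H → ∀ m : ℤ, L.T m (P H) := by
    intro n H hH m
    rw [hP]
    exact Fr.T.sum _ fun i _ => (Fr.T.bil (hψ i (m - n).toNat)
      (hH.map (ContinuousLinearMap.mul ℝ (W →L[ℝ] W) (C.c i)))
      (ContinuousLinearMap.lsmul ℝ ℝ)).mono (by omega)
  have sp : ∀ (g : E → ℝ) (H : Z → W →L[ℝ] W), support g ⊆ tsupport χ →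
      Supp fun z => (ρ z.2.2 * g z.2.1) • H z := fun g H hg =>
    ⟨tsupport χ ∪ tsupport ρ, cχ.union cρ, fun z _ e =>
      ⟨Or.inl (hg fun e' => e (by simp [e'])),
        Or.inr (subset_tsupport _ fun e' => e (by simp [e']))⟩⟩
  have sP : ∀ H, Supp (P H) := fun H => by
    rw [hP]
    exact Supp.sum4 fun i => sp _ _ fun x hx => support_fderiv_subset ℝ fun e => hx (by
      rw [Fr.d, e]; rfl)
  have hD := L.DK_T h.hK
  refine ⟨fun z => (ρ z.2.2 * χ z.2.1) • K z,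
    fun z => (ρ z.2.2 * χ z.2.1) • R z + P (L.DK K) z + L.DK (P K) z, hm h.hK,
    sp _ _ (subset_tsupport _),
    ((hm h.hR).add (hPT hD N)).add ((L.DK_T (hPT h.hK (N + 1))).mono (by omega)),
    ((sp _ _ (subset_tsupport _)).add' (sP _)).add' (L.DK_supp (sP _)), fun s hs x y w => ?_,
    ⟨χ, hχ, cχ, fun y hy => (h1 y (subset_tsupport _ hy)).self_of_nhds,
      (hm h.lead).congr fun z _ => ?_⟩, ?_⟩
  · have sm : ∀ {n : ℤ} {H : Z → W →L[ℝ] W}, L.T n H → ContDiff ℝ ∞ fun x => H (s, x, y) w :=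
      fun hH => (hH.col_smooth hs y).clm_apply contDiff_const
    have e1 : ∀ H : Z → W →L[ℝ] W, (fun x => ∑ i, (ρ y * L.d i χ x) • C.c i (H (s, x, y) w)) =
        fun x => P H (s, x, y) w := fun H => by
      funext x
      simp [hP]
    have h2 := (h.heat s hs x y w).fun_const_smul (ρ y * χ x)
    simp only [smul_apply, add_apply]
    rw [L.D_fsmul hχ (ρ y) (sm h.hK), e1, L.D_col h.hK hs,
      L.D_add (u := fun x => (ρ y * χ x) • L.DK K (s, x, y) w)
        ((contDiff_const.mul hχ).smul (sm hD)) (sm (hPT h.hK 0)),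
      L.D_fsmul hχ (ρ y) (sm hD), e1, L.D_col (hPT h.hK 0) hs]
    rw [L.D_col h.hK hs] at h2
    convert h2 using 1
    simp only [Pi.add_apply, smul_sub]
    abel
  · simp only [Pi.sub_apply, Fr.gen, smul_sub, smul_smul]
    congr 2
    ring
  · obtain ⟨K', hK', hdg⟩ := h.diag
    obtain ⟨l, hl⟩ := C.exists_str
    refine ⟨K', hK', fun s hs y => ?_⟩
    rw [← hdg s hs y, ← hl, ← hl, map_smul, smul_eq_mul]
    by_cases hy : ρ y = 0
    · simp [hy]
    · rw [(h1 y (subset_tsupport _ hy)).self_of_nhds, mul_one]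

end Pool.Agent.Lib.MP_1c0d65_gt.Nz
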