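import Pool.Agent.Lib.MP_1c0d65_gt.Nz.Tc

/-! Gaussian bounds for the class of local heat kernels. -/

set_option autoImplicit false

open scoped ContDiff Topology
open Set MeasureTheory Function Filter

noncomputable section

namespace Pool.Agent.Lib.MP_1c0d65_gt.Nz

open Pool.Agent.Lib.MP_1c0d65_gt.PW

variable {V : Type} [NormedAddCommGroup V] [NormedSpace ℝ V] {f : Fr}

theorem tb_haar : (volume : Measure E).IsAddHaarMeasure :=
  inferInstanceAs ((volume : Measure ℂ).prod (volume : Measure ℂ)).IsAddHaarMeasure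

theorem tb_rank : Module.finrank ℝ E = 4 := by simp [E]

theorem Fr.tb_low (f : Fr) {K : Set E} (hK : IsCompact K) : ∃ m : ℝ, 0 < m ∧
    ∀ y ∈ K, ∀ v : E, m * ‖v‖ ^ 2 ≤ ∑ i, co i (f.θ y v) ^ 2 := by
  obtain ⟨B, hB⟩ := hK.exists_bound_of_continuousOn f.hM.continuous.continuousOn
  refine ⟨((|B| + 1) ^ 2)⁻¹, by positivity, fun y hy v => ?_⟩
  have h1 : ‖v‖ ≤ (|B| + 1) * ‖f.θ y v‖ := by
    conv_lhs => rw [← f.Mθ y v]
    exact ((f.M y).le_opNorm _).trans (mul_le_mul_of_nonneg_right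
      ((hB y hy).trans ((le_abs_self B).trans (by linarith))) (norm_nonneg _))
  have h2 : ∀ w : E, ‖w‖ ^ 2 ≤ ∑ i, co i w ^ 2 := fun w => by
    have e1 := Complex.sq_norm w.1
    have e2 := Complex.sq_norm w.2
    rw [Complex.normSq_apply] at e1 e2
    simp only [Fin.sum_univ_four, co, Matrix.cons_val, ContinuousLinearMap.comp_apply,
      ContinuousLinearMap.coe_fst', ContinuousLinearMap.coe_snd', Complex.reCLM_apply,
      Complex.imCLM_apply, Prod.norm_def]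
    rcases max_choice ‖w.1‖ ‖w.2‖ with h | h <;> rw [h] <;>
      nlinarith [sq_nonneg ‖w.1‖, sq_nonneg ‖w.2‖]
  rw [inv_mul_le_iff₀ (by positivity)]
  calc ‖v‖ ^ 2 ≤ ((|B| + 1) * ‖f.θ y v‖) ^ 2 := by gcongr
    _ ≤ _ := by rw [mul_pow]; gcongr; exact h2 _

theorem tb_pow (r : ℕ) {a : ℝ} (ha : 0 < a) :
    ∃ C : ℝ, 0 ≤ C ∧ ∀ t : ℝ, 0 ≤ t → t ^ r ≤ C * Real.exp (a * t ^ 2) := by
  refine ⟨1 + r.factorial / a ^ r, by positivity, fun t ht => ?_⟩
  have h1 := Real.pow_div_factorial_le_exp (a * t ^ 2) (by positivity) r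
  have h2 : 1 ≤ Real.exp (a * t ^ 2) := Real.one_le_exp (by positivity)
  have h3 : (t ^ r) ^ 2 ≤ r.factorial / a ^ r * Real.exp (a * t ^ 2) := by
    rw [div_le_iff₀ (by positivity), mul_pow, ← pow_mul, mul_comm 2 r, pow_mul] at h1
    rw [div_mul_eq_mul_div, le_div_iff₀ (by positivity)]
    linarith
  nlinarith [sq_nonneg (t ^ r - 1), pow_nonneg ht r]

theorem Fr.T.tb_bound {n : ℤ} {F : Z → V} (h : f.T n F) {K : Set E} (hK : IsCompact K) :
    ∃ C m : ℝ, 0 ≤ C ∧ 0 < m ∧ ∀ s ∈ Ioc (0 : ℝ) 1, ∀ x ∈ K, ∀ y ∈ K,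
      ‖F (s, x, y)‖ ≤ C * √s ^ n * Real.exp (-(m * ‖x - y‖ ^ 2 / s)) := by
  induction h with
  | gen p r c hc hn =>
    obtain ⟨m, hm, h1⟩ := f.tb_low hK
    obtain ⟨B, h2⟩ := hc.bound (hK.prod hK)
    obtain ⟨C, hC, h3⟩ := tb_pow r (a := m / 8) (by positivity)
    refine ⟨|B| * C, m / 8, by positivity, by positivity, fun s hs x hx y hy => ?_⟩
    have s0 := hs.1
    have q0 : 0 < √s := Real.sqrt_pos.2 s0
    have q1 : √s ≤ 1 := Real.sqrt_le_one.2 hs.2
    have e1 : f.ex (s, x, y) ≤ Real.exp (-(m / 8 * ‖x - y‖ ^ 2 / s)) *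
        Real.exp (-(m / 8 * ‖x - y‖ ^ 2 / s)) := by
      rw [← Real.exp_add]
      refine Real.exp_le_exp.2 ?_
      have : m * ‖x - y‖ ^ 2 ≤ ∑ i, f.eta i (x, y) ^ 2 := h1 y hy (x - y)
      calc _ ≤ -(m * ‖x - y‖ ^ 2) / (4 * s) := by simp only; gcongr
        _ = _ := by field_simp; ring
    have e2 : ‖c (x, y)‖ ≤ |B| * (√s ^ r * (C * Real.exp (m / 8 * ‖x - y‖ ^ 2 / s))) := by
      have := h3 (‖x - y‖ / √s) (by positivity)
      rw [div_pow, div_pow, Real.sq_sqrt s0.le, div_le_iff₀ (by positivity), ← mul_div_assoc,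
        mul_comm] at this
      exact (h2 (x, y) ⟨hx, hy⟩).trans (mul_le_mul (le_abs_self B) this (by positivity)
        (abs_nonneg B))
    have e3 : s ^ p * √s ^ r ≤ √s ^ n := by
      have : s ^ p * √s ^ r = √s ^ (2 * p + r) := by
        rw [zpow_add₀ q0.ne', zpow_mul, zpow_natCast]
        norm_cast
        rw [Real.sq_sqrt s0.le]
      rw [this]
      exact zpow_le_zpow_right_of_le_one₀ q0 q1 hn
    have x0 : 0 < f.ex (s, x, y) := Real.exp_pos _
    rw [Fr.gen, norm_smul, Real.norm_of_nonneg (by positivity)]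
    calc _ ≤ s ^ p * (Real.exp (-(m / 8 * ‖x - y‖ ^ 2 / s)) *
          Real.exp (-(m / 8 * ‖x - y‖ ^ 2 / s))) *
          (|B| * (√s ^ r * (C * Real.exp (m / 8 * ‖x - y‖ ^ 2 / s)))) := by
          simp only; gcongr
      _ = |B| * C * (s ^ p * √s ^ r) * Real.exp (-(m / 8 * ‖x - y‖ ^ 2 / s)) := by
          rw [Real.exp_neg]; field_simp
      _ ≤ _ := by gcongr
  | add _ _ ih1 ih2 =>
    obtain ⟨C, m, hC, hm, h1⟩ := ih1
    obtain ⟨C', m', hC', hm', h2⟩ := ih2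
    refine ⟨C + C', min m m', by positivity, by positivity, fun s hs x hx y hy => ?_⟩
    have s0 := hs.1
    have q0 : 0 < √s := Real.sqrt_pos.2 s0
    refine (norm_add_le _ _).trans ((add_le_add (h1 s hs x hx y hy) (h2 s hs x hx y hy)).trans ?_)
    rw [add_mul, add_mul]
    gcongr
    exacts [min_le_left _ _, min_le_right _ _]
  | congr _ e ih =>
    obtain ⟨C, m, hC, hm, h1⟩ := ih
    exact ⟨C, m, hC, hm, fun s hs x hx y hy => by rw [e _ hs.1]; exact h1 s hs x hx y hy⟩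

theorem Fr.T.bound {n : ℤ} {F : Z → V} (h : f.T n F) {K : Set E} (hK : IsCompact K) :
    ∃ C m : ℝ, 0 < m ∧ ∀ s ∈ Ioc (0 : ℝ) 1, ∀ x ∈ K, ∀ y ∈ K,
      ‖F (s, x, y)‖ ≤ C * √s ^ n * Real.exp (-(m * ‖x - y‖ ^ 2 / s)) :=
  let ⟨C, m, _, hm, h1⟩ := h.tb_bound hK
  ⟨C, m, hm, h1⟩

/-- The Gaussian bound on all of `E`, for kernels with compact support. -/
theorem Fr.T.tb_all {n : ℤ} {F : Z → V} (h : f.T n F) (hs : Supp F) {w : E → ℝ}
    (hw : Continuous w) : ∃ C m : ℝ, 0 ≤ C ∧ 0 < m ∧ ∀ s ∈ Ioc (0 : ℝ) 1, ∀ x y,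
      ‖F (s, x, y)‖ * |w x| ≤ C * √s ^ n * Real.exp (-(m * ‖x - y‖ ^ 2 / s)) ∧
      ‖F (s, y, x)‖ * |w x| ≤ C * √s ^ n * Real.exp (-(m * ‖x - y‖ ^ 2 / s)) := by
  obtain ⟨K, hK, h0⟩ := hs
  obtain ⟨C, m, hC, hm, h1⟩ := h.tb_bound hK
  obtain ⟨B, hB⟩ := hK.exists_bound_of_continuousOn hw.continuousOn
  refine ⟨|B| * C, m, by positivity, hm, fun s hs x y => ⟨?_, ?_⟩⟩
  · by_cases e : F (s, x, y) = 0
    · rw [e, norm_zero, zero_mul]; positivity
    · obtain ⟨hx, hy⟩ := h0 _ hs.1 e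
      rw [mul_comm, mul_assoc |B|, mul_assoc |B|]
      exact mul_le_mul ((hB x hx).trans (le_abs_self B)) (h1 s hs x hx y hy) (norm_nonneg _)
        (abs_nonneg B)
  · by_cases e : F (s, y, x) = 0
    · rw [e, norm_zero, zero_mul]; positivity
    · obtain ⟨hy, hx⟩ := h0 _ hs.1 e
      rw [mul_comm, mul_assoc |B|, mul_assoc |B|, norm_sub_rev]
      exact mul_le_mul ((hB x hx).trans (le_abs_self B)) (h1 s hs y hy x hx) (norm_nonneg _)
        (abs_nonneg B)

theorem Fr.T.sup {n : ℤ} {F : Z → V} (h : f.T n F) (hs : Supp F) :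
    ∃ C : ℝ, ∀ s ∈ Ioc (0 : ℝ) 1, ∀ q, ‖F (s, q)‖ ≤ C * √s ^ n := by
  obtain ⟨C, m, hC, hm, h1⟩ := h.tb_all hs (w := fun _ => 1) continuous_const
  refine ⟨C, fun s hs q => ?_⟩
  have := (h1 s hs q.1 q.2).1
  have s0 := hs.1
  rw [abs_one, mul_one] at this
  exact this.trans (mul_le_of_le_one_right (by positivity)
    (Real.exp_le_one_iff.2 (neg_nonpos.2 (by positivity))))

theorem tb_int_c {b : ℝ} (hb : 0 < b) : Integrable fun v : ℂ => Real.exp (-b * ‖v‖ ^ 2) := by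
  refine Integrable.of_integral_ne_zero ?_
  rw [GaussianFourier.integral_rexp_neg_mul_sq_norm hb]
  have := Real.pi_pos
  positivity

theorem tb_int {m : ℝ} (hm : 0 < m) : Integrable fun v : E => Real.exp (-(m * ‖v‖ ^ 2)) := by
  have h := (tb_int_c (half_pos hm)).mul_prod (tb_int_c (half_pos hm))
  refine Integrable.mono' h (Continuous.aestronglyMeasurable (by fun_prop))
    (.of_forall fun v => ?_)
  rw [Real.norm_of_nonneg (Real.exp_pos _).le, ← Real.exp_add]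
  refine Real.exp_le_exp.2 ?_
  have h1 : ‖v.1‖ ^ 2 ≤ ‖v‖ ^ 2 := by gcongr; exact norm_fst_le v
  have h2 : ‖v.2‖ ^ 2 ≤ ‖v‖ ^ 2 := by gcongr; exact norm_snd_le v
  nlinarith

theorem tb_scale {m s : ℝ} (hm : 0 < m) (hs : 0 < s) (y : E) :
    (Integrable fun x : E => Real.exp (-(m * ‖x - y‖ ^ 2 / s))) ∧
      ∫ x : E, Real.exp (-(m * ‖x - y‖ ^ 2 / s)) =
        √s ^ 4 * ∫ v : E, Real.exp (-(m * ‖v‖ ^ 2)) := by
  have := tb_haar
  have q0 : 0 < √s := Real.sqrt_pos.2 hs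
  refine ⟨?_, ?_⟩
  · have h := (tb_int (div_pos hm hs)).comp_sub_right y
    simpa only [div_mul_eq_mul_div] using h
  · rw [integral_sub_right_eq_self (fun x : E => Real.exp (-(m * ‖x‖ ^ 2 / s))) y, ← tb_rank,
      ← smul_eq_mul, ← Measure.integral_comp_inv_smul_of_nonneg _ _ q0.le]
    refine integral_congr_ae (.of_forall fun x => ?_)
    simp only [norm_smul, norm_inv, Real.norm_of_nonneg q0.le, mul_pow, inv_pow,
      Real.sq_sqrt hs.le]
    congr 1
    field_simp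

theorem Fr.T.l1 {n : ℤ} {F : Z → V} (h : f.T n F) (hs : Supp F) {w : E → ℝ} (hw : Continuous w) :
    ∃ C : ℝ, ∀ s ∈ Ioc (0 : ℝ) 1, ∀ y, (∫ x, ‖F (s, x, y)‖ * |w x|) ≤ C * √s ^ (n + 4) ∧
      (∫ x, ‖F (s, y, x)‖ * |w x|) ≤ C * √s ^ (n + 4) := by
  obtain ⟨C, m, hC, hm, h1⟩ := h.tb_all hs hw
  refine ⟨C * ∫ v : E, Real.exp (-(m * ‖v‖ ^ 2)), fun s hs y => ?_⟩
  obtain ⟨i1, i2⟩ := tb_scale hm hs.1 y
  have q0 : 0 < √s := Real.sqrt_pos.2 hs.1
  have e : ∫ x : E, C * √s ^ n * Real.exp (-(m * ‖x - y‖ ^ 2 / s)) =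
      (C * ∫ v : E, Real.exp (-(m * ‖v‖ ^ 2))) * √s ^ (n + 4) := by
    rw [integral_const_mul, i2, zpow_add₀ q0.ne']
    norm_cast
    ring
  rw [← e]
  exact ⟨integral_mono_of_nonneg (.of_forall fun x => by positivity) (i1.const_mul _)
      (.of_forall fun x => (h1 s hs x y).1),
    integral_mono_of_nonneg (.of_forall fun x => by positivity) (i1.const_mul _)
      (.of_forall fun x => (h1 s hs x y).2)⟩

theorem tb_gauss : ∫ v : E, Real.exp (-(∑ i, co i v ^ 2) / 4) = 16 * Real.pi ^ 2 := by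
  have h := GaussianFourier.integral_rexp_neg_mul_sq_norm (V := ℂ) (b := 1 / 4) (by norm_num)
  have e := integral_prod_mul (μ := (volume : Measure ℂ)) (ν := (volume : Measure ℂ))
    (fun v : ℂ => Real.exp (-(1 / 4) * ‖v‖ ^ 2)) fun v : ℂ => Real.exp (-(1 / 4) * ‖v‖ ^ 2)
  rw [h] at e
  calc _ = _ := integral_congr_ae (.of_forall fun v => ?_)
    _ = _ := e
    _ = _ := by simp; ring
  simp only [← Real.exp_add, Complex.sq_norm, Complex.normSq_apply, Fin.sum_univ_four, co,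
    Matrix.cons_val, ContinuousLinearMap.comp_apply, ContinuousLinearMap.coe_fst',
    ContinuousLinearMap.coe_snd', Complex.reCLM_apply, Complex.imCLM_apply]
  congr 1
  ring

theorem Fr.tb_det (f : Fr) (y : E) : (f.θ y).det ≠ 0 := by
  have h : (f.θ y : E →ₗ[ℝ] E) ∘ₗ (f.M y : E →ₗ[ℝ] E) = LinearMap.id :=
    LinearMap.ext fun v => f.θM y v
  have := congrArg LinearMap.det h
  rw [LinearMap.det_comp, LinearMap.det_id] at this
  exact left_ne_zero_of_mul_eq_one this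

theorem Fr.tb_one (f : Fr) (y : E) :
    ∫ v : E, c0 * f.m y * Real.exp (-(∑ i, co i (f.θ y v) ^ 2) / 4) = 1 := by
  have := tb_haar
  have h := integral_map (μ := (volume : Measure E)) (φ := (f.θ y : E →ₗ[ℝ] E))
    (f.θ y).continuous.aemeasurable (f := fun v : E => Real.exp (-(∑ i, co i v ^ 2) / 4))
    (Continuous.aestronglyMeasurable (by fun_prop))
  rw [Measure.map_linearMap_addHaar_eq_smul_addHaar _ (f.tb_det y), integral_smul_measure,
    tb_gauss, ENNReal.toReal_ofReal (abs_nonneg _), abs_inv, smul_eq_mul] at h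
  rw [integral_const_mul]
  erw [← h]
  have h1 : |(f.θ y).det| ≠ 0 := abs_ne_zero.2 (f.tb_det y)
  have h2 := Real.pi_pos
  simp only [c0, Fr.m, ContinuousLinearMap.det] at h1 ⊢
  field_simp

theorem Fr.peak [CompleteSpace V] (f : Fr) {u : E → V} (hu : Continuous u)
    (hc : HasCompactSupport u) (y : E) :
    Tendsto (fun s : ℝ => ∫ x, (c0 * (s ^ (-2 : ℤ) * f.ex (s, x, y)) * f.m x) • u x) (𝓝[>] 0)
      (𝓝 (u y)) := by
  have := tb_haar
  have m0 : 0 < f.m y := abs_pos.2 (f.tb_det y)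
  have c0p : 0 < c0 := by have := Real.pi_pos; unfold c0; positivity
  have mc : Continuous f.m := (ContinuousLinearMap.continuous_det.comp f.hθ.continuous).abs
  obtain ⟨m, hm, h1⟩ := f.tb_low (isCompact_singleton (x := y))
  have gc : Continuous fun x => (f.m x / f.m y) • u x := (mc.div_const _).smul hu
  have h := tendsto_integral_comp_smul_smul_of_integrable' (μ := (volume : Measure E))
    (φ := fun v => c0 * f.m y * Real.exp (-(∑ i, co i (f.θ y v) ^ 2) / 4))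
    (fun v => by positivity) (f.tb_one y) ?_ (g := fun x => (f.m x / f.m y) • u x) (x₀ := y)
    (gc.integrable_of_hasCompactSupport hc.smul_left) gc.continuousAt
  · rw [div_self m0.ne', one_smul] at h
    have t : Tendsto (fun s : ℝ => (√s)⁻¹) (𝓝[>] 0) atTop :=
      tendsto_inv_nhdsGT_zero.comp (tendsto_nhdsWithin_iff.2
        ⟨(Real.continuous_sqrt.tendsto' 0 0 Real.sqrt_zero).mono_left nhdsWithin_le_nhds,
          eventually_mem_nhdsWithin.mono fun s hs => Real.sqrt_pos.2 hs⟩)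
    refine (h.comp t).congr' (eventually_mem_nhdsWithin.mono fun s hs => ?_)
    have s0 : 0 < s := hs
    refine integral_congr_ae (.of_forall fun x => ?_)
    have e1 : ∑ i, co i (f.θ y ((√s)⁻¹ • (y - x))) ^ 2 = (∑ i, f.eta i (x, y) ^ 2) / s := by
      rw [Finset.sum_div]
      refine Finset.sum_congr rfl fun i _ => ?_
      rw [← neg_sub x y]
      simp only [map_smul, map_neg, smul_eq_mul, mul_pow, inv_pow, Real.sq_sqrt s0.le, Fr.eta,
        neg_sq]
      field_simp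
    have e2 : (√s)⁻¹ ^ 4 = s ^ (-2 : ℤ) := by
      rw [inv_pow, show 4 = 2 * 2 from rfl, pow_mul, Real.sq_sqrt s0.le, zpow_neg]
      norm_cast
    simp only [tb_rank, e1, e2, smul_smul, Fr.ex]
    congr 1
    rw [show -((∑ i, f.eta i (x, y) ^ 2) / s) / 4 = -(∑ i, f.eta i (x, y) ^ 2) / (4 * s) by
      field_simp]
    field_simp
  · have t1 : Tendsto (fun v : E => m / 4 * ‖v‖ ^ 2) (Bornology.cobounded E) atTop :=
      ((tendsto_pow_atTop two_ne_zero).comp tendsto_norm_cobounded_atTop).const_mul_atTop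
        (by positivity)
    have t2 := ((Real.tendsto_pow_mul_exp_neg_atTop_nhds_zero 2).comp t1).const_mul
      (c0 * f.m y * ((m / 4) ^ 2)⁻¹)
    rw [mul_zero] at t2
    refine squeeze_zero (fun v => by positivity) (fun v => ?_) t2
    have := h1 y rfl v
    rw [tb_rank]
    calc _ ≤ ‖v‖ ^ 4 * (c0 * f.m y * Real.exp (-(m / 4 * ‖v‖ ^ 2))) := by
          gcongr
          linarith
      _ = _ := by simp only [comp]; field_simp

end Pool.Agent.Lib.MP_1c0d65_gt.Nz
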