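import Pool.Agent.Lib.MP_1c0d65_gt.Nz.Id

/-! Calculus in the class of local heat kernels. -/

set_option autoImplicit false

open scoped ContDiff Topology
open Set MeasureTheory Function Filter

noncomputable section

namespace Pool.Agent.Lib.MP_1c0d65_gt.Nz

open Pool.Agent.Lib.MP_1c0d65_gt.PW

variable {V V' V'' : Type} [NormedAddCommGroup V] [NormedSpace ℝ V] [NormedAddCommGroup V']
  [NormedSpace ℝ V'] [NormedAddCommGroup V''] [NormedSpace ℝ V''] {f : Fr}

theorem tc_open : IsOpen {z : Z | 0 < z.1} := isOpen_lt continuous_const continuous_fst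

theorem tc_zpow (p : ℤ) {z : Z} (hz : 0 < z.1) : ContDiffAt ℝ ∞ (fun z : Z => z.1 ^ p) z := by
  rcases p with n | n
  · simpa using (contDiffAt_fst (𝕜 := ℝ) (n := ∞) (p := z)).pow n
  · simp only [zpow_negSucc]
    exact (contDiffAt_fst.pow (n + 1)).inv (pow_ne_zero _ hz.ne')

theorem Fr.tc_gen (f : Fr) (p : ℤ) {c : E × E → V} (hc : ContDiff ℝ ∞ c) {z : Z} (hz : 0 < z.1) :
    ContDiffAt ℝ ∞ (f.gen p c) z := by
  have h : ContDiffAt ℝ ∞ f.ex z :=
    ((ContDiffAt.sum fun i _ => (((f.eta_smooth i).comp contDiff_snd).pow 2).contDiffAt).neg.div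
      (contDiffAt_const.mul contDiffAt_fst) (by positivity)).exp
  exact ((tc_zpow p hz).mul h).smul (hc.comp contDiff_snd).contDiffAt

theorem Fr.T.smooth {n : ℤ} {F : Z → V} (h : f.T n F) : ContDiffOn ℝ ∞ F {z | 0 < z.1} := by
  induction h with
  | gen p r c hc _ => exact fun z hz => (f.tc_gen p hc.smooth hz).contDiffWithinAt
  | add _ _ h1 h2 => exact h1.add h2
  | congr _ e h => exact h.congr e

theorem Fr.T.tc_at {n : ℤ} {F : Z → V} (h : f.T n F) {z : Z} (hz : 0 < z.1) :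
    ContDiffAt ℝ ∞ F z := h.smooth.contDiffAt (tc_open.mem_nhds hz)

theorem Fr.T.tc_has {n : ℤ} {F : Z → V} (h : f.T n F) {z : Z} (hz : 0 < z.1) :
    HasFDerivAt F (fderiv ℝ F z) z := ((h.tc_at hz).differentiableAt (by simp)).hasFDerivAt

theorem Fr.T.smooth_s {n : ℤ} {F : Z → V} (h : f.T n F) {s : ℝ} (hs : 0 < s) :
    ContDiff ℝ ∞ fun q : E × E => F (s, q) :=
  contDiff_iff_contDiffAt.2 fun q =>
    (h.tc_at (z := (s, q)) hs).comp q (contDiffAt_const.prodMk contDiffAt_id)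

theorem Fr.T.mono {n m : ℤ} {F : Z → V} (h : f.T n F) (hm : m ≤ n) : f.T m F := by
  induction h with
  | gen p r c hc hn => exact .gen p r c hc (hm.trans hn)
  | add _ _ h1 h2 => exact h1.add h2
  | congr _ e h => exact h.congr e

theorem Fr.T.zero (f : Fr) (n : ℤ) : f.T n (0 : Z → V) :=
  (Fr.T.gen 0 n.toNat (fun _ => (0 : V)) (Fr.I.zero f _) (by omega)).congr fun z _ => by
    simp [Fr.gen]

theorem Fr.T.map {n : ℤ} {F : Z → V} (h : f.T n F) (L : V →L[ℝ] V') :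
    f.T n fun z => L (F z) := by
  induction h with
  | gen p r c hc hn => exact (Fr.T.gen p r _ (hc.map L) hn).congr fun z _ => by simp [Fr.gen]
  | add _ _ h1 h2 => exact (h1.add h2).congr fun z _ => by simp
  | congr _ e h => exact h.congr fun z hz => by rw [e z hz]

theorem Fr.T.smul {n : ℤ} {F : Z → V} (h : f.T n F) (a : ℝ) : f.T n (a • F) :=
  h.map (a • ContinuousLinearMap.id ℝ V)

theorem Fr.T.neg {n : ℤ} {F : Z → V} (h : f.T n F) : f.T n (-F) :=
  h.map (-ContinuousLinearMap.id ℝ V)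

theorem Fr.T.sub {n : ℤ} {F G : Z → V} (h : f.T n F) (h' : f.T n G) : f.T n (F - G) :=
  (h.add h'.neg).congr fun z _ => by simp [sub_eq_add_neg]

theorem Fr.T.sum {ι : Type} {n : ℤ} (s : Finset ι) {F : ι → Z → V} (h : ∀ i ∈ s, f.T n (F i)) :
    f.T n fun z => ∑ i ∈ s, F i z := by
  classical
  induction s using Finset.induction_on with
  | empty => exact (Fr.T.zero f n).congr fun z _ => by simp
  | insert a s ha ih =>
    exact ((h a (Finset.mem_insert_self a s)).add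
      (ih fun i hi => h i (Finset.mem_insert_of_mem hi))).congr fun z _ => by
        simp [Finset.sum_insert ha]

theorem Fr.T.bil {n : ℤ} {r : ℕ} {c : E × E → V} {F : Z → V'} (hc : f.I r c) (h : f.T n F)
    (L : V →L[ℝ] V' →L[ℝ] V'') : f.T (n + r) fun z => L (c z.2) (F z) := by
  induction h with
  | gen p t d hd hn =>
    exact (Fr.T.gen p (r + t) _ (hc.bil hd L) (by push_cast; omega)).congr fun z _ => by
      simp [Fr.gen]
  | add _ _ h1 h2 => exact (h1.add h2).congr fun z _ => by simp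
  | congr _ e h => exact h.congr fun z hz => by rw [e z hz]

theorem Fr.tc_fderiv (f : Fr) (p : ℤ) {c : E × E → V} (hc : ContDiff ℝ ∞ c) {z : Z}
    (hz : 0 < z.1) (τ : ℝ) (w : E × E) : fderiv ℝ (f.gen p c) z (τ, w) =
      f.gen p (fun q => fderiv ℝ c q w) z - f.gen (p - 1)
        (fun q => ((1 / 2 : ℝ) * ∑ j, f.eta j q * fderiv ℝ (f.eta j) q w) • c q) z +
      τ • ((p : ℝ) • f.gen (p - 1) c z +
        f.gen (p - 2) (fun q => ((1 / 4 : ℝ) * ∑ j, f.eta j q ^ 2) • c q) z) := by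
  have h1 : HasFDerivAt (fun z : Z => z.1) (ContinuousLinearMap.fst ℝ ℝ (E × E)) z :=
    hasFDerivAt_fst
  have h2 : HasFDerivAt (fun z : Z => z.2) (ContinuousLinearMap.snd ℝ ℝ (E × E)) z :=
    hasFDerivAt_snd
  have hp := (hasDerivAt_zpow p z.1 (Or.inl hz.ne')).comp_hasFDerivAt z h1
  have hη := fun i => ((f.eta_smooth i).differentiable (by simp) z.2).hasFDerivAt.comp z h2
  have hQ := HasFDerivAt.fun_sum (u := Finset.univ) fun i _ => (hη i).pow 2
  have hi := (hasDerivAt_inv (x := 4 * z.1) (by positivity)).comp_hasFDerivAt z (h1.const_mul 4)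
  have hc' := (hc.differentiable (by simp) z.2).hasFDerivAt.comp z h2
  have H := (hp.mul (hQ.neg.mul hi).exp).smul hc'
  have H' := H.congr_of_eventuallyEq (f₁ := f.gen p c) (Eventually.of_forall fun z => by
    simp only [Fr.gen, Fr.ex, div_eq_mul_inv]; rfl)
  have a1 : z.1 ^ p = z.1 ^ (p - 2) * z.1 ^ 2 := by
    rw [← zpow_natCast, ← zpow_add₀ hz.ne']; simp
  have a2 : z.1 ^ (p - 1) = z.1 ^ (p - 2) * z.1 := by
    rw [← zpow_add_one₀ hz.ne']; congr 1; ring
  have a3 : ∑ j, (f.eta j z.2 + f.eta j z.2) * fderiv ℝ (f.eta j) z.2 w =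
      2 * ∑ j, f.eta j z.2 * fderiv ℝ (f.eta j) z.2 w := by
    rw [Finset.mul_sum]; exact Finset.sum_congr rfl fun j _ => by ring
  rw [H'.fderiv]
  simp only [Fr.gen, Fr.ex, div_eq_mul_inv]
  simp [two_mul, a3]
  rw [a1, a2]
  match_scalars
  · rfl
  · have := hz.ne'
    field_simp
    ring

theorem Fr.eX_gen (f : Fr) (p : ℤ) {c : E × E → V} (hc : ContDiff ℝ ∞ c) (i : Fin 4) {z : Z}
    (hz : 0 < z.1) : f.eX i (f.gen p c) z = f.gen p (f.dx i c) z -
      f.gen (p - 1) (fun q => ((1 / 2 : ℝ) * ∑ j, f.eta j q * f.dx i (f.eta j) q) • c q) z := by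
  rw [Fr.eX, dv, f.tc_fderiv p hc hz, zero_smul, add_zero]
  rfl

theorem Fr.ds_gen (f : Fr) (p : ℤ) {c : E × E → V} (hc : ContDiff ℝ ∞ c) {z : Z} (hz : 0 < z.1) :
    ds (f.gen p c) z = (p : ℝ) • f.gen (p - 1) c z +
      f.gen (p - 2) (fun q => ((1 / 4 : ℝ) * ∑ j, f.eta j q ^ 2) • c q) z := by
  rw [ds, f.tc_fderiv p hc hz]
  simp [Fr.gen]

theorem tc_congr {F G : Z → V} (e : ∀ z : Z, 0 < z.1 → G z = F z) {z : Z} (hz : 0 < z.1) :
    fderiv ℝ G z = fderiv ℝ F z :=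
  EventuallyEq.fderiv_eq (Eventually.mono (tc_open.mem_nhds hz) e)

theorem Fr.T.tc_add {n : ℤ} {F G : Z → V} (h : f.T n F) (h' : f.T n G) {z : Z} (hz : 0 < z.1) :
    fderiv ℝ (F + G) z = fderiv ℝ F z + fderiv ℝ G z := ((h.tc_has hz).add (h'.tc_has hz)).fderiv

theorem Fr.T.dv {n : ℤ} {F : Z → V} (h : f.T n F) {v : E × E → E × E} (hv : ContDiff ℝ ∞ v) :
    f.T (n - 1) (dv v F) := by
  induction h with
  | gen p r c hc hn =>
    have h1 : f.I 1 fun q => (1 / 2 : ℝ) * ∑ j, f.eta j q * fderiv ℝ (f.eta j) q (v q) :=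
      (Fr.I.sum Finset.univ fun j _ => ((Fr.I.eta f j).der hv).eta_smul j).smul (1 / 2)
    exact ((Fr.T.gen p (r - 1) _ (hc.der hv) (by omega)).sub (Fr.T.gen (p - 1) (1 + r) _
      (h1.bil hc (ContinuousLinearMap.lsmul ℝ ℝ)) (by push_cast; omega))).congr fun z hz => by
        rw [Nz.dv, f.tc_fderiv p hc.smooth hz, zero_smul, add_zero]
        rfl
  | add a b h1 h2 => exact (h1.add h2).congr fun z hz => by simp [Nz.dv, a.tc_add b hz]
  | congr _ e h => exact h.congr fun z hz => by rw [Nz.dv, Nz.dv, tc_congr e hz]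

theorem Fr.T.eX {n : ℤ} {F : Z → V} (h : f.T n F) (i : Fin 4) : f.T (n - 1) (f.eX i F) :=
  h.dv (((f.e_smooth i).comp contDiff_fst).prodMk contDiff_const)

theorem Fr.T.ds {n : ℤ} {F : Z → V} (h : f.T n F) : f.T (n - 2) (ds F) := by
  induction h with
  | gen p r c hc hn =>
    have h0 : f.I 2 fun q => ∑ j, f.eta j q • f.eta j q :=
      Fr.I.sum Finset.univ fun j _ => (Fr.I.eta f j).eta_smul j
    have h1 : f.I 2 fun q => (1 / 4 : ℝ) * ∑ j, f.eta j q ^ 2 := by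
      simpa [sq] using h0.smul (1 / 4)
    exact (((Fr.T.gen (p - 1) r _ hc (by omega)).smul (p : ℝ)).add (Fr.T.gen (p - 2) (2 + r) _
      (h1.bil hc (ContinuousLinearMap.lsmul ℝ ℝ)) (by push_cast; omega))).congr fun z hz =>
        f.ds_gen p hc.smooth hz
  | add a b h1 h2 => exact (h1.add h2).congr fun z hz => by simp [Nz.ds, a.tc_add b hz]
  | congr _ e h => exact h.congr fun z hz => by rw [Nz.ds, Nz.ds, tc_congr e hz]

theorem Fr.T.hasDerivAt {n : ℤ} {F : Z → V} (h : f.T n F) {s : ℝ} (hs : 0 < s) (q : E × E) :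
    HasDerivAt (fun t => F (t, q)) (Nz.ds F (s, q)) s :=
  (h.tc_has (z := (s, q)) hs).comp_hasDerivAt s ((hasDerivAt_id s).prodMk (hasDerivAt_const s q))

theorem Fr.T.d_eq {n : ℤ} {F : Z → V} (h : f.T n F) {s : ℝ} (hs : 0 < s) (i : Fin 4) (x y : E) :
    f.d i (fun x' => F (s, x', y)) x = f.eX i F (s, x, y) := by
  have h1 : HasFDerivAt (fun x' : E => ((s, x', y) : Z)) _ x := (hasFDerivAt_const (𝕜 := ℝ) s x).prodMk
    ((hasFDerivAt_id x).prodMk (hasFDerivAt_const y x))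
  have := (h.tc_has (z := (s, x, y)) hs).comp x h1
  rw [Fr.d, show fderiv ℝ (fun x' => F (s, x', y)) x = _ from this.fderiv]
  rfl

theorem Supp.tc_fderiv {F : Z → V} (h : Supp F) (w : Z → Z) :
    Supp fun z => fderiv ℝ F z (w z) := by
  obtain ⟨K, hK, h⟩ := h
  refine ⟨K, hK, fun z hz ne => ?_⟩
  by_contra hc
  have o : IsOpen {z : Z | ¬(z.2.1 ∈ K ∧ z.2.2 ∈ K)} :=
    ((hK.isClosed.preimage continuous_snd.fst).inter
      (hK.isClosed.preimage continuous_snd.snd)).isOpen_compl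
  have e : F =ᶠ[𝓝 z] fun _ => 0 := by
    filter_upwards [tc_open.mem_nhds hz, o.mem_nhds hc] with u h1 h2
    by_contra h3
    exact h2 (h u h1 h3)
  exact ne (by simp [e.fderiv_eq])

theorem Supp.dv {F : Z → V} (h : Supp F) (v : E × E → E × E) : Supp (dv v F) :=
  h.tc_fderiv fun z => (0, v z.2)

theorem Supp.ds {F : Z → V} (h : Supp F) : Supp (ds F) := h.tc_fderiv fun _ => (1, 0)

end Pool.Agent.Lib.MP_1c0d65_gt.Nz
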