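import Pool.Agent.Lib.MP_1c0d65_gt.Nz.Sec
import Pool.Agent.Lib.MP_1c0d65_gt.Nz.Tb
import Pool.Agent.Lib.MP_1c0d65_gt.Nz.Tc

/-! The glued parametrix tends to the delta function. -/

set_option autoImplicit false

open scoped ContDiff Topology
open Set MeasureTheory Function Filter

noncomputable section

namespace Pool.Agent.Lib.MP_1c0d65_gt.Nz

open Pool.Agent.Lib.MP_1c0d65_gt.PW

variable {W : Type} [NormedAddCommGroup W] [InnerProductSpace ℝ W] [FiniteDimensional ℝ W]
  [CompleteSpace W] {C : Cl W}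

omit [FiniteDimensional ℝ W] in
theorem dl_cont {f : Fr} {n : ℤ} {F : Z → W →L[ℝ] W} (h : f.T n F) (hs : Supp F) {U : E → W}
    (hU : Continuous U) {s : ℝ} (h0 : 0 < s) (y : E) :
    Continuous (fun z => star (F (s, z, y)) (U z)) ∧
      HasCompactSupport fun z => star (F (s, z, y)) (U z) := by
  obtain ⟨K, hK, h1⟩ := hs
  refine ⟨(((h.smooth_s h0).continuous.comp (continuous_id.prodMk continuous_const)).star).clm_apply
    hU, HasCompactSupport.intro hK fun z hz => ?_⟩
  have : F (s, z, y) = 0 := by_contra fun ne => hz (h1 (s, z, y) h0 ne).1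
  simp [this]

theorem dl_loc {L : Loc C} {ρ : E → ℝ} (cρ : HasCompactSupport ρ) {N : ℤ}
    {K R : Z → W →L[ℝ] W} (h : L.Cut ρ N K R) {U : E → W} (hU : Continuous U) (y : E) :
    Tendsto (fun s => ∫ z, L.m z • star (K (s, z, y)) (U z)) (𝓝[>] 0) (𝓝 (ρ y • U y)) := by
  obtain ⟨χ, hχ, cχ, h1, hT⟩ := h.lead
  set G : Z → W →L[ℝ] W := L.gen (-2) fun q => (c0 * ρ q.2 * χ q.1) • (1 : W →L[ℝ] W) with hG
  have hs : Supp (K - G) := by
    obtain ⟨K₀, hK, h2⟩ := h.sK
    refine ⟨K₀ ∪ (tsupport ρ ∪ tsupport χ), hK.union (IsCompact.union cρ cχ), fun z h0 ne => ?_⟩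
    by_cases e : K z = 0
    · have h3 : ρ z.2.2 ≠ 0 := fun h => ne (by simp [e, hG, Fr.gen, h])
      have h4 : χ z.2.1 ≠ 0 := fun h => ne (by simp [e, hG, Fr.gen, h])
      exact ⟨.inr (.inr (subset_tsupport _ h4)), .inr (.inl (subset_tsupport _ h3))⟩
    · exact ⟨.inl (h2 z h0 e).1, .inl (h2 z h0 e).2⟩
  have hm := L.toFr.sec_m_cont
  obtain ⟨c, hc⟩ := hT.l1 hs (w := fun z => L.m z * ‖U z‖) (hm.mul hU.norm)
  have cu : HasCompactSupport fun z => (ρ y * χ z) • U z :=
    HasCompactSupport.intro cχ fun z hz => by simp [image_eq_zero_of_notMem_tsupport hz]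
  have p := L.toFr.peak (u := fun z => (ρ y * χ z) • U z)
    ((continuous_const.mul hχ.continuous).smul hU) cu y
  have e0 : (ρ y * χ y) • U y = ρ y • U y := by
    by_cases e : ρ y = 0
    · simp [e]
    · rw [h1 y e, mul_one]
  simp only [e0] at p
  have q : Tendsto (fun s => ∫ z, L.m z • star ((K - G) (s, z, y)) (U z)) (𝓝[>] 0) (𝓝 0) := by
    have t : Tendsto (fun s : ℝ => c * √s) (𝓝[>] 0) (𝓝 0) := by
      have : Tendsto (fun s : ℝ => c * √s) (𝓝 0) (𝓝 (c * √0)) :=
        (continuous_const.mul Real.continuous_sqrt).tendsto 0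
      simpa using this.mono_left nhdsWithin_le_nhds
    refine squeeze_zero_norm' ?_ t
    filter_upwards [Ioc_mem_nhdsGT (zero_lt_one' ℝ)] with s h0
    have c1 : Continuous fun z => ‖(K - G) (s, z, y)‖ * |L.m z * ‖U z‖| :=
      ((hT.smooth_s h0.1).continuous.comp (continuous_id.prodMk continuous_const)).norm.mul
        (hm.mul hU.norm).abs
    obtain ⟨K₀, hK, h2⟩ := hs
    have c2 : HasCompactSupport fun z => ‖(K - G) (s, z, y)‖ * |L.m z * ‖U z‖| :=
      HasCompactSupport.intro hK fun z hz => by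
        have : (K - G) (s, z, y) = 0 := by_contra fun ne => hz (h2 (s, z, y) h0.1 ne).1
        rw [this, norm_zero, zero_mul]
    refine (norm_integral_le_of_norm_le (c1.integrable_of_hasCompactSupport c2)
      (.of_forall fun z => ?_)).trans (by simpa using (hc s h0 y).1)
    rw [norm_smul, abs_mul, abs_norm, mul_left_comm, Real.norm_eq_abs, ← norm_star ((K - G) (s, z, y))]
    exact mul_le_mul_of_nonneg_left (ContinuousLinearMap.le_opNorm _ _) (abs_nonneg _)
  have := q.add p
  rw [zero_add] at this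
  refine this.congr' ?_
  filter_upwards [self_mem_nhdsWithin] with s h0
  have i1 := dl_cont hT hs hU h0 y
  have i2 := dl_cont h.hK h.sK hU h0 y
  have j1 := (hm.smul i1.1).integrable_of_hasCompactSupport (μ := volume) i1.2.smul_left
  have j2 := (hm.smul i2.1).integrable_of_hasCompactSupport (μ := volume) i2.2.smul_left
  rw [← eq_sub_iff_add_eq']
  refine (integral_congr_ae (.of_forall fun z => ?_)).trans (integral_sub j2 j1)
  simp only [Pi.sub_apply, star_sub, sub_apply, smul_sub, sub_sub_cancel, hG,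
    Fr.gen, star_smul, star_one, star_trivial, smul_apply, one_apply_eq_self, smul_smul]
  congr 1
  ring

variable {X : Type} [TopologicalSpace X] [T2Space X] [CompactSpace X] [MeasurableSpace X]
  [BorelSpace X] {μ : Measure X}

theorem dl_lift (S : Sy X μ C) (a : Fin S.n) (F : Z → W →L[ℝ] W) (s : ℝ) (u : X → W) (y : E) :
    (fun x => star (S.lift a F s x (S.ψ a y)) (u x)) = fun x => star (S.g a (S.ψ a y))
      (extend (S.ψ a) (fun z => star (F (s, z, y)) (S.loc a u z)) 0 x) := by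
  funext x
  have hi := (S.emb a).injective
  by_cases hx : x ∈ range (S.ψ a)
  · obtain ⟨z, rfl⟩ := hx
    have e := (hi.prodMap hi).extend_apply (fun q => F (s, q)) 0 (z, y)
    rw [Prod.map_apply] at e
    rw [Sy.lift, e, S.toAtl.sec_ext]
    simp [Sy.loc]
  · rw [Sy.lift, extend_apply' _ _ _ fun ⟨q, hq⟩ => hx ⟨q.1, congrArg Prod.fst hq⟩,
      S.toAtl.sec_off a _ hx]
    simp

omit [T2Space X] [CompactSpace X] [BorelSpace X] in
theorem dl_off (S : Sy X μ C) (a : Fin S.n) (F : Z → W →L[ℝ] W) (s : ℝ) (u : X → W) {y : X}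
    (hy : y ∉ range (S.ψ a)) : (fun x => star (S.lift a F s x y) (u x)) = fun _ => 0 := by
  funext x
  rw [Sy.lift, extend_apply' _ _ _ fun ⟨q, hq⟩ => hy ⟨q.2, congrArg Prod.snd hq⟩]
  simp

theorem dl_int (S : Sy X μ C) (a : Fin S.n) {v : E → W} (hv : Continuous v)
    (cv : HasCompactSupport v) : Integrable (extend (S.ψ a) v 0) μ := by
  have h := ((S.up_sm (l := 0) bot_le a (contDiff_zero.2 hv) cv).memLp 1).norm
  have m : StronglyMeasurable (extend (S.ψ a) v 0) :=
    (S.toAtl.sec_me a).stronglyMeasurable_extend hv.stronglyMeasurable stronglyMeasurable_const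
  refine (memLp_one_iff_integrable.1 h).mono' m.aestronglyMeasurable (.of_forall fun x => ?_)
  rw [Sy.up, sec_norm (by rw [star_star, S.g2])]

theorem Sy.glue_delta (S : Sy X μ C) {N : ℤ} {K R : Fin S.n → Z → W →L[ℝ] W}
    (h : ∀ a, (S.L a).Cut (S.ρ a) N (K a) (R a)) {u : X → W} (hu : S.Sm ∞ u) (y : X) :
    Tendsto (fun s => op μ (S.glue K s) u y) (𝓝[>] 0) (𝓝 (u y)) := by
  have key : ∀ a, Tendsto (fun s => S.κ⁻¹ • ∫ x, star (S.lift a (K a) s x y) (u x) ∂μ) (𝓝[>] 0)
      (𝓝 (S.up a (fun z => S.ρ a z • S.loc a u z) y)) ∧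
      ∀ s, 0 < s → Integrable (fun x => star (S.lift a (K a) s x y) (u x)) μ := fun a => by
    by_cases hy : y ∈ range (S.ψ a)
    swap
    · simp only [dl_off S a (K a) _ u hy, S.sec_up_off a _ hy, integral_zero, smul_zero]
      exact ⟨tendsto_const_nhds, fun _ _ => integrable_zero _ _ _⟩
    obtain ⟨y, rfl⟩ := hy
    have i := fun s (h0 : 0 < s) =>
      have c := dl_cont (h a).hK (h a).sK (hu a).continuous h0 y
      dl_int S a c.1 c.2
    simp only [dl_lift, S.sec_up]
    refine ⟨((star (S.g a (S.ψ a y))).continuous.tendsto _ |>.comp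
      (dl_loc (S.cρ a) (h a) (hu a).continuous y)).congr' ?_,
      fun s h0 => (star (S.g a (S.ψ a y))).integrable_comp (i s h0)⟩
    filter_upwards [self_mem_nhdsWithin] with s h0
    rw [ContinuousLinearMap.integral_comp_comm _ (i s h0), S.toAtl.integral_ext, ← map_smul,
      ← integral_smul]
    simp only [comp, smul_smul, ← mul_assoc, inv_mul_cancel₀ S.hκ.ne', one_mul]
  rw [← S.sum_up u y]
  refine (tendsto_finsetSum _ fun a _ => (key a).1).congr' ?_
  filter_upwards [self_mem_nhdsWithin] with s h0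
  rw [← Finset.smul_sum, ← integral_finsetSum _ fun a _ => (key a).2 s h0, ← integral_smul, op]
  simp [Sy.glue]

end Pool.Agent.Lib.MP_1c0d65_gt.Nz
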