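import Pool.Agent.Lib.MP_1c0d65_gt.Nz.GGs

/-! An atlas of charts onto `E` with unitary frames. -/

set_option autoImplicit false
set_option linter.unusedSectionVars false

open scoped Manifold ContDiff Topology
open Set MeasureTheory Function Matrix

noncomputable section

namespace Pool.Agent.Lib.MP_1c0d65_gt.Nz

open Pool.Agent.Lib.MP_1c0d65_gt.PW

/-- A diffeomorphism of `E` onto a small neighbourhood of a point. -/
theorem gatl_ball {y : E} {O : Set E} (hO : O ∈ 𝓝 y) : ∃ φ : OpenPartialHomeomorph E E,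
    φ.source = univ ∧ φ.target ⊆ O ∧ y ∈ φ.target ∧ ContDiff ℝ ∞ φ ∧
      ContDiffOn ℝ ∞ φ.symm φ.target := by
  obtain ⟨r, hr, h⟩ := Metric.mem_nhds_iff.1 hO
  have ht : ((OpenPartialHomeomorph.univBall (E := ℂ) y.1 r).prod
      (OpenPartialHomeomorph.univBall (E := ℂ) y.2 r)).target =
      Metric.ball y.1 r ×ˢ Metric.ball y.2 r := by
    rw [OpenPartialHomeomorph.prod_target, OpenPartialHomeomorph.univBall_target _ hr,
      OpenPartialHomeomorph.univBall_target _ hr]
  refine ⟨(OpenPartialHomeomorph.univBall y.1 r).prod (OpenPartialHomeomorph.univBall y.2 r),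
    by simp, ?_, ?_, ?_, ?_⟩
  · rw [ht, ball_prod_same]; exact h
  · rw [ht]; exact ⟨Metric.mem_ball_self hr, Metric.mem_ball_self hr⟩
  · exact (OpenPartialHomeomorph.contDiff_univBall.comp contDiff_fst).prodMk
      (OpenPartialHomeomorph.contDiff_univBall.comp contDiff_snd)
  · rw [ht]
    exact (OpenPartialHomeomorph.contDiffOn_univBall_symm.comp contDiffOn_fst fun _ h => h.1).prodMk
      (OpenPartialHomeomorph.contDiffOn_univBall_symm.comp contDiffOn_snd fun _ h => h.2)

theorem gatl_pq (om : Bil E ℝ) (J : E →L[ℝ] E) (pos : ∀ v, v ≠ 0 → 0 < om v (J v)) :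
    ∃ p q, om p (J q) ^ 2 + om p q ^ 2 < om p (J p) * om q (J q) := by
  have h := LinearMap.ker_ne_bot_of_finrank_lt
    (f := (((om (1, 0)).comp J).prod (om (1, 0))).toLinearMap) (by simp [Module.finrank_prod])
  obtain ⟨q, h1, h2⟩ := (Submodule.ne_bot_iff _).1 h
  have h3 : om (1, 0) (J q) = 0 := congrArg Prod.fst (LinearMap.mem_ker.1 h1)
  have h4 : om (1, 0) q = 0 := congrArg Prod.snd (LinearMap.mem_ker.1 h1)
  refine ⟨(1, 0), q, ?_⟩
  rw [h3, h4]
  simpa using mul_pos (pos (1, 0) (by simp)) (pos q h2)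

variable {X : Type} [TopologicalSpace X] [ChartedSpace E X] [IsManifold 𝓘(ℝ, E) ∞ X]
  [T2Space X] [CompactSpace X] [MeasurableSpace X] [BorelSpace X] {c : Ctx X}

theorem gatl_g {e : OpenPartialHomeomorph X E} (he : IsChart e) {y : E} (hy : y ∈ e.target)
    (v w : E) : pull2 e.symm c.om y v (pullJ e.symm c.J0 y w) =
      c.om (e.symm y) (dif e.symm y v) (c.J0 (e.symm y) (dif e.symm y w)) := by
  rw [pull2_apply, dif_pullJ (he.inv hy)]

theorem gatl_pos {e : OpenPartialHomeomorph X E} (he : IsChart e) {y : E} (hy : y ∈ e.target)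
    (v : E) (hv : v ≠ 0) : 0 < pull2 e.symm c.om y v (pullJ e.symm c.J0 y v) := by
  rw [gatl_g he hy]
  exact (c.tame0.1 _ trivial _).2 fun h => hv ((he.inv hy).injective (h.trans (map_zero _).symm))

theorem gatl_chart (c : Ctx X) (x : X) : ∃ (e : OpenPartialHomeomorph X E) (f : Fr), IsChart e ∧
    x ∈ e.source ∧ e.target = univ ∧ (∀ z, pull2 e.symm c.om z = f.f2 (fun _ => sg true 1) z) ∧
      ∀ z v, pullJ e.symm c.J0 z (f.M z v) = f.M z (Complex.I • v) := by
  have he := isChart_chartAt (X := X) x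
  have hx := mem_chart_source E x
  generalize chartAt E x = e at he hx
  have hy := e.map_source hx
  obtain ⟨p, q, hpq⟩ := gatl_pq _ _ (gatl_pos (c := c) he hy)
  have c1 := (c.hom.1.smooth isOpen_univ (he.smAt hy) trivial).continuousAt
  have c2 := (c.tame0.smooth isOpen_univ (he.smAt hy) trivial (he.inv hy)).continuousAt
  have hO : ∀ᶠ y in 𝓝 (e x), pull2 e.symm c.om y p (pullJ e.symm c.J0 y q) ^ 2 +
      pull2 e.symm c.om y p q ^ 2 < pull2 e.symm c.om y p (pullJ e.symm c.J0 y p) *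
        pull2 e.symm c.om y q (pullJ e.symm c.J0 y q) :=
    ContinuousAt.eventually_lt (by fun_prop) (by fun_prop) hpq
  obtain ⟨φ, s1, s2, s3, s4, s5⟩ := gatl_ball (hO.and (e.open_target.mem_nhds hy))
  have m1 : ∀ z, φ z ∈ φ.target := fun z => φ.map_source (s1 ▸ trivial)
  have he' : IsChart (e.trans φ.symm) := he.trans φ.symm s5 s4.contDiffOn
  have ht : ∀ z, z ∈ (e.trans φ.symm).target := fun z => ⟨s1.ge trivial, (s2 (m1 z)).2⟩
  have a5 : ∀ z, ContDiffAt ℝ ∞ φ.symm (φ z) := fun z =>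
    s5.contDiffAt (φ.open_target.mem_nhds (m1 z))
  have sm : ∀ v : E, ContDiff ℝ ∞ fun z => fderiv ℝ φ.symm (φ z) v := fun v =>
    contDiff_iff_contDiffAt.2 fun z =>
      (((a5 z).fderiv_right top_le).comp z s4.contDiffAt).clm_apply contDiffAt_const
  have hd : ∀ z v, dif (e.trans φ.symm).symm z (fderiv ℝ φ.symm (φ z) v) = dif e.symm (φ z) v := by
    intro z v
    have h1 : (e.symm : E → X) =ᶠ[𝓝 (φ z)] (e.trans φ.symm).symm ∘ φ.symm := by
      filter_upwards [φ.open_target.mem_nhds (m1 z)] with y hy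
      exact (congrArg e.symm (φ.right_inv hy)).symm
    rw [dif_congr h1, dif_comp ((he'.smAt (ht _)).dfAt (by simp))
      ((a5 z).differentiableAt (by simp)), φ.left_inv (s1 ▸ trivial)]
    rfl
  obtain ⟨f, h1, h2⟩ := exists_fr (om := pull2 (e.trans φ.symm).symm c.om)
    (J := pullJ (e.trans φ.symm).symm c.J0)
    (contDiff_iff_contDiffAt.2 fun z => c.hom.1.smooth isOpen_univ (he'.smAt (ht z)) trivial)
    (contDiff_iff_contDiffAt.2 fun z =>
      c.tame0.smooth isOpen_univ (he'.smAt (ht z)) trivial (he'.inv (ht z)))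
    (sm p) (sm q) (fun z v => c.hom.1.1 _ trivial _)
    (fun z v => (he'.inv (ht z)).injective (by
      rw [dif_pullJ (he'.inv (ht z)), dif_pullJ (he'.inv (ht z)), (c.tame0.1 _ trivial _).1,
        map_neg]))
    (fun z v w => by
      rw [pull2_apply, pull2_apply, dif_pullJ (he'.inv (ht z)), dif_pullJ (he'.inv (ht z)),
        c.comp0])
    (fun z => gatl_pos he' (ht z))
    (fun z => by
      have h := (s2 (m1 z)).1
      simp only [gatl_g he (s2 (m1 z)).2] at h
      simp only [gatl_g he' (ht z), pull2_apply, hd]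
      exact h)
  exact ⟨_, f, he', ⟨hx, s3⟩, eq_univ_of_forall ht, h1, h2⟩

theorem exists_UA (c : Ctx X) : Nonempty (UA c) := by
  choose e f h1 h2 h3 h4 h5 using gatl_chart c
  obtain ⟨s, ρ, r1, r2, r3, r4, -⟩ := St.exists_partition (fun x => (e x).source)
    (fun x => (e x).open_source) fun x => ⟨x, h2 x⟩
  exact ⟨⟨s.card, fun a => e (s.equivFin.symm a), fun _ => h1 _, fun _ => h3 _,
    fun a => f (s.equivFin.symm a), fun _ => h4 _, fun _ => h5 _, fun a => ρ (s.equivFin.symm a),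
    fun _ => r1 _, fun _ => r2 _, fun _ => r3 _,
    fun x => (s.equivFin.symm.sum_comp fun i => ρ i x).trans (r4 x)⟩⟩

end Pool.Agent.Lib.MP_1c0d65_gt.Nz
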