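import Pool.Agent.Lib.MP_1c0d65_gt.E.AdjL
import Pool.Agent.Lib.MP_1c0d65_gt.E.DA

/-! Two forms that represent the first Chern class differ by an exact form. -/

set_option autoImplicit false

open scoped Manifold ContDiff Topology
open Set Filter

noncomputable section

namespace Pool.Agent.Lib.MP_1c0d65_gt.Nz

open Pool.Agent.Lib.MP_1c0d65_gt.PW

/-- Forms of type `(2,0)` are proportional. -/
theorem chu_prop {J : E →L[ℝ] E} (hJ : ∀ v, J (J v) = -v) {Ω Ω' : Bil E ℂ} (alt : ∀ v, Ω v v = 0)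
    (alt' : ∀ v, Ω' v v = 0) (h : ∀ v w, Ω (J v) w = .I * Ω v w)
    (h' : ∀ v w, Ω' (J v) w = .I * Ω' v w) (h0 : Ω' ≠ 0) : ∃ k : ℂ, Ω = k • Ω' := by
  obtain ⟨A, hA⟩ := B.exists_coord (V := E) (by simp [Module.finrank_prod]) J hJ
  have key : ∀ {Ω : Bil E ℂ}, (∀ v, Ω v v = 0) → (∀ v w, Ω (J v) w = .I * Ω v w) → ∀ v w,
      Ω v w = Ω (A.symm (1, 0)) (A.symm (0, 1)) * ((A v).1 * (A w).2 - (A v).2 * (A w).1) := by
    intro Ω alt h v w
    have := Adj.two_zero_det (Ω := Ω.bilinearComp (A.symm : E →L[ℝ] E) (A.symm : E →L[ℝ] E))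
      (fun v => alt _) (fun p q => by
        have : A.symm (Complex.I • p) = J (A.symm p) := by
          rw [ContinuousLinearEquiv.symm_apply_eq, hA, A.apply_symm_apply]
        simp only [ContinuousLinearMap.bilinearComp_apply, ContinuousLinearEquiv.coe_coe, this, h])
      (A v) (A w)
    simpa using this
  have hk : Ω' (A.symm (1, 0)) (A.symm (0, 1)) ≠ 0 := fun e =>
    h0 (bil_ext fun v w => by rw [key alt' h' v w, e, zero_mul]; rfl)
  refine ⟨Ω (A.symm (1, 0)) (A.symm (0, 1)) / Ω' (A.symm (1, 0)) (A.symm (0, 1)),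
    bil_ext fun v w => ?_⟩
  rw [smul_apply, smul_apply, smul_eq_mul, key alt h v w, key alt' h' v w]
  field_simp

theorem chu_ne {Ω : Bil E ℂ} (h : Ω ≠ 0) : ∃ v w, Ω v w ≠ 0 := by
  by_contra! hc
  exact h (bil_ext hc)

theorem chu_cancel {Ω : Bil E ℂ} (h : Ω ≠ 0) {k l : ℂ} (e : k • Ω = l • Ω) : k = l := by
  obtain ⟨v, w, hv⟩ := chu_ne h
  exact mul_right_cancel₀ hv (congrArg (fun T : Bil E ℂ => T v w) e)

variable {X : Type} [TopologicalSpace X] [ChartedSpace E X] [IsManifold 𝓘(ℝ, E) ∞ X]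

/-- The ratio of two smooth forms is smooth. -/
theorem chu_fn {U : Set X} (hU : IsOpen U) {Ω Ω' : X → Bil E ℂ} (h : Form U Ω) (h' : Form U Ω')
    {k : X → ℂ} (hk : ∀ y ∈ U, Ω y = k y • Ω' y) {y : X} (hy : y ∈ U) (h0 : Ω' y ≠ 0) :
    FnAt ∞ k y := by
  obtain ⟨v, w, hv⟩ := chu_ne h0
  have hd := mem_dom (mem_chart_source E y) hy
  have s (Ω : X → Bil E ℂ) (h : Form U Ω) :
      ContDiffAt ℝ ∞ (fun z => pull2 (par y) Ω z v w) (chartAt E y y) :=
    ((at_of_on hU hy (h.2 y)).clm_apply contDiffAt_const).clm_apply contDiffAt_const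
  have n : pull2 (par y) Ω' (chartAt E y y) v w ≠ 0 := by rwa [pull2_par_self]
  refine (isChart_chartAt y).fnAt_of (mem_chart_source E y) le_rfl
    (((s Ω h).mul ((s Ω' h').inv n)).congr_of_eventuallyEq ?_)
  filter_upwards [(isOpen_dom y hU).mem_nhds hd, (s Ω' h').continuousAt.eventually_ne n]
    with z h1 h2
  change k (par y z) = pull2 (par y) Ω z v w * (pull2 (par y) Ω' z v w)⁻¹
  rw [pull2_apply] at h2
  rw [pull2_apply, pull2_apply, hk _ h1.2, smul_apply, smul_apply, smul_eq_mul,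
    mul_inv_cancel_right₀ h2]

theorem chern_unique {J : X → E →L[ℝ] E} (hJ : ∀ x v, J x (J x v) = -v) {α β : X → Bil E ℝ}
    (hα : IsChern univ J α) (hβ : IsChern univ J β) : ∃ η, IsD univ η (α - β) := by
  obtain ⟨K⟩ := Adj.exists_chern hα
  obtain ⟨L⟩ := Adj.exists_chern hβ
  have t (x : X) : x ∈ (univ : Set X) := trivial
  have ex (i y : X) : ∃ k : ℂ, y ∈ K.U i ∩ L.U i → K.Ω i y = k • L.Ω i y := by
    by_cases hy : y ∈ K.U i ∩ L.U i
    · obtain ⟨k, hk⟩ := chu_prop (hJ y) ((K.form i (t i)).1 y hy.1) ((L.form i (t i)).1 y hy.2)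
        (K.tz i (t i) y hy.1) (L.tz i (t i) y hy.2) (L.ne i (t i) y hy.2)
      exact ⟨k, fun _ => hk⟩
    · exact ⟨0, fun h => (hy h).elim⟩
  choose k hk using ex
  have op (i : X) : IsOpen (K.U i ∩ L.U i) := (K.op i (t i)).inter (L.op i (t i))
  have me (i : X) : i ∈ K.U i ∩ L.U i := ⟨K.mem i (t i), L.mem i (t i)⟩
  have fn (i y : X) (hy : y ∈ K.U i ∩ L.U i) : FnAt ∞ (k i) y :=
    chu_fn (op i) ((K.form i (t i)).mono inter_subset_left)
      ((L.form i (t i)).mono inter_subset_right) (hk i) hy (L.ne i (t i) y hy.2)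
  have ne (i y : X) (hy : y ∈ K.U i ∩ L.U i) : k i y ≠ 0 := fun e =>
    K.ne i (t i) y hy.1 (bil_ext fun v w => by rw [hk i y hy, e]; simp)
  refine ⟨fun x => K.a x x - L.a x x - dA (k x) x, IsD.glue isOpen_univ fun i _ =>
    ⟨_, op i, me i, ?_⟩⟩
  refine ((((K.isD i (t i)).mono inter_subset_left).sub
    ((L.isD i (t i)).mono inter_subset_right) (op i)).sub
      (isD_dA (op i) (fn i) (ne i)) (op i)).congr (op i) (fun y hy => ?_) fun y _ => by simp
  have gK : FnAt ∞ (K.g i y) y := (K.sm i (t i) y (t y)).contMDiffAt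
    (((K.op i (t i)).inter (K.op y (t y))).mem_nhds ⟨hy.1, (me y).1⟩)
  have gL : FnAt ∞ (L.g i y) y := (L.sm i (t i) y (t y)).contMDiffAt
    (((L.op i (t i)).inter (L.op y (t y))).mem_nhds ⟨hy.2, (me y).2⟩)
  have nK : K.g i y y ≠ 0 := K.g_ne (t i) (t y) ⟨hy.1, (me y).1⟩
  have nL : L.g i y y ≠ 0 := L.g_ne (t i) (t y) ⟨hy.2, (me y).2⟩
  have e : (fun z => k i z * L.g i y z) =ᶠ[𝓝 y] fun z => K.g i y z * k y z := by
    filter_upwards [(op i).mem_nhds hy, (op y).mem_nhds (me y)] with z h1 h2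
    refine chu_cancel (L.ne y (t y) z h2.2) ?_
    rw [mul_smul, mul_smul, ← L.co i (t i) y (t y) z ⟨h1.2, h2.2⟩, ← hk i z h1, ← hk y z h2,
      ← K.co i (t i) y (t y) z ⟨h1.1, h2.1⟩]
  have e' := dA_congr e
  rw [dA_mul (fn i y hy) gL (ne i y hy) nL, dA_mul gK (fn y y (me y)) nK (ne y y (me y))] at e'
  refine ContinuousLinearMap.ext fun v => ?_
  have e1 := congrArg (fun T : E →L[ℝ] ℝ => T v) e'
  have e2 := K.da i (t i) y (t y) y ⟨hy.1, (me y).1⟩ v
  have e3 := L.da i (t i) y (t y) y ⟨hy.2, (me y).2⟩ v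
  rw [← dA_apply] at e2 e3
  simp only [add_apply, sub_apply, Pi.sub_apply] at e1 ⊢
  linarith

end Pool.Agent.Lib.MP_1c0d65_gt.Nz
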