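import Pool.Agent.Lib.MP_1c0d65_gt.Nz.GLoc

/-! Calculus of forms in a frame. -/

set_option autoImplicit false

open scoped Manifold ContDiff Topology
open Set MeasureTheory Function Matrix

noncomputable section

namespace Pool.Agent.Lib.MP_1c0d65_gt.Nz

open Pool.Agent.Lib.MP_1c0d65_gt.PW

theorem bil_apply (B : M4) (v w : E) : bil B v w = ∑ i, ∑ j, B i j * (co i v * co j w) := by
  simp only [bil, _root_.sum_apply, _root_.smul_apply, ContinuousLinearMap.smulRight_apply,
    smul_eq_mul]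

theorem gfr_bil_bs (B : M4) (i j : Fin 4) : bil B (bs i) (bs j) = B i j := by
  simp [bil_apply, wz_co_bs]

theorem gfr_wedge (α β : Bil E ℝ) :
    wedge α β = wg (of fun i j => α (bs i) (bs j)) (of fun i j => β (bs i) (bs j)) := rfl

theorem wedge_bil (B B' : M4) : wedge (bil B) (bil B') = wg B B' := by
  simp only [gfr_wedge, gfr_bil_bs, wg, of_apply]

namespace Fr

variable (f : Fr)

theorem gfr_co (z : E) (i j : Fin 4) : co i (f.θ z (f.e j z)) = if i = j then 1 else 0 := by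
  rw [e, f.θM, wz_co_bs]

theorem gfr_f1 (u : E → Fin 4 → ℝ) (z v : E) : f.f1 u z v = ∑ i, u z i * co i (f.θ z v) := by
  simp only [f1, th, _root_.sum_apply, _root_.smul_apply, ContinuousLinearMap.comp_apply,
    smul_eq_mul]

theorem gfr_f2 (B : E → M4) (z v w : E) :
    f.f2 B z v w = ∑ i, ∑ j, B z i j * (co i (f.θ z v) * co j (f.θ z w)) := by
  rw [f2, ContinuousLinearMap.bilinearComp_apply, bil_apply]

theorem gfr_lin (a : E →L[ℝ] ℝ) (z v : E) : a v = ∑ i, co i (f.θ z v) * a (f.e i z) := by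
  conv_lhs => rw [← f.wz_expand z v]
  simp only [map_sum, map_smul, smul_eq_mul]

theorem f1_e (u : E → Fin 4 → ℝ) (z : E) (i : Fin 4) : f.f1 u z (f.e i z) = u z i := by
  simp [gfr_f1, gfr_co]

theorem f1_self (a : E → E →L[ℝ] ℝ) : f.f1 (fun z i => a z (f.e i z)) = a := by
  funext z
  refine ContinuousLinearMap.ext fun v => ?_
  rw [gfr_f1, f.gfr_lin (a z) z v]
  exact Finset.sum_congr rfl fun i _ => mul_comm _ _

theorem gfr_f2_e (B : E → M4) (z : E) (i j : Fin 4) : f.f2 B z (f.e i z) (f.e j z) = B z i j := by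
  rw [f2, ContinuousLinearMap.bilinearComp_apply, e, e, f.θM, f.θM, gfr_bil_bs]

theorem c2_f2 (B : E → M4) (z : E) : f.c2 (f.f2 B z) z = B z := by
  ext i j
  exact f.gfr_f2_e B z i j

theorem f2_c2 (β : E → Bil E ℝ) : f.f2 (fun z => f.c2 (β z) z) = β := by
  funext z
  refine bil_ext fun v w => ?_
  rw [gfr_f2, show β z v w = (β z).flip w v from rfl, f.gfr_lin ((β z).flip w) z v]
  refine Finset.sum_congr rfl fun i _ => ?_
  rw [ContinuousLinearMap.flip_apply, f.gfr_lin (β z (f.e i z)) z w, Finset.mul_sum]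
  refine Finset.sum_congr rfl fun j _ => ?_
  simp only [c2, of_apply]
  ring

theorem gfr_th (i : Fin 4) : ContDiff ℝ ∞ (f.th i) := contDiff_const.clm_comp f.hθ

theorem f1_sm {u : E → Fin 4 → ℝ} (hu : ∀ i, ContDiff ℝ ∞ fun z => u z i) :
    ContDiff ℝ ∞ (f.f1 u) :=
  ContDiff.sum fun i _ => (hu i).smul (f.gfr_th i)

theorem f2_sm {B : E → M4} (hB : ∀ i j, ContDiff ℝ ∞ fun z => B z i j) :
    ContDiff ℝ ∞ (f.f2 B) := by
  refine contDiff_clm_apply_iff.2 fun v => contDiff_clm_apply_iff.2 fun w => ?_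
  simp only [gfr_f2]
  exact ContDiff.sum fun i _ => ContDiff.sum fun j _ => (hB i j).mul
    (((f.gfr_th i).clm_apply contDiff_const).mul ((f.gfr_th j).clm_apply contDiff_const))

theorem al_sm (q r : Fin 4) : ContDiff ℝ ∞ (f.al q r) := by
  refine f.f1_sm fun i => ?_
  simp only [pi4, cq, of_apply, Matrix.sub_apply, mul_apply, Gm]
  exact contDiff_const.mul (ContDiff.sum fun a _ => ContDiff.sum fun b _ => contDiff_const.mul
    ((ContDiff.sum fun k _ => (f.Γ_sm i a k).mul contDiff_const).sub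
      (ContDiff.sum fun k _ => contDiff_const.mul (f.Γ_sm i k b))))

theorem f2_alt {B : E → M4} {z : E} (h : (B z)ᵀ = -B z) (v : E) : f.f2 B z v v = 0 := by
  rw [gfr_f2, skew_eq h]
  simp [Fin.sum_univ_four]
  ring

theorem wedge_c2 {α β : Bil E ℝ} (hα : ∀ v, α v v = 0) (hβ : ∀ v, β v v = 0) (z : E) :
    wedge α β = (f.θ z).det * wg (f.c2 α z) (f.c2 β z) := by
  have h : wg (f.c2 α z) (f.c2 β z) = (f.M z).det * wedge α β := wedge_comp hα hβ (f.M z)
  rw [h, ← mul_assoc, f.det_mul, one_mul]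

theorem ext1_γ {a : E → E →L[ℝ] ℝ} {z : E} (ha : DifferentiableAt ℝ a z) (i j : Fin 4) :
    ext1 a z (f.e i z) (f.e j z) = f.d i (fun y => a y (f.e j y)) z
      - f.d j (fun y => a y (f.e i y)) z - ∑ k, f.γ i j k z * a z (f.e k z) := by
  have h : ∀ i j, f.d i (fun y => a y (f.e j y)) z =
      fderiv ℝ a z (f.e i z) (f.e j z) + a z (f.d i (f.e j) z) := fun i j => by
    simp only [d]
    rw [fderiv_clm_apply ha ((f.wz_e j).differentiable (by simp) z)]
    simp [add_comm]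
  have e : ∑ k, f.γ i j k z * a z (f.e k z) = a z (f.d i (f.e j) z - f.d j (f.e i) z) :=
    (f.gfr_lin (a z) z _).symm
  rw [h, h, e, map_sub, ext1_apply]
  ring

theorem ext1_f1 {u : E → Fin 4 → ℝ} (hu : ∀ i, ContDiff ℝ ∞ fun z => u z i) (z : E)
    (i j : Fin 4) : ext1 (f.f1 u) z (f.e i z) (f.e j z) = f.n1 i u z j - f.n1 j u z i := by
  rw [f.ext1_γ ((f.f1_sm hu).differentiable (by simp) z)]
  simp only [f1_e, n1, Pi.add_apply, mulVec, dotProduct, Gm, of_apply, f.Γ_tors,
    f.Γ_skew i j, f.Γ_skew j i, Fin.sum_univ_four]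
  ring

theorem ext2_f2 {B : E → M4} (hB : ∀ i j, ContDiff ℝ ∞ fun z => B z i j) (sk : ∀ z, (B z)ᵀ = -B z)
    (z : E) (i j k : Fin 4) : ext2 (f.f2 B) z (f.e i z) (f.e j z) (f.e k z) =
      f.n2 i B z j k + f.n2 j B z k i + f.n2 k B z i j := by
  have hβ := f.f2_sm hB
  have s : ∀ a b, B z a b = -B z b a := fun a b => congrFun (congrFun (sk z) b) a
  have h : ∀ i j k, f.d i (fun y => B y j k) z = fderiv ℝ (f.f2 B) z (f.e i z) (f.e j z) (f.e k z)
      + ∑ l, co l (f.θ z (f.d i (f.e j) z)) * B z l k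
      + ∑ l, co l (f.θ z (f.d i (f.e k) z)) * B z j l := fun i j k => by
    have h1 := f.wz_d_apply i (hβ.clm_apply (f.wz_e j)) (f.wz_e k) z
    rw [f.wz_d_apply i hβ (f.wz_e j), f.gfr_lin (f.f2 B z (f.e j z)) z, _root_.add_apply,
      ← ContinuousLinearMap.flip_apply (f.f2 B z) _ (f.e k z), f.gfr_lin ((f.f2 B z).flip _) z] at h1
    simp only [ContinuousLinearMap.flip_apply, gfr_f2_e] at h1
    exact h1
  have t : ∀ i j l, co l (f.θ z (f.d i (f.e j) z)) - co l (f.θ z (f.d j (f.e i) z)) =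
      -f.Γ i j l z - f.Γ j l i z := fun i j l => by
    rw [← map_sub, ← map_sub, ← f.Γ_skew i l j, ← f.Γ_tors]
    rfl
  have key : ∀ l, co l (f.θ z (f.d i (f.e j) z)) * B z l k + co l (f.θ z (f.d i (f.e k) z)) * B z j l
      + (f.Γ i j l z * B z l k - B z j l * f.Γ i l k z)
      + (co l (f.θ z (f.d j (f.e k) z)) * B z l i + co l (f.θ z (f.d j (f.e i) z)) * B z k l
      + (f.Γ j k l z * B z l i - B z k l * f.Γ j l i z))
      + (co l (f.θ z (f.d k (f.e i) z)) * B z l j + co l (f.θ z (f.d k (f.e j) z)) * B z i l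
      + (f.Γ k i l z * B z l j - B z i l * f.Γ k l j z)) = 0 := fun l => by
    rw [s j l, s k l, s i l]
    linear_combination B z l k * t i j l + B z l i * t j k l + B z l j * t k i l
  simp only [ext2, n2, dm, Matrix.add_apply, Matrix.sub_apply, of_apply, mul_apply, Gm, h,
    Fin.sum_univ_four]
  linear_combination -(key 0 + key 1 + key 2 + key 3)

theorem ext2_zero {β : E → Bil E ℝ} {z : E}
    (h : ∀ i j k, ext2 β z (f.e i z) (f.e j z) (f.e k z) = 0) (a b c : E) : ext2 β z a b c = 0 := by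
  obtain ⟨T, hT⟩ : ∃ T : E →L[ℝ] Bil E ℝ, T = fderiv ℝ β z := ⟨_, rfl⟩
  simp only [ext2, ← hT] at h ⊢
  have h1 : ∀ a j k, T a (f.e j z) (f.e k z) + T (f.e j z) (f.e k z) a +
      T (f.e k z) a (f.e j z) = 0 := fun a j k => by
    rw [← f.wz_expand z a]
    simp only [map_sum, map_smul, _root_.sum_apply, _root_.smul_apply, ← Finset.sum_add_distrib,
      ← smul_add, h, smul_zero, Finset.sum_const_zero]
  have h2 : ∀ a b k, T a b (f.e k z) + T b (f.e k z) a + T (f.e k z) a b = 0 := fun a b k => by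
    rw [← f.wz_expand z b]
    simp only [map_sum, map_smul, _root_.sum_apply, _root_.smul_apply, ← Finset.sum_add_distrib,
      ← smul_add, h1, smul_zero, Finset.sum_const_zero]
  rw [← f.wz_expand z c]
  simp only [map_sum, map_smul, _root_.sum_apply, _root_.smul_apply, ← Finset.sum_add_distrib,
    ← smul_add, h2, smul_zero, Finset.sum_const_zero]

/-- The volume density is the determinant up to a constant sign. -/
theorem m_sign : ∃ t : ℝ, ∀ z, f.m z = t * (f.θ z).det := by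
  have hc : Continuous fun z => (f.θ z).det :=
    ContinuousLinearMap.continuous_det.comp f.hθ.continuous
  have h0 : ∀ z, (f.θ z).det ≠ 0 := fun z => left_ne_zero_of_mul_eq_one (f.det_mul z)
  by_cases h : ∀ z, 0 ≤ (f.θ z).det
  · exact ⟨1, fun z => by rw [m, abs_of_nonneg (h z), one_mul]⟩
  · push Not at h
    obtain ⟨y, hy⟩ := h
    refine ⟨-1, fun z => ?_⟩
    rw [m, abs_of_nonpos, neg_one_mul]
    by_contra hz
    obtain ⟨x, hx⟩ := intermediate_value_univ y z hc ⟨hy.le, (not_le.1 hz).le⟩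
    exact h0 x hx

end Fr

end Pool.Agent.Lib.MP_1c0d65_gt.Nz
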