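import Pool.Agent.Lib.MP_1c0d65_gt.Nz.GLoc

/-! The action of the unitary group on the Clifford module. -/

set_option autoImplicit false
set_option linter.unusedSectionVars false

open scoped Manifold ContDiff Topology
open Set MeasureTheory Function Matrix

noncomputable section

namespace Pool.Agent.Lib.MP_1c0d65_gt.Nz

open Pool.Agent.Lib.MP_1c0d65_gt.PW

/-- `cq` is linear. -/
def rhCq (s : Bool) (q : Fin 4) : M4 →ₗ[ℝ] ℝ where
  toFun := cq s q
  map_add' := cq_add s q
  map_smul' := cq_smul s q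

theorem rh_sum (s : Bool) (q : Fin 4) (w : Fin 4 → ℝ) (B : Fin 4 → M4) :
    cq s q (∑ r, w r • B r) = ∑ r, cq s q (B r) * w r := by
  change rhCq s q _ = ∑ r, rhCq s q (B r) * w r
  simp only [map_sum, map_smul, smul_eq_mul, mul_comm]

theorem rh_sub (s : Bool) (q : Fin 4) (B B' : M4) : cq s q (B - B') = cq s q B - cq s q B' :=
  (rhCq s q).map_sub B B'

theorem rh_trace (s : Bool) (q : Fin 4) (B : M4) :
    cq s q B = (1 / 4 : ℝ) * trace ((sg s q)ᵀ * B) := by
  rw [cq, Finset.sum_comm]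
  rfl

theorem rh_adj (s t : Bool) (q p : Fin 4) (H : M4) :
    cq s q (H * sg t p * Hᵀ) = cq t p (Hᵀ * sg s q * H) := by
  rw [rh_trace, rh_trace, ← trace_transpose ((sg t p)ᵀ * _)]
  simp only [transpose_mul, transpose_transpose, ← mul_assoc]
  rw [trace_mul_comm _ Hᵀ]
  simp only [← mul_assoc]

theorem rh_sg (s : Bool) (q p : Fin 4) : cq s q (sg s p) = if q = p then 1 else 0 := by
  cases s <;> fin_cases q <;> fin_cases p <;> simp [cq, sg, sn, Fin.sum_univ_four] <;> norm_num

theorem rh_zero (s : Bool) : sg s 0 = 1 := by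
  ext i j
  fin_cases i <;> fin_cases j <;> simp [sg]

theorem rh_skew (s : Bool) {p : Fin 4} (hp : p ≠ 0) : (sg s p)ᵀ = -sg s p := by
  ext i j
  fin_cases p <;> first | exact absurd rfl hp | (fin_cases i <;> fin_cases j <;> simp [sg])

theorem rh_dec (s : Bool) {B : M4} (h : Bᵀ = -B) (h0 : ∀ q, q ≠ 0 → cq (!s) q B = 0) :
    B = ∑ q, cq s q B • sg s q := by
  have h1 := h0 1 (by decide)
  have h2 := h0 2 (by decide)
  have h3 := h0 3 (by decide)
  rw [skew_eq h] at h1 h2 h3 ⊢
  generalize B 0 1 = a at *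
  generalize B 0 2 = b at *
  generalize B 0 3 = c at *
  generalize B 1 2 = d at *
  generalize B 1 3 = e at *
  generalize B 2 3 = f at *
  ext i j
  cases s <;> simp [cq, sg, sn, Fin.sum_univ_four] at h1 h2 h3 <;> fin_cases i <;> fin_cases j <;>
    simp [cq, sg, sn, Fin.sum_univ_four] <;> linarith

theorem rh_lie (s : Bool) {G : M4} (h : Gᵀ = -G) (p : Fin 4) :
    G * sg s p - sg s p * G = ∑ q, pi4 s G q p • sg s q := by
  by_cases hp : p = 0
  · simp [hp, rh_zero, pi4, cq]
  refine rh_dec s ?_ fun q hq => ?_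
  · rw [transpose_sub, transpose_mul, transpose_mul, h, rh_skew s hp]
    noncomm_ring
  · rw [skew_eq h]
    cases s <;> fin_cases q <;> fin_cases p <;>
      first
      | exact absurd rfl hp
      | exact absurd rfl hq
      | (simp [cq, sg, sn, mul_apply, Fin.sum_univ_four] <;> ring)

theorem Un.rh_inv {H : M4} (h : Un H) : H * Hᵀ = 1 := mul_eq_one_comm.1 h.1

theorem Un.rh_form {H : M4} (h : Un H) : ∃ a b c d e f g k : ℝ,
    H = !![a, b, c, d; -b, a, -d, c; e, f, g, k; -f, e, -k, g] := by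
  refine ⟨H 0 0, H 0 1, H 0 2, H 0 3, H 2 0, H 2 1, H 2 2, H 2 3, ?_⟩
  have e := fun i j => congrFun (congrFun h.2 i) j
  have e1 := e 0 0
  have e2 := e 0 1
  have e3 := e 0 2
  have e4 := e 0 3
  have e5 := e 2 0
  have e6 := e 2 1
  have e7 := e 2 2
  have e8 := e 2 3
  simp [sg, sn, mul_apply, Fin.sum_univ_four] at e1 e2 e3 e4 e5 e6 e7 e8
  ext i j
  fin_cases i <;> fin_cases j <;> simp <;> linarith

theorem Un.tr {H : M4} (h : Un H) : Un Hᵀ := by
  refine ⟨h.rh_inv, ?_⟩
  have e := congrArg transpose h.2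
  rw [transpose_mul, transpose_mul, rh_skew true (by decide), neg_mul, mul_neg, neg_inj] at e
  exact e.symm

theorem Un.mul {H K : M4} (h : Un H) (k : Un K) : Un (H * K) :=
  ⟨by rw [transpose_mul, mul_assoc, ← mul_assoc Hᵀ, h.1, one_mul, k.1],
    by rw [mul_assoc, k.2, ← mul_assoc, h.2, mul_assoc]⟩

theorem Un.rh_cross {H : M4} (h : Un H) {q p : Fin 4} (hq : q ≠ 0) (hp : p ≠ 0) :
    cq false q (H * sg true p * Hᵀ) = 0 := by
  obtain ⟨a, b, c, d, e, f, g, k, rfl⟩ := h.rh_form
  have r := fun i j => congrFun (congrFun h.rh_inv i) j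
  have r1 := r 0 0
  have r2 := r 2 2
  have r3 := r 0 2
  have r4 := r 0 3
  simp [mul_apply, Fin.sum_univ_four] at r1 r2 r3 r4
  fin_cases q <;> fin_cases p <;>
    first
    | exact absurd rfl hp
    | exact absurd rfl hq
    | (simp [cq, sg, sn, mul_apply, Fin.sum_univ_four]; linarith)

theorem Un.conj {H : M4} (h : Un H) (s : Bool) (p : Fin 4) :
    H * sg s p * Hᵀ = ∑ q, rho s H q p • sg s q := by
  by_cases hp : p = 0
  · subst hp
    simp only [rho, of_apply, rh_zero, mul_one, h.rh_inv]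
    rw [← rh_zero s]
    simp [rh_sg]
  refine rh_dec s ?_ fun q hq => ?_
  · rw [transpose_mul, transpose_mul, transpose_transpose, rh_skew s hp]
    noncomm_ring
  · cases s
    · rw [rh_adj]
      exact h.tr.rh_cross hp hq
    · exact h.rh_cross hq hp

theorem Un.conj_sw {H : M4} (h : Un H) (s : Bool) (w : Fin 4 → ℝ) :
    H * sw s w * Hᵀ = sw s (rho s H *ᵥ w) := by
  simp only [sw, Finset.mul_sum, Finset.sum_mul, mul_smul_comm, smul_mul_assoc, h.conj,
    Finset.smul_sum, smul_smul, mulVec, dotProduct, Finset.sum_smul]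
  rw [Finset.sum_comm]
  simp only [mul_comm]

theorem rho_one (s : Bool) : rho s 1 = 1 := by
  ext q p
  simp [rho, rh_sg, one_apply]

theorem rho_tr (s : Bool) (H : M4) : rho s Hᵀ = (rho s H)ᵀ := by
  ext q p
  exact rh_adj s s q p Hᵀ

theorem Un.rho_mul {K : M4} (k : Un K) (s : Bool) (H : M4) : rho s (H * K) = rho s H * rho s K := by
  ext q p
  have e : H * K * sg s p * (H * K)ᵀ = ∑ r, rho s K r p • (H * sg s r * Hᵀ) := by
    have : H * K * sg s p * (H * K)ᵀ = H * (K * sg s p * Kᵀ) * Hᵀ := by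
      simp only [transpose_mul, mul_assoc]
    simp only [this, k.conj, Finset.mul_sum, Finset.sum_mul, mul_smul_comm, smul_mul_assoc]
  rw [rho, of_apply, e, rh_sum]
  rfl

theorem Un.rh_orth {H : M4} (h : Un H) (s : Bool) : (rho s H)ᵀ * rho s H = 1 := by
  rw [← rho_tr, ← h.rho_mul, h.1, rho_one]

theorem Un.rho_zero {H : M4} (h : Un H) (s : Bool) (q : Fin 4) :
    rho s H q 0 = (if q = 0 then 1 else 0) ∧ rho s H 0 q = if q = 0 then 1 else 0 := by
  have k : ∀ {H : M4}, Un H → rho s H q 0 = if q = 0 then 1 else 0 := fun h => by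
    rw [rho, of_apply, rh_zero, mul_one, h.rh_inv, ← rh_sg s, rh_zero]
  exact ⟨k h, by rw [← k h.tr, rho_tr, transpose_apply]⟩

theorem Un.rho_true {H : M4} (h : Un H) : ∃ p q : ℝ, p ^ 2 + q ^ 2 = 1 ∧
    rho true H = !![1, 0, 0, 0; 0, 1, 0, 0; 0, 0, p, -q; 0, 0, q, p] := by
  have k : ∀ {H : M4}, Un H → ∀ q, rho true H q 1 = if q = 1 then 1 else 0 := fun h q => by
    rw [rho, of_apply, h.2, mul_assoc, h.rh_inv, mul_one, rh_sg]
  have k1 := k h
  have k2 : ∀ q, rho true H 1 q = if q = 1 then 1 else 0 := fun q => by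
    rw [← k h.tr, rho_tr, transpose_apply]
  have k3 := fun q => (h.rho_zero true q).1
  have k4 := fun q => (h.rho_zero true q).2
  have k5 : rho true H 2 3 = -rho true H 3 2 ∧ rho true H 3 3 = rho true H 2 2 := by
    obtain ⟨a, b, c, d, e, f, g, k, rfl⟩ := h.rh_form
    constructor <;> simp [rho, cq, sg, sn, mul_apply, Fin.sum_univ_four] <;> ring
  refine ⟨rho true H 2 2, rho true H 3 2, ?_, ?_⟩
  · have := congrFun (congrFun (h.rh_orth true) 2) 2
    simp [mul_apply, Fin.sum_univ_four, k2, k4] at this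
    linarith
  · ext i j
    fin_cases i <;> fin_cases j <;> simp [k1, k2, k3, k4, k5]

theorem Un.law {H K G G' : M4} (h : Un H) (hG : Gᵀ = -G) (hG' : G'ᵀ = -G')
    (e : K + G' * H = H * G) (s : Bool) : drho s H K + pi4 s G' * rho s H = rho s H * pi4 s G := by
  obtain rfl : K = H * G - G' * H := eq_sub_of_add_eq e
  ext q p
  have e1 : (H * G - G' * H) * sg s p * Hᵀ + H * sg s p * (H * G - G' * H)ᵀ =
      H * (G * sg s p - sg s p * G) * Hᵀ -
        (G' * (H * sg s p * Hᵀ) - H * sg s p * Hᵀ * G') := by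
    rw [transpose_sub, transpose_mul, transpose_mul, hG, hG']
    noncomm_ring
  have e2 : H * (G * sg s p - sg s p * G) * Hᵀ = ∑ r, pi4 s G r p • (H * sg s r * Hᵀ) := by
    simp only [rh_lie s hG, Finset.mul_sum, Finset.sum_mul, mul_smul_comm, smul_mul_assoc]
  have e3 : G' * (H * sg s p * Hᵀ) - H * sg s p * Hᵀ * G' =
      ∑ r, rho s H r p • (G' * sg s r - sg s r * G') := by
    simp only [h.conj, Finset.mul_sum, Finset.sum_mul, mul_smul_comm, smul_mul_assoc, smul_sub,
      Finset.sum_sub_distrib]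
  rw [Matrix.add_apply, drho, of_apply, e1, e2, e3, rh_sub, rh_sum, rh_sum]
  exact sub_add_cancel _ _

theorem grp_one (s : Bool) : grp s 1 = 1 := by rw [grp, rho_one, fromBlocks_one, map_one]

theorem Un.grp_mul {K : M4} (k : Un K) (s : Bool) (H : M4) : grp s H * grp s K = grp s (H * K) := by
  simp only [grp, ← map_mul, fromBlocks_multiply, k.rho_mul]; simp

theorem grp_star (s : Bool) (H : M4) : star (grp s H) = grp s Hᵀ := by
  rw [grp, T8_star, fromBlocks_transpose, grp, rho_tr]; simp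

theorem grp_even (s : Bool) (H : M4) : (cl s).ε * grp s H = grp s H * (cl s).ε := by
  simp only [cl, grp, ← map_mul, fromBlocks_multiply]; simp

theorem Un.grp_cl {H : M4} (h : Un H) (s : Bool) (j : Fin 4) :
    ∑ i, H i j • ((cl s).c i * grp s H) = grp s H * (cl s).c j := by
  have h1 : ∑ i, H i j • (cm s i * H) = rho s H * cm s j := by
    ext p k
    have := congrFun (congrFun (h.tr.conj s p) j) k
    rw [rho_tr, transpose_transpose, mul_assoc] at this
    simpa [mul_apply, Matrix.sum_apply, cm] using this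
  have h2 : ∑ i, H i j • ((cm s i)ᵀ * rho s H) = H * (cm s j)ᵀ := by
    have := congrArg (fun A => H * Aᵀ * rho s H) h1
    simp only [transpose_sum, transpose_smul, transpose_mul, Finset.mul_sum, Finset.sum_mul,
      mul_smul_comm, smul_mul_assoc, ← mul_assoc, h.rh_inv, one_mul] at this
    rw [this, mul_assoc, h.rh_orth, mul_one]
  simp only [cl, grp, ← map_mul, fromBlocks_multiply, ← map_smul, ← map_sum]
  congr 1
  ext (a | a) (b | b)
  · simp [Matrix.sum_apply]
  · simpa [Matrix.sum_apply] using congrFun (congrFun h2 a) b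
  · simpa [Matrix.sum_apply] using congrFun (congrFun h1 a) b
  · simp [Matrix.sum_apply]

theorem Un.grp_law {H K G G' : M4} (h : Un H) (hG : Gᵀ = -G) (hG' : G'ᵀ = -G')
    (e : K + G' * H = H * G) (s : Bool) : dgrp s H K + lie s G' * grp s H = grp s H * lie s G := by
  simp only [dgrp, grp, lie, ← map_mul, ← map_add, fromBlocks_multiply, fromBlocks_add]
  simp [e, h.law hG hG' e s]

theorem grp_v8 (s : Bool) (H : M4) (a w : Fin 4 → ℝ) :
    grp s H (v8 a w) = v8 (H *ᵥ a) (rho s H *ᵥ w) := by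
  ext (k | k) <;> simp [grp, T8_apply, v8, Fintype.sum_sum_type, mulVec, dotProduct]

theorem rh_T8 (A : Matrix I8 I8 ℝ) : T8 A = ∑ k, ∑ l, A k l • T8 (single k l 1) := by
  simp only [← map_smul, ← map_sum, smul_single, smul_eq_mul, mul_one, ← matrix_eq_sum_single]

theorem grp_smooth (s : Bool) {H : E → M4} {z : E} (h : ∀ i j, ContDiffAt ℝ ∞ (fun y => H y i j) z) :
    ContDiffAt ℝ ∞ (fun y => grp s (H y)) z := by
  simp only [grp, rh_T8 (fromBlocks _ _ _ _)]
  refine ContDiffAt.sum fun k _ => ContDiffAt.sum fun l _ => ContDiffAt.smul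
    (f := fun x => fromBlocks (H x) 0 0 (rho s (H x)) k l) (g := fun _ => T8 (single k l 1)) ?_
    contDiffAt_const
  rcases k with k | k <;> rcases l with l | l
  · exact h k l
  · exact contDiffAt_const
  · exact contDiffAt_const
  · simp only [fromBlocks_apply₂₂, rho, cq, of_apply, mul_apply, transpose_apply]
    exact contDiffAt_const.mul (ContDiffAt.sum fun i _ => ContDiffAt.sum fun j _ =>
      contDiffAt_const.mul (ContDiffAt.sum fun m _ =>
        (ContDiffAt.sum fun n _ => (h i n).mul contDiffAt_const).mul (h j m)))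

theorem rh_has (s : Bool) {H : E → M4} {z : E}
    (h : ∀ i j, DifferentiableAt ℝ (fun y => H y i j) z) (q p : Fin 4) :
    ∃ D : E →L[ℝ] ℝ, HasFDerivAt (fun y => rho s (H y) q p) D z ∧ ∀ v,
      D v = drho s (H z) (of fun i j => fderiv ℝ (fun y => H y i j) z v) q p := by
  have hd := HasFDerivAt.const_mul (HasFDerivAt.fun_sum (u := Finset.univ) fun i _ =>
    HasFDerivAt.fun_sum (u := Finset.univ) fun j _ => HasFDerivAt.const_mul
      (HasFDerivAt.fun_sum (u := Finset.univ) fun m _ =>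
        (HasFDerivAt.fun_sum (u := Finset.univ) fun n _ =>
          (h i n).hasFDerivAt.mul_const (sg s p n m)).fun_mul (h j m).hasFDerivAt) (sg s q i j))
    (1 / 4 : ℝ)
  refine ⟨_, hd, fun v => ?_⟩
  simp only [drho, cq, of_apply, Matrix.add_apply, mul_apply, transpose_apply,
    _root_.smul_apply, _root_.sum_apply, _root_.add_apply,
    smul_eq_mul, ← Finset.sum_add_distrib]
  congr 1
  refine Finset.sum_congr rfl fun i _ => Finset.sum_congr rfl fun j _ => congrArg _
    (Finset.sum_congr rfl fun m _ => ?_)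
  simp only [mul_comm (sg s p _ m)]
  ring

theorem grp_fderiv (s : Bool) {H : E → M4} {z : E}
    (h : ∀ i j, DifferentiableAt ℝ (fun y => H y i j) z) (v : E) :
    fderiv ℝ (fun y => grp s (H y)) z v =
      dgrp s (H z) (of fun i j => fderiv ℝ (fun y => H y i j) z v) := by
  have k : ∀ k l, ∃ D : E →L[ℝ] ℝ,
      HasFDerivAt (fun y => fromBlocks (H y) 0 0 (rho s (H y)) k l) D z ∧
      D v = fromBlocks (of fun i j => fderiv ℝ (fun y => H y i j) z v) 0 0
        (drho s (H z) (of fun i j => fderiv ℝ (fun y => H y i j) z v)) k l := by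
    rintro (k | k) (l | l)
    · exact ⟨_, (h k l).hasFDerivAt, rfl⟩
    · exact ⟨0, hasFDerivAt_const _ _, rfl⟩
    · exact ⟨0, hasFDerivAt_const _ _, rfl⟩
    · obtain ⟨D, h1, h2⟩ := rh_has s h k l
      exact ⟨D, h1, h2 v⟩
  choose D h1 h2 using k
  have hd := HasFDerivAt.fun_sum (u := Finset.univ) fun k _ =>
    HasFDerivAt.fun_sum (u := Finset.univ) fun l _ => (h1 k l).smul_const (T8 (single k l 1))
  simp only [← rh_T8] at hd
  rw [dgrp, rh_T8]
  refine (congrArg (fun D => D v) hd.fderiv).trans ?_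
  simp only [_root_.sum_apply, ContinuousLinearMap.smulRight_apply, h2]

theorem rho_fderiv (s : Bool) {H : E → M4} {z : E}
    (h : ∀ i j, DifferentiableAt ℝ (fun y => H y i j) z) (v : E) (q p : Fin 4) :
    fderiv ℝ (fun y => rho s (H y) q p) z v =
      drho s (H z) (of fun i j => fderiv ℝ (fun y => H y i j) z v) q p := by
  obtain ⟨D, h1, h2⟩ := rh_has s h q p
  rw [h1.fderiv, h2]

end Pool.Agent.Lib.MP_1c0d65_gt.Nz
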