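import Pool.Agent.Lib.MP_1c0d65_gt.Nz.GFr

/-! The transition matrices of a unitary atlas. -/

set_option autoImplicit false
set_option linter.unusedSectionVars false

open scoped Manifold ContDiff Topology
open Set MeasureTheory Function Matrix

noncomputable section

namespace Pool.Agent.Lib.MP_1c0d65_gt.Nz

open Pool.Agent.Lib.MP_1c0d65_gt.PW

theorem gtr_I (v : E) (k : Fin 4) : co k (Complex.I • v) = -∑ l, sg true 1 k l * co l v := by
  fin_cases k <;> simp [co, sg, sn, Fin.sum_univ_four]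

theorem gtr_sq : sg true 1 * sg true 1 = -1 := by
  ext i j
  fin_cases i <;> fin_cases j <;> simp [sg, sn, mul_apply, Fin.sum_univ_four]

theorem gtr_lin (T : E →L[ℝ] E) (v : E) : T v = ∑ k, co k v • T (bs k) := by
  conv_lhs => rw [← wz_sum_co v]
  simp only [map_sum, map_smul]

/-- A complex linear symplectic map has a unitary matrix. -/
theorem gtr_un {T : E →L[ℝ] E} (h1 : ∀ v w, bil (sg true 1) (T v) (T w) = bil (sg true 1) v w)
    (h2 : ∀ v, T (Complex.I • v) = Complex.I • T v) : Un (of fun i j => co i (T (bs j))) := by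
  obtain ⟨H, hH⟩ : ∃ H : M4, H = of fun i j => co i (T (bs j)) := ⟨_, rfl⟩
  have e1 : Hᵀ * sg true 1 * H = sg true 1 := by
    ext i j
    rw [← gfr_bil_bs (sg true 1) i j, ← h1, bil_apply]
    simp only [hH, mul_apply, transpose_apply, of_apply, Fin.sum_univ_four]
    ring
  have e2 : H * sg true 1 = sg true 1 * H := by
    ext i j
    have := congrArg (co i) (h2 (bs j))
    rw [gtr_lin T, gtr_I] at this
    simp only [map_sum, map_smul, gtr_I, wz_co_bs, smul_eq_mul, mul_ite, mul_one, mul_zero,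
      Finset.sum_ite_eq', Finset.mem_univ, if_true, Fin.sum_univ_four (f := fun _ => _ * co _ _)]
      at this
    simp only [hH, mul_apply, of_apply, Fin.sum_univ_four]
    linarith
  rw [← hH]
  refine ⟨?_, e2⟩
  rw [Matrix.mul_assoc, ← e2, ← Matrix.mul_assoc] at e1
  have := congrArg (· * sg true 1) e1
  simpa only [Matrix.mul_assoc, gtr_sq, Matrix.mul_neg, Matrix.mul_one, neg_inj] using this

theorem gtr_det {T : E →L[ℝ] E} (h1 : ∀ v w, bil (sg true 1) (T v) (T w) = bil (sg true 1) v w) :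
    T.det = 1 := by
  have alt : ∀ v, bil (sg true 1) v v = 0 := fun v => by
    simp [bil_apply, sg, sn, Fin.sum_univ_four]
    ring
  have h := wedge_comp alt alt T
  rw [show (bil (sg true 1)).bilinearComp T T = bil (sg true 1) from bil_ext h1, wedge_bil] at h
  simp [wg, sg, sn] at h
  linarith

variable {X : Type} [TopologicalSpace X] [ChartedSpace E X] [IsManifold 𝓘(ℝ, E) ∞ X]
  [T2Space X] [CompactSpace X] [MeasurableSpace X] [BorelSpace X] {c : Ctx X}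

namespace UA

variable (U : UA c)

theorem gtr_tg (a : Fin U.n) (z : E) : z ∈ (U.ch a).target := by rw [U.tgt]; trivial

theorem ψ_sm (a : Fin U.n) (z : E) : SmAt ∞ (U.ψ a) z := (U.hch a).smAt (U.gtr_tg a z)

theorem ψ_mem (a : Fin U.n) (z : E) : U.ψ a z ∈ (U.ch a).source :=
  (U.ch a).map_target (U.gtr_tg a z)

theorem ch_ψ (a : Fin U.n) (z : E) : U.ch a (U.ψ a z) = z := (U.ch a).right_inv (U.gtr_tg a z)

theorem ψ_ch {a : Fin U.n} {x : X} (h : x ∈ (U.ch a).source) : U.ψ a (U.ch a x) = x :=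
  (U.ch a).left_inv h

theorem range_ψ (a : Fin U.n) : range (U.ψ a) = (U.ch a).source :=
  Subset.antisymm (range_subset_iff.2 (U.ψ_mem a)) fun _ h => ⟨_, U.ψ_ch h⟩

theorem gtr_inj (a : Fin U.n) (z : E) : Injective (dif (U.ψ a) z) :=
  ((U.hch a).inv (U.gtr_tg a z)).injective

theorem gtr_dif_dfn (a : Fin U.n) (z v : E) : dif (U.ψ a) z (dfn (U.ch a) (U.ψ a z) v) = v := by
  have := (U.hch a).dif_dfn (U.ψ_mem a z) v
  rwa [U.ch_ψ] at this

theorem gtr_dfn_dif (a : Fin U.n) (z v : E) : dfn (U.ch a) (U.ψ a z) (dif (U.ψ a) z v) = v :=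
  U.gtr_inj a z (U.gtr_dif_dfn a z _)

theorem ΨΦ (a : Fin U.n) (z v : E) : U.Ψ a (U.ψ a z) (U.Φ a z v) = v := by
  simp only [Ψ, Φ, ContinuousLinearMap.comp_apply, ch_ψ, gtr_dfn_dif, (U.f a).θM]

theorem ΦΨ (a : Fin U.n) (z v : E) : U.Φ a z (U.Ψ a (U.ψ a z) v) = v := by
  simp only [Ψ, Φ, ContinuousLinearMap.comp_apply, ch_ψ, gtr_dif_dfn, (U.f a).Mθ]

theorem Φ_J (a : Fin U.n) (z v : E) :
    c.J0 (U.ψ a z) (U.Φ a z v) = U.Φ a z (Complex.I • v) := by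
  simp only [Φ, ContinuousLinearMap.comp_apply, ← U.hJ]
  exact (dif_pullJ ((U.hch a).inv (U.gtr_tg a z)) _ _).symm

theorem Φ_om (a : Fin U.n) (z v w : E) :
    c.om (U.ψ a z) (U.Φ a z v) (U.Φ a z w) = bil (sg true 1) v w := by
  have h := congrArg (fun β : Bil E ℝ => β ((U.f a).M z v) ((U.f a).M z w)) (U.hom a z)
  simp only [Fr.f2, ContinuousLinearMap.bilinearComp_apply, (U.f a).θM] at h
  exact h

theorem gtr_hm (a b : Fin U.n) (z : E) : U.hm b a (U.ψ a z) =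
    of fun i j => co i (((U.Ψ b (U.ψ a z)).comp (U.Φ a z)) (bs j)) := by
  rw [hm, U.ch_ψ]
  rfl

variable {U} {a b : Fin U.n} {z z' : E}

theorem gtr_mem (h : U.ψ a z = U.ψ b z') : U.ψ a z ∈ (U.ch b).source := h ▸ U.ψ_mem b z'

theorem τ_eq (h : U.ψ a z = U.ψ b z') : U.τ b a z = z' := by rw [τ, h, U.ch_ψ]

theorem τ_sm (h : U.ψ a z = U.ψ b z') : ContDiffAt ℝ ∞ (U.τ b a) z :=
  (U.hch b).loc le_rfl (U.ψ_sm a z) (gtr_mem h)

theorem τ_ev (h : U.ψ a z = U.ψ b z') : ∀ᶠ y in 𝓝 z, U.ψ a y = U.ψ b (U.τ b a y) :=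
  (IsChart.symm_loc (U.ψ_sm a z).continuousAt (gtr_mem h)).symm

theorem gtr_ΦΨ (h : U.ψ a z = U.ψ b z') (v : E) : U.Φ b z' (U.Ψ b (U.ψ a z) v) = v := by
  rw [h, U.ΦΨ]

theorem gtr_dif (h : U.ψ a z = U.ψ b z') (v : E) :
    dif (U.ψ a) z v = dif (U.ψ b) z' (fderiv ℝ (U.τ b a) z v) := by
  rw [(U.hch b).dif_loc ((U.ψ_sm a z).dfAt (by simp)) (gtr_mem h), ← τ_eq h]
  rfl

theorem Φ_hm (h : U.ψ a z = U.ψ b z') (j : Fin 4) :
    U.Φ a z (bs j) = ∑ i, U.hm b a (U.ψ a z) i j • U.Φ b z' (bs i) := by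
  rw [← gtr_ΦΨ h (U.Φ a z (bs j)), gtr_lin (U.Φ b z'), gtr_hm]
  rfl

theorem τ_e (h : U.ψ a z = U.ψ b z') (j : Fin 4) : fderiv ℝ (U.τ b a) z ((U.f a).e j z) =
    ∑ i, U.hm b a (U.ψ a z) i j • (U.f b).e i z' := by
  refine U.gtr_inj b z' ?_
  rw [← gtr_dif h, map_sum]
  simp only [map_smul]
  exact Φ_hm h j

theorem gtr_om (h : U.ψ a z = U.ψ b z') (v w : E) :
    bil (sg true 1) (((U.Ψ b (U.ψ a z)).comp (U.Φ a z)) v) (((U.Ψ b (U.ψ a z)).comp (U.Φ a z)) w) =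
      bil (sg true 1) v w := by
  rw [← U.Φ_om b z', ← U.Φ_om a z v w, ContinuousLinearMap.comp_apply,
    ContinuousLinearMap.comp_apply, gtr_ΦΨ h, gtr_ΦΨ h, h]

theorem τ_det (h : U.ψ a z = U.ψ b z') :
    ((U.f a).θ z).det = (fderiv ℝ (U.τ b a) z).det * ((U.f b).θ z').det := by
  have h1 := gtr_det (gtr_om h)
  have e : (U.Ψ b (U.ψ a z)).comp (U.Φ a z) =
      ((U.f b).θ z').comp ((fderiv ℝ (U.τ b a) z).comp ((U.f a).M z)) := by
    refine ContinuousLinearMap.ext fun v => ?_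
    simp only [Ψ, Φ, ContinuousLinearMap.comp_apply]
    rw [gtr_dif h, h, U.gtr_dfn_dif, U.ch_ψ]
  have dc : ∀ S T : E →L[ℝ] E, (S.comp T).det = S.det * T.det := fun S T =>
    LinearMap.det_comp (S : E →ₗ[ℝ] E) (T : E →ₗ[ℝ] E)
  rw [e, dc, dc] at h1
  have h2 := (U.f a).det_mul z
  linear_combination (fderiv ℝ (U.τ b a) z).det * ((U.f b).θ z').det * h2 - ((U.f a).θ z).det * h1

theorem hm_un (h : U.ψ a z = U.ψ b z') : Un (U.hm b a (U.ψ a z)) := by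
  rw [gtr_hm]
  refine gtr_un (gtr_om h) fun v => ?_
  simp only [ContinuousLinearMap.comp_apply]
  rw [← U.Φ_J, ← U.ΨΦ b z' (Complex.I • _), ← U.Φ_J, gtr_ΦΨ h, h]

theorem hm_self (a : Fin U.n) (z : E) : U.hm a a (U.ψ a z) = 1 := by
  ext i j
  rw [gtr_hm, of_apply, ContinuousLinearMap.comp_apply, U.ΨΦ, wz_co_bs, one_apply]

theorem hm_coc {d : Fin U.n} {x : X} (ha : x ∈ (U.ch a).source) (hb : x ∈ (U.ch b).source)
    (hd : x ∈ (U.ch d).source) : U.hm a b x * U.hm b d x = U.hm a d x := by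
  have _ := ha
  ext i j
  have h := Φ_hm ((U.ψ_ch hd).trans (U.ψ_ch hb).symm) j
  rw [U.ψ_ch hd] at h
  change ∑ k, co i (U.Ψ a x (U.Φ b (U.ch b x) (bs k))) * U.hm b d x k j =
    co i (U.Ψ a x (U.Φ d (U.ch d x) (bs j)))
  rw [h]
  simp only [map_sum, map_smul, smul_eq_mul, mul_comm]

theorem hm_tr {x : X} (ha : x ∈ (U.ch a).source) (hb : x ∈ (U.ch b).source) :
    (U.hm a b x)ᵀ = U.hm b a x := by
  have h1 := (hm_un ((U.ψ_ch hb).trans (U.ψ_ch ha).symm)).1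
  have h2 := hm_self (U := U) a (U.ch a x)
  rw [U.ψ_ch hb] at h1
  rw [U.ψ_ch ha, ← hm_coc ha hb ha] at h2
  rw [← Matrix.mul_one (U.hm a b x)ᵀ, ← h2, ← Matrix.mul_assoc, h1, Matrix.one_mul]

theorem hm_sm (h : U.ψ a z = U.ψ b z') (i j : Fin 4) :
    ContDiffAt ℝ ∞ (fun y => U.hm b a (U.ψ a y) i j) z := by
  have h1 : ContDiffAt ℝ ∞ (fun y => co i ((U.f b).θ (U.τ b a y)
      (fderiv ℝ (U.τ b a) y ((U.f a).e j y)))) z :=
    (co i).contDiff.contDiffAt.comp z (((U.f b).hθ.contDiffAt.comp z (τ_sm h)).clm_apply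
      (((τ_sm h).fderiv_right (m := ∞) (by simp)).clm_apply ((U.f a).wz_e j).contDiffAt))
  refine h1.congr_of_eventuallyEq ((τ_ev h).mono fun y hy => ?_)
  simp [τ_e hy, Fr.gfr_co]

end UA

end Pool.Agent.Lib.MP_1c0d65_gt.Nz
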