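import Pool.Agent.Lib.MP_1c0d65_gt.Nz.GGau
import Pool.Agent.Lib.MP_1c0d65_gt.Nz.GRho
import Pool.Agent.Lib.MP_1c0d65_gt.Nz.GTr
import Pool.Agent.Lib.MP_1c0d65_gt.Nz.GFr
import Pool.Agent.Lib.MP_1c0d65_gt.Nz.GChU

/-! The Chern form of an atlas with unitary frames. -/

set_option autoImplicit false
set_option linter.unusedSectionVars false

open scoped Manifold ContDiff Topology
open Set MeasureTheory Function Matrix

noncomputable section

namespace Pool.Agent.Lib.MP_1c0d65_gt.Nz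

open Pool.Agent.Lib.MP_1c0d65_gt.PW

/-- The complex form with real part `bil B` and imaginary part `bil B'`. -/
def gchB (B B' : M4) : Bil E ℂ :=
  ((ContinuousLinearMap.compL ℝ E ℝ ℂ) Complex.ofRealCLM).comp (bil B) +
    ((ContinuousLinearMap.compL ℝ E ℝ ℂ) (Complex.I • Complex.ofRealCLM)).comp (bil B')

theorem gchB_apply (B B' : M4) (v w : E) : gchB B B' v w = bil B v w + .I * bil B' v w := rfl

/-- The determinant. -/
def gch0 : Bil E ℂ := gchB (sg true 2) (sg true 3)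

theorem gch0_apply (v w : E) : gch0 v w = v.1 * w.2 - v.2 * w.1 := by
  rw [gch0, gchB_apply, bil_apply, bil_apply]
  apply Complex.ext <;> simp [sg, sn, co, Fin.sum_univ_four] <;> ring

theorem gch_bil {H : M4} {L : E →L[ℝ] E} (h : ∀ i j, co i (L (bs j)) = H i j) (B : M4) (v w : E) :
    bil B (L v) (L w) = bil (Hᵀ * B * Hᵀᵀ) v w := by
  have e (i : Fin 4) (v : E) : co i (L v) = ∑ j, H i j * co j v := by
    conv_lhs => rw [← wz_sum_co v]
    simp only [map_sum, map_smul, h, smul_eq_mul, mul_comm]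
  simp only [bil_apply, e, mul_apply, transpose_apply, Fin.sum_univ_four]
  ring

theorem gch_det {H : M4} (hH : Un H) {L : E →L[ℝ] E} (h : ∀ i j, co i (L (bs j)) = H i j)
    (v w : E) : gch0 v w = ((rho true H 2 2 : ℝ) - .I * (rho true H 3 2 : ℝ)) * gch0 (L v) (L w) ∧
      rho true H 2 2 ^ 2 + rho true H 3 2 ^ 2 = 1 := by
  obtain ⟨p, q, n, e⟩ := hH.rho_true
  have e2 : rho true H 2 2 = p := by rw [e]; rfl
  have e3 : rho true H 3 2 = q := by rw [e]; rfl
  refine ⟨?_, by rw [e2, e3, n]⟩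
  have n' : (p : ℂ) ^ 2 + (q : ℂ) ^ 2 = 1 := by exact_mod_cast n
  have b2 : bil (sg true 2) (L v) (L w) = p * bil (sg true 2) v w - q * bil (sg true 3) v w := by
    rw [gch_bil h, hH.tr.conj, rho_tr, e]
    simp [bil_apply, Fin.sum_univ_four, sg, sn]; ring
  have b3 : bil (sg true 3) (L v) (L w) = q * bil (sg true 2) v w + p * bil (sg true 3) v w := by
    rw [gch_bil h, hH.tr.conj, rho_tr, e]
    simp [bil_apply, Fin.sum_univ_four, sg, sn]; ring
  rw [e2, e3, gch0, gchB_apply, gchB_apply, b2, b3]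
  push_cast
  linear_combination (-(bil (sg true 2) v w : ℂ) - .I * (bil (sg true 3) v w : ℝ)) * n' +
    ((q : ℂ) ^ 2 * (bil (sg true 2) v w : ℝ) + p * q * (bil (sg true 3) v w : ℝ)
      + .I * q ^ 2 * 0) * Complex.I_mul_I

variable {X : Type} [TopologicalSpace X] [ChartedSpace E X] [IsManifold 𝓘(ℝ, E) ∞ X]
  [T2Space X] [CompactSpace X] [MeasurableSpace X] [BorelSpace X] {c : Ctx X}

namespace UA

variable (U : UA c)

def gchΩ (a : Fin U.n) (x : X) : Bil E ℂ := gch0.bilinearComp (U.Ψ a x) (U.Ψ a x)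

def gchA (a : Fin U.n) : X → E →L[ℝ] ℝ := IsChart.push1 (U.ch a) ((U.f a).al 2 3)

def gchG (a b : Fin U.n) (x : X) : ℂ :=
  (rho true (U.hm b a x) 2 2 : ℝ) - .I * (rho true (U.hm b a x) 3 2 : ℝ)

theorem gch_tgt (a : Fin U.n) (z : E) : z ∈ (U.ch a).target := by rw [U.tgt]; trivial

theorem gch_surj (a : Fin U.n) (z v : E) : ∃ u, U.Φ a z u = v := ⟨_, U.ΦΨ a z v⟩

theorem gchΩ_Φ (a : Fin U.n) (z v w : E) :
    U.gchΩ a (U.ψ a z) (U.Φ a z v) (U.Φ a z w) = gch0 v w := by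
  rw [gchΩ, ContinuousLinearMap.bilinearComp_apply, U.ΨΦ, U.ΨΦ]

theorem gch_form (a : Fin U.n) : Form (U.ch a).source (U.gchΩ a) := by
  refine form_of_local (fun x _ v => ?_) fun p hp => ⟨U.ch a, U.hch a, hp, ?_⟩
  · rw [gchΩ, ContinuousLinearMap.bilinearComp_apply, gch0_apply]; ring
  · have : pull2 (U.ch a).symm (U.gchΩ a) =
        fun z => gch0.bilinearComp ((U.f a).θ z) ((U.f a).θ z) := by
      funext z
      refine bil_ext fun v w => ?_
      simp only [pull2_apply, gchΩ, Ψ, ContinuousLinearMap.bilinearComp_apply,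
        ContinuousLinearMap.comp_apply, (U.hch a).dfn_dif (U.gch_tgt a z),
        (U.ch a).right_inv (U.gch_tgt a z)]
    rw [this]
    exact contDiffAt_bilComp contDiffAt_const (U.f a).hθ.contDiffAt (U.f a).hθ.contDiffAt

theorem gch_can (a : Fin U.n) (z : E) : U.gchΩ a (U.ψ a z) ≠ 0 ∧ ∀ v w,
    U.gchΩ a (U.ψ a z) (c.J0 (U.ψ a z) v) w = .I * U.gchΩ a (U.ψ a z) v w := by
  refine ⟨fun e => ?_, fun v w => ?_⟩
  · have := U.gchΩ_Φ a z (1, 0) (0, 1)
    rw [e, gch0_apply] at this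
    simp at this
  · obtain ⟨v, rfl⟩ := U.gch_surj a z v
    obtain ⟨w, rfl⟩ := U.gch_surj a z w
    rw [U.Φ_J, gchΩ_Φ, gchΩ_Φ, gch0_apply, gch0_apply]
    simp only [Prod.smul_fst, Prod.smul_snd, smul_eq_mul]
    ring

theorem gch_pull (a : Fin U.n) : pull1 (U.ψ a) (U.gchA a) = (U.f a).al 2 3 :=
  funext fun z => (U.hch a).pull1_push1 _ (U.gch_tgt a z)

theorem gch_sm1 (a : Fin U.n) : Sm1 (U.ch a).source (U.gchA a) :=
  (U.hch a).sm1_push1 subset_rfl fun _ _ => ((U.f a).al_sm 2 3).contDiffAt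

variable {U} {a b : Fin U.n} {z z' : E}

theorem gch_rho (h : U.ψ a z = U.ψ b z') (q p : Fin 4) :
    ContDiffAt ℝ ∞ (fun y => rho true (U.hm b a (U.ψ a y)) q p) z := by
  simp only [rho, cq, of_apply, mul_apply, transpose_apply]
  exact contDiffAt_const.mul (ContDiffAt.sum fun i _ => ContDiffAt.sum fun j _ =>
    contDiffAt_const.mul (ContDiffAt.sum fun k _ => (ContDiffAt.sum fun l _ =>
      (hm_sm h i l).mul contDiffAt_const).mul (hm_sm h j k)))

theorem gch_fn (h : U.ψ a z = U.ψ b z') : FnAt ∞ (U.gchG a b) (U.ψ a z) := by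
  refine (U.hch a).fnAt_of (U.ψ_mem a z) le_rfl ?_
  rw [U.ch_ψ]
  exact (Complex.ofRealCLM.contDiff.contDiffAt.comp z (gch_rho h 2 2)).sub
    (contDiffAt_const.mul (Complex.ofRealCLM.contDiff.contDiffAt.comp z (gch_rho h 3 2)))

theorem gch_coc (h : U.ψ a z = U.ψ b z') :
    U.gchΩ a (U.ψ a z) = U.gchG a b (U.ψ a z) • U.gchΩ b (U.ψ a z) := by
  refine bil_ext fun v w => ?_
  obtain ⟨v, rfl⟩ := U.gch_surj a z v
  obtain ⟨w, rfl⟩ := U.gch_surj a z w
  rw [gchΩ_Φ]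
  exact (gch_det (hm_un h) (L := (U.Ψ b (U.ψ a z)).comp (U.Φ a z))
    (fun i j => by simp only [hm, of_apply, U.ch_ψ]; rfl) v w).1

theorem gch_ne (h : U.ψ a z = U.ψ b z') : U.gchG a b (U.ψ a z) ≠ 0 := fun e =>
  (U.gch_can a z).1 (bil_ext fun v w => by rw [gch_coc h, e]; simp)

theorem gch_da (h : U.ψ a z = U.ψ b z') :
    U.gchA a (U.ψ a z) - U.gchA b (U.ψ a z) = dA (U.gchG a b) (U.ψ a z) := by
  refine ContinuousLinearMap.ext fun v => ?_
  obtain ⟨v, rfl⟩ := ((U.hch a).inv (U.gch_tgt a z)).surjective v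
  change _ = dA _ _ (dif (U.ψ a) z v)
  have df := (U.ψ_sm a z).dfAt (by simp)
  have hb : U.ψ a z ∈ (U.ch b).source := h ▸ U.ψ_mem b z'
  have e1 : U.gchA a (U.ψ a z) (dif (U.ψ a) z v) = (U.f a).al 2 3 z v := by
    rw [← pull1_apply, gch_pull]
  have e2 : U.gchA b (U.ψ a z) (dif (U.ψ a) z v) =
      (U.f b).al 2 3 z' (fderiv ℝ (U.τ b a) z v) := by
    have := fderiv_fn_comp ((U.hch b).fnAt hb).md df
    rw [show U.τ b a = U.ch b ∘ U.ψ a from rfl, this, ← τ_eq h]; rfl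
  obtain ⟨-, -, dp, dq⟩ := al_law h
  have n := (gch_det (hm_un h) (L := (U.Ψ b (U.ψ a z)).comp (U.Φ a z))
    (fun i j => by simp only [hm, of_apply, U.ch_ψ]; rfl) v v).2
  have hp := (Complex.ofRealCLM.hasFDerivAt.comp z (cd_diff (gch_rho h 2 2)).hasFDerivAt).sub
    ((Complex.ofRealCLM.hasFDerivAt.comp z (cd_diff (gch_rho h 3 2)).hasFDerivAt).const_mul .I)
  have e3 : dfn (U.gchG a b) (U.ψ a z) (dif (U.ψ a) z v) = _ :=
    (DFunLike.congr_fun (fderiv_fn_comp (gch_fn h).md df) v).symm.trans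
      (DFunLike.congr_fun hp.fderiv v)
  change U.gchA a (U.ψ a z) (dif (U.ψ a) z v) - U.gchA b (U.ψ a z) (dif (U.ψ a) z v) = _
  rw [e1, e2, dA_apply, e3, dp, dq, Complex.div_im, gchG, Complex.normSq_apply]
  beta_reduce
  generalize rho true (U.hm b a (U.ψ a z)) 2 2 = p at n ⊢
  generalize rho true (U.hm b a (U.ψ a z)) 3 2 = q at n ⊢
  have n' : p * p + q * q = 1 := by linarith
  simp [n']
  linear_combination (-(U.f a).al 2 3 z v + (U.f b).al 2 3 z' (fderiv ℝ (U.τ b a) z v)) * n'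

theorem gch_pts {x : X} (ha : x ∈ (U.ch a).source) (hb : x ∈ (U.ch b).source) :
    U.ψ a (U.ch a x) = U.ψ b (U.ch b x) := (U.ψ_ch ha).trans (U.ψ_ch hb).symm

theorem gch_dform {x : X} (ha : x ∈ (U.ch a).source) (hb : x ∈ (U.ch b).source) :
    dform (U.gchA a) x = dform (U.gchA b) x := by
  have op := (U.ch a).open_source.inter (U.ch b).open_source
  have h1 := (((U.gch_sm1 a).mono inter_subset_left).isD op).sub
    (((U.gch_sm1 b).mono inter_subset_right).isD op) op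
  have h2 : IsD ((U.ch a).source ∩ (U.ch b).source) (U.gchA a - U.gchA b) 0 :=
    (isD_dA op (P := U.gchG a b) (fun y hy => U.ψ_ch hy.1 ▸ gch_fn (gch_pts hy.1 hy.2))
      fun y hy => U.ψ_ch hy.1 ▸ gch_ne (gch_pts hy.1 hy.2)).congr op
      (fun y hy => by have := gch_da (gch_pts hy.1 hy.2); rwa [U.ψ_ch hy.1] at this) fun _ _ => rfl
  exact sub_eq_zero.1 ((h1.eq_dform ⟨ha, hb⟩).trans (h2.eq_dform ⟨ha, hb⟩).symm)

variable (U)

theorem exists_chern : ∃ β : X → Bil E ℝ, IsChern univ c.J0 β ∧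
    ∀ a z, pull2 (U.ψ a) β z = ext1 ((U.f a).al 2 3) z := by
  have sel (x : X) : x ∈ (U.ch (U.sel x)).source := (U.cover x).choose_spec
  have isD (a : Fin U.n) : IsD (U.ch a).source (U.gchA a) fun x => dform (U.gchA (U.sel x)) x :=
    isD_of_eq (U.gch_sm1 a) (U.ch a).open_source fun x hx => gch_dform (sel x) hx
  refine ⟨fun x => dform (U.gchA (U.sel x)) x, ⟨fun i => (U.ch (U.sel i)).source,
    fun i => U.gchΩ (U.sel i), fun i => U.gchA (U.sel i), fun i k => U.gchG (U.sel i) (U.sel k),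
    fun i _ => ⟨(U.ch _).open_source, sel i, subset_univ _, U.gch_form _, isD _,
      fun y hy => ?_, fun k _ => ⟨fun y hy => ?_, fun y hy => ⟨?_, fun v => ?_⟩⟩⟩⟩, fun a z => ?_⟩
  · have := U.gch_can (U.sel i) (U.ch (U.sel i) y)
    rwa [U.ψ_ch hy] at this
  · have := gch_fn (gch_pts hy.1 hy.2)
    rw [U.ψ_ch hy.1] at this
    exact this.contMDiffWithinAt
  · have := gch_coc (gch_pts hy.1 hy.2)
    rwa [U.ψ_ch hy.1] at this
  · have := gch_da (gch_pts hy.1 hy.2)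
    rw [U.ψ_ch hy.1] at this
    exact (DFunLike.congr_fun this v).trans (dA_apply _ _ _)
  · rw [(isD a).pull (U.ch a).open_source ((U.ψ_sm a z).of_le two_le) (U.ψ_mem a z), gch_pull]

end UA

end Pool.Agent.Lib.MP_1c0d65_gt.Nz
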