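import Pool.Agent.Lib.MP_1c0d65_gt.Nz.GLoc

/-! The Chern-Simons transgression form on `E`. -/

set_option autoImplicit false
set_option linter.unusedSectionVars false

open scoped Manifold ContDiff Topology
open Set MeasureTheory Function Matrix

noncomputable section

namespace Pool.Agent.Lib.MP_1c0d65_gt.Nz

open Pool.Agent.Lib.MP_1c0d65_gt.PW

/-- The product of a one-form and a three-form on the standard basis. -/
def gcs_w (b : E →L[ℝ] ℝ) (T : E → E → E → ℝ) : ℝ :=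
  b (St.bs 0) * T (St.bs 1) (St.bs 2) (St.bs 3) - b (St.bs 1) * T (St.bs 0) (St.bs 2) (St.bs 3)
    + b (St.bs 2) * T (St.bs 0) (St.bs 1) (St.bs 3) - b (St.bs 3) * T (St.bs 0) (St.bs 1) (St.bs 2)

/-- Stokes' theorem for `d (b ∧ β)` with `b` of compact support. -/
theorem gcs_stokes {K : Set E} (hK : IsCompact K) {b : E → E →L[ℝ] ℝ} {β : E → Bil E ℝ}
    (hb : ContDiff ℝ 1 b) (hβ : ContDiff ℝ 1 β) (h0 : ∀ y, y ∉ K → b y = 0)
    (ha : ∀ y v, β y v v = 0) :
    IntegrableOn (fun y => wedge (ext1 b y) (β y) - gcs_w (b y) (ext2 β y)) univ ∧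
      ∫ y in univ, (wedge (ext1 b y) (β y) - gcs_w (b y) (ext2 β y)) = 0 := by
  let g (v w z : E) (y : E) : ℝ := b y v * β y w z
  have hg (v w z u : E) := St.int_fderiv isOpen_univ hK (subset_univ K) (g := g v w z)
    ((hb.clm_apply contDiff_const).mul ((hβ.clm_apply contDiff_const).clm_apply
      contDiff_const)).contDiffOn (fun y _ hk => by simp [g, h0 y hk]) u
  have hd (v w z u : E) (y) : fderiv ℝ (g v w z) y u =
      fderiv ℝ b y u v * β y w z + b y v * fderiv ℝ β y u w z := by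
    have h1 := (hb.differentiable one_ne_zero y).hasFDerivAt
    have h2 := (hβ.differentiable one_ne_zero y).hasFDerivAt
    have h3 : HasFDerivAt (g v w z) _ y := (h1.clm_apply (hasFDerivAt_const v y)).mul
      ((h2.clm_apply (hasFDerivAt_const w y)).clm_apply (hasFDerivAt_const z y))
    rw [h3.fderiv]
    simp
    ring
  let s (v u w z : E) (y : E) : ℝ :=
    fderiv ℝ (g v w z) y u + fderiv ℝ (g v z u) y w + fderiv ℝ (g v u w) y z
  have hs (v u w z : E) : IntegrableOn (s v u w z) univ ∧ ∫ y in univ, s v u w z y = 0 :=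
    St.int_add (St.int_add (hg ..) (hg ..)) (hg ..)
  have e : (fun y => wedge (ext1 b y) (β y) - gcs_w (b y) (ext2 β y)) = fun y =>
      s (St.bs 1) (St.bs 0) (St.bs 2) (St.bs 3) y + s (St.bs 3) (St.bs 0) (St.bs 1) (St.bs 2) y
      - (s (St.bs 0) (St.bs 1) (St.bs 2) (St.bs 3) y
      + s (St.bs 2) (St.bs 0) (St.bs 1) (St.bs 3) y) := funext fun y => by
    simp only [s, hd, St.wedge_eq, ext1_apply, gcs_w, ext2, St.anti (ha y) (St.bs 2) (St.bs 0),
      St.anti (ha y) (St.bs 3) (St.bs 0), St.anti (ha y) (St.bs 3) (St.bs 1)]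
    ring
  rw [e]
  refine ⟨(St.int_add (hs ..) (hs ..)).1.sub (St.int_add (hs ..) (hs ..)).1, ?_⟩
  rw [integral_sub (St.int_add (hs ..) (hs ..)).1 (St.int_add (hs ..) (hs ..)).1,
    (St.int_add (hs ..) (hs ..)).2, (St.int_add (hs ..) (hs ..)).2, sub_zero]

theorem gcs_alt (a b c : E → E →L[ℝ] ℝ) (z v : E) : cv a b c z v v = 0 := by
  simp [cv, ext1_alt]

theorem gcs_w11 {b c : E → E →L[ℝ] ℝ} (hb : ContDiff ℝ ∞ b) (hc : ContDiff ℝ ∞ c) :
    ContDiff ℝ 1 fun z => w11 (b z) (c z) := contDiff_iff_contDiffAt.2 fun _ =>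
  contDiffAt_w11 (hb.of_le (by simp)).contDiffAt (hc.of_le (by simp)).contDiffAt

theorem gcs_ext1 {a : E → E →L[ℝ] ℝ} (ha : ContDiff ℝ ∞ a) : ContDiff ℝ 1 (ext1 a) :=
  contDiff_iff_contDiffAt.2 fun _ => contDiffAt_ext1 (m := ∞) (by norm_cast) ha.contDiffAt

theorem gcs_sm {a b c : E → E →L[ℝ] ℝ} (ha : ContDiff ℝ ∞ a) (hb : ContDiff ℝ ∞ b)
    (hc : ContDiff ℝ ∞ c) : ContDiff ℝ 1 (cv a b c) := (gcs_ext1 ha).sub (gcs_w11 hb hc)

/-- The Bianchi identity. -/
theorem gcs_bia {a b c : E → E →L[ℝ] ℝ} (ha : ContDiff ℝ ∞ a) (hb : ContDiff ℝ ∞ b)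
    (hc : ContDiff ℝ ∞ c) (y u v w : E) : ext2 (cv a b c) y u v w =
      b y u * ext1 c y v w + b y v * ext1 c y w u + b y w * ext1 c y u v
      - (ext1 b y u v * c y w + ext1 b y v w * c y u + ext1 b y w u * c y v) := by
  have d1 := (gcs_ext1 ha).differentiable one_ne_zero y
  have d2 := (gcs_w11 hb hc).differentiable one_ne_zero y
  have db := (hb.differentiable (by simp) y).hasFDerivAt
  have dc := (hc.differentiable (by simp) y).hasFDerivAt
  have k : ∀ t v w, fderiv ℝ (fun z => w11 (b z) (c z)) y t v w =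
      fderiv ℝ b y t v * c y w + b y v * fderiv ℝ c y t w
      - (fderiv ℝ b y t w * c y v + b y w * fderiv ℝ c y t v) := fun t v w => by
    have h3 : HasFDerivAt (fun z => b z v * c z w - b z w * c z v) _ y :=
      ((db.clm_apply (hasFDerivAt_const v y)).mul (dc.clm_apply (hasFDerivAt_const w y))).sub
        ((db.clm_apply (hasFDerivAt_const w y)).mul (dc.clm_apply (hasFDerivAt_const v y)))
    rw [fderiv_ap2 d2]
    simp only [w11_apply, smul_eq_mul]
    rw [h3.fderiv]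
    simp
    ring
  have e : ∀ t v w, fderiv ℝ (cv a b c) y t v w =
      fderiv ℝ (ext1 a) y t v w - fderiv ℝ (fun z => w11 (b z) (c z)) y t v w := fun t v w => by
    have h : fderiv ℝ (cv a b c) y =
        fderiv ℝ (ext1 a) y - fderiv ℝ (fun z => w11 (b z) (c z)) y := fderiv_fun_sub d1 d2
    rw [h]; rfl
  have h0 := ext2_ext1 (y := y) (ha.of_le (by norm_cast)).contDiffAt u v w
  simp only [ext2] at h0
  simp only [ext2, e, k, ext1_apply]
  linear_combination h0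

theorem cs_loc {a₁ a₂ a₃ : E → E →L[ℝ] ℝ} (h₁ : ContDiff ℝ ∞ a₁) (h₂ : ContDiff ℝ ∞ a₂)
    (h₃ : ContDiff ℝ ∞ a₃) {r : E → ℝ} (hr : ContDiff ℝ ∞ r) (hc : HasCompactSupport r) :
    ∫ z, (r z * dtau a₁ a₂ a₃ z + tau a₁ a₂ a₃ z (fderiv ℝ r z)) = 0 := by
  have s2 := gcs_stokes hc.isCompact (b := fun z => r z • a₂ z) (β := cv a₂ a₃ a₁)
    ((hr.smul h₂).of_le (by simp)) (gcs_sm h₂ h₃ h₁)
    (fun y hy => by simp [image_eq_zero_of_notMem_tsupport hy]) (gcs_alt _ _ _)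
  have s3 := gcs_stokes hc.isCompact (b := fun z => r z • a₃ z) (β := cv a₃ a₁ a₂)
    ((hr.smul h₃).of_le (by simp)) (gcs_sm h₃ h₁ h₂)
    (fun y hy => by simp [image_eq_zero_of_notMem_tsupport hy]) (gcs_alt _ _ _)
  have h := (St.int_add s2 s3).2
  rw [Measure.restrict_univ] at h
  rw [← h]
  refine integral_congr_ae (Filter.Eventually.of_forall fun y => ?_)
  have dr := hr.differentiable (by simp) y
  simp only [ext1_fsmul dr (h₂.differentiable (by simp) y),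
    ext1_fsmul dr (h₃.differentiable (by simp) y), gcs_w, gcs_bia h₂ h₃ h₁, gcs_bia h₃ h₁ h₂]
  simp only [dtau, tau, cv, St.wedge_eq, _root_.sub_apply,
    _root_.add_apply, _root_.smul_apply, w11_apply, smul_eq_mul,
    ext1_apply]
  ring

/-- Gauge invariance of the transgression form. -/
theorem tau_gauge {a₁ a₂ a₃ b₁ b₂ b₃ : E → E →L[ℝ] ℝ} {p q : E → ℝ} {z : E}
    (h₂ : DifferentiableAt ℝ a₂ z) (h₃ : DifferentiableAt ℝ a₃ z) (hp : DifferentiableAt ℝ p z)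
    (hq : DifferentiableAt ℝ q z) (n : p z ^ 2 + q z ^ 2 = 1)
    (e₂ : b₂ =ᶠ[𝓝 z] fun y => p y • a₂ y - q y • a₃ y)
    (e₃ : b₃ =ᶠ[𝓝 z] fun y => q y • a₂ y + p y • a₃ y)
    (dp : fderiv ℝ p z = q z • (a₁ z - b₁ z)) (dq : fderiv ℝ q z = p z • (b₁ z - a₁ z))
    (ξ : E →L[ℝ] ℝ) : tau b₁ b₂ b₃ z ξ = tau a₁ a₂ a₃ z ξ := by
  have x2 : ext1 b₂ z = ext1 (fun y => p y • a₂ y) z - ext1 (fun y => q y • a₃ y) z := by
    rw [ext1_congr e₂]
    refine bil_ext fun v w => ?_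
    have h : fderiv ℝ (fun y => p y • a₂ y - q y • a₃ y) z =
        fderiv ℝ (fun y => p y • a₂ y) z - fderiv ℝ (fun y => q y • a₃ y) z :=
      fderiv_fun_sub (hp.smul h₂) (hq.smul h₃)
    simp only [ext1_apply, h, _root_.sub_apply]
    ring
  have x3 : ext1 b₃ z = ext1 (fun y => q y • a₂ y) z + ext1 (fun y => p y • a₃ y) z := by
    rw [ext1_congr e₃]
    exact ext1_add (hq.smul h₂) (hp.smul h₃)
  have v2 : b₂ z = p z • a₂ z - q z • a₃ z := e₂.eq_of_nhds
  have v3 : b₃ z = q z • a₂ z + p z • a₃ z := e₃.eq_of_nhds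
  have c2 : cv b₂ b₃ b₁ z = p z • cv a₂ a₃ a₁ z - q z • cv a₃ a₁ a₂ z := bil_ext fun v w => by
    simp only [cv, x2, v3, ext1_fsmul hp h₂, ext1_fsmul hq h₃, dp, dq,
      _root_.sub_apply, _root_.add_apply, _root_.smul_apply,
      w11_apply, smul_eq_mul]
    ring
  have c3 : cv b₃ b₁ b₂ z = q z • cv a₂ a₃ a₁ z + p z • cv a₃ a₁ a₂ z := bil_ext fun v w => by
    simp only [cv, x3, v2, ext1_fsmul hq h₂, ext1_fsmul hp h₃, dp, dq,
      _root_.sub_apply, _root_.add_apply, _root_.smul_apply,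
      w11_apply, smul_eq_mul]
    ring
  have w2 : w11 ξ (b₂ z) = p z • w11 ξ (a₂ z) - q z • w11 ξ (a₃ z) := bil_ext fun v w => by
    simp only [v2, _root_.sub_apply, _root_.smul_apply, w11_apply,
      smul_eq_mul]
    ring
  have w3 : w11 ξ (b₃ z) = q z • w11 ξ (a₂ z) + p z • w11 ξ (a₃ z) := bil_ext fun v w => by
    simp only [v3, _root_.add_apply, _root_.smul_apply, w11_apply,
      smul_eq_mul]
    ring
  simp only [tau, c2, c3, w2, w3, wedge_add_left, wedge_add_right, wedge_sub_left, wedge_sub_right,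
    wedge_smul_left, wedge_smul_right]
  linear_combination (wedge (w11 ξ (a₂ z)) (cv a₂ a₃ a₁ z)
    + wedge (w11 ξ (a₃ z)) (cv a₃ a₁ a₂ z)) * n

theorem gcs_w11_comp (a b : E →L[ℝ] ℝ) (A : E →L[ℝ] E) :
    w11 (a.comp A) (b.comp A) = (w11 a b).bilinearComp A A := bil_ext fun v w => by simp

/-- Naturality of the transgression form. -/
theorem tau_comp {b₁ b₂ b₃ : E → E →L[ℝ] ℝ} {t : E → E} {z : E} (ht : ContDiffAt ℝ ∞ t z)
    (h₂ : DifferentiableAt ℝ b₂ (t z)) (h₃ : DifferentiableAt ℝ b₃ (t z)) (ξ : E →L[ℝ] ℝ) :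
    tau (fun y => (b₁ (t y)).comp (fderiv ℝ t y)) (fun y => (b₂ (t y)).comp (fderiv ℝ t y))
      (fun y => (b₃ (t y)).comp (fderiv ℝ t y)) z (ξ.comp (fderiv ℝ t z)) =
      (fderiv ℝ t z).det * tau b₁ b₂ b₃ (t z) ξ := by
  have h2 : ContDiffAt ℝ 2 t z := ht.of_le (by norm_cast)
  have k : ∀ {a : E → E →L[ℝ] ℝ} (b c : E → E →L[ℝ] ℝ), DifferentiableAt ℝ a (t z) →
      cv (fun y => (a (t y)).comp (fderiv ℝ t y)) (fun y => (b (t y)).comp (fderiv ℝ t y))
        (fun y => (c (t y)).comp (fderiv ℝ t y)) z =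
      (cv a b c (t z)).bilinearComp (fderiv ℝ t z) (fderiv ℝ t z) := fun b c ha => by
    simp only [cv, ext1_comp ha h2, gcs_w11_comp]
    exact bil_ext fun v w => by simp
  simp only [tau, k _ _ h₂, k _ _ h₃, gcs_w11_comp, wedge_comp (w11_alt _ _) (gcs_alt _ _ _ _)]
  ring

end Pool.Agent.Lib.MP_1c0d65_gt.Nz
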