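import Pool.Agent.Lib.MP_1c0d65_gt.Nz.GFr

/-! The curvature of a frame. -/

set_option autoImplicit false

open scoped Manifold ContDiff Topology
open Set MeasureTheory Function Matrix

noncomputable section

namespace Pool.Agent.Lib.MP_1c0d65_gt.Nz

open Pool.Agent.Lib.MP_1c0d65_gt.PW

theorem gc_pi4_lie (s : Bool) {G G' : M4} (h : Gᵀ = -G) (h' : G'ᵀ = -G') :
    pi4 s (G * G' - G' * G) = pi4 s G * pi4 s G' - pi4 s G' * pi4 s G := by
  have hb : (G * G' - G' * G)ᵀ = -(G * G' - G' * G) := by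
    rw [transpose_sub, transpose_mul, transpose_mul, h, h']; simp
  have e : ∀ i j, G j i = -G i j := fun i j => congrFun (congrFun h i) j
  have d : ∀ i, G i i = 0 := fun i => by linarith [e i i]
  have e' : ∀ i j, G' j i = -G' i j := fun i j => congrFun (congrFun h' i) j
  have d' : ∀ i, G' i i = 0 := fun i => by linarith [e' i i]
  rw [pi4_eq s hb, pi4_eq s h, pi4_eq s h']
  ext q p
  simp only [Matrix.sub_apply, mul_apply, Fin.sum_univ_four, d, d', e 0 1, e 0 2, e 1 2,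
    e 1 3, e 2 3, e' 0 1, e' 0 2, e' 1 2, e' 1 3, e' 2 3]
  cases s <;> fin_cases q <;> fin_cases p <;> simp [sn] <;> ring

theorem gc_lie_lie (s : Bool) {G G' : M4} (h : Gᵀ = -G) (h' : G'ᵀ = -G') :
    lie s G * lie s G' - lie s G' * lie s G = lie s (G * G' - G' * G) := by
  simp only [lie, ← map_mul, fromBlocks_multiply, ← map_sub, gc_pi4_lie s h h']
  congr 1
  ext (a | a) (b | b) <;> simp

namespace Fr

variable (f : Fr)

theorem gc_d_sub {V : Type} [NormedAddCommGroup V] [NormedSpace ℝ V] (i : Fin 4) {u v : E → V}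
    (hu : ContDiff ℝ ∞ u) (hv : ContDiff ℝ ∞ v) (z : E) :
    f.d i (fun z => u z - v z) z = f.d i u z - f.d i v z := by
  simp only [d]
  rw [fderiv_fun_sub (hu.differentiable (by simp) z) (hv.differentiable (by simp) z)]; rfl

theorem gc_bracket (i j n : Fin 4) (z : E) :
    f.d i (fun z => f.d j (f.e n) z - f.d n (f.e j) z) z -
      (f.d j (f.d n (f.e i)) z - f.d n (f.d j (f.e i)) z) =
    ∑ m, (f.d i (f.γ j n m) z + ∑ k, f.γ j n k z * f.γ i k m z) • f.e m z := by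
  have h0 : ∀ a b : Fin 4, (fun z => f.d a (f.e b) z - f.d b (f.e a) z) =
      fun z => ∑ k, f.γ a b k z • f.e k z := fun a b => funext fun z => (f.wz_expand z _).symm
  rw [h0, f.wz_d_sum i _ (u := fun k z => f.γ j n k z • f.e k z)
    (fun k => (f.wz_γ j n k).smul (f.wz_e k)), f.wz_comm j n (f.wz_e i)]
  simp only [f.wz_d_smul i (f.wz_γ j n _) (f.wz_e _), Finset.sum_add_distrib, add_smul,
    Finset.sum_smul]
  rw [add_sub_assoc, ← Finset.sum_sub_distrib, Finset.sum_comm]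
  congr 1
  refine Finset.sum_congr rfl fun k _ => ?_
  rw [← smul_sub, congrFun (h0 i k) z, Finset.smul_sum]
  simp only [smul_smul]

theorem gc_jacobi (i j n m : Fin 4) (z : E) :
    (f.d i (f.γ j n m) z + ∑ k, f.γ j n k z * f.γ i k m z) +
    (f.d j (f.γ n i m) z + ∑ k, f.γ n i k z * f.γ j k m z) +
    (f.d n (f.γ i j m) z + ∑ k, f.γ i j k z * f.γ n k m z) = 0 := by
  have h1 := f.gc_bracket i j n z
  have h2 := f.gc_bracket j n i z
  have h3 := f.gc_bracket n i j z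
  rw [f.gc_d_sub _ (f.wz_d _ (f.wz_e _)) (f.wz_d _ (f.wz_e _))] at h1 h2 h3
  have h : ∑ m, ((f.d i (f.γ j n m) z + ∑ k, f.γ j n k z * f.γ i k m z) +
      (f.d j (f.γ n i m) z + ∑ k, f.γ n i k z * f.γ j k m z) +
      (f.d n (f.γ i j m) z + ∑ k, f.γ i j k z * f.γ n k m z)) • f.e m z = 0 := by
    simp only [add_smul (_ + _ + (_ + _)), add_smul (_ + _) (_ + _), Finset.sum_add_distrib]
    rw [← h1, ← h2, ← h3]; abel
  have := congrArg (fun v => co m (f.θ z v)) h
  simpa only [map_sum, map_smul, e, f.θM, wz_co_bs, smul_eq_mul, mul_ite, mul_one, mul_zero,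
    Finset.sum_ite_eq, Finset.mem_univ, if_true, map_zero] using this

theorem gc_R (z : E) (i j m n : Fin 4) : f.R z i j m n = f.d i (f.Γ j m n) z - f.d j (f.Γ i m n) z
    + ∑ k, (f.Γ i m k z * f.Γ j k n z - f.Γ j m k z * f.Γ i k n z)
    - ∑ k, f.γ i j k z * f.Γ k m n z := by
  simp [R, dm, Gm, Matrix.mul_apply, Matrix.sum_apply, Finset.sum_sub_distrib]

theorem gc_bianchi (i j m n : Fin 4) (z : E) :
    f.R z i j m n + f.R z j n m i + f.R z n i m j = 0 := by
  have h : ∀ a b c : Fin 4, f.d a (f.γ b c m) z = f.d a (f.Γ b m c) z - f.d a (f.Γ c m b) z :=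
    fun a b c => by
      rw [← f.gc_d_sub a (f.Γ_sm _ _ _) (f.Γ_sm _ _ _)]
      congr 1; funext z; exact f.Γ_tors b c m z
  have := f.gc_jacobi i j n m z
  rw [h, h, h] at this
  simp only [f.Γ_tors _ _ m z] at this
  simp only [gc_R]
  have t : ∀ a b c, f.Γ a c b z = f.γ a b c z + f.Γ b c a z := fun a b c => by
    rw [f.Γ_tors a b c z]; ring
  have e1 : ∀ k, f.Γ j k n z = f.γ j n k z + f.Γ n k j z := fun k => t j n k
  have e2 : ∀ k, f.Γ n k i z = f.γ n i k z + f.Γ i k n z := fun k => t n i k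
  have e3 : ∀ k, f.Γ i k j z = f.γ i j k z + f.Γ j k i z := fun k => t i j k
  simp only [Fin.sum_univ_four] at this ⊢
  linear_combination this + f.Γ i m 0 z * e1 0 + f.Γ i m 1 z * e1 1 + f.Γ i m 2 z * e1 2
    + f.Γ i m 3 z * e1 3 + f.Γ j m 0 z * e2 0 + f.Γ j m 1 z * e2 1 + f.Γ j m 2 z * e2 2
    + f.Γ j m 3 z * e2 3 + f.Γ n m 0 z * e3 0 + f.Γ n m 1 z * e3 1 + f.Γ n m 2 z * e3 2
    + f.Γ n m 3 z * e3 3

theorem gc_skew (z : E) (i j m n : Fin 4) : f.R z i j m n = -f.R z i j n m := by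
  have h : ∀ a b : Fin 4, f.d a (f.Γ b m n) z = -f.d a (f.Γ b n m) z := fun a b => by
    have : f.Γ b m n = fun z => -f.Γ b n m z := funext fun z => f.Γ_skew b m n z
    rw [this]; simp only [d]; rw [fderiv_fun_neg]; rfl
  simp only [gc_R, h i j, h j i]
  have e1 : ∑ k, (f.Γ i n k z * f.Γ j k m z - f.Γ j n k z * f.Γ i k m z) =
      -∑ k, (f.Γ i m k z * f.Γ j k n z - f.Γ j m k z * f.Γ i k n z) := by
    rw [← Finset.sum_neg_distrib]
    refine Finset.sum_congr rfl fun k _ => ?_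
    rw [f.Γ_skew i n k, f.Γ_skew j k m, f.Γ_skew j n k, f.Γ_skew i k m]; ring
  have e2 : ∑ k, f.γ i j k z * f.Γ k n m z = -∑ k, f.γ i j k z * f.Γ k m n z := by
    rw [← Finset.sum_neg_distrib]
    refine Finset.sum_congr rfl fun k _ => ?_
    rw [f.Γ_skew k n m]; ring
  rw [e1, e2]; ring

theorem curv (z : E) : Curv (f.R z) where
  skew := f.gc_skew z
  anti i j k l := by simp only [gc_R, f.wz_γ_skew j i, Fin.sum_univ_four]; ring
  bia i j k l := f.gc_bianchi i j l k z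

/-- A linear map of the connection matrix commutes with the derivative. -/
theorem gc_d_lin {V : Type} [NormedAddCommGroup V] [NormedSpace ℝ V] (L : M4 →ₗ[ℝ] V)
    (i j : Fin 4) (z : E) : f.d i (fun y => L (f.Gm j y)) z = L (f.dm i (f.Gm j) z) := by
  have ex : ∀ G : M4, L G = ∑ k, ∑ l, G k l • L (single k l 1) := fun G => by
    simp only [← map_smul, ← map_sum, smul_single, smul_eq_mul, mul_one, ← matrix_eq_sum_single]
  have : (fun y => L (f.Gm j y)) = fun y => ∑ k, ∑ l, f.Γ j k l y • L (single k l 1) :=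
    funext fun y => ex _
  rw [this, ex, f.wz_d_sum i _ (u := fun k y => ∑ l, f.Γ j k l y • L (single k l 1)) fun k =>
    ContDiff.sum fun l _ => (f.Γ_sm j k l).smul contDiff_const]
  refine Finset.sum_congr rfl fun k _ => ?_
  rw [f.wz_d_sum i _ (u := fun l y => f.Γ j k l y • L (single k l 1))
    fun l => (f.Γ_sm j k l).smul contDiff_const]
  refine Finset.sum_congr rfl fun l _ => ?_
  rw [f.wz_d_smul i (f.Γ_sm j k l) contDiff_const]
  simp [Fr.d, dm, Gm]

theorem loc_Om (s : Bool) (i j : Fin 4) (z : E) : (f.loc s).Om i j z = lie s (f.R z i j) := by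
  change f.d i (fun y => lieL s (f.Gm j y)) z - f.d j (fun y => lieL s (f.Gm i y)) z
    + (lie s (f.Gm i z) * lie s (f.Gm j z) - lie s (f.Gm j z) * lie s (f.Gm i z))
    - ∑ k, f.γ i j k z • lieL s (f.Gm k z) = lieL s _
  rw [f.gc_d_lin, f.gc_d_lin, gc_lie_lie s (f.Gm_skew i z) (f.Gm_skew j z)]
  simp only [R, map_sub, map_add, map_sum, map_smul]
  rw [← map_sub (lieL s) (f.Gm i z * f.Gm j z)]
  rfl

theorem loc_En (s : Bool) (z : E) : (f.loc s).En z = En0 s (f.R z) := by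
  simp only [Loc.En, En0, loc_Om]

theorem loc_dens (s : Bool) (z : E) : (f.loc s).dens z = dens0 s (f.R z) := by
  simp only [Loc.dens, dens0, loc_Om, loc_En]

theorem gc_Fp (z : E) (q r i j : Fin 4) : Fp (f.R z) q r i j =
    ext1 (f.al q r) z (f.e i z) (f.e j z) + (pi4 true (f.Gm i z) * pi4 true (f.Gm j z)
      - pi4 true (f.Gm j z) * pi4 true (f.Gm i z)) q r := by
  let L : M4 →ₗ[ℝ] ℝ := (Matrix.entryLinearMap ℝ ℝ q r).comp (piL true)
  have hL : ∀ G, L G = pi4 true G q r := fun _ => rfl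
  have ha : ∀ k y, f.al q r y (f.e k y) = L (f.Gm k y) := fun k y => f.f1_e _ y k
  rw [f.ext1_γ ((f.al_sm q r).differentiable (by simp) z), ← gc_pi4_lie true (f.Gm_skew i z)
    (f.Gm_skew j z), ← hL]
  simp only [ha, f.gc_d_lin]
  change L _ = _
  simp only [R, map_sub, map_add, map_sum, map_smul, smul_eq_mul]
  ring

theorem Fp_eq (z : E) : Fp (f.R z) 2 3 = f.c2 (cv (f.al 2 3) (f.al 3 1) (f.al 1 2) z) z ∧
    Fp (f.R z) 3 1 = f.c2 (cv (f.al 3 1) (f.al 1 2) (f.al 2 3) z) z ∧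
    Fp (f.R z) 1 2 = f.c2 (cv (f.al 1 2) (f.al 2 3) (f.al 3 1) z) z := by
  have ha : ∀ q r k, f.al q r z (f.e k z) = pi4 true (f.Gm k z) q r := fun q r k => f.f1_e _ z k
  refine ⟨?_, ?_, ?_⟩ <;>
  · ext i j
    rw [gc_Fp]
    simp only [c2, cv, of_apply, _root_.sub_apply, w11_apply, ha, smul_eq_mul, Matrix.sub_apply,
      mul_apply, Fin.sum_univ_four, pi4_eq true (f.Gm_skew i z), pi4_eq true (f.Gm_skew j z)]
    simp
    ring

end Fr

end Pool.Agent.Lib.MP_1c0d65_gt.Nz
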