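import Pool.Agent.Lib.MP_1c0d65_gt.Nz.Sys
import Pool.Agent.Lib.MP_1c0d65_gt.PW.Stokes
import Pool.Agent.Lib.MP_1c0d65_gt.PW.PlotH
import Pool.Agent.Lib.MP_1c0d65_gt.PW.PlotA
import Pool.Agent.Lib.MP_1c0d65_gt.PW.PlotD

/-! The two Dirac systems `d* + d^±` of an almost Kaehler four-manifold: definitions. -/

set_option autoImplicit false

open scoped Manifold ContDiff Topology
open Set MeasureTheory Function Matrix

noncomputable section

namespace Pool.Agent.Lib.MP_1c0d65_gt.Nz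

open Pool.Agent.Lib.MP_1c0d65_gt.PW

abbrev M4 : Type := Matrix (Fin 4) (Fin 4) ℝ

/-- One-forms (`inl`) plus functions and (anti-)self-dual forms (`inr`). -/
abbrev I8 : Type := Fin 4 ⊕ Fin 4

abbrev W8 : Type := EuclideanSpace ℝ I8

/-- The sign: `true` is self-dual. -/
def sn (s : Bool) : ℝ := if s then 1 else -1

/-- The unit matrix and a basis of the (anti-)self-dual forms. -/
def sg (s : Bool) : Fin 4 → M4 :=
  ![!![1, 0, 0, 0; 0, 1, 0, 0; 0, 0, 1, 0; 0, 0, 0, 1],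
    !![0, 1, 0, 0; -1, 0, 0, 0; 0, 0, 0, sn s; 0, 0, -sn s, 0],
    !![0, 0, 1, 0; 0, 0, 0, -sn s; -1, 0, 0, 0; 0, sn s, 0, 0],
    !![0, 0, 0, 1; 0, 0, sn s, 0; 0, -sn s, 0, 0; -1, 0, 0, 0]]

/-- The component of a matrix along `sg s q`. -/
def cq (s : Bool) (q : Fin 4) (B : M4) : ℝ := (1 / 4 : ℝ) * ∑ i, ∑ j, sg s q i j * B i j

/-- The matrix with the components `w`. -/
def sw (s : Bool) (w : Fin 4 → ℝ) : M4 := ∑ p, w p • sg s p

/-- The symbol. -/
def cm (s : Bool) (i : Fin 4) : M4 := of fun p j => sg s p i j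

/-- The action of the Lie algebra on the components. -/
def pi4 (s : Bool) (G : M4) : M4 := of fun q p => cq s q (G * sg s p - sg s p * G)

/-- The action of the group on the components. -/
def rho (s : Bool) (H : M4) : M4 := of fun q p => cq s q (H * sg s p * Hᵀ)

/-- The derivative of `rho` at `H` in the direction `K`. -/
def drho (s : Bool) (H K : M4) : M4 := of fun q p => cq s q (K * sg s p * Hᵀ + H * sg s p * Kᵀ)

/-- Matrices as operators. -/
def T8 : Matrix I8 I8 ℝ ≃⋆ₐ[ℝ] (W8 →L[ℝ] W8) := toEuclideanCLM (𝕜 := ℝ) (n := I8)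

def lie (s : Bool) (G : M4) : W8 →L[ℝ] W8 := T8 (fromBlocks G 0 0 (pi4 s G))

def grp (s : Bool) (H : M4) : W8 →L[ℝ] W8 := T8 (fromBlocks H 0 0 (rho s H))

def dgrp (s : Bool) (H K : M4) : W8 →L[ℝ] W8 := T8 (fromBlocks K 0 0 (drho s H K))

/-- Unitary matrices. -/
def Un (H : M4) : Prop := Hᵀ * H = 1 ∧ H * sg true 1 = sg true 1 * H

/-- The wedge product of two forms given by matrices. -/
def wg (B B' : M4) : ℝ := B 0 1 * B' 2 3 - B 0 2 * B' 1 3 + B 0 3 * B' 1 2 + B 1 2 * B' 0 3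
  - B 1 3 * B' 0 2 + B 2 3 * B' 0 1

/-- The bilinear form of a matrix. -/
def bil (B : M4) : Bil E ℝ := ∑ i, ∑ j, B i j • (co i).smulRight (co j)

/-- The vector with the parts `a` and `w`. -/
def v8 (a w : Fin 4 → ℝ) : W8 := WithLp.toLp 2 (Sum.elim a w)

theorem T8_apply (A : Matrix I8 I8 ℝ) (x : W8) (k : I8) : T8 A x k = ∑ l, A k l * x l := rfl

theorem T8_star (A : Matrix I8 I8 ℝ) : star (T8 A) = T8 Aᵀ := by
  rw [← map_star]; rfl

/-- The integer table of `sg`; numerical identities are decided on it. -/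
def sz (s : Bool) : Fin 4 → Fin 4 → Fin 4 → ℤ :=
  let t : ℤ := if s then 1 else -1
  ![![![1, 0, 0, 0], ![0, 1, 0, 0], ![0, 0, 1, 0], ![0, 0, 0, 1]],
    ![![0, 1, 0, 0], ![-1, 0, 0, 0], ![0, 0, 0, t], ![0, 0, -t, 0]],
    ![![0, 0, 1, 0], ![0, 0, 0, -t], ![-1, 0, 0, 0], ![0, t, 0, 0]],
    ![![0, 0, 0, 1], ![0, 0, t, 0], ![0, -t, 0, 0], ![-1, 0, 0, 0]]]

theorem sg_cast (s : Bool) (p i j : Fin 4) : sg s p i j = sz s p i j := by
  cases s <;> fin_cases p <;> fin_cases i <;> fin_cases j <;> simp [sg, sz, sn]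

theorem sz_cl : ∀ (s : Bool) (i j a b : Fin 4),
    ∑ p, (sz s p i a * sz s p j b + sz s p j a * sz s p i b) = (if i = j ∧ a = b then 2 else 0) ∧
    ∑ p, (sz s a i p * sz s b j p + sz s a j p * sz s b i p) = if i = j ∧ a = b then 2 else 0 := by
  decide +kernel

theorem cm_cl (s : Bool) (i j : Fin 4) :
    (cm s i)ᵀ * cm s j + (cm s j)ᵀ * cm s i = (if i = j then 2 else 0 : ℝ) • (1 : M4) ∧
    cm s i * (cm s j)ᵀ + cm s j * (cm s i)ᵀ = (if i = j then 2 else 0 : ℝ) • (1 : M4) := by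
  constructor <;> ext a b
  · have h := congrArg (Int.cast : ℤ → ℝ) (sz_cl s i j a b).1
    simp only [cm, mul_apply, Matrix.add_apply, transpose_apply, of_apply, sg_cast,
      Matrix.smul_apply, one_apply, ← Finset.sum_add_distrib]
    push_cast at h
    rw [h]; by_cases h1 : i = j <;> by_cases h2 : a = b <;> simp [h1, h2]
  · have h := congrArg (Int.cast : ℤ → ℝ) (sz_cl s i j a b).2
    simp only [cm, mul_apply, Matrix.add_apply, transpose_apply, of_apply, sg_cast,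
      Matrix.smul_apply, one_apply, ← Finset.sum_add_distrib]
    push_cast at h
    rw [h]; by_cases h1 : i = j <;> by_cases h2 : a = b <;> simp [h1, h2]

/-- The Clifford module. -/
def cl (s : Bool) : Cl W8 where
  ε := T8 (fromBlocks (-1) 0 0 1)
  c i := T8 (fromBlocks 0 (-(cm s i)ᵀ) (cm s i) 0)
  ε_star := by rw [T8_star, fromBlocks_transpose]; simp
  ε_sq := by rw [← map_mul, fromBlocks_multiply]; simp
  c_star i := by rw [T8_star, fromBlocks_transpose, ← map_neg, fromBlocks_neg]; simp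
  c_sq i := by
    have h1 : (cm s i)ᵀ * cm s i = 1 := by
      have h := (cm_cl s i i).1
      rw [if_pos rfl, ← two_smul ℝ] at h
      exact smul_right_injective _ two_ne_zero h
    rw [← map_mul, fromBlocks_multiply, ← map_one T8, ← map_neg, ← fromBlocks_one, fromBlocks_neg]
    simp [h1, mul_eq_one_comm.1 h1]
  c_anti i j hij := by
    have h := cm_cl s i j
    rw [if_neg hij, zero_smul] at h
    rw [← map_mul, ← map_mul, fromBlocks_multiply, fromBlocks_multiply, ← map_neg, fromBlocks_neg]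
    simp [eq_neg_of_add_eq_zero_left h.1, eq_neg_of_add_eq_zero_left h.2]
  odd i := by
    rw [← map_mul, ← map_mul, fromBlocks_multiply, fromBlocks_multiply, ← map_neg, fromBlocks_neg]
    simp

/-- The Weitzenboeck term of an algebraic curvature tensor. -/
def En0 (s : Bool) (R : Fin 4 → Fin 4 → M4) : W8 →L[ℝ] W8 :=
  -((1 / 2 : ℝ) • ∑ i, ∑ j, (cl s).c i * (cl s).c j * lie s (R i j))

/-- The index density of an algebraic curvature tensor. -/
def dens0 (s : Bool) (R : Fin 4 → Fin 4 → M4) : ℝ := (cl s).str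
  ((1 / 2 : ℝ) • (En0 s R * En0 s R) + (1 / 12 : ℝ) • ∑ i, ∑ j, lie s (R i j) * lie s (R i j))

/-- The symmetries of a curvature tensor. -/
structure Curv (R : Fin 4 → Fin 4 → M4) : Prop where
  skew : ∀ i j k l, R i j k l = -R i j l k
  anti : ∀ i j k l, R i j k l = -R j i k l
  bia : ∀ i j k l, R i j l k + R j k l i + R k i l j = 0

/-- A component of the curvature of the bundle of self-dual forms. -/
def Fp (R : Fin 4 → Fin 4 → M4) (q r : Fin 4) : M4 := of fun i j => pi4 true (R i j) q r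

namespace Fr

variable (f : Fr)

/-- The Levi-Civita connection. -/
def Γ (i k j : Fin 4) (z : E) : ℝ := (1 / 2 : ℝ) * (f.γ i j k z - f.γ i k j z - f.γ j k i z)

def Gm (i : Fin 4) (z : E) : M4 := of fun k j => f.Γ i k j z

/-- The entrywise derivative of a matrix function. -/
def dm (i : Fin 4) (B : E → M4) (z : E) : M4 := of fun k l => f.d i (fun y => B y k l) z

/-- The Riemann tensor. -/
def R (z : E) (i j : Fin 4) : M4 := f.dm i (f.Gm j) z - f.dm j (f.Gm i) z
  + (f.Gm i z * f.Gm j z - f.Gm j z * f.Gm i z) - ∑ k, f.γ i j k z • f.Gm k z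

/-- The coframe. -/
def th (i : Fin 4) (z : E) : E →L[ℝ] ℝ := (co i).comp (f.θ z)

/-- The one-form with given components. -/
def f1 (u : E → Fin 4 → ℝ) (z : E) : E →L[ℝ] ℝ := ∑ i, u z i • f.th i z

/-- The two-form with given components. -/
def f2 (B : E → M4) (z : E) : Bil E ℝ := (bil (B z)).bilinearComp (f.θ z) (f.θ z)

/-- The components of a two-form. -/
def c2 (β : Bil E ℝ) (z : E) : M4 := of fun i j => β (f.e i z) (f.e j z)

/-- The covariant derivative of a one-form. -/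
def n1 (i : Fin 4) (u : E → Fin 4 → ℝ) (z : E) : Fin 4 → ℝ :=
  (fun j => f.d i (fun y => u y j) z) + f.Gm i z *ᵥ u z

/-- The covariant derivative of a two-form. -/
def n2 (i : Fin 4) (B : E → M4) (z : E) : M4 := f.dm i B z + (f.Gm i z * B z - B z * f.Gm i z)

/-- The covariant derivative of a function plus an (anti-)self-dual form. -/
def nw (s : Bool) (i : Fin 4) (w : E → Fin 4 → ℝ) (z : E) : Fin 4 → ℝ :=
  (fun p => f.d i (fun y => w y p) z) + pi4 s (f.Gm i z) *ᵥ w z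

/-- A connection form of the bundle of self-dual forms: `al 2 3`, `al 3 1`, `al 1 2`. -/
def al (q r : Fin 4) : E → E →L[ℝ] ℝ := f.f1 fun z i => pi4 true (f.Gm i z) q r

end Fr

/-- The curvature form `d a - b ∧ c`. -/
def cv (a b c : E → E →L[ℝ] ℝ) (z : E) : Bil E ℝ := ext1 a z - w11 (b z) (c z)

/-- The transgression form `a₂ ∧ F₂ + a₃ ∧ F₃`, wedged with `ξ`. -/
def tau (a₁ a₂ a₃ : E → E →L[ℝ] ℝ) (z : E) (ξ : E →L[ℝ] ℝ) : ℝ :=
  wedge (w11 ξ (a₂ z)) (cv a₂ a₃ a₁ z) + wedge (w11 ξ (a₃ z)) (cv a₃ a₁ a₂ z)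

/-- The derivative of the transgression form. -/
def dtau (a₁ a₂ a₃ : E → E →L[ℝ] ℝ) (z : E) : ℝ :=
  wedge (cv a₁ a₂ a₃ z) (cv a₁ a₂ a₃ z) + wedge (cv a₂ a₃ a₁ z) (cv a₂ a₃ a₁ z)
    + wedge (cv a₃ a₁ a₂ z) (cv a₃ a₁ a₂ z) - wedge (ext1 a₁ z) (ext1 a₁ z)

variable {X : Type} [TopologicalSpace X] [ChartedSpace E X] [MeasurableSpace X]

/-- An atlas of charts onto `E` with unitary frames and a partition of unity. -/
structure UA (c : Ctx X) where
  n : ℕ
  ch : Fin n → OpenPartialHomeomorph X E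
  hch : ∀ a, IsChart (ch a)
  tgt : ∀ a, (ch a).target = univ
  f : Fin n → Fr
  hom : ∀ a z, pull2 (ch a).symm c.om z = (f a).f2 (fun _ => sg true 1) z
  hJ : ∀ a z v, pullJ (ch a).symm c.J0 z ((f a).M z v) = (f a).M z (Complex.I • v)
  ρ : Fin n → X → ℝ
  hρ : ∀ a, ContMDiff 𝓘(ℝ, E) 𝓘(ℝ, ℝ) ∞ (ρ a)
  sρ : ∀ a, tsupport (ρ a) ⊆ (ch a).source
  ρ0 : ∀ a x, 0 ≤ ρ a x
  sum : ∀ x, ∑ a, ρ a x = 1

namespace UA

variable {c : Ctx X} (U : UA c)

/-- The parametrisations. -/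
def ψ (a : Fin U.n) : E → X := (U.ch a).symm

/-- The frame as a map to the tangent space. -/
def Φ (a : Fin U.n) (z : E) : E →L[ℝ] E := (dif (U.ψ a) z).comp ((U.f a).M z)

/-- The coframe on the tangent space. -/
def Ψ (a : Fin U.n) (x : X) : E →L[ℝ] E := ((U.f a).θ (U.ch a x)).comp (dfn (U.ch a) x)

/-- The transition matrix from the frame `a` to the frame `b`. -/
def hm (b a : Fin U.n) (x : X) : M4 := of fun i j => co i (U.Ψ b x (U.Φ a (U.ch a x) (bs j)))

/-- The change of coordinates. -/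
def τ (b a : Fin U.n) (z : E) : E := U.ch b (U.ψ a z)

theorem cover (x : X) : ∃ a, x ∈ (U.ch a).source := by
  by_contra h
  have h1 := U.sum x
  rw [Finset.sum_eq_zero fun a _ => image_eq_zero_of_notMem_tsupport fun k => h ⟨a, U.sρ a k⟩] at h1
  exact zero_ne_one h1

/-- A chart at each point. -/
def sel (x : X) : Fin U.n := (U.cover x).choose

/-- Gluing of functions, one-forms and two-forms from their components. -/
def gl0 {V : Type} (u : Fin U.n → E → V) (x : X) : V := u (U.sel x) (U.ch (U.sel x) x)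

def gl1 (u : Fin U.n → E → Fin 4 → ℝ) (x : X) : E →L[ℝ] ℝ :=
  ∑ i, U.gl0 u x i • (co i).comp (U.Ψ (U.sel x) x)

def gl2 (B : Fin U.n → E → M4) (x : X) : Bil E ℝ :=
  (bil (U.gl0 B x)).bilinearComp (U.Ψ (U.sel x) x) (U.Ψ (U.sel x) x)

/-- The integral of a family of local functions. -/
def I (q : Fin U.n → E → ℝ) : ℝ := ∑ a, ∫ z, U.ρ a (U.ψ a z) * q a z * (U.f a).m z

end UA

/-- The first de Rham cohomology vanishes. -/
def H1 (X : Type) [TopologicalSpace X] [ChartedSpace E X] : Prop :=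
  ∀ a : X → E →L[ℝ] ℝ, IsD univ a 0 →
    ∃ g : X → ℝ, ContMDiff 𝓘(ℝ, E) 𝓘(ℝ, ℝ) ∞ g ∧ ∀ x, dfn g x = a x

end Pool.Agent.Lib.MP_1c0d65_gt.Nz
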