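import Pool.Agent.Lib.MP_1c0d65_gt.Nz.GLoc

/-! The index densities of an algebraic curvature tensor. -/

set_option autoImplicit false

open Matrix

noncomputable section

namespace Pool.Agent.Lib.MP_1c0d65_gt.Nz

theorem ga_str (s : Bool) (A B C D : M4) :
    (cl s).str (T8 (fromBlocks A B C D)) = trace D - trace A := by
  have h : ∀ N : Matrix I8 I8 ℝ, LinearMap.trace ℝ W8 (T8 N : W8 →L[ℝ] W8) = trace N := fun N => by
    rw [LinearMap.trace_eq_matrix_trace ℝ (EuclideanSpace.basisFun I8 ℝ).toBasis]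
    congr 1
    ext i j
    simp [LinearMap.toMatrix_apply, T8_apply]
  simp only [Cl.str, cl, ← map_mul, fromBlocks_multiply, h]
  simp [trace, sub_eq_neg_add]

theorem ga_sum {ι : Type} [Fintype ι] (A D : ι → M4) :
    ∑ i, fromBlocks (A i) 0 0 (D i) = fromBlocks (∑ i, A i) (0 : M4) (0 : M4) (∑ i, D i) := by
  ext (a | a) (b | b) <;> simp [Matrix.sum_apply]

/-- The Weitzenboeck term on one-forms. -/
def gaP (s : Bool) (R : Fin 4 → Fin 4 → M4) : M4 :=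
  (1 / 2 : ℝ) • ∑ i, ∑ j, (cm s i)ᵀ * cm s j * R i j

/-- The Weitzenboeck term on functions and two-forms. -/
def gaQ (s : Bool) (R : Fin 4 → Fin 4 → M4) : M4 :=
  (1 / 2 : ℝ) • ∑ i, ∑ j, cm s i * (cm s j)ᵀ * pi4 s (R i j)

theorem ga_En (s : Bool) (R : Fin 4 → Fin 4 → M4) :
    En0 s R = T8 (fromBlocks (gaP s R) 0 0 (gaQ s R)) := by
  simp only [En0, cl, lie, ← map_mul, fromBlocks_multiply, ← map_sum, ← map_smul, ← map_neg]
  simp only [Matrix.mul_zero, Matrix.zero_mul, add_zero, zero_add, ga_sum, fromBlocks_smul,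
    fromBlocks_neg, smul_zero, neg_zero, Matrix.neg_mul, Matrix.mul_neg, Finset.sum_neg_distrib,
    smul_neg, neg_neg, gaP, gaQ]

theorem ga_dens (s : Bool) (R : Fin 4 → Fin 4 → M4) : dens0 s R =
    (1 / 2 : ℝ) * (trace (gaQ s R * gaQ s R) - trace (gaP s R * gaP s R)) + (1 / 12 : ℝ) *
      ∑ i, ∑ j, (trace (pi4 s (R i j) * pi4 s (R i j)) - trace (R i j * R i j)) := by
  simp only [dens0, ga_En, lie, ← map_mul, fromBlocks_multiply, ← map_sum, ← map_smul, ← map_add]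
  simp only [Matrix.mul_zero, Matrix.zero_mul, add_zero, zero_add, ga_sum, fromBlocks_smul,
    fromBlocks_add, ga_str, trace_add, trace_smul, trace_sum, smul_eq_mul, Finset.sum_sub_distrib]
  ring

variable {R : Fin 4 → Fin 4 → M4}

theorem Curv.gaPair (h : Curv R) (i j k l : Fin 4) : R i j k l = R k l i j := by
  have b1 := h.bia i j k l
  have b2 := h.bia j k l i
  have b3 := h.bia k l i j
  have b4 := h.bia l i j k
  linarith [h.skew i j k l, h.skew k l i j, h.skew j k l i, h.skew l i j k, h.anti k i l j,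
    h.skew i k l j, h.anti l j i k, h.skew j l i k, h.skew k i j l, h.skew l j k i,
    h.skew i k j l, h.skew j l k i, h.anti k i j l, h.anti l j k i]

theorem Curv.gaT (h : Curv R) (i j : Fin 4) : (R i j)ᵀ = -R i j := by
  ext k l; exact h.skew i j l k

/-- A normal form for the components. -/
theorem Curv.gaRules (h : Curv R) : (∀ i k l, R i i k l = 0) ∧ (∀ i j k, R i j k k = 0) ∧
    R 0 3 1 2 = R 0 2 1 3 - R 0 1 2 3 ∧
    (∀ k l, R 1 0 k l = -R 0 1 k l) ∧ (∀ k l, R 2 0 k l = -R 0 2 k l) ∧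
    (∀ k l, R 3 0 k l = -R 0 3 k l) ∧ (∀ k l, R 2 1 k l = -R 1 2 k l) ∧
    (∀ k l, R 3 1 k l = -R 1 3 k l) ∧ (∀ k l, R 3 2 k l = -R 2 3 k l) ∧
    (∀ i j, R i j 1 0 = -R i j 0 1) ∧ (∀ i j, R i j 2 0 = -R i j 0 2) ∧
    (∀ i j, R i j 3 0 = -R i j 0 3) ∧ (∀ i j, R i j 2 1 = -R i j 1 2) ∧
    (∀ i j, R i j 3 1 = -R i j 1 3) ∧ (∀ i j, R i j 3 2 = -R i j 2 3) ∧ R 0 2 0 1 = R 0 1 0 2 ∧
    R 0 3 0 1 = R 0 1 0 3 ∧ R 0 3 0 2 = R 0 2 0 3 ∧ R 1 2 0 1 = R 0 1 1 2 ∧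
    R 1 2 0 2 = R 0 2 1 2 ∧ R 1 2 0 3 = R 0 3 1 2 ∧ R 1 3 0 1 = R 0 1 1 3 ∧
    R 1 3 0 2 = R 0 2 1 3 ∧ R 1 3 0 3 = R 0 3 1 3 ∧ R 1 3 1 2 = R 1 2 1 3 ∧
    R 2 3 0 1 = R 0 1 2 3 ∧ R 2 3 0 2 = R 0 2 2 3 ∧ R 2 3 0 3 = R 0 3 2 3 ∧
    R 2 3 1 2 = R 1 2 2 3 ∧ R 2 3 1 3 = R 1 3 2 3 :=
  ⟨fun i k l => by linarith [h.anti i i k l], fun i j k => by linarith [h.skew i j k k], by
    linarith [h.bia 1 2 3 0, h.gaPair 1 2 0 3, h.gaPair 2 3 0 1, h.gaPair 3 1 0 2, h.skew 0 2 3 1],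
    h.anti 1 0, h.anti 2 0, h.anti 3 0, h.anti 2 1, h.anti 3 1, h.anti 3 2,
    fun i j => h.skew i j 1 0, fun i j => h.skew i j 2 0, fun i j => h.skew i j 3 0,
    fun i j => h.skew i j 2 1, fun i j => h.skew i j 3 1, fun i j => h.skew i j 3 2, h.gaPair ..,
    h.gaPair .., h.gaPair .., h.gaPair .., h.gaPair .., h.gaPair .., h.gaPair .., h.gaPair .., h.gaPair ..,
    h.gaPair .., h.gaPair .., h.gaPair .., h.gaPair .., h.gaPair .., h.gaPair ..⟩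

theorem Curv.gaP (h : Curv R) (s : Bool) : gaP s R =
    !![-R 0 1 0 1 - R 0 2 0 2 - R 0 3 0 3, -R 0 2 1 2 - R 0 3 1 3, R 0 1 1 2 - R 0 3 2 3,
        R 0 1 1 3 + R 0 2 2 3;
      -R 0 2 1 2 - R 0 3 1 3, -R 0 1 0 1 - R 1 2 1 2 - R 1 3 1 3, -R 0 1 0 2 - R 1 3 2 3,
        -R 0 1 0 3 + R 1 2 2 3;
      R 0 1 1 2 - R 0 3 2 3, -R 0 1 0 2 - R 1 3 2 3, -R 0 2 0 2 - R 1 2 1 2 - R 2 3 2 3,
        -R 0 2 0 3 - R 1 2 1 3;
      R 0 1 1 3 + R 0 2 2 3, -R 0 1 0 3 + R 1 2 2 3, -R 0 2 0 3 - R 1 2 1 3,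
        -R 0 3 0 3 - R 1 3 1 3 - R 2 3 2 3] := by
  have r := h.gaRules
  ext a b
  simp only [Nz.gaP, Matrix.smul_apply, Matrix.add_apply, mul_apply, cm, transpose_apply,
    of_apply, Fin.sum_univ_four, smul_eq_mul]
  cases s <;> fin_cases a <;> fin_cases b <;> simp [sg, sn, r] <;> ring

theorem Curv.gaQ (h : Curv R) (s : Bool) : gaQ s R =
    !![0, 0, 0, 0;
      0, 2 * sn s * R 0 1 2 3 - R 0 2 0 2 - R 0 3 0 3 - R 1 2 1 2 - R 1 3 1 3,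
        R 0 1 0 2 - sn s * R 0 1 1 3 + sn s * R 0 2 2 3 - R 1 3 2 3,
        R 0 1 0 3 + sn s * R 0 1 1 2 + sn s * R 0 3 2 3 + R 1 2 2 3;
      0, R 0 1 0 2 - sn s * R 0 1 1 3 + sn s * R 0 2 2 3 - R 1 3 2 3,
        -R 0 1 0 1 - 2 * sn s * R 0 2 1 3 - R 0 3 0 3 - R 1 2 1 2 - R 2 3 2 3,
        R 0 2 0 3 + sn s * R 0 2 1 2 - sn s * R 0 3 1 3 - R 1 2 1 3;
      0, R 0 1 0 3 + sn s * R 0 1 1 2 + sn s * R 0 3 2 3 + R 1 2 2 3,
        R 0 2 0 3 + sn s * R 0 2 1 2 - sn s * R 0 3 1 3 - R 1 2 1 3,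
        -R 0 1 0 1 - 2 * sn s * R 0 1 2 3 - R 0 2 0 2 + 2 * sn s * R 0 2 1 3 - R 1 3 1 3
          - R 2 3 2 3] := by
  have r := h.gaRules
  ext a b
  simp only [Nz.gaQ, pi4_eq s (h.gaT _ _), Matrix.smul_apply, Matrix.add_apply, mul_apply, cm,
    transpose_apply, of_apply, Fin.sum_univ_four, smul_eq_mul]
  cases s <;> fin_cases a <;> fin_cases b <;> simp [sg, sn, r] <;> ring

theorem Curv.strE {R : Fin 4 → Fin 4 → M4} (h : Curv R) (s : Bool) : (cl s).str (En0 s R) = 0 := by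
  rw [ga_En, ga_str, h.gaP, h.gaQ]
  simp [trace, Fin.sum_univ_four]
  ring

theorem Curv.dens {R : Fin 4 → Fin 4 → M4} (h : Curv R) : 5 * dens0 true R - dens0 false R =
    4 * (wg (Fp R 2 3) (Fp R 2 3) + wg (Fp R 3 1) (Fp R 3 1) + wg (Fp R 1 2) (Fp R 1 2)) := by
  have r := h.gaRules
  simp only [ga_dens, h.gaP, h.gaQ, wg, Fp, of_apply, pi4_eq _ (h.gaT _ _), trace, diag, mul_apply,
    Fin.sum_univ_four]
  simp [sn, r]
  ring

end Pool.Agent.Lib.MP_1c0d65_gt.Nz
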