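import Pool.Agent.Lib.MP_1c0d65_gt.Nz.Cls

/-! Charts, volume and sections of a Dirac system. -/

set_option autoImplicit false
set_option linter.unusedSectionVars false

open scoped ContDiff Topology
open Set MeasureTheory Function Filter

noncomputable section

namespace Pool.Agent.Lib.MP_1c0d65_gt.Nz

open Pool.Agent.Lib.MP_1c0d65_gt.PW

theorem Fr.sec_m_cont (f : Fr) : Continuous f.m :=
  (ContinuousLinearMap.continuous_det.comp f.hθ.continuous).abs

theorem Fr.sec_m_pos (f : Fr) (z : E) : 0 < f.m z := by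
  refine abs_pos.2 fun h => ?_
  have h1 : (f.θ z : E →ₗ[ℝ] E) * (f.M z : E →ₗ[ℝ] E) = 1 := LinearMap.ext fun v => f.θM z v
  have h2 := congrArg LinearMap.det h1
  rw [map_mul, map_one] at h2
  have h3 : LinearMap.det (f.θ z : E →ₗ[ℝ] E) = 0 := h
  rw [h3, zero_mul] at h2
  exact zero_ne_one h2

variable {W : Type} [NormedAddCommGroup W] [InnerProductSpace ℝ W] [FiniteDimensional ℝ W]
  [CompleteSpace W] {C : Cl W}

theorem sec_norm {g : W →L[ℝ] W} (h : star g * g = 1) (w : W) : ‖g w‖ = ‖w‖ := by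
  have h1 : inner ℝ (g w) (g w) = inner ℝ w w := by
    rw [← ContinuousLinearMap.adjoint_inner_left, ← ContinuousLinearMap.star_eq_adjoint,
      ← mul_apply_eq_comp, h, one_apply_eq_self]
  rw [real_inner_self_eq_norm_sq, real_inner_self_eq_norm_sq] at h1
  exact (sq_eq_sq₀ (norm_nonneg _) (norm_nonneg _)).1 h1

theorem sec_star_sm : ContDiff ℝ ∞ fun g : W →L[ℝ] W => star g :=
  (starL' ℝ : (W →L[ℝ] W) ≃L[ℝ] (W →L[ℝ] W)).contDiff

variable {X : Type} [TopologicalSpace X] [T2Space X] [CompactSpace X] [MeasurableSpace X]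
  [BorelSpace X] {μ : Measure X}


theorem Atl.sec_ext {V : Type} (T : Atl X μ C) (a : Fin T.n) (u : E → V) (e : X → V) (z : E) :
    extend (T.ψ a) u e (T.ψ a z) = u z := (T.emb a).injective.extend_apply u e z

theorem Atl.sec_off {V : Type} [Zero V] (T : Atl X μ C) (a : Fin T.n) (u : E → V) {x : X}
    (hx : x ∉ range (T.ψ a)) : extend (T.ψ a) u 0 x = 0 := extend_apply' u (0 : X → V) x hx

theorem Atl.cover (T : Atl X μ C) (x : X) : ∃ a z, T.ψ a z = x ∧ T.ρ a z ≠ 0 := by
  by_contra h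
  push Not at h
  have h1 := T.sum x
  rw [Finset.sum_eq_zero] at h1
  · exact zero_ne_one h1
  · intro a _
    by_cases hx : x ∈ range (T.ψ a)
    · obtain ⟨z, rfl⟩ := hx
      rw [T.sec_ext]; exact h a z rfl
    · exact T.sec_off a _ hx

theorem Atl.second (T : Atl X μ C) : SecondCountableTopology X := by
  have : ∀ a, SecondCountableTopology (range (T.ψ a)) := fun a =>
    (T.emb a).isEmbedding.toHomeomorph.symm.secondCountableTopology
  refine TopologicalSpace.secondCountableTopology_of_countable_cover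
    (U := fun a => range (T.ψ a)) (fun a => (T.emb a).isOpen_range) ?_
  refine eq_univ_of_forall fun x => ?_
  obtain ⟨a, z, h, -⟩ := T.cover x
  exact mem_iUnion.2 ⟨a, z, h⟩

theorem Atl.fin (T : Atl X μ C) : IsFiniteMeasure μ := by
  have h1 : (univ : Set X) ⊆ ⋃ a, T.ψ a '' tsupport (T.ρ a) := fun x _ => by
    obtain ⟨a, z, h, hz⟩ := T.cover x
    exact mem_iUnion.2 ⟨a, z, subset_tsupport _ hz, h⟩
  refine ⟨(measure_mono h1).trans_lt ((measure_iUnion_fintype_le _ _).trans_lt ?_)⟩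
  refine ENNReal.sum_lt_top.2 fun a _ => ?_
  rw [T.vol a _ (isClosed_tsupport _).measurableSet]
  have hc : Continuous fun z => T.κ * (T.L a).m z :=
    continuous_const.mul (T.L a).toFr.sec_m_cont
  exact (hc.continuousOn.integrableOn_compact (T.cρ a)).lintegral_lt_top

theorem Atl.sec_me (T : Atl X μ C) (a : Fin T.n) : MeasurableEmbedding (T.ψ a) :=
  (T.emb a).measurableEmbedding

theorem Atl.sec_comap (T : Atl X μ C) (a : Fin T.n) : μ.comap (T.ψ a) =
    volume.withDensity fun z => ENNReal.ofReal (T.κ * (T.L a).m z) := by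
  ext S hS
  rw [(T.sec_me a).comap_apply, T.vol a S hS, withDensity_apply _ hS]

theorem Atl.integral_ext {V : Type} [NormedAddCommGroup V] [NormedSpace ℝ V] (T : Atl X μ C)
    (a : Fin T.n) (u : E → V) :
    ∫ x, extend (T.ψ a) u 0 x ∂μ = ∫ z, (T.κ * (T.L a).m z) • u z := by
  have hc : Continuous fun z => T.κ * (T.L a).m z :=
    continuous_const.mul (T.L a).toFr.sec_m_cont
  rw [← setIntegral_eq_integral_of_forall_compl_eq_zero (s := range (T.ψ a))
    (fun x hx => T.sec_off a u hx), ← (T.sec_me a).map_comap, (T.sec_me a).integral_map,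
    T.sec_comap]
  simp only [T.sec_ext]
  have h := integral_withDensity_eq_integral_smul (μ := (volume : Measure E))
    (f := fun z => (T.κ * (T.L a).m z).toNNReal) hc.measurable.real_toNNReal u
  refine h.trans (integral_congr_ae (ae_of_all _ fun z => ?_))
  simp only [NNReal.smul_def]
  rw [Real.coe_toNNReal _ (mul_pos T.hκ ((T.L a).toFr.sec_m_pos z)).le]

theorem Atl.ae_chart (T : Atl X μ C) (a : Fin T.n) {p : X → Prop} (h : ∀ᵐ x ∂μ, p x) :
    ∀ᵐ z, p (T.ψ a z) := by
  have hc : Continuous fun z => T.κ * (T.L a).m z :=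
    continuous_const.mul (T.L a).toFr.sec_m_cont
  have h1 : ∀ᵐ z ∂(μ.comap (T.ψ a)), p (T.ψ a z) := by
    rw [← (T.sec_me a).ae_map_iff, (T.sec_me a).map_comap]
    exact ae_restrict_of_ae h
  rw [T.sec_comap, ae_withDensity_iff hc.measurable.ennreal_ofReal] at h1
  filter_upwards [h1] with z hz
  exact hz (ENNReal.ofReal_pos.2 (mul_pos T.hκ ((T.L a).toFr.sec_m_pos z))).ne'

theorem Sy.sec_g1 (S : Sy X μ C) (a : Fin S.n) (x : X) (w : W) :
    star (S.g a x) (S.g a x w) = w := by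
  rw [← mul_apply_eq_comp, S.g1, one_apply_eq_self]

theorem Sy.sec_g2 (S : Sy X μ C) (a : Fin S.n) (x : X) (w : W) :
    S.g a x (star (S.g a x) w) = w := by
  rw [← mul_apply_eq_comp, S.g2, one_apply_eq_self]

theorem Sy.sec_up (S : Sy X μ C) (a : Fin S.n) (u : E → W) (z : E) :
    S.up a u (S.ψ a z) = star (S.g a (S.ψ a z)) (u z) := by
  rw [Sy.up, S.toAtl.sec_ext]

theorem Sy.sec_up_off (S : Sy X μ C) (a : Fin S.n) (u : E → W) {x : X}
    (hx : x ∉ range (S.ψ a)) : S.up a u x = 0 := by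
  rw [Sy.up, S.toAtl.sec_off a u hx, map_zero]

theorem Sy.up_sm (S : Sy X μ C) {l : WithTop ℕ∞} (hl : l ≤ ∞) (a : Fin S.n) {u : E → W}
    (hu : ContDiff ℝ l u) (hc : HasCompactSupport u) : S.Sm l (S.up a u) := by
  intro b
  refine contDiff_iff_contDiffAt.2 fun z => ?_
  have hb := (S.emb b).continuous
  by_cases hz : S.ψ b z ∈ range (S.ψ a)
  · have hU : S.ψ b ⁻¹' range (S.ψ a) ∈ 𝓝 z :=
      ((S.emb a).isOpen_range.preimage hb).mem_nhds hz
    have h1 := (sec_star_sm.contDiffAt.comp z ((S.g_sm b a).contDiffAt hU)).of_le hl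
    have h2 := hu.contDiffAt.comp z (((S.tr b a).contDiffAt hU).of_le hl)
    refine (h1.clm_apply h2).congr_of_eventuallyEq ?_
    filter_upwards [hU] with y hy
    obtain ⟨w, hw⟩ := hy
    have h3 : invFun (S.ψ a) (S.ψ b y) = w := by
      rw [← hw]; exact leftInverse_invFun (S.emb a).injective w
    simp only [Sy.loc, comp_apply, star_mul, star_star, h3, mul_apply_eq_comp]
    rw [← hw, S.sec_up]
  · have hK : IsClosed (S.ψ a '' tsupport u) :=
      (IsCompact.image hc (S.emb a).continuous).isClosed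
    have hU : S.ψ b ⁻¹' (S.ψ a '' tsupport u)ᶜ ∈ 𝓝 z :=
      (hK.isOpen_compl.preimage hb).mem_nhds fun h => hz (image_subset_range _ _ h)
    refine (contDiffAt_const (c := (0 : W))).congr_of_eventuallyEq ?_
    filter_upwards [hU] with y hy
    by_cases h : S.ψ b y ∈ range (S.ψ a)
    · obtain ⟨w, hw⟩ := h
      have h4 : u w = 0 := image_eq_zero_of_notMem_tsupport fun h => hy ⟨w, h, hw⟩
      rw [Sy.loc, ← hw, S.sec_up, h4, map_zero, map_zero]
    · rw [Sy.loc, S.sec_up_off a u h, map_zero]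

theorem Sy.loc_up (S : Sy X μ C) (a : Fin S.n) (u : E → W) : S.loc a (S.up a u) = u := by
  funext z
  rw [Sy.loc, S.sec_up, S.sec_g2]

theorem Sy.sum_up (S : Sy X μ C) (u : X → W) (x : X) :
    ∑ a, S.up a (fun z => S.ρ a z • S.loc a u z) x = u x := by
  have h : ∀ a, S.up a (fun z => S.ρ a z • S.loc a u z) x =
      extend (S.ψ a) (S.ρ a) 0 x • u x := fun a => by
    by_cases hx : x ∈ range (S.ψ a)
    · obtain ⟨z, rfl⟩ := hx
      rw [S.sec_up, S.toAtl.sec_ext, map_smul, Sy.loc, S.sec_g1]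
    · rw [S.sec_up_off a _ hx, S.toAtl.sec_off a _ hx, zero_smul]
  simp only [h]
  rw [← Finset.sum_smul, S.sum, one_smul]

theorem Sy.sec_up_meas (S : Sy X μ C) (a : Fin S.n) {u : E → W} (hu : StronglyMeasurable u) :
    StronglyMeasurable (S.up a u) := by
  have h1 : StronglyMeasurable fun x => star (S.g a x) :=
    continuous_star.comp_stronglyMeasurable (S.g_meas a)
  have h2 : StronglyMeasurable (extend (S.ψ a) u 0) :=
    (S.toAtl.sec_me a).stronglyMeasurable_extend hu stronglyMeasurable_zero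
  exact (continuous_fst.clm_apply continuous_snd).comp_stronglyMeasurable (h1.prodMk h2)

theorem Sy.Sm.meas {S : Sy X μ C} {u : X → W} (h : S.Sm 0 u) : StronglyMeasurable u := by
  have h1 : u = fun x => ∑ a, S.up a (fun z => S.ρ a z • S.loc a u z) x :=
    funext fun x => (S.sum_up u x).symm
  rw [h1]
  exact Finset.stronglyMeasurable_fun_sum _ fun a _ => S.sec_up_meas a
    ((S.hρ a).continuous.smul (h a).continuous).stronglyMeasurable

theorem Sy.Sm.bdd {S : Sy X μ C} {u : X → W} (h : S.Sm 0 u) : ∃ c : ℝ, ∀ x, ‖u x‖ ≤ c := by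
  choose c hc using fun a =>
    IsCompact.exists_bound_of_continuousOn (S.cρ a) (h a).continuous.continuousOn
  refine ⟨∑ a, |c a|, fun x => ?_⟩
  obtain ⟨a, z, rfl, hz⟩ := S.toAtl.cover x
  rw [← sec_norm (S.g1 a (S.ψ a z))]
  exact ((hc a z (subset_tsupport _ hz)).trans (le_abs_self _)).trans
    (Finset.single_le_sum (f := fun a => |c a|) (fun _ _ => abs_nonneg _) (Finset.mem_univ a))

theorem Sy.Sm.memLp {S : Sy X μ C} {u : X → W} (h : S.Sm 0 u) (p : ENNReal) : MemLp u p μ := by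
  have := S.toAtl.fin
  obtain ⟨c, hc⟩ := h.bdd
  exact MemLp.of_bound h.meas.aestronglyMeasurable c (ae_of_all _ hc)

theorem Sy.Sm.eq_of_ae {S : Sy X μ C} {u v : X → W} (hu : S.Sm 0 u) (hv : S.Sm 0 v)
    (h : u =ᵐ[μ] v) : u = v := by
  funext x
  obtain ⟨a, z, rfl, -⟩ := S.toAtl.cover x
  have h1 : S.loc a u =ᵐ[volume] S.loc a v := by
    filter_upwards [S.toAtl.ae_chart a h] with y hy
    rw [Sy.loc, Sy.loc, hy]
  have h2 := congrFun (((hu a).continuous.ae_eq_iff_eq volume (hv a).continuous).1 h1) z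
  rw [← S.sec_g1 a _ (u _), ← S.sec_g1 a _ (v _)]
  exact congrArg _ h2

end Pool.Agent.Lib.MP_1c0d65_gt.Nz
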