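import Pool.Agent.Lib.MP_1c0d65_gt.Nz.GLoc
import Pool.Agent.Lib.MP_1c0d65_gt.Nz.Sec

/-! Integration in an atlas with unitary frames. -/

set_option autoImplicit false
set_option linter.unusedSectionVars false

open scoped Manifold ContDiff Topology
open Set MeasureTheory Function Matrix

noncomputable section

namespace Pool.Agent.Lib.MP_1c0d65_gt.Nz

open Pool.Agent.Lib.MP_1c0d65_gt.PW

theorem Fr.gi_det (f : Fr) (z : E) : (f.θ z).det * (f.M z).det = 1 := by
  have h1 : (f.θ z : E →ₗ[ℝ] E) * (f.M z : E →ₗ[ℝ] E) = 1 := LinearMap.ext fun v => f.θM z v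
  have h2 := congrArg LinearMap.det h1
  rwa [map_mul, map_one] at h2

theorem Fr.gi_wedge (f : Fr) {α β : Bil E ℝ} (hα : ∀ v, α v v = 0) (hβ : ∀ v, β v v = 0) (z : E) :
    wedge α β = (f.θ z).det * wg (f.c2 α z) (f.c2 β z) := by
  have h : wg (f.c2 α z) (f.c2 β z) =
      wedge (α.bilinearComp (f.M z) (f.M z)) (β.bilinearComp (f.M z) (f.M z)) := rfl
  rw [h, PW.wedge_comp hα hβ, ← mul_assoc, f.gi_det, one_mul]

theorem Fr.gi_c2 (f : Fr) (B : E → M4) (z : E) : f.c2 (f.f2 B z) z = B z := by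
  ext i j
  simp [Fr.c2, Fr.f2, Fr.e, f.θM, bil, wz_co_bs]

variable {X : Type} [TopologicalSpace X] [ChartedSpace E X] [IsManifold 𝓘(ℝ, E) ∞ X]
  [T2Space X] [CompactSpace X] [MeasurableSpace X] [BorelSpace X] {c : Ctx X}

namespace UA

variable (U : UA c)

theorem gi_tgt (a : Fin U.n) (z : E) : z ∈ (U.ch a).target := U.tgt a ▸ mem_univ z

theorem gi_sm (a : Fin U.n) (z : E) : SmAt ∞ (U.ψ a) z := (U.hch a).smAt (U.gi_tgt a z)

theorem gi_mem (a : Fin U.n) (z : E) : U.ψ a z ∈ (U.ch a).source :=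
  (U.ch a).map_target (U.gi_tgt a z)

theorem gi_ψ {a : Fin U.n} {x : X} (h : x ∈ (U.ch a).source) : U.ψ a (U.ch a x) = x :=
  (U.ch a).left_inv h

theorem gi_ch (a : Fin U.n) (z : E) : U.ch a (U.ψ a z) = z := (U.ch a).right_inv (U.gi_tgt a z)

theorem gi_cont (a : Fin U.n) : Continuous (U.ψ a) :=
  continuous_iff_continuousAt.2 fun z => (U.gi_sm a z).continuousAt

theorem gi_ρ (a b : Fin U.n) : ContDiff ℝ ∞ (U.ρ a ∘ U.ψ b) :=
  contDiff_iff_contDiffAt.2 fun z => FnAt.comp_plot (U.hρ a _) (U.gi_sm b z)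

theorem gi_cρ (a : Fin U.n) : HasCompactSupport (U.ρ a ∘ U.ψ a) := by
  refine HasCompactSupport.intro ((isClosed_tsupport (U.ρ a)).isCompact.image_of_continuousOn
    ((U.ch a).continuousOn.mono (U.sρ a))) fun z hz => ?_
  exact image_eq_zero_of_notMem_tsupport (f := U.ρ a) fun h => hz ⟨_, h, U.gi_ch a z⟩

theorem gi_int (a : Fin U.n) {q : E → ℝ} (h : Continuous q) :
    Integrable fun z => U.ρ a (U.ψ a z) * q z * (U.f a).m z :=
  (((U.gi_ρ a a).continuous.mul h).mul (U.f a).sec_m_cont).integrable_of_hasCompactSupport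
    (U.gi_cρ a).mul_right.mul_right

theorem jac (a : Fin U.n) (z : E) :
    wedge (pull2 (U.ψ a) c.om z) (pull2 (U.ψ a) c.om z) = 2 * ((U.f a).θ z).det := by
  have h : ∀ v, pull2 (U.ψ a) c.om z v v = 0 := fun v => c.om_alt _ _
  rw [(U.f a).gi_wedge h h z, ψ, U.hom, Fr.gi_c2, mul_comm]
  congr 1
  simp [wg, sg, sn]
  norm_num

theorem int_one (a : Fin U.n) {G : X → ℝ} (h : ∀ x ∉ (U.ch a).source, G x = 0) :
    ∫ x, G x ∂c.μ = 2 * ∫ z, G (U.ψ a z) * (U.f a).m z := by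
  rw [← setIntegral_eq_integral_of_forall_compl_eq_zero (s := U.ψ a '' univ)
    (fun x hx => h x fun k => hx ⟨_, mem_univ _, U.gi_ψ k⟩),
    integral_plot' (fun y _ => (U.gi_sm a y).of_le (by simp)) MeasurableSet.univ
      (LeftInverse.injective (U.gi_ch a)).injOn, Measure.restrict_univ, ← integral_const_mul]
  refine integral_congr_ae (ae_of_all _ fun z => ?_)
  simp only [U.jac, abs_mul, abs_two, smul_eq_mul, Fr.m]
  ring

theorem int_eq {G : X → ℝ} (h : Continuous G) :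
    ∫ x, G x ∂c.μ = 2 * U.I fun a z => G (U.ψ a z) := by
  have h1 : ∀ x, G x = ∑ a, U.ρ a x * G x := fun x => by rw [← Finset.sum_mul, U.sum, one_mul]
  rw [integral_congr_ae (ae_of_all _ h1), integral_finsetSum _ fun a _ =>
    c.integrable_of_continuous ((U.hρ a).continuous.fun_mul h), I, Finset.mul_sum]
  refine Finset.sum_congr rfl fun a _ => U.int_one a fun x hx => ?_
  rw [image_eq_zero_of_notMem_tsupport fun k => hx (U.sρ a k), zero_mul]

theorem I_add {q q' : Fin U.n → E → ℝ} (h : ∀ a, Continuous (q a)) (h' : ∀ a, Continuous (q' a)) :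
    U.I (fun a z => q a z + q' a z) = U.I q + U.I q' := by
  simp only [I, mul_add, add_mul, ← Finset.sum_add_distrib]
  exact Finset.sum_congr rfl fun a _ => integral_add (U.gi_int a (h a)) (U.gi_int a (h' a))

theorem I_mul (r : ℝ) (q : Fin U.n → E → ℝ) : U.I (fun a z => r * q a z) = r * U.I q := by
  simp only [I, Finset.mul_sum, ← integral_const_mul]
  refine Finset.sum_congr rfl fun a _ => integral_congr_ae (ae_of_all _ fun z => ?_)
  ring

theorem Q_eq {α β : X → Bil E ℝ} (hα : Form univ α) (hβ : Form univ β) : c.Q α β =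
    U.I fun a z => wg ((U.f a).c2 (pull2 (U.ψ a) α z) z) ((U.f a).c2 (pull2 (U.ψ a) β z) z) := by
  rw [Ctx.Q, pair, U.int_eq (continuousOn_univ.1 (c.continuousOn_dens isOpen_univ hα hβ)),
    ← U.I_mul]
  congr 1
  funext a z
  have h := c.wedge_mul_dens (U.ψ a) z (hα.1 _ (mem_univ _)) (hβ.1 _ (mem_univ _))
  rw [U.jac, (U.f a).gi_wedge (α := pull2 (U.ψ a) α z) (β := pull2 (U.ψ a) β z)
    (fun v => hα.1 _ (mem_univ _) _) (fun v => hβ.1 _ (mem_univ _) _) z] at h
  refine mul_left_cancel₀ (left_ne_zero_of_mul_eq_one ((U.f a).gi_det z)) ?_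
  linear_combination h

theorem I_def {q : Fin U.n → E → ℝ} (h : ∀ a, Continuous (q a)) (h0 : ∀ a z, 0 ≤ q a z)
    (cp : ∀ a b z z', U.ψ a z = U.ψ b z' → q b z' = q a z) (e : U.I q = 0) (a : Fin U.n) (z : E) :
    q a z = 0 := by
  have hp : ∀ b z, 0 ≤ U.ρ b (U.ψ b z) * q b z * (U.f b).m z := fun b z =>
    mul_nonneg (mul_nonneg (U.ρ0 b _) (h0 b z)) ((U.f b).sec_m_pos z).le
  obtain ⟨b, -, hb⟩ := Finset.exists_ne_zero_of_sum_ne_zero (U.sum (U.ψ a z) ▸ one_ne_zero :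
    ∑ b, U.ρ b (U.ψ a z) ≠ 0)
  have hs := U.gi_ψ (U.sρ b (subset_tsupport _ hb))
  have h1 := (Finset.sum_eq_zero_iff_of_nonneg fun b _ => integral_nonneg (hp b)).1 e b
    (Finset.mem_univ b)
  have h2 := (integral_eq_zero_iff_of_nonneg (hp b) (U.gi_int b (h b))).1 h1
  have : (volume : Measure E).IsAddHaarMeasure := Measure.prod.instIsAddHaarMeasure _ _
  have h3 := congrFun (((((U.gi_ρ b b).continuous.mul (h b)).mul
    (U.f b).sec_m_cont).ae_eq_iff_eq volume continuous_zero).1 h2) (U.ch b (U.ψ a z))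
  simp only [Pi.mul_apply, Function.comp_apply, hs, Pi.zero_apply, mul_eq_zero, hb,
    ((U.f b).sec_m_pos _).ne', false_or, or_false] at h3
  rw [← cp a b z _ hs.symm, h3]

theorem gi_gl {u : Fin U.n → E → ℝ} (cp : ∀ a b z z', U.ψ a z = U.ψ b z' → u b z' = u a z)
    (a : Fin U.n) (z : E) : U.gl0 u (U.ψ a z) = u a z :=
  cp a _ z _ (U.gi_ψ (U.cover _).choose_spec).symm

theorem gi_gl_cont {u : Fin U.n → E → ℝ} (cp : ∀ a b z z', U.ψ a z = U.ψ b z' → u b z' = u a z)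
    (hu : ∀ a, Continuous (u a)) : Continuous (U.gl0 u) := by
  refine continuous_iff_continuousAt.2 fun x => ?_
  obtain ⟨a, ha⟩ := U.cover x
  refine ((hu a).continuousAt.comp ((U.ch a).continuousAt ha)).congr ?_
  filter_upwards [(U.ch a).open_source.mem_nhds ha] with y hy
  rw [Function.comp_apply, ← U.gi_gl cp, U.gi_ψ hy]

/-- A divergence has integral zero. -/
theorem I_div {q : Fin U.n → E → ℝ} {T : Fin U.n → E → (E →L[ℝ] ℝ) →ₗ[ℝ] ℝ}
    (hq : ∀ a, Continuous (q a))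
    (hT : ∀ a (ξ : E → E →L[ℝ] ℝ), Continuous ξ → Continuous fun z => T a z (ξ z))
    (cp : ∀ a b z z', U.ψ a z = U.ψ b z' → ∀ ξ : E →L[ℝ] ℝ,
      T b z' (ξ.comp (dif (U.ψ b) z')) = T a z (ξ.comp (dif (U.ψ a) z)))
    (h : ∀ a (r : E → ℝ), ContDiff ℝ ∞ r → HasCompactSupport r →
      ∫ z, (r z * q a z + T a z (fderiv ℝ r z)) * (U.f a).m z = 0) : U.I q = 0 := by
  set u : Fin U.n → Fin U.n → E → ℝ := fun a b z => T b z (fderiv ℝ (U.ρ a ∘ U.ψ b) z) with hu
  have hd : ∀ a b z, fderiv ℝ (U.ρ a ∘ U.ψ b) z = (dfn (U.ρ a) (U.ψ b z)).comp (dif (U.ψ b) z) :=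
    fun a b z => fderiv_fn_comp ((U.hρ a _).mdifferentiableAt (by simp))
      ((U.gi_sm b z).dfAt (by simp))
  have cu : ∀ a b d z z', U.ψ b z = U.ψ d z' → u a d z' = u a b z := fun a b d z z' e => by
    simp only [hu, hd, ← e]
    exact cp b d z z' e _
  have hc : ∀ a b, Continuous (u a b) := fun a b =>
    hT b _ ((U.gi_ρ a b).continuous_fderiv (by simp))
  have h1 : ∀ a, ∫ x, U.gl0 (u a) x ∂c.μ = 2 * ∫ z, u a a z * (U.f a).m z := fun a => by
    rw [U.int_one a fun x hx => ?_]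
    · simp only [U.gi_gl (cu a)]
    · obtain ⟨b, hb⟩ := U.cover x
      have h2 : U.ρ a =ᶠ[𝓝 x] fun _ => 0 :=
        notMem_tsupport_iff_eventuallyEq.1 fun k => hx (U.sρ a k)
      rw [← U.gi_ψ hb, U.gi_gl (cu a)]
      simp only [hu, hd, U.gi_ψ hb, dfn_congr h2]
      rw [dfn, mfderiv_const]
      exact (congrArg _ (ContinuousLinearMap.zero_comp _)).trans (map_zero _)
  have h2 : ∀ x, ∑ a, U.gl0 (u a) x = 0 := fun x => by
    obtain ⟨b, hb⟩ := U.cover x
    rw [← U.gi_ψ hb]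
    simp only [U.gi_gl (cu _)]
    simp only [hu]
    rw [← map_sum, ← fderiv_sum fun a _ => (U.gi_ρ a b).differentiable (by simp) _]
    have h3 : ∑ a, U.ρ a ∘ U.ψ b = fun _ => 1 := funext fun z => by
      rw [Finset.sum_apply]; exact U.sum _
    rw [h3, fderiv_fun_const]
    exact map_zero _
  have h3 : ∑ a, ∫ z, u a a z * (U.f a).m z = 0 := by
    have h4 := integral_finsetSum Finset.univ fun a _ =>
      c.integrable_of_continuous (U.gi_gl_cont (cu a) (hc a))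
    simp only [h2, h1, integral_zero, ← Finset.mul_sum] at h4
    linarith
  suffices h5 : U.I q + ∑ a, ∫ z, u a a z * (U.f a).m z = 0 by rwa [h3, add_zero] at h5
  rw [I, ← Finset.sum_add_distrib]
  refine Finset.sum_eq_zero fun a _ => ?_
  rw [← integral_add (U.gi_int a (hq a)), ← h a _ (U.gi_ρ a a) (U.gi_cρ a)]
  · simp only [add_mul, Function.comp_apply, hu]
  · refine ((hc a a).mul (U.f a).sec_m_cont).integrable_of_hasCompactSupport
      (HasCompactSupport.mul_right ?_)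
    refine ((U.gi_cρ a).fderiv ℝ).mono fun z hz k => hz ?_
    simp only [hu, k, map_zero]

end UA

end Pool.Agent.Lib.MP_1c0d65_gt.Nz
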