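import Pool.Agent.Lib.MP_1c0d65_gt.Nz.GTr

/-! The transformation law of the Levi-Civita connection. -/

set_option autoImplicit false
set_option linter.unusedSectionVars false

open scoped Manifold ContDiff Topology
open Set MeasureTheory Function Matrix

noncomputable section

namespace Pool.Agent.Lib.MP_1c0d65_gt.Nz

open Pool.Agent.Lib.MP_1c0d65_gt.PW

theorem law_zero {S : Fin 4 → M4} (h1 : ∀ i l j, S i l j = -S i j l)
    (h2 : ∀ i l j, S i l j = S j l i) (i : Fin 4) : S i = 0 := by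
  ext l j
  have := h1 i l j
  have := h2 i l j
  have := h1 j l i
  have := h2 j i l
  have := h1 l i j
  have := h2 l j i
  rw [Matrix.zero_apply]
  linarith

theorem law_alg {H : M4} {K G G' : Fin 4 → M4} (hH : Hᵀ * H = 1)
    (hK : ∀ i, (K i)ᵀ * H + Hᵀ * K i = 0) (hG : ∀ i, (G i)ᵀ = -G i) (hG' : ∀ i, (G' i)ᵀ = -G' i)
    (h : ∀ i j k, ∑ l, (G i l j - G j l i) * H k l =
      K i k j - K j k i + ∑ n, ∑ m, H n i * H m j * (G' n k m - G' m k n)) (i : Fin 4) :
    K i + (∑ k, H k i • G' k) * H = H * G i := by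
  have hH' : H * Hᵀ = 1 := mul_eq_one_comm.1 hH
  obtain ⟨A, hA⟩ : ∃ A : Fin 4 → M4, ∀ i, A i = K i + (∑ k, H k i • G' k) * H - H * G i :=
    ⟨_, fun _ => rfl⟩
  have h2 : ∀ i k j, A i k j = A j k i := fun i k j => by
    have := h i j k
    simp only [hA, Matrix.sub_apply, Matrix.add_apply, mul_apply,
      Matrix.smul_apply, smul_eq_mul, Fin.sum_univ_four] at this ⊢
    linarith
  have h1 : ∀ i, (Hᵀ * A i)ᵀ = -(Hᵀ * A i) := fun i => by
    have e : (∑ k, H k i • G' k)ᵀ = -∑ k, H k i • G' k := by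
      simp only [transpose_sum, transpose_smul, hG', smul_neg, Finset.sum_neg_distrib]
    rw [hA, Matrix.mul_sub, Matrix.mul_add, ← Matrix.mul_assoc Hᵀ H, hH, Matrix.one_mul,
      transpose_sub, transpose_add, transpose_mul, transpose_mul, transpose_mul,
      transpose_transpose, e, hG, eq_neg_of_add_eq_zero_left (hK i), Matrix.mul_neg,
      Matrix.neg_mul, Matrix.mul_assoc]
    abel
  have h3 := law_zero (S := fun i => Hᵀ * A i) (fun i l j => congrFun (congrFun (h1 i) j) l)
    (fun i l j => by simp only [mul_apply, h2 i _ j]) i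
  have h4 : A i = 0 := by
    rw [← Matrix.one_mul (A i), ← hH', Matrix.mul_assoc, h3, Matrix.mul_zero]
  rwa [hA, sub_eq_zero] at h4

theorem law_co (f : Fr) (z : E) (k m : Fin 4) :
    co k (f.θ z (f.e m z)) = if k = m then 1 else 0 := by
  rw [Fr.e, f.θM, sym_co]

theorem law_der (f g : Fr) {t : E → E} {H : E → M4} {z : E} (ht : ContDiffAt ℝ ∞ t z)
    (hH : ∀ i j, ContDiffAt ℝ ∞ (fun y => H y i j) z)
    (h : ∀ᶠ y in 𝓝 z, ∀ j, fderiv ℝ t y (f.e j y) = ∑ i, H y i j • g.e i (t y)) (i j : Fin 4) :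
    fderiv ℝ t z (f.d i (f.e j) z) + fderiv ℝ (fderiv ℝ t) z (f.e i z) (f.e j z) =
      ∑ m, (∑ n, (H z n i * H z m j) • g.d n (g.e m) (t z) + f.dm i H z m j • g.e m (t z)) := by
  have d0 : HasFDerivAt t (fderiv ℝ t z) z := (ht.differentiableAt (by simp)).hasFDerivAt
  have d1 : HasFDerivAt (fderiv ℝ t) (fderiv ℝ (fderiv ℝ t) z) z :=
    ((ht.fderiv_right (m := 1) (by norm_cast)).differentiableAt one_ne_zero).hasFDerivAt
  have d2 := d1.clm_apply ((f.e_sm j).differentiable (by simp) z).hasFDerivAt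
  have d3 := HasFDerivAt.fun_sum (u := Finset.univ) fun m _ =>
    ((hH m j).differentiableAt (by simp)).hasFDerivAt.smul
      (((g.e_sm m).differentiable (by simp) (t z)).hasFDerivAt.comp z d0)
  have e := d2.unique (d3.congr_of_eventuallyEq (h.mono fun y hy => hy j))
  have e' := congrArg (fun L : E →L[ℝ] E => L (f.e i z)) e
  simp only [_root_.add_apply, ContinuousLinearMap.comp_apply,
    ContinuousLinearMap.flip_apply, _root_.sum_apply, _root_.smul_apply,
    ContinuousLinearMap.smulRight_apply, h.self_of_nhds i, map_sum, map_smul, Finset.smul_sum,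
    smul_smul, Function.comp] at e'
  refine e'.trans (Finset.sum_congr rfl fun m _ => ?_)
  simp only [Fr.d, Fr.dm, of_apply, mul_comm]

theorem law_loc (f g : Fr) {t : E → E} {H : E → M4} {z : E} (ht : ContDiffAt ℝ ∞ t z)
    (hH : ∀ i j, ContDiffAt ℝ ∞ (fun y => H y i j) z) (hu : ∀ᶠ y in 𝓝 z, (H y)ᵀ * H y = 1)
    (h : ∀ᶠ y in 𝓝 z, ∀ j, fderiv ℝ t y (f.e j y) = ∑ i, H y i j • g.e i (t y)) (i : Fin 4) :
    f.dm i H z + (∑ k, H z k i • g.Gm k (t z)) * H z = H z * f.Gm i z := by
  refine law_alg (K := fun i => f.dm i H z) (G := fun i => f.Gm i z) hu.self_of_nhds (fun i => ?_)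
    (fun i => f.Gm_skew i z) (fun i => g.Gm_skew i (t z)) (fun i j k => ?_) i
  · ext l j
    have d := HasFDerivAt.fun_sum (u := Finset.univ) fun m _ =>
      ((hH m l).differentiableAt (by simp)).hasFDerivAt.mul
        ((hH m j).differentiableAt (by simp)).hasFDerivAt
    have e := d.unique ((hasFDerivAt_const ((1 : M4) l j) z).congr_of_eventuallyEq
      (hu.mono fun y hy => congrFun (congrFun hy l) j))
    have e' := congrArg (fun L : E →L[ℝ] ℝ => L (f.e i z)) e
    simp only [_root_.add_apply, _root_.smul_apply, _root_.zero_apply, smul_eq_mul,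
      Fin.sum_univ_four] at e'
    simp only [Matrix.add_apply, mul_apply, transpose_apply, Fr.dm, Fr.d, of_apply,
      Matrix.zero_apply, Fin.sum_univ_four]
    linarith
  · have h1 := law_der f g ht hH h i j
    have h2 := law_der f g ht hH h j i
    have h3 := (ht.isSymmSndFDerivAt (by simp only [minSmoothness_of_isRCLikeNormedField]; norm_cast)).eq
      (f.e i z) (f.e j z)
    have h4 : fderiv ℝ t z (f.d i (f.e j) z - f.d j (f.e i) z) =
        ∑ l, f.γ i j l z • ∑ m, H z m l • g.e m (t z) := by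
      conv_lhs => rw [← f.sum_e z (f.d i (f.e j) z - f.d j (f.e i) z)]
      simp only [map_sum, map_smul, h.self_of_nhds, Fr.γ]
    rw [map_sub, eq_sub_of_add_eq h1, eq_sub_of_add_eq h2, h3, sub_sub_sub_cancel_right] at h4
    have h5 := congrArg (fun v => co k (g.θ (t z) v)) h4
    have h6 : ∀ n m, g.Gm n (t z) k m - g.Gm m (t z) k n =
        co k (g.θ (t z) (g.d n (g.e m) (t z))) - co k (g.θ (t z) (g.d m (g.e n) (t z))) := by
      intro n m
      rw [← map_sub, ← map_sub]
      exact (g.Γ_tors n m k (t z)).symm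
    have h7 : ∀ l, f.Gm i z l j - f.Gm j z l i = f.γ i j l z := fun l => (f.Γ_tors i j l z).symm
    simp only [map_sub, map_sum, map_add, map_smul, law_co, smul_eq_mul, mul_ite, mul_one,
      mul_zero, Finset.sum_add_distrib, Finset.sum_ite_eq, Finset.mem_univ, if_true] at h5
    simp only [h6, h7, ← h5, Fin.sum_univ_four]
    ring

variable {X : Type} [TopologicalSpace X] [ChartedSpace E X] [IsManifold 𝓘(ℝ, E) ∞ X]
  [T2Space X] [CompactSpace X] [MeasurableSpace X] [BorelSpace X] {c : Ctx X}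

namespace UA

variable {U : UA c} {a b : Fin U.n} {z z' : E}

theorem hm_law (h : U.ψ a z = U.ψ b z') (i : Fin 4) :
    (U.f a).dm i (fun y => U.hm b a (U.ψ a y)) z
      + (∑ k, U.hm b a (U.ψ a z) k i • (U.f b).Gm k z') * U.hm b a (U.ψ a z) =
      U.hm b a (U.ψ a z) * (U.f a).Gm i z := by
  have := law_loc (U.f a) (U.f b) (τ_sm h) (hm_sm h) ((τ_ev h).mono fun y hy => (hm_un hy).1)
    ((τ_ev h).mono fun y hy => τ_e hy) i
  rwa [τ_eq h] at this

end UA

end Pool.Agent.Lib.MP_1c0d65_gt.Nz
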