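import Pool.Agent.Lib.MP_1c0d65_gt.Nz.GRho
import Pool.Agent.Lib.MP_1c0d65_gt.Nz.GFr
import Pool.Agent.Lib.MP_1c0d65_gt.Nz.GCs
import Pool.Agent.Lib.MP_1c0d65_gt.Nz.GTr
import Pool.Agent.Lib.MP_1c0d65_gt.Nz.GLaw
import Pool.Agent.Lib.MP_1c0d65_gt.Nz.GInt

/-! The connection forms of the bundle of self-dual forms in two charts. -/

set_option autoImplicit false
set_option linter.unusedSectionVars false

open scoped Manifold ContDiff Topology
open Set MeasureTheory Function Matrix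

noncomputable section

namespace Pool.Agent.Lib.MP_1c0d65_gt.Nz

open Pool.Agent.Lib.MP_1c0d65_gt.PW

theorem Fr.gau_ext (f : Fr) (z : E) {α β : E →L[ℝ] ℝ} (h : ∀ i, α (f.e i z) = β (f.e i z)) :
    α = β := by
  have h1 := congrFun (f.f1_self fun _ => α) z
  have h2 := congrFun (f.f1_self fun _ => β) z
  rw [← h1, ← h2]
  simp only [Fr.f1, h]

theorem Fr.gau_det (f : Fr) (z : E) : (f.θ z).det ≠ 0 := left_ne_zero_of_mul_eq_one (f.det_mul z)

theorem Fr.gau_al (f : Fr) (q r i : Fin 4) (z : E) :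
    f.al q r z (f.e i z) = pi4 true (f.Gm i z) q r := f.f1_e _ z i

theorem gau_alg {A A' D : M4} {p q : ℝ} (hA : Aᵀ = -A) (hA' : A'ᵀ = -A')
    (e : D + A' * !![1, 0, 0, 0; 0, 1, 0, 0; 0, 0, p, -q; 0, 0, q, p] =
      !![1, 0, 0, 0; 0, 1, 0, 0; 0, 0, p, -q; 0, 0, q, p] * A) (h₂ : D 2 1 = 0) (h₃ : D 3 1 = 0) :
    A' 3 1 = p * A 3 1 - q * A 1 2 ∧ A' 1 2 = q * A 3 1 + p * A 1 2 ∧
      D 2 2 = q * (A 2 3 - A' 2 3) ∧ D 3 2 = p * (A' 2 3 - A 2 3) := by
  have s : ∀ i j, A j i = -A i j := fun i j => congrFun (congrFun hA i) j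
  have s' : ∀ i j, A' j i = -A' i j := fun i j => congrFun (congrFun hA' i) j
  have d : ∀ i, A i i = 0 := fun i => by linarith [s i i]
  have d' : ∀ i, A' i i = 0 := fun i => by linarith [s' i i]
  have e21 := congrFun (congrFun e 2) 1
  have e31 := congrFun (congrFun e 3) 1
  have e22 := congrFun (congrFun e 2) 2
  have e32 := congrFun (congrFun e 3) 2
  simp [mul_apply, Fin.sum_univ_four, d, d', s 1 2, s' 1 2, s 2 3, s' 2 3, h₂, h₃]
    at e21 e31 e22 e32
  refine ⟨?_, ?_, ?_, ?_⟩ <;> linarith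

theorem gau_w11 {P : Type} [TopologicalSpace P] {a b : P → E →L[ℝ] ℝ} (ha : Continuous a)
    (hb : Continuous b) (v w : E) : Continuous fun z => w11 (a z) (b z) v w := by
  simp only [w11_apply]
  fun_prop

theorem gau_cv {a b c : E → E →L[ℝ] ℝ} (ha : ContDiff ℝ ∞ a) (hb : ContDiff ℝ ∞ b)
    (hc : ContDiff ℝ ∞ c) : Continuous (cv a b c) :=
  continuous_iff_continuousAt.2 fun _ => ((contDiffAt_ext1 top_le ha.contDiffAt).sub
    (contDiffAt_w11 hb.contDiffAt hc.contDiffAt)).continuousAt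

theorem gau_wedge {α β : E → Bil E ℝ} (hα : ∀ v w, Continuous fun z => α z v w)
    (hβ : Continuous β) : Continuous fun z => wedge (α z) (β z) := by
  have h : ∀ v w, Continuous fun z => β z v w := fun v w => by fun_prop
  exact ((((((hα _ _).mul (h _ _)).sub ((hα _ _).mul (h _ _))).add ((hα _ _).mul (h _ _))).add
    ((hα _ _).mul (h _ _))).sub ((hα _ _).mul (h _ _))).add ((hα _ _).mul (h _ _))

theorem gau_sq {α : E → Bil E ℝ} (h : Continuous α) : Continuous fun z => wedge (α z) (α z) :=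
  gau_wedge (fun v w => by fun_prop) h

/-- The transgression form of a frame divided by the volume form. -/
def Fr.gauT (f : Fr) (z : E) : (E →L[ℝ] ℝ) →ₗ[ℝ] ℝ where
  toFun ξ := tau (f.al 2 3) (f.al 3 1) (f.al 1 2) z ξ / (f.θ z).det
  map_add' ξ η := by
    simp only [tau, wedge, w11_apply, _root_.add_apply, smul_eq_mul]; ring
  map_smul' r ξ := by
    simp only [tau, wedge, w11_apply, _root_.smul_apply, smul_eq_mul,
      RingHom.id_apply]; ring

variable {X : Type} [TopologicalSpace X] [ChartedSpace E X] [IsManifold 𝓘(ℝ, E) ∞ X]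
  [T2Space X] [CompactSpace X] [MeasurableSpace X] [BorelSpace X] {c : Ctx X}

namespace UA

variable {U : UA c} {a b : Fin U.n} {z z' : E}

theorem gau_comp (h : U.ψ a z = U.ψ b z') (q r i : Fin 4) :
    ((U.f b).al q r z').comp (fderiv ℝ (U.τ b a) z) ((U.f a).e i z) =
      pi4 true (∑ k, U.hm b a (U.ψ a z) k i • (U.f b).Gm k z') q r := by
  have e : pi4 true (∑ k, U.hm b a (U.ψ a z) k i • (U.f b).Gm k z') =
      ∑ k, U.hm b a (U.ψ a z) k i • pi4 true ((U.f b).Gm k z') := by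
    change piL true _ = ∑ k, _ • piL true _
    simp only [map_sum, map_smul]
  rw [e, ContinuousLinearMap.comp_apply, τ_e h, map_sum, Matrix.sum_apply]
  simp only [map_smul, Fr.gau_al, Matrix.smul_apply]

theorem al_law (h : U.ψ a z = U.ψ b z') :
    let p : E → ℝ := fun y => rho true (U.hm b a (U.ψ a y)) 2 2
    let q : E → ℝ := fun y => rho true (U.hm b a (U.ψ a y)) 3 2
    let t : E →L[ℝ] E := fderiv ℝ (U.τ b a) z
    ((U.f b).al 3 1 z').comp t = p z • (U.f a).al 3 1 z - q z • (U.f a).al 1 2 z ∧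
    ((U.f b).al 1 2 z').comp t = q z • (U.f a).al 3 1 z + p z • (U.f a).al 1 2 z ∧
    fderiv ℝ p z = q z • ((U.f a).al 2 3 z - ((U.f b).al 2 3 z').comp t) ∧
    fderiv ℝ q z = p z • (((U.f b).al 2 3 z').comp t - (U.f a).al 2 3 z) := by
  intro p q t
  have hd : ∀ i j, DifferentiableAt ℝ (fun y => U.hm b a (U.ψ a y) i j) z := fun i j =>
    cd_diff (hm_sm h i j)
  have h0 : ∀ᶠ y in 𝓝 z, rho true (U.hm b a (U.ψ a y)) 2 1 = 0 ∧
      rho true (U.hm b a (U.ψ a y)) 3 1 = 0 := by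
    filter_upwards [τ_ev h] with y hy
    obtain ⟨p, q, -, e⟩ := (hm_un hy).rho_true
    rw [e]; simp
  obtain ⟨p₀, q₀, -, e⟩ := (hm_un h).rho_true
  have hp : p z = p₀ := by simp only [p, e]; simp
  have hq : q z = q₀ := by simp only [q, e]; simp
  have key : ∀ i, ((U.f b).al 3 1 z').comp t ((U.f a).e i z) =
        p₀ * (U.f a).al 3 1 z ((U.f a).e i z) - q₀ * (U.f a).al 1 2 z ((U.f a).e i z) ∧
      ((U.f b).al 1 2 z').comp t ((U.f a).e i z) =
        q₀ * (U.f a).al 3 1 z ((U.f a).e i z) + p₀ * (U.f a).al 1 2 z ((U.f a).e i z) ∧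
      fderiv ℝ p z ((U.f a).e i z) = q₀ * ((U.f a).al 2 3 z ((U.f a).e i z)
        - ((U.f b).al 2 3 z').comp t ((U.f a).e i z)) ∧
      fderiv ℝ q z ((U.f a).e i z) = p₀ * (((U.f b).al 2 3 z').comp t ((U.f a).e i z)
        - (U.f a).al 2 3 z ((U.f a).e i z)) := by
    intro i
    have sk : (∑ k, U.hm b a (U.ψ a z) k i • (U.f b).Gm k z')ᵀ =
        -∑ k, U.hm b a (U.ψ a z) k i • (U.f b).Gm k z' := by
      simp only [transpose_sum, transpose_smul, Fr.Gm_skew, smul_neg, Finset.sum_neg_distrib]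
    have law := (hm_un h).law ((U.f a).Gm_skew i z) sk (hm_law h i) true
    have fd : ∀ k l, fderiv ℝ (fun y => rho true (U.hm b a (U.ψ a y)) k l) z ((U.f a).e i z) =
        drho true (U.hm b a (U.ψ a z)) ((U.f a).dm i (fun y => U.hm b a (U.ψ a y)) z) k l :=
      fun k l => rho_fderiv true hd _ k l
    rw [e] at law
    have z₂ : (fun y => rho true (U.hm b a (U.ψ a y)) 2 1) =ᶠ[𝓝 z] fun _ => 0 :=
      h0.mono fun _ hy => hy.1
    have z₃ : (fun y => rho true (U.hm b a (U.ψ a y)) 3 1) =ᶠ[𝓝 z] fun _ => 0 :=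
      h0.mono fun _ hy => hy.2
    have := gau_alg (pi4_skew true ((U.f a).Gm_skew i z)) (pi4_skew true sk) law
      (by rw [← fd, z₂.fderiv_eq]; simp) (by rw [← fd, z₃.fderiv_eq]; simp)
    simp only [t, gau_comp h, Fr.gau_al, p, q, fd]
    exact this
  rw [hp, hq]
  exact ⟨(U.f a).gau_ext z fun i => (key i).1, (U.f a).gau_ext z fun i => (key i).2.1,
    (U.f a).gau_ext z fun i => (key i).2.2.1, (U.f a).gau_ext z fun i => (key i).2.2.2⟩

theorem gau_rho (h : U.ψ a z = U.ψ b z') (k l : Fin 4) :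
    DifferentiableAt ℝ (fun y => rho true (U.hm b a (U.ψ a y)) k l) z := by
  have hd : ∀ i j, DifferentiableAt ℝ (fun y => U.hm b a (U.ψ a y) i j) z := fun i j =>
    cd_diff (hm_sm h i j)
  simp only [rho, cq, of_apply, mul_apply, transpose_apply]
  fun_prop

theorem gau_T (h : U.ψ a z = U.ψ b z') (ξ : E →L[ℝ] ℝ) :
    (U.f b).gauT z' (ξ.comp (dif (U.ψ b) z')) = (U.f a).gauT z (ξ.comp (dif (U.ψ a) z)) := by
  obtain rfl := τ_eq h
  have sm : ∀ (f : Fr) q r y, DifferentiableAt ℝ (f.al q r) y := fun f q r y =>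
    cd_diff (f.al_sm q r).contDiffAt
  have e : dif (U.ψ a) z = (dif (U.ψ b) (U.τ b a z)).comp (fderiv ℝ (U.τ b a) z) := by
    rw [← dif_comp ((U.ψ_sm b _).dfAt (by simp)) (cd_diff (τ_sm h))]
    exact dif_congr (τ_ev h)
  have n : rho true (U.hm b a (U.ψ a z)) 2 2 ^ 2 + rho true (U.hm b a (U.ψ a z)) 3 2 ^ 2 = 1 := by
    obtain ⟨p, q, n, e⟩ := (hm_un h).rho_true
    rw [e]; simpa using n
  have g := tau_gauge (a₁ := (U.f a).al 2 3)
    (b₁ := fun y => ((U.f b).al 2 3 (U.τ b a y)).comp (fderiv ℝ (U.τ b a) y))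
    (b₂ := fun y => ((U.f b).al 3 1 (U.τ b a y)).comp (fderiv ℝ (U.τ b a) y))
    (b₃ := fun y => ((U.f b).al 1 2 (U.τ b a y)).comp (fderiv ℝ (U.τ b a) y))
    (sm (U.f a) 3 1 z) (sm (U.f a) 1 2 z) (gau_rho h 2 2) (gau_rho h 3 2) n
    ((τ_ev h).mono fun y hy => (al_law hy).1) ((τ_ev h).mono fun y hy => (al_law hy).2.1)
    (al_law h).2.2.1 (al_law h).2.2.2 ((ξ.comp (dif (U.ψ b) (U.τ b a z))).comp
      (fderiv ℝ (U.τ b a) z))
  rw [tau_comp (τ_sm h) (sm _ _ _ _) (sm _ _ _ _)] at g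
  have hd := (U.f a).gau_det z
  change _ / _ = tau _ _ _ _ _ / _
  rw [e, ← ContinuousLinearMap.comp_assoc, ← g]
  rw [τ_det h] at hd ⊢
  rw [mul_div_mul_left _ _ (left_ne_zero_of_mul hd)]

variable (U)

theorem cs_glob : U.I (fun a z =>
    dtau ((U.f a).al 2 3) ((U.f a).al 3 1) ((U.f a).al 1 2) z / ((U.f a).θ z).det) = 0 := by
  have cd : ∀ f : Fr, Continuous fun z => (f.θ z).det := fun f =>
    ContinuousLinearMap.continuous_det.comp f.hθ.continuous
  refine U.I_div (T := fun a => (U.f a).gauT) (fun a => ?_) (fun a ξ hξ => ?_)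
    (fun a b z z' h ξ => gau_T h ξ) fun a r hr hc => ?_
  · refine Continuous.div ?_ (cd _) (U.f a).gau_det
    have s := (U.f a).al_sm
    exact (((gau_sq (gau_cv (s _ _) (s _ _) (s _ _))).add
      (gau_sq (gau_cv (s _ _) (s _ _) (s _ _)))).add (gau_sq (gau_cv (s _ _) (s _ _) (s _ _)))).sub
      (gau_sq (continuous_iff_continuousAt.2 fun _ =>
        (contDiffAt_ext1 top_le (s _ _).contDiffAt).continuousAt))
  · refine Continuous.div ?_ (cd _) (U.f a).gau_det
    have s := (U.f a).al_sm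
    exact (gau_wedge (gau_w11 hξ (s _ _).continuous) (gau_cv (s _ _) (s _ _) (s _ _))).add
      (gau_wedge (gau_w11 hξ (s _ _).continuous) (gau_cv (s _ _) (s _ _) (s _ _)))
  · obtain ⟨t, ht⟩ := (U.f a).m_sign
    have s := (U.f a).al_sm
    rw [← mul_zero t, ← cs_loc (s 2 3) (s 3 1) (s 1 2) hr hc, ← integral_const_mul]
    refine integral_congr_ae (.of_forall fun z => ?_)
    have hd := (U.f a).gau_det z
    change (_ * (_ / _) + tau _ _ _ _ _ / _) * _ = _
    rw [ht]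
    field_simp

end UA

end Pool.Agent.Lib.MP_1c0d65_gt.Nz
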