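import Pool.Agent.Lib.MP_1c0d65_gt.Nz.GTr

/-! Gluing of functions and forms from their components in the frames of an atlas. -/

set_option autoImplicit false
set_option linter.unusedSectionVars false

open scoped Manifold ContDiff Topology
open Set MeasureTheory Function Matrix

noncomputable section

namespace Pool.Agent.Lib.MP_1c0d65_gt.Nz

open Pool.Agent.Lib.MP_1c0d65_gt.PW

theorem ggl_sum (v : E) : ∑ j, co j v • bs j = v := by
  ext <;> simp [co, bs, Fin.sum_univ_four]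

variable {X : Type} [TopologicalSpace X] [ChartedSpace E X] [IsManifold 𝓘(ℝ, E) ∞ X]
  [T2Space X] [CompactSpace X] [MeasurableSpace X] [BorelSpace X] {c : Ctx X}

namespace UA

variable {U : UA c} {a b : Fin U.n} {z z' : E}

theorem ggl_sel (x : X) : x ∈ (U.ch (U.sel x)).source := (U.cover x).choose_spec

theorem ggl_eq (a : Fin U.n) (z : E) :
    U.ψ a z = U.ψ (U.sel (U.ψ a z)) (U.ch (U.sel (U.ψ a z)) (U.ψ a z)) :=
  (U.ψ_ch (ggl_sel _)).symm

/-- The coframe `b` in terms of the coframe `a`. -/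
theorem ggl_co (a b : Fin U.n) (z : E) (i : Fin 4) (v : E) :
    co i (U.Ψ b (U.ψ a z) (dif (U.ψ a) z v)) =
      ∑ j, U.hm b a (U.ψ a z) i j * co j ((U.f a).θ z v) := by
  have h1 : dif (U.ψ a) z v = ∑ j, co j ((U.f a).θ z v) • U.Φ a z (bs j) := by
    simp only [← map_smul, ← map_sum, ggl_sum]
    rw [Φ, ContinuousLinearMap.comp_apply, (U.f a).Mθ]
  rw [h1]
  simp only [map_sum, map_smul, smul_eq_mul, hm, of_apply, U.ch_ψ]
  exact Finset.sum_congr rfl fun j _ => mul_comm _ _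

theorem gl0_eq {V : Type} {u : Fin U.n → E → V}
    (cp : ∀ a b z z', U.ψ a z = U.ψ b z' → u b z' = u a z) (a : Fin U.n) (z : E) :
    U.gl0 u (U.ψ a z) = u a z := cp _ _ _ _ (ggl_eq a z)

theorem ggl_ev {V : Type} {u : Fin U.n → E → V}
    (cp : ∀ a b z z', U.ψ a z = U.ψ b z' → u b z' = u a z) (x : X) :
    U.gl0 u =ᶠ[𝓝 x] u (U.sel x) ∘ U.ch (U.sel x) := by
  filter_upwards [(U.ch (U.sel x)).open_source.mem_nhds (ggl_sel x)] with y hy
  conv_lhs => rw [← U.ψ_ch hy]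
  exact gl0_eq cp _ _

theorem gl0_sm {u : Fin U.n → E → ℝ} (cp : ∀ a b z z', U.ψ a z = U.ψ b z' → u b z' = u a z)
    (hu : ∀ a, ContDiff ℝ ∞ (u a)) : ContMDiff 𝓘(ℝ, E) 𝓘(ℝ, ℝ) ∞ (U.gl0 u) := fun x =>
  (ContMDiffAt.comp x (hu _).contDiffAt.contMDiffAt
    ((U.hch _).fnAt (ggl_sel x))).congr_of_eventuallyEq (ggl_ev cp x)

theorem gl0_cont {u : Fin U.n → E → ℝ} (cp : ∀ a b z z', U.ψ a z = U.ψ b z' → u b z' = u a z)
    (hu : ∀ a, Continuous (u a)) : Continuous (U.gl0 u) :=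
  continuous_iff_continuousAt.2 fun x => (ContinuousAt.comp (hu _).continuousAt
    ((U.hch _).fnAt (ggl_sel x)).continuousAt).congr (ggl_ev cp x).symm

theorem gl1_eq {u : Fin U.n → E → Fin 4 → ℝ}
    (cp : ∀ a b z z', U.ψ a z = U.ψ b z' → u b z' = U.hm b a (U.ψ a z) *ᵥ u a z) (a : Fin U.n) :
    pull1 (U.ψ a) (U.gl1 u) = (U.f a).f1 (u a) := by
  funext z
  refine ContinuousLinearMap.ext fun v => ?_
  have h := ggl_eq (U := U) a z
  have h1 : U.gl0 u (U.ψ a z) = U.hm _ a (U.ψ a z) *ᵥ u a z := cp _ _ _ _ h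
  have h2 := (hm_un h).1
  rw [pull1_apply, gl1, h1]
  simp only [_root_.sum_apply, _root_.smul_apply,
    ContinuousLinearMap.comp_apply, smul_eq_mul, ggl_co, Fr.f1, Fr.th]
  generalize U.hm _ a (U.ψ a z) = H at h2
  change (H *ᵥ u a z) ⬝ᵥ (H *ᵥ fun j => co j ((U.f a).θ z v)) =
    u a z ⬝ᵥ fun j => co j ((U.f a).θ z v)
  rw [dotProduct_mulVec, ← mulVec_transpose, mulVec_mulVec, h2, one_mulVec]

theorem gl1_sm {u : Fin U.n → E → Fin 4 → ℝ}
    (cp : ∀ a b z z', U.ψ a z = U.ψ b z' → u b z' = U.hm b a (U.ψ a z) *ᵥ u a z)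
    (hu : ∀ a i, ContDiff ℝ ∞ fun z => u a z i) : Sm1 univ (U.gl1 u) :=
  sm1_of_local fun p _ => ⟨_, U.hch (U.sel p), ggl_sel p, by
    have h : pull1 (U.ch (U.sel p)).symm (U.gl1 u) = _ := gl1_eq cp _
    rw [h]
    exact ((U.f _).f1_sm (hu _)).contDiffAt⟩

theorem ggl_bil (B : M4) (v w : E) :
    bil B v w = (fun i => co i v) ⬝ᵥ (B *ᵥ fun j => co j w) := by
  rw [bil_apply]
  simp only [dotProduct, mulVec, Finset.mul_sum]
  exact Finset.sum_congr rfl fun i _ => Finset.sum_congr rfl fun j _ => by ring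

theorem gl2_eq {B : Fin U.n → E → M4} (cp : ∀ a b z z', U.ψ a z = U.ψ b z' →
    B b z' = U.hm b a (U.ψ a z) * B a z * (U.hm b a (U.ψ a z))ᵀ) (a : Fin U.n) :
    pull2 (U.ψ a) (U.gl2 B) = (U.f a).f2 (B a) := by
  funext z
  refine ContinuousLinearMap.ext fun v => ContinuousLinearMap.ext fun w => ?_
  have h := ggl_eq (U := U) a z
  have h1 : U.gl0 B (U.ψ a z) = U.hm _ a (U.ψ a z) * B a z * (U.hm _ a (U.ψ a z))ᵀ :=
    cp _ _ _ _ h
  have h2 := (hm_un h).1
  rw [pull2_apply, gl2, h1]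
  simp only [ContinuousLinearMap.bilinearComp_apply, ggl_bil, ggl_co, Fr.f2]
  generalize U.hm _ a (U.ψ a z) = H at h2
  change (H *ᵥ fun j => co j ((U.f a).θ z v)) ⬝ᵥ
    ((H * B a z * Hᵀ) *ᵥ (H *ᵥ fun j => co j ((U.f a).θ z w))) = _
  rw [mulVec_mulVec, Matrix.mul_assoc, h2, Matrix.mul_one, ← mulVec_mulVec, dotProduct_mulVec,
    ← mulVec_transpose, mulVec_mulVec, h2, one_mulVec]

theorem gl2_form {B : Fin U.n → E → M4} (cp : ∀ a b z z', U.ψ a z = U.ψ b z' →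
    B b z' = U.hm b a (U.ψ a z) * B a z * (U.hm b a (U.ψ a z))ᵀ)
    (hB : ∀ a i j, ContDiff ℝ ∞ fun z => B a z i j) (sk : ∀ a z, (B a z)ᵀ = -B a z) :
    Form univ (U.gl2 B) := by
  refine form_of_local (fun x _ v => ?_) fun p _ => ⟨_, U.hch (U.sel p), ggl_sel p, ?_⟩
  · have h := (U.f (U.sel x)).f2_alt (B := B (U.sel x)) (z := U.ch (U.sel x) x) (sk _ _)
      (dfn (U.ch (U.sel x)) x v)
    simp only [Fr.f2, ContinuousLinearMap.bilinearComp_apply] at h
    simp only [gl2, gl0, Ψ, ContinuousLinearMap.bilinearComp_apply, ContinuousLinearMap.comp_apply]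
    exact h
  · have h : pull2 (U.ch (U.sel p)).symm (U.gl2 B) = _ := gl2_eq cp _
    rw [h]
    exact ((U.f _).f2_sm (hB _)).contDiffAt

theorem gl2_add (B B' : Fin U.n → E → M4) : U.gl2 (B + B') = U.gl2 B + U.gl2 B' := by
  funext x
  refine ContinuousLinearMap.ext fun v => ContinuousLinearMap.ext fun w => ?_
  simp only [gl2, gl0, Pi.add_apply, _root_.add_apply,
    ContinuousLinearMap.bilinearComp_apply, ggl_bil, add_mulVec, dotProduct_add]

theorem gl2_smul (r : ℝ) (B : Fin U.n → E → M4) : U.gl2 (r • B) = r • U.gl2 B := by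
  funext x
  refine ContinuousLinearMap.ext fun v => ContinuousLinearMap.ext fun w => ?_
  simp only [gl2, gl0, Pi.smul_apply, _root_.smul_apply,
    ContinuousLinearMap.bilinearComp_apply, ggl_bil, smul_mulVec, dotProduct_smul]

theorem closed_of {β : X → Bil E ℝ} (h : Form univ β)
    (h0 : ∀ a z u v w, ext2 (pull2 (U.ψ a) β) z u v w = 0) : Closed β :=
  closed_of_local h fun p => ⟨_, U.hch (U.sel p), ggl_sel p, h0 _ _⟩

theorem eq_of_pull2 {α β : X → Bil E ℝ} (h : ∀ a z, pull2 (U.ψ a) α z = pull2 (U.ψ a) β z) :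
    α = β := by
  funext x
  refine ContinuousLinearMap.ext fun v => ContinuousLinearMap.ext fun w => ?_
  have hx := ggl_sel (U := U) x
  have h1 := congrArg (fun q : Bil E ℝ => q (dfn (U.ch (U.sel x)) x v) (dfn (U.ch (U.sel x)) x w))
    (h (U.sel x) (U.ch (U.sel x) x))
  have h2 : ∀ y, dif (U.ψ (U.sel x)) (U.ch (U.sel x) x) (dfn (U.ch (U.sel x)) x y) = y :=
    (U.hch _).dif_dfn hx
  simpa only [pull2_apply, h2, U.ψ_ch hx] using h1

end UA

end Pool.Agent.Lib.MP_1c0d65_gt.Nz
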