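import Pool.Agent.Lib.MP_1c0d65_gt.Nz.GDef

/-! Gram-Schmidt: a smooth unitary frame on `E`. -/

set_option autoImplicit false

open scoped ContDiff
open Set Function Matrix

noncomputable section

namespace Pool.Agent.Lib.MP_1c0d65_gt.Nz

open Pool.Agent.Lib.MP_1c0d65_gt.PW

theorem gs_anti {w : Bil E ℝ} (alt : ∀ v, w v v = 0) (u v : E) : w u v = -w v u := by
  have := alt (u + v)
  simp only [map_add, _root_.add_apply, alt] at this
  linarith

theorem gs_norm {om : E → Bil E ℝ} {J : E → E →L[ℝ] E} {u : E → E} (hom : ContDiff ℝ ∞ om)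
    (hJ : ContDiff ℝ ∞ J) (hu : ContDiff ℝ ∞ u) (pos : ∀ z, 0 < om z (u z) (J z (u z))) :
    ∃ r : E → ℝ, ContDiff ℝ ∞ r ∧ ∀ z, om z (r z • u z) (J z (r z • u z)) = 1 := by
  refine ⟨fun z => (√(om z (u z) (J z (u z))))⁻¹, (((hom.clm_apply hu).clm_apply
    (hJ.clm_apply hu)).sqrt fun z => (pos z).ne').inv fun z => (Real.sqrt_pos.2 (pos z)).ne',
    fun z => ?_⟩
  have h := Real.mul_self_sqrt (pos z).le
  have h0 := (Real.sqrt_pos.2 (pos z)).ne'
  simp only [map_smul, _root_.smul_apply, smul_eq_mul]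
  generalize √(om z (u z) (J z (u z))) = t at h h0
  rw [← h]
  field_simp

theorem gs_fr {om : E → Bil E ℝ} {J : E → E →L[ℝ] E} {a b : E → E} (hom : ContDiff ℝ ∞ om)
    (hJ : ContDiff ℝ ∞ J) (ha : ContDiff ℝ ∞ a) (hb : ContDiff ℝ ∞ b) (alt : ∀ z v, om z v v = 0)
    (sq : ∀ z v, J z (J z v) = -v) (cp : ∀ z v w, om z (J z v) (J z w) = om z v w)
    (h1 : ∀ z, om z (a z) (J z (a z)) = 1) (h2 : ∀ z, om z (b z) (J z (b z)) = 1)
    (h3 : ∀ z, om z (a z) (b z) = 0) (h4 : ∀ z, om z (a z) (J z (b z)) = 0) :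
    ∃ f : Fr, (∀ z, om z = f.f2 (fun _ => sg true 1) z) ∧
      ∀ z v, J z (f.M z v) = f.M z (Complex.I • v) := by
  let e : Fin 4 → E → E := ![a, fun z => J z (a z), b, fun z => J z (b z)]
  have he : ∀ i, ContDiff ℝ ∞ (e i) := fun i => by
    fin_cases i
    exacts [ha, hJ.clm_apply ha, hb, hJ.clm_apply hb]
  let M : E → E →L[ℝ] E := fun z => ∑ i, (co i).smulRight (e i z)
  let θ : E → E →L[ℝ] E := fun z => ∑ i, ((om z).flip (J z (e i z))).smulRight (bs i)
  have eM : ∀ z v, M z v = v.1.re • a z + v.1.im • J z (a z) + v.2.re • b z + v.2.im • J z (b z) :=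
    fun z v => by simp [M, e, co, Fin.sum_univ_four]
  have h5 : ∀ z, om z (J z (a z)) (b z) = 0 := fun z => by
    rw [← cp, sq, map_neg, _root_.neg_apply, h4, neg_zero]
  have k1 : ∀ z, om z (J z (a z)) (a z) = -1 := fun z => by rw [gs_anti (alt z), h1]
  have k2 : ∀ z, om z (J z (b z)) (b z) = -1 := fun z => by rw [gs_anti (alt z), h2]
  have k3 : ∀ z, om z (b z) (a z) = 0 := fun z => by rw [gs_anti (alt z), h3, neg_zero]
  have k4 : ∀ z, om z (J z (b z)) (a z) = 0 := fun z => by rw [gs_anti (alt z), h4, neg_zero]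
  have k5 : ∀ z, om z (b z) (J z (a z)) = 0 := fun z => by rw [gs_anti (alt z), h5, neg_zero]
  have θM : ∀ z v, θ z (M z v) = v := fun z v => by
    rw [eM]
    simp [θ, e, bs, Fin.sum_univ_four, sq, cp, alt, h1, h2, h3, h4, h5, k1, k2, k3, k4, k5]
  have su : ∀ z, Surjective (M z) := fun z =>
    (LinearMap.injective_iff_surjective (f := (M z : E →ₗ[ℝ] E))).1 (LeftInverse.injective (θM z))
  refine ⟨⟨M, θ, ContDiff.sum fun i _ => contDiff_const.smulRight (he i),
    ContDiff.sum fun i _ => ContDiff.smulRight ?_ contDiff_const, θM, fun z v => ?_⟩,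
    fun z => ContinuousLinearMap.ext fun v => ContinuousLinearMap.ext fun w => ?_, fun z v => ?_⟩
  · exact ((ContinuousLinearMap.flipₗᵢ ℝ E E ℝ).contDiff.comp hom).clm_apply
      (hJ.clm_apply (he i))
  · obtain ⟨x, rfl⟩ := su z v
    rw [θM]
  · obtain ⟨x, rfl⟩ := su z v
    obtain ⟨y, rfl⟩ := su z w
    change _ = bil (sg true 1) (θ z (M z x)) (θ z (M z y))
    rw [θM, θM, eM, eM]
    simp [bil, sg, sn, co, Fin.sum_univ_four, cp, alt, h1, h2, h3, h4, h5, k1, k2, k3, k4, k5]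
  · change J z (M z v) = M z (Complex.I • v)
    rw [eM, eM]
    simp [sq]
    abel

theorem exists_fr {om : E → Bil E ℝ} {J : E → E →L[ℝ] E} {p q : E → E} (hom : ContDiff ℝ ∞ om)
    (hJ : ContDiff ℝ ∞ J) (hp : ContDiff ℝ ∞ p) (hq : ContDiff ℝ ∞ q) (alt : ∀ z v, om z v v = 0)
    (sq : ∀ z v, J z (J z v) = -v) (cp : ∀ z v w, om z (J z v) (J z w) = om z v w)
    (pos : ∀ z v, v ≠ 0 → 0 < om z v (J z v))
    (ind : ∀ z, om z (p z) (J z (q z)) ^ 2 + om z (p z) (q z) ^ 2 <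
      om z (p z) (J z (p z)) * om z (q z) (J z (q z))) :
    ∃ f : Fr, (∀ z, om z = f.f2 (fun _ => sg true 1) z) ∧
      ∀ z v, J z (f.M z v) = f.M z (Complex.I • v) := by
  let u : E → E := fun z => om z (p z) (J z (p z)) • q z - om z (p z) (J z (q z)) • p z -
    om z (p z) (q z) • J z (p z)
  have hu : ContDiff ℝ ∞ u :=
    ((((hom.clm_apply hp).clm_apply (hJ.clm_apply hp)).smul hq).sub
      (((hom.clm_apply hp).clm_apply (hJ.clm_apply hq)).smul hp)).sub
      (((hom.clm_apply hp).clm_apply hq).smul (hJ.clm_apply hp))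
  have p0 : ∀ z, p z ≠ 0 := fun z h => by simpa [h] using ind z
  have u0 : ∀ z, u z ≠ 0 := fun z h => by
    have e : om z (q z) (J z (u z)) = 0 := by rw [h, map_zero, map_zero]
    have e1 : om z (q z) (J z (p z)) = om z (p z) (J z (q z)) := by
      rw [← cp, sq, map_neg, ← gs_anti (alt z)]
    simp only [u, map_sub, map_smul, smul_eq_mul, sq, map_neg, e1,
      gs_anti (alt z) (q z) (p z)] at e
    nlinarith [ind z]
  obtain ⟨r, hr, r1⟩ := gs_norm hom hJ hp fun z => pos z _ (p0 z)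
  obtain ⟨t, ht, t1⟩ := gs_norm hom hJ hu fun z => pos z _ (u0 z)
  refine gs_fr (a := fun z => r z • p z) (b := fun z => t z • u z) hom hJ (hr.smul hp)
    (ht.smul hu) alt sq cp r1 t1 (fun z => ?_) fun z => ?_
  · simp only [u, map_sub, map_smul, _root_.smul_apply, smul_eq_mul, alt]
    ring
  · simp only [u, map_sub, map_smul, _root_.smul_apply, smul_eq_mul, sq, map_neg, alt]
    ring

end Pool.Agent.Lib.MP_1c0d65_gt.Nz
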