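import Pool.Agent.Lib.MP_1c0d65_gt.Nz.GFr

/-! The operator `d* + d^±` in components. -/

set_option autoImplicit false

open scoped Manifold ContDiff Topology
open Set MeasureTheory Function Matrix

noncomputable section

namespace Pool.Agent.Lib.MP_1c0d65_gt.Nz

open Pool.Agent.Lib.MP_1c0d65_gt.PW

theorem v8_inl (a w : Fin 4 → ℝ) (i : Fin 4) : v8 a w (.inl i) = a i := rfl

theorem v8_inr (a w : Fin 4 → ℝ) (p : Fin 4) : v8 a w (.inr p) = w p := rfl

attribute [local simp] v8_inl v8_inr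

theorem v8_eta (x : W8) : v8 (fun i => x (.inl i)) (fun p => x (.inr p)) = x := by
  ext (i | p) <;> rfl

theorem v8_eq_zero {a w : Fin 4 → ℝ} : v8 a w = 0 ↔ a = 0 ∧ w = 0 :=
  ⟨fun h => ⟨funext fun i => congrArg (· (.inl i)) h, funext fun p => congrArg (· (.inr p)) h⟩,
    fun h => by rw [h.1, h.2]; ext (i | p) <;> rfl⟩

theorem T8_v8 (A B C D : M4) (a w : Fin 4 → ℝ) :
    T8 (fromBlocks A B C D) (v8 a w) = v8 (A *ᵥ a + B *ᵥ w) (C *ᵥ a + D *ᵥ w) := by
  ext (i | p) <;> simp [T8_apply, Fintype.sum_sum_type, mulVec, dotProduct]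

theorem inner_v8 (a w a' w' : Fin 4 → ℝ) : inner ℝ (v8 a w) (v8 a' w') = a ⬝ᵥ a' + w ⬝ᵥ w' := by
  simp [PiLp.inner_apply, Fintype.sum_sum_type, dotProduct, mul_comm]

theorem eps_v8 (s : Bool) (a w : Fin 4 → ℝ) : (cl s).ε (v8 a w) = v8 (-a) w := by
  simp [cl, T8_v8, neg_mulVec]

theorem v8_sm {a w : E → Fin 4 → ℝ} (ha : ∀ i, ContDiff ℝ ∞ fun z => a z i)
    (hw : ∀ i, ContDiff ℝ ∞ fun z => w z i) : ContDiff ℝ ∞ fun z => v8 (a z) (w z) :=
  contDiff_euclidean.2 fun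
    | .inl i => ha i
    | .inr p => hw p

/-- The explicit form of `sw`. -/
theorem sw_eq (s : Bool) (w : Fin 4 → ℝ) : sw s w =
    !![w 0, w 1, w 2, w 3; -w 1, w 0, sn s * w 3, -(sn s * w 2);
      -w 2, -(sn s * w 3), w 0, sn s * w 1; -w 3, sn s * w 2, -(sn s * w 1), w 0] := by
  ext i j
  fin_cases i <;> fin_cases j <;> simp [sw, sg, Matrix.sum_apply, Fin.sum_univ_four, mul_comm]

theorem sw_apply (s : Bool) (w : Fin 4 → ℝ) (i j : Fin 4) : sw s w i j = ∑ p, sg s p i j * w p := by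
  simp [sw, Matrix.sum_apply, mul_comm]

theorem sw_skew (s : Bool) {w : Fin 4 → ℝ} (h : w 0 = 0) : (sw s w)ᵀ = -sw s w := by
  rw [sw_eq, h]
  ext i j
  fin_cases i <;> fin_cases j <;> simp

theorem wg_sw (s : Bool) {w w' : Fin 4 → ℝ} (h : w 0 = 0) (h' : w' 0 = 0) :
    wg (sw s w) (sw s w') = 2 * sn s * (w ⬝ᵥ w') := by
  simp [wg, sw_eq, dotProduct, Fin.sum_univ_four, h, h']
  ring

theorem wg_sw_ne {w w' : Fin 4 → ℝ} : wg (sw true w) (sw false w') = 0 := by
  simp [wg, sw_eq, sn]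

/-- A skew matrix is the sum of its two parts. -/
theorem skew_split {B : M4} (h : Bᵀ = -B) :
    B = sw true (fun p => cq true p B) + sw false (fun p => cq false p B) ∧
      cq true 0 B = 0 ∧ cq false 0 B = 0 := by
  have e : ∀ i j, B j i = -B i j := fun i j => congrFun (congrFun h i) j
  have d : ∀ i, B i i = 0 := fun i => by linarith [e i i]
  refine ⟨?_, by simp [cq, sg, Fin.sum_univ_four, d], by simp [cq, sg, Fin.sum_univ_four, d]⟩
  rw [sw_eq, sw_eq]
  ext i j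
  fin_cases i <;> fin_cases j <;>
    simp [cq, sg, sn, Fin.sum_univ_four, d, e 0 1, e 0 2, e 0 3, e 1 2, e 1 3, e 2 3] <;> ring

theorem gop_cq (s : Bool) {p : Fin 4} (hp : p ≠ 0) (N : Fin 4 → Fin 4 → ℝ) :
    ∑ i, ∑ j, sg s p i j * N i j = 2 * cq s p (of fun i j => N i j - N j i) := by
  fin_cases p
  · exact absurd rfl hp
  all_goals simp [cq, sg, Fin.sum_univ_four]; ring

theorem gop_comm (s : Bool) {G : M4} (h : Gᵀ = -G) (w : Fin 4 → ℝ) :
    G * sw s w - sw s w * G = sw s (pi4 s G *ᵥ w) := by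
  have e : ∀ i j, G j i = -G i j := fun i j => congrFun (congrFun h i) j
  have d : ∀ i, G i i = 0 := fun i => by linarith [e i i]
  rw [sw_eq, sw_eq, pi4_eq s h]
  ext i j
  simp only [Matrix.sub_apply, mul_apply, Fin.sum_univ_four, mulVec, dotProduct]
  cases s <;> fin_cases i <;> fin_cases j <;>
    simp [sn, d, e 0 1, e 0 2, e 0 3, e 1 2, e 1 3, e 2 3] <;> ring

theorem gop_div (s : Bool) {N : Fin 4 → Fin 4 → ℝ} (h : ∀ i, N i 0 = 0) :
    (∀ j, ∑ i, sw s (N i) i j = 0) ↔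
      ∀ i j k, sw s (N i) j k + sw s (N j) k i + sw s (N k) i j = 0 := by
  simp only [sw_eq, h, Fin.sum_univ_four]
  constructor
  · intro H i j k
    have h0 := H 0
    have h1 := H 1
    have h2 := H 2
    have h3 := H 3
    cases s <;> simp [sn] at h0 h1 h2 h3 <;> fin_cases i <;> fin_cases j <;> fin_cases k <;>
      simp [sn] <;> linarith
  · intro H j
    have h0 := H 1 2 3
    have h1 := H 0 2 3
    have h2 := H 0 1 3
    have h3 := H 0 1 2
    cases s <;> simp [sn] at h0 h1 h2 h3 <;> fin_cases j <;> simp [sn] <;> linarith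

namespace Fr

variable (f : Fr)

theorem gop_d0 (i : Fin 4) (z : E) : f.d i (fun _ => (0 : ℝ)) z = 0 := by simp [d]

theorem nab_v8 (s : Bool) {a w : E → Fin 4 → ℝ} (ha : ∀ i, ContDiff ℝ ∞ fun z => a z i)
    (hw : ∀ i, ContDiff ℝ ∞ fun z => w z i) (i : Fin 4) (z : E) :
    (f.loc s).nab i (fun y => v8 (a y) (w y)) z = v8 (f.n1 i a z) (f.nw s i w z) := by
  have h : ∀ k, f.d i (fun y => v8 (a y) (w y)) z k = f.d i (fun y => v8 (a y) (w y) k) z :=
    fun k => (f.wz_d_clm i (EuclideanSpace.proj k : W8 →L[ℝ] ℝ) (v8_sm ha hw) z).symm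
  change f.d i (fun y => v8 (a y) (w y)) z + lie s (f.Gm i z) (v8 (a z) (w z)) = _
  rw [lie, T8_v8]
  ext (j | p) <;> simp [h, n1, nw]

theorem D_v8 (s : Bool) {a w : E → Fin 4 → ℝ} (ha : ∀ i, ContDiff ℝ ∞ fun z => a z i)
    (hw : ∀ i, ContDiff ℝ ∞ fun z => w z i) (z : E) :
    (f.loc s).D (fun y => v8 (a y) (w y)) z =
      v8 (fun j => -∑ i, ∑ p, sg s p i j * f.nw s i w z p)
        fun p => ∑ i, ∑ j, sg s p i j * f.n1 i a z j := by
  rw [Loc.D]
  simp only [f.nab_v8 s ha hw]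
  simp only [cl, T8_v8]
  ext (j | p) <;> simp [cm, mulVec, dotProduct]

theorem gop_n1 (i : Fin 4) (z : E) : f.n1 i (fun _ => 0) z = 0 := by
  ext j; simp [n1, d]

theorem gop_nw (s : Bool) (i : Fin 4) (z : E) : f.nw s i (fun _ => 0) z = 0 := by
  ext j; simp [nw, d]

/-- On one-forms the (anti-)self-dual part is that of `d a`. -/
theorem D_one (s : Bool) {a : E → Fin 4 → ℝ} (ha : ∀ i, ContDiff ℝ ∞ fun z => a z i) (z : E) :
    ∃ r : ℝ, (f.loc s).D (fun y => v8 (a y) 0) z =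
      v8 0 fun p => if p = 0 then r else 2 * cq s p (f.c2 (ext1 (f.f1 a) z) z) := by
  refine ⟨∑ i, ∑ j, sg s 0 i j * f.n1 i a z j, ?_⟩
  rw [f.D_v8 s (w := fun _ => 0) ha fun _ => contDiff_const]
  congr 1
  · ext j; simp [gop_nw]
  · ext p
    split_ifs with hp
    · rw [hp]
    · rw [gop_cq s hp fun i j => f.n1 i a z j]
      simp only [c2, f.ext1_f1 ha]

/-- On functions the operator is `- d`. -/
theorem D_fun (s : Bool) {g : E → ℝ} (hg : ContDiff ℝ ∞ g) (z : E) :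
    (f.loc s).D (fun y => v8 0 (Pi.single 0 (g y))) z = v8 (fun j => -f.d j g z) 0 := by
  have e : ∀ i, f.nw s i (fun y => Pi.single 0 (g y)) z = Pi.single 0 (f.d i g z) := fun i => by
    ext p
    rw [nw, pi4_eq s (f.Gm_skew i z)]
    fin_cases p <;> simp [gop_d0]
  rw [f.D_v8 s (a := fun _ => 0) (w := fun y => Pi.single 0 (g y)) (fun _ => contDiff_const)
    fun p => by by_cases hp : p = 0 <;> simp [hp, hg, contDiff_const]]
  congr 1
  · ext j
    simp only [e]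
    fin_cases j <;> simp [sg, Fin.sum_univ_four]
  · ext p; simp [gop_n1]

theorem n2_sw (s : Bool) {w : E → Fin 4 → ℝ} (hw : ∀ i, ContDiff ℝ ∞ fun z => w z i) (i : Fin 4)
    (z : E) : f.n2 i (fun y => sw s (w y)) z = sw s (f.nw s i w z) := by
  rw [n2, gop_comm s (f.Gm_skew i z)]
  ext k l
  simp only [Matrix.add_apply, dm, of_apply, sw_apply, nw, Pi.add_apply, mul_add,
    Finset.sum_add_distrib, add_left_inj]
  rw [f.wz_d_sum i _ (u := fun p y => sg s p k l * w y p) fun p => contDiff_const.mul (hw p)]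
  exact Finset.sum_congr rfl fun p _ =>
    f.wz_d_clm i (sg s p k l • ContinuousLinearMap.id ℝ ℝ) (hw p) z

/-- On (anti-)self-dual forms the kernel consists of the closed forms. -/
theorem D_two (s : Bool) {w : E → Fin 4 → ℝ} (hw : ∀ i, ContDiff ℝ ∞ fun z => w z i)
    (h0 : ∀ z, w z 0 = 0) (z : E) : (f.loc s).D (fun y => v8 0 (w y)) z = 0 ↔
      ∀ a b c, ext2 (f.f2 fun y => sw s (w y)) z a b c = 0 := by
  have hN : ∀ i, f.nw s i w z 0 = 0 := fun i => by
    rw [nw, pi4_eq s (f.Gm_skew i z)]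
    simp [h0, gop_d0]
  have e := f.ext2_f2 (B := fun y => sw s (w y)) (fun i j => by
    simp only [sw_apply]
    exact ContDiff.sum fun p _ => contDiff_const.mul (hw p)) (fun y => sw_skew s (h0 y)) z
  simp only [f.n2_sw s hw] at e
  rw [f.D_v8 s (a := fun _ => 0) (fun _ => contDiff_const) hw, v8_eq_zero]
  simp only [← sw_apply]
  constructor
  · refine fun h => f.ext2_zero fun i j k => ?_
    rw [e]
    exact (gop_div s hN).1 (fun j => neg_eq_zero.1 (congrFun h.1 j)) i j k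
  · refine fun h => ⟨funext fun j => neg_eq_zero.2 ((gop_div s hN).2 (fun i j k => ?_) j), ?_⟩
    · rw [← e, h]
    · ext p; simp [gop_n1]

end Fr

end Pool.Agent.Lib.MP_1c0d65_gt.Nz
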