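import Pool.Agent.Lib.MP_1c0d65_gt.Nz.GRho
import Pool.Agent.Lib.MP_1c0d65_gt.Nz.GTr
import Pool.Agent.Lib.MP_1c0d65_gt.Nz.GInt

/-! Green's formula for the operators `d* + d^±`. -/

set_option autoImplicit false
set_option linter.unusedSectionVars false

open scoped Manifold ContDiff Topology
open Set MeasureTheory Function Matrix

noncomputable section

namespace Pool.Agent.Lib.MP_1c0d65_gt.Nz

open Pool.Agent.Lib.MP_1c0d65_gt.PW

variable {X : Type} [TopologicalSpace X] [ChartedSpace E X] [IsManifold 𝓘(ℝ, E) ∞ X]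
  [T2Space X] [CompactSpace X] [MeasurableSpace X] [BorelSpace X] {c : Ctx X}

namespace UA

variable (U : UA c)

theorem gsym_cl {H : M4} (h : Un H) (s : Bool) (i : Fin 4) (x y : W8) :
    inner ℝ (grp s H x) ((cl s).c i (grp s H y)) = ∑ j, H i j * inner ℝ x ((cl s).c j y) := by
  have h1 : grp s Hᵀ * grp s H = 1 := by rw [h.grp_mul, h.1, grp_one]
  have h2 : grp s Hᵀ * (cl s).c i * grp s H = ∑ j, H i j • (cl s).c j := by
    rw [← h.tr.grp_cl s i, Finset.sum_mul]
    refine Finset.sum_congr rfl fun j _ => ?_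
    change Hᵀ j i • ((cl s).c j * grp s Hᵀ * grp s H) = _
    rw [mul_assoc, h1, mul_one]; rfl
  have h3 := congrArg (fun A : W8 →L[ℝ] W8 => inner ℝ x (A y)) h2
  rw [← grp_star, ContinuousLinearMap.star_eq_adjoint] at h3
  simpa [ContinuousLinearMap.adjoint_inner_right, inner_sum, inner_smul_right] using h3

theorem symm (s : Bool) {u v : Fin U.n → E → W8} (hu : ∀ a, ContDiff ℝ ∞ (u a))
    (hv : ∀ a, ContDiff ℝ ∞ (v a))
    (cu : ∀ a b z z', U.ψ a z = U.ψ b z' → u b z' = grp s (U.hm b a (U.ψ a z)) (u a z))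
    (cw : ∀ a b z z', U.ψ a z = U.ψ b z' → v b z' = grp s (U.hm b a (U.ψ a z)) (v a z)) :
    U.I (fun a z => inner ℝ (((U.f a).loc s).D (u a) z) (v a z)) =
      U.I fun a z => inner ℝ (u a z) (((U.f a).loc s).D (v a) z) := by
  let y : Fin U.n → Fin 4 → E → ℝ := fun a k z => inner ℝ (u a z) ((cl s).c k (v a z))
  have hy : ∀ a k, ContDiff ℝ ∞ (y a k) := fun a k =>
    (hu a).inner ℝ (((cl s).c k).contDiff.comp (hv a))
  have c1 : ∀ a, Continuous fun z => inner ℝ (u a z) (((U.f a).loc s).D (v a) z) := fun a =>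
    (hu a).continuous.inner (Loc.D_sm _ (hv a)).continuous
  have c2 : ∀ a, Continuous fun z => inner ℝ (((U.f a).loc s).D (u a) z) (v a z) := fun a =>
    (Loc.D_sm _ (hu a)).continuous.inner (hv a).continuous
  let T : Fin U.n → E → (E →L[ℝ] ℝ) →ₗ[ℝ] ℝ := fun a z =>
    { toFun := fun ξ => ∑ k, ξ ((U.f a).e k z) * y a k z
      map_add' := fun ξ η => by simp [add_mul, Finset.sum_add_distrib]
      map_smul' := fun r ξ => by simp [Finset.mul_sum, mul_assoc] }
  have h := U.I_div (T := T) (q := fun a z => inner ℝ (u a z) (((U.f a).loc s).D (v a) z) +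
      -1 * inner ℝ (((U.f a).loc s).D (u a) z) (v a z))
    (fun a => (c1 a).fun_add ((c2 a).const_mul _))
    (fun a ξ hξ => show Continuous fun z => ∑ k, ξ z ((U.f a).e k z) * y a k z from
      continuous_finsetSum _ fun k _ =>
        (hξ.clm_apply ((U.f a).e_sm k).continuous).mul (hy a k).continuous)
    (fun a b z z' h ξ => ?_) fun a r hr hc => ?_
  · rw [U.I_add c1 (fun a => (c2 a).const_mul _), U.I_mul] at h
    linarith
  · change ∑ k, ξ (U.Φ b z' (bs k)) * y b k z' = ∑ k, ξ (U.Φ a z (bs k)) * y a k z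
    simp only [y, cu a b z z' h, cw a b z z' h, gsym_cl (hm_un h), Φ_hm h, map_sum, map_smul,
      smul_eq_mul, Finset.mul_sum, Finset.sum_mul]
    rw [Finset.sum_comm]
    exact Finset.sum_congr rfl fun j _ => Finset.sum_congr rfl fun i _ => by ring
  · have hg : ∀ k, ContDiff ℝ ∞ fun z => r z * y a k z := fun k => hr.mul (hy a k)
    have hs : ∀ k, HasCompactSupport fun z => r z * y a k z := fun k => hc.mul_right
    have e : ∀ z, (r z * (inner ℝ (u a z) (((U.f a).loc s).D (v a) z) +
        -1 * inner ℝ (((U.f a).loc s).D (u a) z) (v a z)) + T a z (fderiv ℝ r z)) * (U.f a).m z =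
        ∑ k, (U.f a).m z * ((U.f a).d k (fun z => r z * y a k z) z -
          (∑ j, (U.f a).γ k j j z) * (r z * y a k z)) := fun z => by
      have g := ((U.f a).loc s).green ((hu a).differentiable (by simp) z)
        ((hv a).differentiable (by simp) z)
      have d : ∀ k, (U.f a).d k (fun z => r z * y a k z) z =
          (U.f a).d k r z * y a k z + r z * (U.f a).d k (y a k) z :=
        fun k => (U.f a).wz_d_smul k hr (hy a k) z
      rw [neg_one_mul, ← sub_eq_add_neg, g]
      change (r z * ∑ k, ((U.f a).d k (y a k) z - (∑ j, (U.f a).γ k j j z) * y a k z) +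
        ∑ k, (U.f a).d k r z * y a k z) * _ = _
      simp only [d, Fin.sum_univ_four]
      ring
    simp only [e]
    rw [integral_finsetSum _ fun k _ => ?_]
    · exact Finset.sum_eq_zero fun k _ => (U.f a).int_d k ((hg k).of_le (by simp)) (hs k)
    · refine Continuous.integrable_of_hasCompactSupport ((U.f a).m_sm.continuous.mul
        (((U.f a).wz_d k (hg k)).continuous.sub ((continuous_finsetSum _ fun j _ =>
          ((U.f a).wz_γ k j j).continuous).mul (hg k).continuous))) ?_
      refine HasCompactSupport.intro (hs k).isCompact fun z hz => ?_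
      have h1 : fderiv ℝ (fun z => r z * y a k z) z = 0 := by
        rw [(notMem_tsupport_iff_eventuallyEq.1 hz).fderiv_eq]; simp
      rw [Fr.d, h1, image_eq_zero_of_notMem_tsupport hz]
      simp

end UA

end Pool.Agent.Lib.MP_1c0d65_gt.Nz
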