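import Pool.Agent.Lib.MP_1c0d65_gt.Nz.GRho
import Pool.Agent.Lib.MP_1c0d65_gt.Nz.GDens
import Pool.Agent.Lib.MP_1c0d65_gt.Nz.GCurv
import Pool.Agent.Lib.MP_1c0d65_gt.Nz.GLaw
import Pool.Agent.Lib.MP_1c0d65_gt.Nz.GInt
import Pool.Agent.Lib.MP_1c0d65_gt.PW.Pair

/-! The two Dirac systems of an atlas with unitary frames. -/

set_option autoImplicit false
set_option linter.unusedSectionVars false

open scoped Manifold ContDiff Topology
open Set MeasureTheory Function Matrix

noncomputable section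

namespace Pool.Agent.Lib.MP_1c0d65_gt.Nz

open Pool.Agent.Lib.MP_1c0d65_gt.PW

variable {X : Type} [TopologicalSpace X] [ChartedSpace E X] [IsManifold 𝓘(ℝ, E) ∞ X]
  [T2Space X] [CompactSpace X] [MeasurableSpace X] [BorelSpace X] {c : Ctx X}

namespace UA

variable (U : UA c)

theorem gs_emb (a : Fin U.n) : Topology.IsOpenEmbedding (U.ψ a) :=
  (U.ch a).symm.isOpenEmbedding (U.tgt a)

variable {U} in
/-- The covariant derivatives in two frames. -/
theorem gs_nab (s : Bool) {u : Fin U.n → E → W8} (hu : ∀ a, ContDiff ℝ ∞ (u a))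
    (cu : ∀ a b z z', U.ψ a z = U.ψ b z' → u b z' = grp s (U.hm b a (U.ψ a z)) (u a z))
    {a b : Fin U.n} {z z' : E} (h : U.ψ a z = U.ψ b z') (i : Fin 4) :
    ∑ k, U.hm b a (U.ψ a z) k i • ((U.f b).loc s).nab k (u b) z' =
      grp s (U.hm b a (U.ψ a z)) (((U.f a).loc s).nab i (u a) z) := by
  have e1 : (u b ∘ U.τ b a) =ᶠ[𝓝 z] fun y => grp s (U.hm b a (U.ψ a y)) (u a y) :=
    (τ_ev h).mono fun y hy => cu a b y _ hy
  have dt := ((τ_sm h).differentiableAt (by simp)).hasFDerivAt
  have db : HasFDerivAt (u b) (fderiv ℝ (u b) z') (U.τ b a z) := by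
    rw [τ_eq h]; exact ((hu b).differentiable (by simp) z').hasFDerivAt
  have dg := ((grp_smooth s (hm_sm h)).differentiableAt (by simp)).hasFDerivAt
  have da := ((hu a).differentiable (by simp) z).hasFDerivAt
  have e2 := congrArg (fun L : E →L[ℝ] W8 => L ((U.f a).e i z))
    (((db.comp z dt).congr_of_eventuallyEq e1.symm).unique (dg.clm_apply da))
  have e3 := grp_fderiv s (fun i j => (hm_sm h i j).differentiableAt (by simp)) ((U.f a).e i z)
  simp only [ContinuousLinearMap.comp_apply, _root_.add_apply, ContinuousLinearMap.flip_apply,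
    τ_e h,
    map_sum, map_smul, e3] at e2
  have sk : (∑ k, U.hm b a (U.ψ a z) k i • (U.f b).Gm k z')ᵀ =
      -∑ k, U.hm b a (U.ψ a z) k i • (U.f b).Gm k z' := by
    simp only [transpose_sum, transpose_smul, Fr.Gm_skew, smul_neg, Finset.sum_neg_distrib]
  have e4 := congrArg (fun L : W8 →L[ℝ] W8 => L (u a z))
    ((hm_un h).grp_law ((U.f a).Gm_skew i z) sk (hm_law h i) s)
  have e5 : lie s (∑ k, U.hm b a (U.ψ a z) k i • (U.f b).Gm k z') =
      ∑ k, U.hm b a (U.ψ a z) k i • lie s ((U.f b).Gm k z') := by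
    change lieL s _ = ∑ k, _ • lieL s _
    simp only [map_sum, map_smul]
  simp only [e5, _root_.add_apply, mul_apply_eq_comp, _root_.sum_apply, _root_.smul_apply,
    ← cu a b z z' h] at e4
  change ∑ k, U.hm b a (U.ψ a z) k i • (fderiv ℝ (u b) z' ((U.f b).e k z') +
      lie s ((U.f b).Gm k z') (u b z')) = grp s (U.hm b a (U.ψ a z))
    (fderiv ℝ (u a) z ((U.f a).e i z) + lie s ((U.f a).Gm i z) (u a z))
  simp only [smul_add, Finset.sum_add_distrib, map_add]
  rw [e2, ← e4, add_assoc]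
  rfl

variable {U} in
/-- The Dirac operators in two frames. -/
theorem gs_cov (s : Bool) {u : Fin U.n → E → W8} (hu : ∀ a, ContDiff ℝ ∞ (u a))
    (cu : ∀ a b z z', U.ψ a z = U.ψ b z' → u b z' = grp s (U.hm b a (U.ψ a z)) (u a z))
    {a b : Fin U.n} {z z' : E} (h : U.ψ a z = U.ψ b z') :
    ((U.f b).loc s).D (u b) z' = grp s (U.hm b a (U.ψ a z)) (((U.f a).loc s).D (u a) z) := by
  have e1 := gs_nab s hu cu h
  have e2 := (hm_un h).grp_cl s
  have e3 := mul_eq_one_comm.1 (hm_un h).1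
  generalize U.hm b a (U.ψ a z) = H at e1 e2 e3
  have e4 : ∀ j w, grp s H ((cl s).c j w) = ∑ i, H i j • (cl s).c i (grp s H w) := fun j w => by
    have := congrArg (fun L : W8 →L[ℝ] W8 => L w) (e2 j)
    simpa only [mul_apply_eq_comp, _root_.sum_apply, _root_.smul_apply] using this.symm
  have e5 : ∀ i k, ∑ j, H i j * H k j = if i = k then 1 else 0 := fun i k => by
    simpa only [mul_apply, transpose_apply, one_apply] using congrFun (congrFun e3 i) k
  simp only [Loc.D, map_sum, e4, ← e1, map_smul, Finset.smul_sum, smul_smul]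
  rw [Finset.sum_comm]
  refine Finset.sum_congr rfl fun i _ => ?_
  rw [Finset.sum_comm]
  simp only [← Finset.sum_smul, e5, ite_smul, one_smul, zero_smul, Finset.sum_ite_eq,
    Finset.mem_univ, if_true]

def sys (s : Bool) : Sys X c.μ (cl s) where
  n := U.n
  ψ := U.ψ
  emb := U.gs_emb
  tr a b := by
    rintro z ⟨z', h⟩
    refine (τ_sm h.symm).contDiffWithinAt.congr ?_ ?_
    · rintro y ⟨y', k⟩
      rw [τ_eq k.symm, ← k, leftInverse_invFun (U.gs_emb b).injective]
    · rw [τ_eq h.symm, ← h, leftInverse_invFun (U.gs_emb b).injective]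
  L a := (U.f a).loc s
  strE a z := by rw [Fr.loc_En]; exact ((U.f a).curv z).strE s
  κ := 2
  hκ := two_pos
  vol a S hS := by
    rw [c.measure_plot (fun y _ => (U.ψ_sm a y).of_le (by simp)) hS (U.gs_emb a).injective.injOn]
    simp only [U.jac, abs_mul, abs_two]
    rfl
  ρ a z := U.ρ a (U.ψ a z)
  hρ a := contDiff_iff_contDiffAt.2 fun z =>
    ((U.hρ a).contMDiffAt.comp z (U.ψ_sm a z)).contDiffAt
  cρ a := by
    refine HasCompactSupport.intro (((isClosed_tsupport (U.ρ a)).isCompact).image_of_continuousOn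
      ((U.ch a).continuousOn.mono (U.sρ a))) fun z hz => ?_
    by_contra k
    exact hz ⟨_, subset_tsupport _ k, U.ch_ψ a z⟩
  sum x := by
    rw [← U.sum x]
    refine Finset.sum_congr rfl fun a _ => ?_
    by_cases h : ∃ z, U.ψ a z = x
    · obtain ⟨z, rfl⟩ := h
      exact (U.gs_emb a).injective.extend_apply _ _ z
    · rw [extend_apply' _ _ _ h]
      exact (image_eq_zero_of_notMem_tsupport fun k => h ⟨_, U.ψ_ch (U.sρ a k)⟩).symm
  h a b x := grp s (U.hm a b x)
  h_self a z := by rw [hm_self, grp_one]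
  h_coc a b d x ha hb hd := by
    obtain ⟨z, rfl⟩ := id hd
    obtain ⟨z', k⟩ := id hb
    rw [U.range_ψ] at ha hb hd
    rw [(hm_un k.symm).grp_mul, hm_coc ha hb hd]
  h_star a b x ha hb := by
    rw [U.range_ψ] at ha hb
    rw [grp_star, hm_tr ha hb]
  h_even a b x _ _ := grp_even s _
  h_sm a b := by
    rintro z ⟨z', h⟩
    exact (grp_smooth s (hm_sm h.symm)).contDiffWithinAt
  cov u hu cu a b z z' h := gs_cov s hu cu h

end UA

end Pool.Agent.Lib.MP_1c0d65_gt.Nz
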