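import Pool.Agent.Lib.MP_1c0d65_gt.Nz.GRho
import Pool.Agent.Lib.MP_1c0d65_gt.Nz.GFr
import Pool.Agent.Lib.MP_1c0d65_gt.Nz.GOp
import Pool.Agent.Lib.MP_1c0d65_gt.Nz.GTr
import Pool.Agent.Lib.MP_1c0d65_gt.Nz.GGl
import Pool.Agent.Lib.MP_1c0d65_gt.Nz.GInt
import Pool.Agent.Lib.MP_1c0d65_gt.Nz.GSys
import Pool.Agent.Lib.MP_1c0d65_gt.Nz.GSym

/-! The odd kernel of the self-dual system vanishes. -/

set_option autoImplicit false
set_option linter.unusedSectionVars false

open scoped Manifold ContDiff Topology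
open Set MeasureTheory Function Matrix

noncomputable section

namespace Pool.Agent.Lib.MP_1c0d65_gt.Nz

open Pool.Agent.Lib.MP_1c0d65_gt.PW

variable {X : Type} [TopologicalSpace X] [ChartedSpace E X] [IsManifold 𝓘(ℝ, E) ∞ X]
  [T2Space X] [CompactSpace X] [MeasurableSpace X] [BorelSpace X] {c : Ctx X}

theorem gh1_l (a w : Fin 4 → ℝ) (i : Fin 4) : v8 a w (.inl i) = a i := rfl

theorem gh1_r (a w : Fin 4 → ℝ) (i : Fin 4) : v8 a w (.inr i) = w i := rfl

/-- An anti-self-dual matrix has non-positive square. -/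
theorem gh1_asd {B : M4} (h : Bᵀ = -B) (h0 : ∀ p, p ≠ 0 → cq true p B = 0) :
    wg B B ≤ 0 ∧ (wg B B = 0 → B = 0) := by
  obtain ⟨e, e1, e2⟩ := skew_split h
  have z : (fun p => cq true p B) = 0 := funext fun p => by
    by_cases hp : p = 0
    · rw [hp]; exact e1
    · exact h0 p hp
  have s0 : ∀ s, sw s 0 = 0 := fun s => by simp [sw]
  rw [z, s0, zero_add] at e
  have k := wg_sw false (w := fun p => cq false p B) (w' := fun p => cq false p B) e2 e2
  rw [← e] at k
  have n : 0 ≤ (fun p => cq false p B) ⬝ᵥ fun p => cq false p B :=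
    Finset.sum_nonneg fun p _ => mul_self_nonneg _
  have t : sn false = -1 := by simp [sn]
  rw [t] at k
  refine ⟨by linarith, fun h1 => ?_⟩
  rw [e, dotProduct_self_eq_zero.1 (by linarith : (fun p => cq false p B) ⬝ᵥ
    (fun p => cq false p B) = 0), s0]

namespace UA

variable (U : UA c)

/-- The wedge product in a unitary frame is a function on the manifold. -/
theorem gh1_wg {α β : X → Bil E ℝ} (hα : ∀ x v, α x v v = 0) (hβ : ∀ x v, β x v v = 0)
    (ho : ∀ x v, c.om x v v = 0) (a : Fin U.n) (z : E) :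
    wg ((U.f a).c2 (pull2 (U.ψ a) α z) z) ((U.f a).c2 (pull2 (U.ψ a) β z) z) =
      2 * wedge (α (U.ψ a z)) (β (U.ψ a z)) / wedge (c.om (U.ψ a z)) (c.om (U.ψ a z)) := by
  have h1 := (U.f a).wedge_c2 (α := pull2 (U.ψ a) α z) (β := pull2 (U.ψ a) β z)
    (fun v => hα _ _) (fun v => hβ _ _) z
  have h2 := U.jac a z
  rw [wedge_pull2 _ _ (hα _) (hβ _)] at h1
  rw [wedge_pull2 _ _ (ho _) (ho _)] at h2
  have h3 : ((U.f a).θ z).det ≠ 0 := left_ne_zero_of_mul_eq_one ((U.f a).det_mul z)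
  have h4 : wedge (c.om (U.ψ a z)) (c.om (U.ψ a z)) ≠ 0 := fun h => by
    rw [h, mul_zero] at h2
    exact h3 (by linarith)
  rw [eq_div_iff h4]
  refine mul_left_cancel₀ h3 ?_
  linear_combination (-wedge (c.om (U.ψ a z)) (c.om (U.ψ a z))) * h1 +
    wedge (α (U.ψ a z)) (β (U.ψ a z)) * h2

/-- A one-form with anti-self-dual derivative is closed. -/
theorem gh1_closed {α : X → E →L[ℝ] ℝ} (hα : Sm1 univ α)
    (h : ∀ a z p, p ≠ 0 → cq true p ((U.f a).c2 (ext1 (pull1 (U.ψ a) α) z) z) = 0) :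
    IsD univ α 0 := by
  have hD := hα.isD isOpen_univ
  have hF := hD.form isOpen_univ
  have e : ∀ a z, pull2 (U.ψ a) (dform α) z = ext1 (pull1 (U.ψ a) α) z := fun a z =>
    hD.pull isOpen_univ ((U.ψ_sm a z).of_le two_le) (mem_univ _)
  have ho : ∀ x v, c.om x v v = 0 := fun x v => by
    obtain ⟨a, ha⟩ := U.cover x
    have h1 := U.Φ_om a (U.ch a x) (U.Ψ a (U.ψ a (U.ch a x)) v) (U.Ψ a (U.ψ a (U.ch a x)) v)
    rw [U.ΦΨ, U.ψ_ch ha] at h1
    rw [h1, bil_apply]
    simp [sg, Fin.sum_univ_four]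
    ring
  have hq := fun a z => gh1_asd (B := (U.f a).c2 (pull2 (U.ψ a) (dform α) z) z)
    (by
      ext i j
      exact bil_skew (fun v => hF.1 _ (mem_univ _) _) _ _)
    (by rw [e]; exact h a z)
  have hI := U.Q_eq hF hF
  rw [Q_exact hD hD.closed] at hI
  have hc : ∀ a i j, Continuous fun z => (U.f a).c2 (pull2 (U.ψ a) (dform α) z) z i j :=
    fun a i j => ((continuous_iff_continuousAt.2 fun z =>
      (hF.smooth isOpen_univ (U.ψ_sm a z) (mem_univ _)).continuousAt).clm_apply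
        ((U.f a).wz_e i).continuous).clm_apply ((U.f a).wz_e j).continuous
  have h0 := U.I_def (q := fun a z => (-1) * wg ((U.f a).c2 (pull2 (U.ψ a) (dform α) z) z)
      ((U.f a).c2 (pull2 (U.ψ a) (dform α) z) z))
    (fun a => by
      have := hc a
      simp only [wg]
      fun_prop)
    (fun a z => by linarith [(hq a z).1])
    (fun a b z z' hz => by
      simp only [U.gh1_wg (fun x => hF.1 x (mem_univ _)) (fun x => hF.1 x (mem_univ _)) ho, hz])
    (by rw [U.I_mul, ← hI, mul_zero])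
  have hz : dform α = 0 := eq_of_pull2 (U := U) fun a z => by
    have h1 := (hq a z).2 (by linarith [h0 a z])
    have h2 := congrFun ((U.f a).f2_c2 (pull2 (U.ψ a) (dform α))) z
    rw [← h2]
    refine bil_ext fun v w => ?_
    simp [Fr.f2, h1, bil_apply]
  rwa [hz] at hD

theorem ker_odd (h : H1 X) : (U.sys true).ker (-1) = ⊥ := by
  refine eq_bot_iff.2 fun (u : Fin U.n → E → W8) hu => ?_
  obtain ⟨hs, cp, hD, hε⟩ := hu
  replace cp : ∀ a b z z', U.ψ a z = U.ψ b z' →
    u b z' = grp true (U.hm b a (U.ψ a z)) (u a z) := cp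
  replace hD : ∀ a z, ((U.f a).loc true).D (u a) z = 0 := hD
  obtain ⟨A, rfl⟩ : ∃ A : Fin U.n → E → Fin 4 → ℝ, u = fun a z => v8 (A a z) 0 := by
    refine ⟨fun a z i => u a z (.inl i), funext fun a => funext fun z => ?_⟩
    have h1 := hε a z
    rw [← v8_eta (u a z), eps_v8] at h1
    rw [← v8_eta (u a z)]
    congr 1
    funext p
    have h2 := congrArg (fun x : W8 => x (.inr p)) h1
    simp only [PiLp.smul_apply, gh1_r, smul_eq_mul] at h2
    simp only [Pi.zero_apply]
    linarith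
  have hA : ∀ a i, ContDiff ℝ ∞ fun z => A a z i := fun a i =>
    contDiff_euclidean.1 (hs a) (.inl i)
  have cA : ∀ a b z z', U.ψ a z = U.ψ b z' → A b z' = U.hm b a (U.ψ a z) *ᵥ A a z :=
    fun a b z z' e => funext fun i => by
      have h1 := cp a b z z' e
      rw [grp_v8] at h1
      exact congrArg (fun x : W8 => x (.inl i)) h1
  obtain ⟨g, hg, hd⟩ := h _ (U.gh1_closed (gl1_sm cA hA) fun a z p hp => by
    obtain ⟨r, hr⟩ := (U.f a).D_one true (hA a) z
    have h1 := congrArg (fun x : W8 => x (.inr p)) (hr.symm.trans (hD a z))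
    simp only [gh1_r, if_neg hp, PiLp.zero_apply] at h1
    rw [gl1_eq cA]
    linarith)
  have hG : ∀ a, ContDiff ℝ ∞ (g ∘ U.ψ a) := fun a =>
    contDiff_iff_contDiffAt.2 fun z => FnAt.comp_plot (hg _) (U.ψ_sm a z)
  have hv : ∀ a z, ((U.f a).loc true).D (fun y => v8 0 (Pi.single 0 ((g ∘ U.ψ a) y))) z =
      v8 (-A a z) 0 := fun a z => by
    rw [(U.f a).D_fun true (hG a)]
    congr 1
    funext j
    rw [Fr.d, ← pull1_dfn ((hg _).mdifferentiableAt (by simp)) ((U.ψ_sm a z).dfAt (by simp)),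
      funext hd, gl1_eq cA, Fr.f1_e, Pi.neg_apply]
  have hI := U.symm true (v := fun a y => v8 0 (Pi.single 0 ((g ∘ U.ψ a) y))) hs
    (fun a => v8_sm (fun _ => contDiff_const) fun i => by
      by_cases hi : i = 0
      · simpa [hi, Function.comp_def] using hG a
      · simpa [hi] using contDiff_const) cp
    fun a b z z' e => by
      rw [grp_v8, mulVec_zero]
      congr 1
      funext q
      rw [mulVec_single]
      by_cases hq : q = 0 <;> simp [← e, fun q => ((hm_un e).rho_zero true q).1, hq]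
  simp only [hD, hv, inner_zero_left, inner_v8, dotProduct_neg, dotProduct_zero, add_zero] at hI
  have h0 := U.I_def (q := fun a z => A a z ⬝ᵥ A a z)
    (fun a => continuous_finsetSum _ fun i _ => (hA a i).continuous.mul (hA a i).continuous)
    (fun a z => Finset.sum_nonneg fun i _ => mul_self_nonneg _)
    (fun a b z z' e => by
      rw [cA a b z z' e, dotProduct_mulVec, vecMul_mulVec, (hm_un e).1, vecMul_one])
    (by
      have h1 := U.I_mul (-1) fun a z => A a z ⬝ᵥ A a z
      have h2 := U.I_mul 0 fun _ _ => 0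
      simp only [neg_one_mul, zero_mul] at h1 h2
      linarith)
  funext a z
  rw [dotProduct_self_eq_zero.1 (h0 a z)]
  ext (i | i) <;> rfl

end UA

end Pool.Agent.Lib.MP_1c0d65_gt.Nz
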