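import Pool.Agent.Lib.MP_1c0d65_gt.Nz.GSys
import Pool.Agent.Lib.MP_1c0d65_gt.Nz.GOp

/-! The constants and the symplectic form lie in the cokernel of `d* + d^+`. -/

set_option autoImplicit false
set_option linter.unusedSectionVars false

open scoped Manifold ContDiff Topology
open Set MeasureTheory Function Matrix

noncomputable section

namespace Pool.Agent.Lib.MP_1c0d65_gt.Nz

open Pool.Agent.Lib.MP_1c0d65_gt.PW

variable {X : Type} [TopologicalSpace X] [ChartedSpace E X] [IsManifold 𝓘(ℝ, E) ∞ X]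
  [T2Space X] [CompactSpace X] [MeasurableSpace X] [BorelSpace X] {c : Ctx X}

namespace UA

variable (U : UA c)

theorem gh2_mem (k : Fin 4) (hk : k = 0 ∨ k = 1) :
    (fun _ _ => v8 0 (Pi.single k 1)) ∈ (U.sys true).ker 1 := by
  refine ⟨fun _ => contDiff_const, fun a b z z' h => ?_, fun a z => ?_, fun a z => ?_⟩
  · obtain ⟨p, q, -, e⟩ := (hm_un (U := U) h).rho_true
    change _ = grp true (U.hm b a (U.ψ a z)) _
    rw [grp_v8, e, mulVec_zero]
    refine congrArg (v8 0) (funext fun i => ?_)
    rcases hk with rfl | rfl <;> fin_cases i <;> simp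
  · change ((U.f a).loc true).D _ z = 0
    rcases hk with rfl | rfl
    · rw [(U.f a).D_fun true (g := fun _ => 1) contDiff_const]
      ext (i | i) <;> simp [v8, Fr.d]
    · refine ((U.f a).D_two true (w := fun _ => Pi.single 1 1) (fun _ => contDiff_const)
        (fun _ => by simp) z).2 fun u v w => ?_
      have e : ((U.f a).f2 fun _ => sw true (Pi.single 1 1)) = pull2 (U.ψ a) c.om := by
        funext y
        refine Eq.trans ?_ (U.hom a y).symm
        simp [sw, Pi.single_apply]
      rw [e]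
      exact c.hom.pull ((U.ψ_sm a z).of_le two_le) u v w
  · rw [eps_v8, neg_zero, one_smul]

theorem ker_plus [Nonempty X] [FiniteDimensional ℝ ((U.sys true).ker 1)] :
    2 ≤ Module.finrank ℝ ((U.sys true).ker 1) := by
  obtain ⟨a, -⟩ := U.cover (Classical.arbitrary X)
  let v : Fin 2 → (U.sys true).ker 1 :=
    ![⟨_, U.gh2_mem 0 (.inl rfl)⟩, ⟨_, U.gh2_mem 1 (.inr rfl)⟩]
  have h : LinearIndependent ℝ v := by
    refine LinearIndependent.pair_iff.2 fun s t h => ?_
    have h1 : ∀ i, (s • v8 0 (Pi.single 0 1) + t • v8 0 (Pi.single 1 1)) (.inr i) = 0 :=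
      fun i => congrArg (fun u : (U.sys true).ker 1 => u.1 a 0 (.inr i)) h
    exact ⟨by simpa [v8] using h1 0, by simpa [v8] using h1 1⟩
  simpa using h.fintype_card_le_finrank

end UA

end Pool.Agent.Lib.MP_1c0d65_gt.Nz
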