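import Pool.Agent.Lib.MP_1c0d65_gt.Nz.GRho
import Pool.Agent.Lib.MP_1c0d65_gt.Nz.GFr
import Pool.Agent.Lib.MP_1c0d65_gt.Nz.GOp
import Pool.Agent.Lib.MP_1c0d65_gt.Nz.GTr
import Pool.Agent.Lib.MP_1c0d65_gt.Nz.GGl
import Pool.Agent.Lib.MP_1c0d65_gt.Nz.GInt
import Pool.Agent.Lib.MP_1c0d65_gt.Nz.GSys
import Pool.Agent.Lib.MP_1c0d65_gt.Nz.GSym

/-! The even kernel of the anti-self-dual system embeds in the second cohomology. -/

set_option autoImplicit false
set_option linter.unusedSectionVars false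

open scoped Manifold ContDiff Topology
open Set MeasureTheory Function Matrix

noncomputable section

namespace Pool.Agent.Lib.MP_1c0d65_gt.Nz

open Pool.Agent.Lib.MP_1c0d65_gt.PW

/-- The form part. -/
def h3w (x : W8) (p : Fin 4) : ℝ := if p = 0 then 0 else x (.inr p)

/-- The matrix of the two-form attached to a vector. -/
def h3B (x : W8) : M4 := sw false (h3w x) + sw true (Pi.single 1 (x (.inr 0)))

theorem h3_sw_add (s : Bool) (w w' : Fin 4 → ℝ) : sw s (w + w') = sw s w + sw s w' := by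
  simp only [sw, Pi.add_apply, add_smul, Finset.sum_add_distrib]

theorem h3_sw_smul (s : Bool) (r : ℝ) (w : Fin 4 → ℝ) : sw s (r • w) = r • sw s w := by
  simp only [sw, Pi.smul_apply, smul_eq_mul, mul_smul, Finset.smul_sum]

theorem h3_sw_one (r : ℝ) : sw true (Pi.single 1 r) = r • sg true 1 := by
  simp [sw, Pi.single_apply]

theorem h3B_add (x y : W8) : h3B (x + y) = h3B x + h3B y := by
  have h : h3w (x + y) = h3w x + h3w y := by
    funext p; by_cases hp : p = 0 <;> simp [h3w, hp]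
  simp only [h3B, h, h3_sw_add, h3_sw_one, PiLp.add_apply, add_smul]; abel

theorem h3B_smul (r : ℝ) (x : W8) : h3B (r • x) = r • h3B x := by
  have h : h3w (r • x) = r • h3w x := by
    funext p; by_cases hp : p = 0 <;> simp [h3w, hp]
  simp only [h3B, h, h3_sw_smul, h3_sw_one, PiLp.smul_apply, smul_eq_mul, smul_add, mul_smul]

theorem h3_wg_add (A B B' : M4) : wg A (B + B') = wg A B + wg A B' := by
  simp only [wg, Matrix.add_apply]; ring

theorem h3_wg_comm (A B : M4) : wg A B = wg B A := by simp only [wg]; ring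

theorem h3_norm {H : M4} (h : Un H) (s : Bool) (x : W8) :
    inner ℝ (grp s H x) (grp s H x) = inner ℝ x x := by
  rw [← ContinuousLinearMap.adjoint_inner_right, ← ContinuousLinearMap.star_eq_adjoint, grp_star,
    ← mul_apply_eq_comp, h.grp_mul, h.1, grp_one, one_apply_eq_self]

theorem h3_even {s : Bool} {x : W8} (h : (cl s).ε x = (1 : ℝ) • x) :
    x = v8 0 fun p => x (.inr p) := by
  rw [one_smul] at h
  have h1 := eps_v8 s (fun i => x (.inl i)) fun p => x (.inr p)
  rw [v8_eta, h] at h1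
  have h2 : (fun i => x (.inl i)) = 0 := by
    funext i
    have := congrArg (fun y : W8 => y (.inl i)) h1
    simp only [v8, Sum.elim_inl, Pi.neg_apply] at this
    simp only [Pi.zero_apply]; linarith
  rw [← h2, v8_eta]

theorem h3_split {s : Bool} {x : W8} (h : (cl s).ε x = (1 : ℝ) • x) :
    x = v8 0 (Pi.single 0 (x (.inr 0))) + v8 0 (h3w x) := by
  have h1 := h3_even h
  ext (i | p)
  · rw [h1]; simp [v8]
  · by_cases hp : p = 0 <;> simp [v8, h3w, hp]

theorem h3_cp {s : Bool} {H : M4} (h : Un H) {x y : W8} (hx : (cl s).ε x = (1 : ℝ) • x)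
    (e : y = grp s H x) : y (.inr 0) = x (.inr 0) ∧ h3w y = rho s H *ᵥ h3w x ∧
      Pi.single 0 (y (.inr 0)) = rho s H *ᵥ Pi.single 0 (x (.inr 0)) := by
  rw [h3_even hx, grp_v8] at e
  have e' : ∀ p, y (.inr p) = ∑ q, rho s H p q * x (.inr q) := fun p => by
    rw [e]; simp [v8, mulVec, dotProduct]
  have r0 := fun q => (h.rho_zero s q).1
  have r1 := fun q => (h.rho_zero s q).2
  have e0 : y (.inr 0) = x (.inr 0) := by simp [e', r1]
  refine ⟨e0, funext fun p => ?_, funext fun p => ?_⟩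
  · by_cases hp : p = 0
    · simp [hp, h3w, mulVec, dotProduct, r1, Fin.sum_univ_four]
    · simp [hp, h3w, mulVec, dotProduct, e', Fin.sum_univ_four, r0]
  · by_cases hp : p = 0 <;> simp [hp, e0, mulVec, dotProduct, Pi.single_apply, r0]

theorem h3_co {u : E → W8} (hu : ContDiff ℝ ∞ u) (k : I8) : ContDiff ℝ ∞ fun z => u z k :=
  (EuclideanSpace.proj (𝕜 := ℝ) k).contDiff.comp hu

theorem h3w_sm {u : E → W8} (hu : ContDiff ℝ ∞ u) (p : Fin 4) : ContDiff ℝ ∞ fun z => h3w (u z) p := by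
  by_cases hp : p = 0
  · simp only [h3w, hp, if_true]; exact contDiff_const
  · simp only [h3w, hp, if_false]; exact h3_co hu _

theorem h3_single_sm {g : E → ℝ} (hg : ContDiff ℝ ∞ g) (q p : Fin 4) :
    ContDiff ℝ ∞ fun z => (Pi.single q (g z) : Fin 4 → ℝ) p := by
  by_cases hp : p = q
  · simp only [hp, Pi.single_eq_same]; exact hg
  · simp only [Pi.single_eq_of_ne hp]; exact contDiff_const

theorem h3_sw_sm (s : Bool) {w : E → Fin 4 → ℝ} (hw : ∀ p, ContDiff ℝ ∞ fun z => w z p)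
    (i j : Fin 4) : ContDiff ℝ ∞ fun z => sw s (w z) i j := by
  simp only [sw, Matrix.sum_apply, Matrix.smul_apply, smul_eq_mul]
  exact ContDiff.sum fun p _ => (hw p).mul contDiff_const

variable {X : Type} [TopologicalSpace X] [ChartedSpace E X] [IsManifold 𝓘(ℝ, E) ∞ X]
  [T2Space X] [CompactSpace X] [MeasurableSpace X] [BorelSpace X] {c : Ctx X}

namespace UA

variable {U : UA c} {u : Fin U.n → E → W8}

theorem h3_d (hu : u ∈ (U.sys false).ker 1) (a : Fin U.n) (z : E) :
    fderiv ℝ (fun y => u a y (.inr 0)) z = 0 ∧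
      ((U.f a).loc false).D (fun y => v8 0 (h3w (u a y))) z = 0 := by
  obtain ⟨sm, cp, hD, ev⟩ := hu
  have z0 : ∀ i, ContDiff ℝ ∞ fun _ : E => (0 : Fin 4 → ℝ) i := fun _ => contDiff_const
  have sg := fun a => h3_co (sm a) (.inr 0)
  have s1 := fun a => v8_sm z0 (h3_single_sm (sg a) 0)
  have s2 := fun a => v8_sm z0 (h3w_sm (sm a))
  have c2 : ∀ a b z z', U.ψ a z = U.ψ b z' →
      v8 0 (h3w (u b z')) = grp false (U.hm b a (U.ψ a z)) (v8 0 (h3w (u a z))) :=
    fun a b z z' h => by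
      rw [grp_v8, mulVec_zero, ← (h3_cp (hm_un h) (ev a z) (cp a b z z' h)).2.1]
  have hv : ∀ a z, ((U.f a).loc false).D (fun y => v8 0 (h3w (u a y))) z =
      v8 (fun j => (U.f a).d j (fun y => u a y (.inr 0)) z) 0 := fun a z => by
    have h1 := Loc.D_add ((U.f a).loc false) (s1 a) (s2 a) z
    have h2 : ((fun y => v8 0 (Pi.single 0 (u a y (.inr 0)))) + fun y => v8 0 (h3w (u a y))) =
        u a := funext fun y => (h3_split (ev a y)).symm
    rw [h2, show ((U.f a).loc false).D (u a) z = 0 from hD a z, Fr.D_fun _ _ (sg a)] at h1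
    rw [eq_neg_of_add_eq_zero_right h1.symm]
    ext (i | p) <;> simp [v8]
  have cv : ∀ a b z z', U.ψ a z = U.ψ b z' →
      ((U.f b).loc false).D (fun y => v8 0 (h3w (u b y))) z' = grp false (U.hm b a (U.ψ a z))
        (((U.f a).loc false).D (fun y => v8 0 (h3w (u a y))) z) :=
    (U.sys false).cov _ s2 c2
  have sv := fun a => ((U.f a).loc false).wz_D (s2 a)
  have h1 := U.symm false s2 sv c2 cv
  have h2 : ∀ a z, inner ℝ (v8 0 (h3w (u a z))) (((U.f a).loc false).D
      (((U.f a).loc false).D fun y => v8 0 (h3w (u a y))) z) = 0 := fun a z => by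
    obtain ⟨r, hr⟩ := (U.f a).D_one false (fun j => (U.f a).wz_d j (sg a)) z
    have h3 : ((U.f a).f1 fun y j => (U.f a).d j (fun y => u a y (.inr 0)) y) =
        fderiv ℝ fun y => u a y (.inr 0) := (U.f a).f1_self _
    rw [funext (hv a), hr, h3, ext1_fderiv ((sg a).contDiffAt.of_le (by decide)), inner_v8]
    simp [h3w, dotProduct, cq, Fr.c2]
  simp only [h2] at h1
  have h3 : U.I (fun _ _ => 0) = 0 := by simp [I]
  have h4 := U.I_def (fun a => (sv a).continuous.inner (sv a).continuous)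
    (fun a z => real_inner_self_nonneg) (fun a b z z' h => by rw [cv a b z z' h, h3_norm (hm_un h)])
    (h1.trans h3) a z
  rw [inner_self_eq_zero] at h4
  refine ⟨?_, h4⟩
  refine ContinuousLinearMap.ext fun v => ?_
  rw [hv] at h4
  have h5 : ∀ j, fderiv ℝ (fun y => u a y (.inr 0)) z ((U.f a).e j z) = 0 := fun j =>
    congrArg (fun y : W8 => y (.inl j)) h4
  rw [← (U.f a).wz_expand z v]
  simp [h5]

theorem h3_c1 (hu : u ∈ (U.sys false).ker 1) : ∀ a b z z', U.ψ a z = U.ψ b z' →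
    sw false (h3w (u b z')) = U.hm b a (U.ψ a z) * sw false (h3w (u a z)) * (U.hm b a (U.ψ a z))ᵀ :=
  fun a b z z' h => by
    rw [(hm_un h).conj_sw, ← (h3_cp (hm_un h) (hu.2.2.2 a z) (hu.2.1 a b z z' h)).2.1]

theorem h3_c2 (hu : u ∈ (U.sys false).ker 1) : ∀ a b z z', U.ψ a z = U.ψ b z' →
    sw true (Pi.single 1 (u b z' (.inr 0))) =
      U.hm b a (U.ψ a z) * sw true (Pi.single 1 (u a z (.inr 0))) * (U.hm b a (U.ψ a z))ᵀ :=
  fun a b z z' h => by
    rw [(h3_cp (hm_un h) (hu.2.2.2 a z) (hu.2.1 a b z z' h)).1, h3_sw_one, Matrix.mul_smul,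
      (hm_un h).2, Matrix.smul_mul, Matrix.mul_assoc, mul_eq_one_comm.1 (hm_un h).1, mul_one]

theorem h3_cl1 (hu : u ∈ (U.sys false).ker 1) :
    Closed (U.gl2 fun a z => sw false (h3w (u a z))) := by
  refine U.closed_of (gl2_form (h3_c1 hu) (fun a => h3_sw_sm _ (h3w_sm (hu.1 a)))
    fun a z => sw_skew _ rfl) fun a z => ?_
  rw [gl2_eq (h3_c1 hu)]
  exact ((U.f a).D_two false (h3w_sm (hu.1 a)) (fun _ => rfl) z).1 (h3_d hu a z).2

theorem h3_cl2 (hu : u ∈ (U.sys false).ker 1) :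
    Closed (U.gl2 fun a z => sw true (Pi.single 1 (u a z (.inr 0)))) := by
  refine U.closed_of (gl2_form (h3_c2 hu) (fun a => h3_sw_sm _ (h3_single_sm (h3_co (hu.1 a) _) 1))
    fun a z => sw_skew _ (by simp)) fun a z p q r => ?_
  rw [gl2_eq (h3_c2 hu)]
  have k : ∀ y, u a y (.inr 0) = u a z (.inr 0) := fun y => is_const_of_fderiv_eq_zero
    ((h3_co (hu.1 a) _).differentiable (by simp)) (fun y => (h3_d hu a y).1) y z
  have e : ((U.f a).f2 fun y => sw true (Pi.single 1 (u a y (.inr 0)))) =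
      u a z (.inr 0) • pull2 (U.ψ a) c.om := by
    funext y
    rw [Pi.smul_apply, show pull2 (U.ψ a) c.om y = _ from U.hom a y]
    refine bil_ext fun v w => ?_
    simp only [Fr.f2, k, h3_sw_one, ContinuousLinearMap.bilinearComp_apply, bil_apply,
      Matrix.smul_apply, smul_eq_mul, _root_.smul_apply, Finset.mul_sum, mul_assoc]
  have d : DifferentiableAt ℝ (pull2 (U.ψ a) c.om) z := by
    have e1 : pull2 (U.ψ a) c.om = (U.f a).f2 fun _ => sg true 1 := funext (U.hom a)
    have e2 : ContDiff ℝ ∞ ((U.f a).f2 fun _ => sg true 1) :=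
      (U.f a).f2_sm (B := fun _ => sg true 1) fun _ _ => contDiff_const
    rw [e1]
    exact e2.differentiable (by simp) z
  rw [e, ext2_smul _ d, c.hom.pull ((U.ψ_sm a z).of_le (by decide)), smul_zero]

theorem h3_gl (U : UA c) (u : Fin U.n → E → W8) : (U.gl2 fun a z => h3B (u a z)) =
    (U.gl2 fun a z => sw false (h3w (u a z))) +
      U.gl2 fun a z => sw true (Pi.single 1 (u a z (.inr 0))) := by
  rw [← gl2_add]; rfl

theorem h3_cl (hu : u ∈ (U.sys false).ker 1) : Closed (U.gl2 fun a z => h3B (u a z)) := by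
  rw [h3_gl]; exact (h3_cl1 hu).add (h3_cl2 hu)

theorem h3_zero (hu : u ∈ (U.sys false).ker 1)
    (h : ∀ i, c.Q (c.e i) (U.gl2 fun a z => h3B (u a z)) = 0) : u = 0 := by
  have h0 : ∀ δ, Closed δ → c.Q δ (U.gl2 fun a z => h3B (u a z)) = 0 := fun δ hδ => by
    obtain ⟨r, η, hη⟩ := c.span δ hδ
    rw [Q_of_span hδ.1 (h3_cl hu) hη]
    simp [h]
  have cB : ∀ a b z z', U.ψ a z = U.ψ b z' →
      h3B (u b z') = U.hm b a (U.ψ a z) * h3B (u a z) * (U.hm b a (U.ψ a z))ᵀ := fun a b z z' e => by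
    rw [h3B, h3B, h3_c1 hu a b z z' e, h3_c2 hu a b z z' e, mul_add, add_mul]
  have h1 := h0 _ (h3_cl1 hu)
  have h2 := h0 _ (h3_cl2 hu)
  rw [U.Q_eq (h3_cl1 hu).1 (h3_cl hu).1] at h1
  rw [U.Q_eq (h3_cl2 hu).1 (h3_cl hu).1] at h2
  simp only [gl2_eq cB, gl2_eq (h3_c1 hu), gl2_eq (h3_c2 hu), Fr.c2_f2] at h1 h2
  have s0 : ∀ r : ℝ, (Pi.single 1 r : Fin 4 → ℝ) 0 = 0 := fun r => by simp
  have w0 : ∀ x, h3w x 0 = 0 := fun _ => rfl
  simp only [h3B, h3_wg_add, wg_sw_ne, h3_wg_comm (sw false _) (sw true _), wg_sw _ (w0 _) (w0 _),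
    wg_sw _ (s0 _) (s0 _), add_zero, zero_add, U.I_mul, sn, single_dotProduct,
    Pi.single_eq_same] at h1 h2
  have cp := fun a b z z' e => h3_cp (hm_un e) (hu.2.2.2 a z) (hu.2.1 a b z z' e)
  have g0 := U.I_def (q := fun a z => u a z (.inr 0) * u a z (.inr 0))
    (fun a => ((h3_co (hu.1 a) _).mul (h3_co (hu.1 a) _)).continuous)
    (fun a z => mul_self_nonneg _) (fun a b z z' e => by rw [(cp a b z z' e).1]) (by simpa using h2)
  have w1 := U.I_def (q := fun a z => h3w (u a z) ⬝ᵥ h3w (u a z))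
    (fun a => continuous_finsetSum _ fun p _ =>
      ((h3w_sm (hu.1 a) p).mul (h3w_sm (hu.1 a) p)).continuous)
    (fun a z => Finset.sum_nonneg fun p _ => mul_self_nonneg _) (fun a b z z' e => by
      have := h3_norm (hm_un e) false (v8 0 (h3w (u a z)))
      rw [grp_v8, mulVec_zero, ← (cp a b z z' e).2.1, inner_v8, inner_v8] at this
      simpa using this) (by simpa using h1)
  funext a z
  rw [h3_split (hu.2.2.2 a z), mul_self_eq_zero.1 (g0 a z), dotProduct_self_eq_zero.1 (w1 a z)]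
  ext (i | p) <;> simp [v8]

variable (U)

theorem ker_minus : Module.finrank ℝ ((U.sys false).ker 1) ≤ c.k + 1 := by
  let Λ : (U.sys false).ker 1 →ₗ[ℝ] Fin (c.k + 1) → ℝ :=
    { toFun := fun u i => c.Q (c.e i) (U.gl2 fun a z => h3B (u.1 a z))
      map_add' := fun u v => funext fun i => by
        rw [Pi.add_apply, ← Q_add_right (c.he i).1 (h3_cl u.2).1 (h3_cl v.2).1, ← gl2_add]
        congr 2
        funext a z
        exact h3B_add _ _
      map_smul' := fun r u => funext fun i => by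
        rw [Pi.smul_apply, RingHom.id_apply, smul_eq_mul, ← Q_smul_right, ← gl2_smul]
        congr 2
        funext a z
        exact h3B_smul _ _ }
  have hΛ : Injective Λ := (injective_iff_map_eq_zero Λ).2 fun u h =>
    Subtype.ext (h3_zero u.2 fun i => congrFun h i)
  simpa using LinearMap.finrank_le_finrank_of_injective hΛ

end UA

end Pool.Agent.Lib.MP_1c0d65_gt.Nz
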