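import Pool.Agent.Lib.MP_1c0d65_gt.Nz.GDef
import Pool.Agent.Lib.MP_1c0d65_gt.Nz.Weitz
import Pool.Agent.Lib.MP_1c0d65_gt.Nz.Sym

/-! The Clifford connection of a frame. -/

set_option autoImplicit false

open scoped Manifold ContDiff Topology
open Set MeasureTheory Function Matrix

noncomputable section

namespace Pool.Agent.Lib.MP_1c0d65_gt.Nz

open Pool.Agent.Lib.MP_1c0d65_gt.PW

/-- Skew matrices have six free entries. -/
theorem skew_eq {G : M4} (h : Gᵀ = -G) : G = !![0, G 0 1, G 0 2, G 0 3; -G 0 1, 0, G 1 2, G 1 3;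
    -G 0 2, -G 1 2, 0, G 2 3; -G 0 3, -G 1 3, -G 2 3, 0] := by
  have e : ∀ i j, G j i = -G i j := fun i j => congrFun (congrFun h i) j
  have d : ∀ i, G i i = 0 := fun i => by linarith [e i i]
  ext i j
  fin_cases i <;> fin_cases j <;> simp [d, e 0 1, e 0 2, e 0 3, e 1 2, e 1 3, e 2 3]

theorem pi4_mk (s : Bool) (a b c d e f : ℝ) :
    pi4 s !![0, a, b, c; -a, 0, d, e; -b, -d, 0, f; -c, -e, -f, 0] =
      !![0, 0, 0, 0; 0, 0, sn s * c + d, -(sn s * b) + e; 0, -(sn s * c + d), 0, sn s * a + f;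
        0, sn s * b - e, -(sn s * a + f), 0] := by
  ext q p
  cases s <;> fin_cases q <;> fin_cases p <;>
    simp [pi4, cq, sg, sn, mul_apply, Fin.sum_univ_four] <;> ring

/-- The explicit form of `pi4`. -/
theorem pi4_eq (s : Bool) {G : M4} (h : Gᵀ = -G) : pi4 s G =
    !![0, 0, 0, 0; 0, 0, sn s * G 0 3 + G 1 2, -(sn s * G 0 2) + G 1 3;
      0, -(sn s * G 0 3 + G 1 2), 0, sn s * G 0 1 + G 2 3;
      0, sn s * G 0 2 - G 1 3, -(sn s * G 0 1 + G 2 3), 0] := by
  conv_lhs => rw [skew_eq h]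
  exact pi4_mk ..

theorem pi4_skew (s : Bool) {G : M4} (h : Gᵀ = -G) : (pi4 s G)ᵀ = -pi4 s G := by
  rw [pi4_eq s h]
  ext q p
  fin_cases q <;> fin_cases p <;> simp <;> ring

theorem cq_add (s : Bool) (q : Fin 4) (B B' : M4) : cq s q (B + B') = cq s q B + cq s q B' := by
  simp only [cq, Matrix.add_apply, mul_add, Finset.sum_add_distrib]

theorem cq_smul (s : Bool) (q : Fin 4) (r : ℝ) (B : M4) : cq s q (r • B) = r * cq s q B := by
  simp only [cq, Matrix.smul_apply, smul_eq_mul, Finset.mul_sum]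
  exact Finset.sum_congr rfl fun i _ => Finset.sum_congr rfl fun j _ => by ring

/-- `pi4` is linear. -/
def piL (s : Bool) : M4 →ₗ[ℝ] M4 where
  toFun := pi4 s
  map_add' G G' := by
    ext q p
    simp only [pi4, of_apply, Matrix.add_apply, ← cq_add]
    congr 1
    rw [add_mul, mul_add]; abel
  map_smul' r G := by
    ext q p
    simp only [pi4, of_apply, Matrix.smul_apply, smul_eq_mul, ← cq_smul, RingHom.id_apply]
    congr 1
    rw [smul_sub, smul_mul_assoc, mul_smul_comm]

/-- `lie` is linear. -/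
def lieL (s : Bool) : M4 →ₗ[ℝ] W8 →L[ℝ] W8 where
  toFun := lie s
  map_add' G G' := by
    have h : pi4 s (G + G') = pi4 s G + pi4 s G' := (piL s).map_add G G'
    simp only [lie, ← map_add, fromBlocks_add, h, add_zero]
  map_smul' r G := by
    have h : pi4 s (r • G) = r • pi4 s G := (piL s).map_smul r G
    simp only [lie, ← map_smul, fromBlocks_smul, h, smul_zero, RingHom.id_apply]

theorem lie_sum (s : Bool) (G : M4) : lie s G = ∑ k, ∑ j, G k j • lie s (single k j 1) := by
  change lieL s G = ∑ k, ∑ j, G k j • lieL s (single k j 1)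
  simp only [← map_smul, ← map_sum, smul_single, smul_eq_mul, mul_one, ← matrix_eq_sum_single]

theorem lie_star (s : Bool) {G : M4} (h : Gᵀ = -G) : star (lie s G) = -lie s G := by
  rw [lie, T8_star, fromBlocks_transpose, ← map_neg, fromBlocks_neg, h, pi4_skew s h]; simp

theorem lie_even (s : Bool) (G : M4) : (cl s).ε * lie s G = lie s G * (cl s).ε := by
  simp only [cl, lie, ← map_mul, fromBlocks_multiply]; simp

theorem cm_comm (s : Bool) {G : M4} (h : Gᵀ = -G) (j : Fin 4) :
    pi4 s G * cm s j - cm s j * G = ∑ k, G k j • cm s k := by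
  have e : ∀ i j, G j i = -G i j := fun i j => congrFun (congrFun h i) j
  have d : ∀ i, G i i = 0 := fun i => by linarith [e i i]
  ext p l
  simp only [Matrix.sub_apply, mul_apply, Matrix.sum_apply, Matrix.smul_apply, cm, of_apply,
    Fin.sum_univ_four, smul_eq_mul, pi4_eq s h]
  cases s <;> fin_cases j <;> fin_cases p <;> fin_cases l <;>
    simp [sg, sn, d, e 0 1, e 0 2, e 0 3, e 1 2, e 1 3, e 2 3] <;> ring

theorem lie_comm (s : Bool) {G : M4} (h : Gᵀ = -G) (j : Fin 4) :
    lie s G * (cl s).c j - (cl s).c j * lie s G = ∑ k, G k j • (cl s).c k := by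
  have h1 := cm_comm s h j
  have h2 := congrArg transpose h1
  simp only [transpose_sub, transpose_mul, pi4_skew s h, h, transpose_sum, transpose_smul] at h2
  simp only [cl, lie, ← map_mul, fromBlocks_multiply, ← map_sub, ← map_smul, ← map_sum]
  congr 1
  ext (a | a) (b | b)
  · simp [Matrix.sum_apply]
  · have := congrFun (congrFun h2 a) b
    simp [Matrix.sum_apply] at this ⊢
    linarith
  · simpa [Matrix.sum_apply] using congrFun (congrFun h1 a) b
  · simp [Matrix.sum_apply]

namespace Fr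

variable (f : Fr)

theorem Γ_sm (i k j : Fin 4) : ContDiff ℝ ∞ (f.Γ i k j) :=
  contDiff_const.mul (((f.wz_γ i j k).sub (f.wz_γ i k j)).sub (f.wz_γ j k i))

theorem Γ_skew (i j k : Fin 4) (z : E) : f.Γ i j k z = -f.Γ i k j z := by
  simp only [Γ, f.wz_γ_skew k j i z]; ring

theorem Γ_tors (i j k : Fin 4) (z : E) : f.γ i j k z = f.Γ i k j z - f.Γ j k i z := by
  simp only [Γ, f.wz_γ_skew j i k z]; ring

theorem Gm_skew (i : Fin 4) (z : E) : (f.Gm i z)ᵀ = -f.Gm i z := by
  ext k j; exact f.Γ_skew i j k z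

/-- The Dirac operator `d* + d^±` in the frame. -/
def loc (s : Bool) : Loc (cl s) where
  toFr := f
  A i z := lie s (f.Gm i z)
  Γ := f.Γ
  hA i := by
    simp only [lie_sum s (f.Gm i _)]
    exact ContDiff.sum fun k _ => ContDiff.sum fun j _ => (f.Γ_sm i k j).smul contDiff_const
  hΓ := f.Γ_sm
  skew i z := lie_star s (f.Gm_skew i z)
  even i z := lie_even s _
  Γ_skew := f.Γ_skew
  comm i j z := lie_comm s (f.Gm_skew i z) j
  tors := f.Γ_tors

end Fr

end Pool.Agent.Lib.MP_1c0d65_gt.Nz
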