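import Pool.Agent.Lib.MP_1c0d65_gt.Nz.Index
import Pool.Agent.Lib.MP_1c0d65_gt.Nz.GAtl
import Pool.Agent.Lib.MP_1c0d65_gt.Nz.GChU
import Pool.Agent.Lib.MP_1c0d65_gt.Nz.GH1
import Pool.Agent.Lib.MP_1c0d65_gt.Nz.GH2
import Pool.Agent.Lib.MP_1c0d65_gt.Nz.GH3
import Pool.Agent.Lib.MP_1c0d65_gt.Nz.GGau
import Pool.Agent.Lib.MP_1c0d65_gt.Nz.GCh

/-! The Noether inequality for a closed symplectic four-manifold with `b₁ = 0`. -/

set_option autoImplicit false
set_option linter.unusedSectionVars false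

open scoped Manifold ContDiff Topology
open Set MeasureTheory Function Matrix

noncomputable section

namespace Pool.Agent.Lib.MP_1c0d65_gt.Nz

open Pool.Agent.Lib.MP_1c0d65_gt.PW

variable {X : Type} [TopologicalSpace X] [ChartedSpace E X] [IsManifold 𝓘(ℝ, E) ∞ X]
  [T2Space X] [CompactSpace X] [MeasurableSpace X] [BorelSpace X] {c : Ctx X}

theorem UA.ind_eq (U : UA c) (s : Bool) : (U.sys s).ind =
    (16 * Real.pi ^ 2)⁻¹ * U.I fun a z => dens0 s ((U.f a).R z) := by
  simp only [← Fr.loc_dens]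
  rfl

theorem UA.ind_comb (U : UA c) :
    5 * (U.sys true).ind - (U.sys false).ind = c.κ ^ 2 * c.Q c.om c.om := by
  obtain ⟨β, hβ, eβ⟩ := U.exists_chern
  have cβ : Closed β := by
    obtain ⟨V, Ω, a, g, h⟩ := hβ
    exact closed_of_isD fun p => ⟨V p, a p, (h p trivial).1, (h p trivial).2.1,
      (h p trivial).2.2.2.2.1⟩
  obtain ⟨η, hη⟩ := chern_unique (fun x v => (c.tame0.1 x trivial v).1) c.chern0 hβ
  have cα := c.hom.smul (2 * Real.pi * c.κ)
  have h1 := Q_exact (c := c) hη cα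
  have h2 := Q_exact (c := c) hη cβ
  rw [Q_sub_left cα.1 cβ.1 cα.1, Q_symm β] at h1
  rw [Q_sub_left cα.1 cβ.1 cβ.1] at h2
  have h3 : c.Q β β = (2 * Real.pi * c.κ) ^ 2 * c.Q c.om c.om := by
    have : c.Q β β = c.Q ((2 * Real.pi * c.κ) • c.om) ((2 * Real.pi * c.κ) • c.om) := by linarith
    rw [this, Q_smul_left, Q_smul_right]; ring
  have cd : ∀ s a, Continuous fun z => dens0 s ((U.f a).R z) := fun s a => by
    simp only [← Fr.loc_dens]
    exact ((U.f a).loc s).wz_dens.continuous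
  let q : Fin U.n → E → ℝ := fun a z =>
    wg ((U.f a).c2 (ext1 ((U.f a).al 2 3) z) z) ((U.f a).c2 (ext1 ((U.f a).al 2 3) z) z)
  have cq : ∀ a, Continuous (q a) := fun a => by
    have h0 : ContDiff ℝ ∞ (ext1 ((U.f a).al 2 3)) := contDiff_iff_contDiffAt.2 fun z =>
      contDiffAt_ext1 top_le ((U.f a).al_sm 2 3).contDiffAt
    have h : ∀ i j, Continuous fun z => (U.f a).c2 (ext1 ((U.f a).al 2 3) z) z i j := fun i j =>
      ((h0.clm_apply ((U.f a).e_sm i)).clm_apply ((U.f a).e_sm j)).continuous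
    simp only [q, wg]
    fun_prop
  have h4 : c.Q β β = U.I q := by
    rw [U.Q_eq cβ.1 cβ.1]
    simp only [eβ, q]
  have h5 : ∀ a z, dtau ((U.f a).al 2 3) ((U.f a).al 3 1) ((U.f a).al 1 2) z / ((U.f a).θ z).det =
      (5 / 4 * dens0 true ((U.f a).R z) + -(1 / 4) * dens0 false ((U.f a).R z)) + -1 * q a z := by
    intro a z
    have h := ((U.f a).curv z).dens
    have e := (U.f a).Fp_eq z
    have n := left_ne_zero_of_mul_eq_one ((U.f a).det_mul z)
    have alt : ∀ (x y w : E → E →L[ℝ] ℝ) v, cv x y w z v v = 0 := fun x y w v => by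
      simp [cv, ext1_alt, w11]
    rw [e.1, e.2.1, e.2.2] at h
    rw [dtau, (U.f a).wedge_c2 (alt _ _ _) (alt _ _ _) z, (U.f a).wedge_c2 (alt _ _ _) (alt _ _ _) z,
      (U.f a).wedge_c2 (alt _ _ _) (alt _ _ _) z,
      (U.f a).wedge_c2 (ext1_alt _ _) (ext1_alt _ _) z, div_eq_iff n]
    simp only [q]
    linear_combination (-1 / 4 * ((U.f a).θ z).det) * h
  have h6 := U.cs_glob
  simp only [h5] at h6
  rw [U.I_add (fun a => ((cd true a).const_mul _).fun_add ((cd false a).const_mul _))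
      (fun a => (cq a).const_mul _),
    U.I_add (fun a => (cd true a).const_mul _) (fun a => (cd false a).const_mul _),
    U.I_mul, U.I_mul, U.I_mul, ← h4, h3] at h6
  rw [U.ind_eq, U.ind_eq]
  have := Real.pi_pos
  field_simp
  linear_combination 4 * h6

/-- The Noether inequality and the integrality of the square of the first Chern class. -/
theorem noether (c : Ctx X) [Nonempty X] (h : H1 X) :
    ∃ d : ℤ, c.κ ^ 2 * c.Q c.om c.om = d ∧ 10 ≤ d + (c.k + 1) := by
  obtain ⟨U⟩ := exists_UA c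
  obtain ⟨f1, -, i1⟩ := (U.sys true).index
  obtain ⟨-, -, i2⟩ := (U.sys false).index
  have k1 := U.ker_plus
  have k2 := U.ker_minus
  rw [U.ker_odd h, finrank_bot] at i1
  refine ⟨5 * (Module.finrank ℝ ((U.sys true).ker 1) : ℤ) - (Module.finrank ℝ
    ((U.sys false).ker 1) - Module.finrank ℝ ((U.sys false).ker (-1))), ?_, by omega⟩
  rw [← U.ind_comb, ← i1, ← i2]
  push_cast
  ring

end Pool.Agent.Lib.MP_1c0d65_gt.Nz
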