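import Pool.Agent.Lib.MP_1c0d65_gt.Nz.Had
import Pool.Agent.Lib.MP_1c0d65_gt.Nz.Weitz

/-! A gauge in which the connection is radial to first order (Cayley transform). -/

set_option autoImplicit false
set_option linter.unusedSectionVars false

open scoped ContDiff Topology
open Set MeasureTheory Function Filter

noncomputable section

namespace Pool.Agent.Lib.MP_1c0d65_gt.Nz

open Pool.Agent.Lib.MP_1c0d65_gt.PW

namespace Fr

variable {V : Type} [NormedAddCommGroup V] [NormedSpace ℝ V] (f : Fr)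

theorem ga_fix {c : E × E → V} (hc : ContDiff ℝ ∞ c) (y : E) : ContDiff ℝ ∞ fun x => c (x, y) :=
  hc.comp (contDiff_id.prodMk contDiff_const)

theorem ga_smul {Y : Type} [NormedAddCommGroup Y] [NormedSpace ℝ Y] {r : Y → ℝ} {u : Y → V}
    (hr : ContDiff ℝ ∞ r) (hu : ContDiff ℝ ∞ u) : ContDiff ℝ ∞ fun z => r z • u z := hr.smul hu

theorem ga_dx {c : E × E → V} (hc : ContDiff ℝ ∞ c) (i : Fin 4) (x y : E) :
    f.dx i c (x, y) = f.d i (fun x' => c (x', y)) x := by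
  have h : HasFDerivAt (fun x' => c (x', y)) _ x :=
    (hc.differentiable (by simp) (x, y)).hasFDerivAt.comp x (hasFDerivAt_prodMk_left x y)
  rw [d, h.fderiv]
  rfl

theorem ga_dx_sm {c : E × E → V} (hc : ContDiff ℝ ∞ c) (i : Fin 4) : ContDiff ℝ ∞ (f.dx i c) :=
  (hc.fderiv_right (m := ∞) (by simp)).clm_apply
    (((f.wz_e i).comp contDiff_fst).prodMk contDiff_const)

theorem ga_const (i : Fin 4) (v : V) (z : E) : f.d i (fun _ => v) z = 0 := by simp [d]

theorem ga_sub (i : Fin 4) {u v : E → V} (hu : ContDiff ℝ ∞ u) (hv : ContDiff ℝ ∞ v) (z : E) :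
    f.d i (fun z => u z - v z) z = f.d i u z - f.d i v z := by
  simp only [d]
  rw [fderiv_fun_sub (hu.differentiable (by simp) z) (hv.differentiable (by simp) z)]
  rfl

theorem ga_csmul (i : Fin 4) (r : ℝ) {u : E → V} (hu : ContDiff ℝ ∞ u) (z : E) :
    f.d i (fun z => r • u z) z = r • f.d i u z := by
  rw [f.wz_d_smul i contDiff_const hu, ga_const, zero_smul, zero_add]

theorem ga_mul {A : Type} [NormedRing A] [NormedAlgebra ℝ A] (i : Fin 4) {u v : E → A}
    (hu : ContDiff ℝ ∞ u) (hv : ContDiff ℝ ∞ v) (z : E) :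
    f.d i (fun z => u z * v z) z = f.d i u z * v z + u z * f.d i v z := by
  have h : HasFDerivAt (fun z => u z * v z) _ z :=
    (hu.differentiable (by simp) z).hasFDerivAt.mul' (hv.differentiable (by simp) z).hasFDerivAt
  simp only [d]
  rw [h.fderiv, add_comm]
  rfl

theorem ga_eta_sm (k : Fin 4) : ContDiff ℝ ∞ (f.eta k) :=
  (co k).contDiff.comp ((f.hθ.comp contDiff_snd).clm_apply (contDiff_fst.sub contDiff_snd))

theorem ga_eta0 (k : Fin 4) (y : E) : f.eta k (y, y) = 0 := by simp [eta]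

/-- The derivatives of the coordinates. -/
def gaT (y : E) (i k : Fin 4) (x : E) : ℝ := co k (f.θ y (f.e i x))

/-- The second derivatives of the coordinates on the diagonal. -/
def gaN (j i k : Fin 4) (y : E) : ℝ := co k (f.θ y (f.d j (f.e i) y))

theorem gaT_sm (y : E) (i k : Fin 4) : ContDiff ℝ ∞ (f.gaT y i k) :=
  ((co k).comp (f.θ y)).contDiff.comp (f.wz_e i)

theorem gaN_sm (j i k : Fin 4) : ContDiff ℝ ∞ (f.gaN j i k) :=
  (co k).contDiff.comp (f.hθ.clm_apply (f.wz_d j (f.wz_e i)))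

theorem gaT_diag (y : E) (i k : Fin 4) : f.gaT y i k y = if k = i then 1 else 0 := by
  rw [gaT, e, f.θM, wz_co_bs]

theorem ga_d_eta (y : E) (i k : Fin 4) (x : E) :
    f.d i (fun x => f.eta k (x, y)) x = f.gaT y i k x := by
  have h : HasFDerivAt (fun x => f.eta k (x, y)) _ x :=
    ((co k).comp (f.θ y)).hasFDerivAt.comp x ((hasFDerivAt_id x).sub_const y)
  rw [d, h.fderiv]
  rfl

theorem ga_d_T (y : E) (j i k : Fin 4) : f.d j (f.gaT y i k) y = f.gaN j i k y :=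
  f.wz_d_clm j ((co k).comp (f.θ y)) (f.wz_e i) y

theorem ga_d1 (y : E) {c : Fin 4 → E → V} (hc : ∀ k, ContDiff ℝ ∞ (c k)) (i : Fin 4) :
    f.d i (fun x => ∑ k, f.eta k (x, y) • c k x) =
      fun x => ∑ k, (f.gaT y i k x • c k x + f.eta k (x, y) • f.d i (c k) x) := by
  funext x
  rw [f.wz_d_sum i _ fun k => ga_smul (ga_fix (f.ga_eta_sm k) y) (hc k)]
  exact Finset.sum_congr rfl fun k _ => by
    rw [f.wz_d_smul i (ga_fix (f.ga_eta_sm k) y) (hc k), ga_d_eta]

theorem ga_d1' (y : E) {c : Fin 4 → E → V} (hc : ∀ k, ContDiff ℝ ∞ (c k)) (i : Fin 4) :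
    f.d i (fun x => ∑ k, f.eta k (x, y) • c k x) y = c i y := by
  rw [f.ga_d1 y hc]
  simp [ga_eta0, gaT_diag]

theorem ga_d2 (y : E) {c : Fin 4 → E → V} (hc : ∀ k, ContDiff ℝ ∞ (c k)) (i j : Fin 4) :
    f.d j (f.d i fun x => ∑ k, f.eta k (x, y) • c k x) y =
      ∑ k, f.gaN j i k y • c k y + f.d j (c i) y + f.d i (c j) y := by
  have h1 := fun k => ga_smul (f.gaT_sm y i k) (hc k)
  have h2 := fun k => ga_smul (ga_fix (f.ga_eta_sm k) y) (f.wz_d i (hc k))
  rw [f.ga_d1 y hc, f.wz_d_sum j _ fun k => (h1 k).add (h2 k)]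
  have : ∀ k, f.d j (fun x => f.gaT y i k x • c k x + f.eta k (x, y) • f.d i (c k) x) y =
      f.gaN j i k y • c k y + (if k = i then f.d j (c k) y else 0) +
        if k = j then f.d i (c k) y else 0 := fun k => by
    rw [f.wz_d_add j (h1 k) (h2 k), f.wz_d_smul j (f.gaT_sm y i k) (hc k),
      f.wz_d_smul j (ga_fix (f.ga_eta_sm k) y) (f.wz_d i (hc k)), ga_d_eta, ga_d_T, ga_eta0,
      gaT_diag, gaT_diag]
    simp
  simp [this, Finset.sum_add_distrib]

theorem ga_cay {A : Type} [NormedRing A] [NormedAlgebra ℝ A] {g h : E → A} (hg : ContDiff ℝ ∞ g)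
    (hh : ContDiff ℝ ∞ h) (e0 : ∀ x, g x + h x * g x = 1 - h x) {y : E} (h0 : h y = 0)
    (g0 : g y = 1) (i j : Fin 4) : f.d i g y = -((2 : ℝ) • f.d i h y) ∧ f.d j (f.d i g) y =
      (2 : ℝ) • (f.d i h y * f.d j h y + f.d j h y * f.d i h y) - (2 : ℝ) • f.d j (f.d i h) y := by
  have e1 : ∀ i x, f.d i g x + (f.d i h x * g x + h x * f.d i g x) = 0 - f.d i h x := fun i x => by
    rw [← f.ga_mul i hh hg, ← f.wz_d_add i hg (hh.mul hg), funext e0, f.ga_sub i contDiff_const hh,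
      ga_const]
  have e2 : ∀ i, f.d i g y = -((2 : ℝ) • f.d i h y) := fun i => by
    have := e1 i y
    rw [h0, g0, mul_one, zero_mul, add_zero, zero_sub] at this
    rw [two_smul, neg_add, ← sub_eq_add_neg, ← this, add_sub_cancel_right]
  refine ⟨e2 i, ?_⟩
  have e3 := congrArg (fun u => f.d j u y) (funext (e1 i))
  have a1 := (f.wz_d i hh).mul hg
  have a2 := hh.mul (f.wz_d i hg)
  rw [f.wz_d_add j (f.wz_d i hg) (a1.add a2), f.wz_d_add j a1 a2, f.ga_mul j (f.wz_d i hh) hg,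
    f.ga_mul j hh (f.wz_d i hg), f.ga_sub j contDiff_const (f.wz_d i hh), ga_const, h0, g0, e2, e2,
    ← eq_sub_iff_add_eq] at e3
  rw [e3]
  simp only [two_smul]
  noncomm_ring

end Fr

variable {W : Type} [NormedAddCommGroup W] [InnerProductSpace ℝ W] [FiniteDimensional ℝ W]
  [CompleteSpace W] {C : Cl W}

theorem ga_unit {a : W →L[ℝ] W} (h : star a = -a) : IsUnit (1 + a) := by
  have inj : Injective (1 + a : W →L[ℝ] W) := (injective_iff_map_eq_zero _).2 fun x hx => by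
    have h1 : inner ℝ (a x) x = -inner ℝ x (a x) := by
      rw [← ContinuousLinearMap.adjoint_inner_right, ← ContinuousLinearMap.star_eq_adjoint, h,
        neg_apply, inner_neg_right]
    have h2 : inner ℝ x (x + a x) = (0 : ℝ) := by
      rw [show x + a x = 0 from hx, inner_zero_right]
    rw [real_inner_comm] at h1
    rw [inner_add_right] at h2
    exact inner_self_eq_zero.1 (show inner ℝ x x = (0 : ℝ) by linarith)
  exact ContinuousLinearMap.isUnit_iff_bijective.2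
    ⟨inj, (LinearMap.injective_iff_surjective (f := (1 + a : W →L[ℝ] W).toLinearMap)).1 inj⟩

namespace Loc

variable (L : Loc C)

/-- The second order part of the exponent. -/
def gaS (k l : Fin 4) (y : E) : W →L[ℝ] W := L.d l (L.A k) y - ∑ m, L.gaN l k m y • L.A m y

/-- The coefficients of the exponent. -/
def gaC (k : Fin 4) (q : E × E) : W →L[ℝ] W :=
  (1 / 2 : ℝ) • L.A k q.2 + ∑ l, L.eta l q • (1 / 4 : ℝ) • L.gaS k l q.2

/-- Half of the exponent. -/
def gaH (q : E × E) : W →L[ℝ] W := ∑ k, L.eta k q • L.gaC k q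

/-- The gauge. -/
def gaG (q : E × E) : W →L[ℝ] W := (2 : ℝ) • Ring.inverse (1 + L.gaH q) - 1

theorem gaS_sm (k l : Fin 4) : ContDiff ℝ ∞ (L.gaS k l) :=
  (L.wz_d l (L.hA k)).sub (ContDiff.sum fun m _ => (L.gaN_sm l k m).smul (L.hA m))

theorem gaC_sm (k : Fin 4) : ContDiff ℝ ∞ (L.gaC k) :=
  (((L.hA k).comp contDiff_snd).const_smul _).add (ContDiff.sum fun l _ =>
    (L.ga_eta_sm l).smul (((L.gaS_sm k l).comp contDiff_snd).const_smul _))

theorem gaH_sm : ContDiff ℝ ∞ L.gaH := ContDiff.sum fun k _ => (L.ga_eta_sm k).smul (L.gaC_sm k)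

theorem gaH_ker (φ : (W →L[ℝ] W) →L[ℝ] W →L[ℝ] W) (h : ∀ i z, φ (L.A i z) = 0) (q : E × E) :
    φ (L.gaH q) = 0 := by
  have h1 : ∀ k l z, φ (L.d l (L.A k) z) = 0 := fun k l z => by
    rw [← L.wz_d_clm l φ (L.hA k)]
    simp only [h, Fr.ga_const]
  simp only [gaH, gaC, gaS, map_sum, map_smul, map_add, map_sub, h, h1, smul_zero, sub_zero,
    Finset.sum_const_zero, add_zero]

theorem gaH_skew (q : E × E) : star (L.gaH q) = -L.gaH q :=
  eq_neg_of_add_eq_zero_left (L.gaH_ker ((starL' ℝ : _ ≃L[ℝ] _).toContinuousLinearMap + .id ℝ _)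
    (fun i z => add_eq_zero_iff_eq_neg.2 (L.skew i z)) q)

theorem gaH_even (q : E × E) : C.ε * L.gaH q = L.gaH q * C.ε :=
  sub_eq_zero.1 (L.gaH_ker (ContinuousLinearMap.mul ℝ _ C.ε - (ContinuousLinearMap.mul ℝ _).flip C.ε)
    (fun i z => sub_eq_zero.2 (L.even i z)) q)

theorem gaH_diag (y : E) : L.gaH (y, y) = 0 := by simp [gaH, Fr.ga_eta0]

theorem gaG_sm : ContDiff ℝ ∞ L.gaG := by
  refine (ContDiff.const_smul _ (contDiff_iff_contDiffAt.2 fun q => ?_)).sub contDiff_const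
  obtain ⟨u, hu⟩ := ga_unit (L.gaH_skew q)
  exact ContDiffAt.comp (g := Ring.inverse) q (hu ▸ contDiffAt_ringInverse ℝ u)
    (contDiff_const.add L.gaH_sm).contDiffAt

theorem gaG_eq (q : E × E) : L.gaG q + L.gaH q * L.gaG q = 1 - L.gaH q := by
  have := Ring.mul_inverse_cancel _ (ga_unit (L.gaH_skew q))
  rw [← one_add_mul, gaG, mul_sub, mul_smul_comm, this, two_smul]
  noncomm_ring

theorem gaG_orth (q : E × E) : star (L.gaG q) * L.gaG q = 1 ∧ L.gaG q * star (L.gaG q) = 1 := by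
  have h1 := Ring.mul_inverse_cancel _ (ga_unit (L.gaH_skew q))
  have h2 := Ring.inverse_mul_cancel _ (ga_unit (L.gaH_skew q))
  have h3 := congrArg star h1
  have h4 := congrArg star h2
  rw [star_mul, star_add, star_one, L.gaH_skew] at h3 h4
  rw [gaG, star_sub, star_one, two_smul, star_add]
  generalize Ring.inverse (1 + L.gaH q) = P at h1 h2 h3 h4 ⊢
  generalize star P = Q at h3 h4 ⊢
  generalize L.gaH q = a at h1 h2 h3 h4
  have e1 : Q + P = Q * P + Q * P := by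
    calc Q + P = Q * ((1 + a) * P) + Q * (1 + -a) * P := by rw [h1, h3, mul_one, one_mul]
      _ = _ := by noncomm_ring
  have e2 : Q + P = P * Q + P * Q := by
    calc Q + P = P * (1 + a) * Q + P * ((1 + -a) * Q) := by rw [h2, h4, mul_one, one_mul]
      _ = _ := by noncomm_ring
  constructor
  · calc _ = (Q * P + Q * P) + (Q * P + Q * P) - (Q + P) - (Q + P) + 1 := by noncomm_ring
      _ = 1 := by rw [← e1]; abel
  · calc _ = (P * Q + P * Q) + (P * Q + P * Q) - (Q + P) - (Q + P) + 1 := by noncomm_ring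
      _ = 1 := by rw [← e2]; abel

theorem gaG_diag (y : E) : L.gaG (y, y) = 1 := by
  rw [gaG, gaH_diag, add_zero, Ring.inverse_one, two_smul, add_sub_cancel_right]

theorem gaG_even (q : E × E) : C.ε * L.gaG q = L.gaG q * C.ε := by
  have h : Commute C.ε (1 + L.gaH q) := (Commute.one_right _).add_right (L.gaH_even q)
  obtain ⟨u, hu⟩ := ga_unit (L.gaH_skew q)
  rw [← hu] at h
  rw [gaG, ← hu, Ring.inverse_unit]
  exact ((h.units_inv_right.smul_right _).sub_right (Commute.one_right _)).eq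

theorem ga_dC (y : E) (k l : Fin 4) :
    L.d l (fun x => L.gaC k (x, y)) y = (1 / 4 : ℝ) • L.gaS k l y := by
  have h := L.ga_d1' y (c := fun l _ => (1 / 4 : ℝ) • L.gaS k l y) (fun _ => contDiff_const) l
  have h2 : ContDiff ℝ ∞ fun x => ∑ l, L.eta l (x, y) • (1 / 4 : ℝ) • L.gaS k l y :=
    ContDiff.sum fun l _ => Fr.ga_smul (Fr.ga_fix (L.ga_eta_sm l) y) contDiff_const
  simp only [gaC]
  rw [L.wz_d_add l contDiff_const h2, h, Fr.ga_const, zero_add]

theorem gaC_diag (y : E) (k : Fin 4) : L.gaC k (y, y) = (1 / 2 : ℝ) • L.A k y := by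
  simp [gaC, Fr.ga_eta0]

theorem ga_dG (y : E) (i j : Fin 4) : L.d i (fun x => L.gaG (x, y)) y = -L.A i y ∧
    L.d j (L.d i fun x => L.gaG (x, y)) y = (1 / 2 : ℝ) • (L.A i y * L.A j y + L.A j y * L.A i y) -
      ∑ k, L.gaN j i k y • L.A k y - (1 / 2 : ℝ) • (L.gaS i j y + L.gaS j i y) := by
  have hG := Fr.ga_fix L.gaG_sm y
  have hH := Fr.ga_fix L.gaH_sm y
  have hC := fun k => Fr.ga_fix (L.gaC_sm k) y
  have H1 : ∀ i, L.d i (fun x => L.gaH (x, y)) y = (1 / 2 : ℝ) • L.A i y := fun i =>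
    (L.ga_d1' y hC i).trans (L.gaC_diag y i)
  have H2 : L.d j (L.d i fun x => L.gaH (x, y)) y = ∑ k, L.gaN j i k y • (1 / 2 : ℝ) • L.A k y +
      (1 / 4 : ℝ) • L.gaS i j y + (1 / 4 : ℝ) • L.gaS j i y := by
    refine (L.ga_d2 y hC i j).trans ?_
    simp only [gaC_diag, ga_dC]
  have h := L.ga_cay hG hH (fun x => L.gaG_eq (x, y)) (L.gaH_diag y) (L.gaG_diag y) i j
  rw [h.1, h.2, H2, H1, H1]
  refine ⟨by module, ?_⟩
  simp only [smul_mul_smul_comm, smul_comm _ (1 / 2 : ℝ), ← Finset.smul_sum]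
  module

/-- The connection in the new gauge. -/
def gaB (i : Fin 4) (q : E × E) : W →L[ℝ] W :=
  star (L.gaG q) * (L.dx i L.gaG q + L.A i q.1 * L.gaG q)

theorem ga_star {Y : Type} [NormedAddCommGroup Y] [NormedSpace ℝ Y] {u : Y → W →L[ℝ] W}
    (hu : ContDiff ℝ ∞ u) : ContDiff ℝ ∞ fun z => star (u z) :=
  (starL' ℝ : (W →L[ℝ] W) ≃L[ℝ] _).contDiff.comp hu

theorem ga_in (i : Fin 4) : ContDiff ℝ ∞ fun q => L.dx i L.gaG q + L.A i q.1 * L.gaG q :=
  (L.ga_dx_sm L.gaG_sm i).add (((L.hA i).comp contDiff_fst).mul L.gaG_sm)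

theorem gaB_sm (i : Fin 4) : ContDiff ℝ ∞ (L.gaB i) := (ga_star L.gaG_sm).mul (L.ga_in i)

theorem gaB_skew (i : Fin 4) (q : E × E) : star (L.gaB i q) = -L.gaB i q := by
  obtain ⟨x, y⟩ := q
  have hG := Fr.ga_fix L.gaG_sm y
  have h1 := L.ga_mul i (ga_star hG) hG x
  have h2 : L.d i (fun x => star (L.gaG (x, y))) x = star (L.d i (fun x => L.gaG (x, y)) x) :=
    L.wz_d_clm i (starL' ℝ : (W →L[ℝ] W) ≃L[ℝ] _).toContinuousLinearMap hG x
  simp only [(L.gaG_orth _).1, Fr.ga_const, h2] at h1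
  rw [gaB, L.ga_dx L.gaG_sm, star_mul, star_star, star_add, star_mul, L.skew, add_mul,
    eq_neg_of_add_eq_zero_left h1.symm]
  noncomm_ring

theorem gaB_diag (i : Fin 4) (y : E) : L.gaB i (y, y) = 0 := by
  rw [gaB, L.ga_dx L.gaG_sm, (L.ga_dG y i i).1, gaG_diag, mul_one, neg_add_cancel, mul_zero]

theorem ga_dB (i j : Fin 4) (y : E) :
    L.d j (fun x => L.gaB i (x, y)) y = (1 / 2 : ℝ) • L.Om j i y := by
  have hG := Fr.ga_fix L.gaG_sm y
  have e : (fun x => L.gaB i (x, y)) = fun x => star (L.gaG (x, y)) *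
      (L.d i (fun x => L.gaG (x, y)) x + L.A i x * L.gaG (x, y)) := funext fun x => by
    rw [gaB, L.ga_dx L.gaG_sm]
  have g : ∀ k, L.γ j i k y = L.gaN j i k y - L.gaN i j k y := fun k => by
    simp only [Fr.γ, Fr.gaN, map_sub]
  rw [e, L.ga_mul j (ga_star hG) ((L.wz_d i hG).add ((L.hA i).mul hG)),
    L.wz_d_add j (L.wz_d i hG) ((L.hA i).mul hG), L.ga_mul j (L.hA i) hG, (L.ga_dG y i j).1,
    (L.ga_dG y i j).2, (L.ga_dG y j j).1, gaG_diag]
  simp only [mul_one, neg_add_cancel, mul_zero, zero_add, star_one, one_mul, Om, gaS, g, sub_smul,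
    Finset.sum_sub_distrib, mul_neg]
  module

end Loc

theorem Loc.gauge (L : Loc C) : ∃ G B, L.Gauge G B := by
  refine ⟨L.gaG, L.gaB, L.gaG_sm, fun q => (L.gaG_orth q).1, fun q => (L.gaG_orth q).2, L.gaG_diag,
    L.gaG_even, L.gaB_sm, fun i q => ?_, L.gaB_skew, fun i => ?_⟩
  · rw [Loc.gaB, ← mul_assoc, (L.gaG_orth q).2, one_mul]
  have h1 : ContDiff ℝ ∞ fun q : E × E => ∑ k, L.eta k q • L.Om k i q.2 := ContDiff.sum fun k _ =>
    Fr.ga_smul (L.ga_eta_sm k) ((L.wz_Om k i).comp contDiff_snd)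
  have h2 := (L.gaB_sm i).sub (h1.const_smul (1 / 2 : ℝ))
  refine L.had2 h2 (fun y => by simp [L.gaB_diag, Fr.ga_eta0]) fun j y => ?_
  rw [L.ga_dx h2, L.ga_sub j (Fr.ga_fix (L.gaB_sm i) y)
    (Fr.ga_fix (h1.const_smul (1 / 2 : ℝ)) y), L.ga_dB, L.ga_csmul j _ (Fr.ga_fix h1 y),
    L.ga_d1' y (c := fun k _ => L.Om k i y) (fun _ => contDiff_const), sub_self]

end Pool.Agent.Lib.MP_1c0d65_gt.Nz
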