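import Pool.Agent.Lib.MP_1c0d65_gt.Nz.Sec
import Pool.Agent.Lib.MP_1c0d65_gt.Nz.Tc
import Pool.Agent.Lib.MP_1c0d65_gt.Nz.Tb

/-! Global kernels. -/

set_option autoImplicit false
set_option linter.unusedSectionVars false

open scoped ContDiff Topology
open Set MeasureTheory Function Filter

noncomputable section

namespace Pool.Agent.Lib.MP_1c0d65_gt.Nz

open Pool.Agent.Lib.MP_1c0d65_gt.PW

variable {W : Type} [NormedAddCommGroup W] [InnerProductSpace ℝ W] [FiniteDimensional ℝ W]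
  [CompleteSpace W] {C : Cl W}

variable {X : Type} [TopologicalSpace X] [T2Space X] [CompactSpace X] [MeasurableSpace X]
  [BorelSpace X] {μ : Measure X}

theorem Atl.ker_ext {V : Type} (T : Atl X μ C) (a : Fin T.n) (G : E × E → V) (e : X × X → V)
    (z w : E) : extend (Prod.map (T.ψ a) (T.ψ a)) G e (T.ψ a z, T.ψ a w) = G (z, w) :=
  ((T.emb a).injective.prodMap (T.emb a).injective).extend_apply G e (z, w)

theorem Atl.ker_off {V : Type} [Zero V] (T : Atl X μ C) (a : Fin T.n) (G : E × E → V) {x y : X}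
    (h : x ∉ range (T.ψ a) ∨ y ∉ range (T.ψ a)) :
    extend (Prod.map (T.ψ a) (T.ψ a)) G 0 (x, y) = 0 := by
  refine extend_apply' G (0 : X × X → V) (x, y) ?_
  rintro ⟨⟨z, w⟩, hq⟩
  obtain ⟨h1, h2⟩ := Prod.ext_iff.1 hq
  exact h.elim (fun h => h ⟨z, h1⟩) fun h => h ⟨w, h2⟩

theorem Sy.ker_on (S : Sy X μ C) (a : Fin S.n) (F : Z → W →L[ℝ] W) (s : ℝ) (z w : E) :
    S.lift a F s (S.ψ a z) (S.ψ a w) =
      star (S.g a (S.ψ a z)) * F (s, z, w) * S.g a (S.ψ a w) := by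
  rw [Sy.lift, S.toAtl.ker_ext]

theorem Sy.ker_off (S : Sy X μ C) (a : Fin S.n) (F : Z → W →L[ℝ] W) (s : ℝ) {x y : X}
    (h : x ∉ range (S.ψ a) ∨ y ∉ range (S.ψ a)) : S.lift a F s x y = 0 := by
  rw [Sy.lift, S.toAtl.ker_off a _ h, mul_zero, zero_mul]

/-- Both points lie in the chart, or one of them does not. -/
theorem Sy.ker_cases (S : Sy X μ C) (a : Fin S.n) (x y : X) :
    (∃ z w, x = S.ψ a z ∧ y = S.ψ a w) ∨ x ∉ range (S.ψ a) ∨ y ∉ range (S.ψ a) := by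
  by_cases hx : x ∈ range (S.ψ a)
  · by_cases hy : y ∈ range (S.ψ a)
    · obtain ⟨z, rfl⟩ := hx
      obtain ⟨w, rfl⟩ := hy
      exact .inl ⟨z, w, rfl, rfl⟩
    · exact .inr (.inr hy)
  · exact .inr (.inl hx)

theorem Sy.lift_apply (S : Sy X μ C) (a : Fin S.n) (F : Z → W →L[ℝ] W) (s : ℝ) (x : X) (y : E)
    (w : W) : S.lift a F s x (S.ψ a y) w =
      S.up a (fun z => F (s, z, y) (S.g a (S.ψ a y) w)) x := by
  by_cases hx : x ∈ range (S.ψ a)
  · obtain ⟨z, rfl⟩ := hx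
    rw [S.ker_on, S.sec_up]; rfl
  · rw [S.ker_off a F s (.inl hx), S.sec_up_off a _ hx]; rfl

theorem Sy.lift_off (S : Sy X μ C) (a : Fin S.n) (F : Z → W →L[ℝ] W) (s : ℝ) (x : X) {y : X}
    (hy : y ∉ range (S.ψ a)) : S.lift a F s x y = 0 := S.ker_off a F s (.inr hy)

theorem Sy.ker_smul (S : Sy X μ C) (a : Fin S.n) (r : ℝ) (F : Z → W →L[ℝ] W) (s : ℝ) (x y : X) :
    S.lift a (r • F) s x y = r • S.lift a F s x y := by
  rcases S.ker_cases a x y with ⟨z, w, rfl, rfl⟩ | h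
  · rw [S.ker_on, S.ker_on, Pi.smul_apply, mul_smul_comm, smul_mul_assoc]
  · rw [S.ker_off a _ s h, S.ker_off a _ s h, smul_zero]

theorem Sy.Ker.glue {S : Sy X μ C} {n : ℤ} {F : Fin S.n → Z → W →L[ℝ] W}
    (h : ∀ a, (S.L a).T n (F a) ∧ Supp (F a)) : S.Ker n (S.glue F) := by
  refine ⟨fun a => S.κ⁻¹ • F a, fun a => ⟨(h a).1.smul _, ?_⟩, fun s _ x y => ?_⟩
  · obtain ⟨K, hK, hF⟩ := (h a).2
    exact ⟨K, hK, fun z hz h0 => hF z hz fun h1 => h0 (by simp [h1])⟩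
  · simp only [Sy.glue, S.ker_smul, Finset.smul_sum]

theorem Sy.ker_unit (S : Sy X μ C) (a : Fin S.n) (x : X) : S.g a x ∈ unitary (W →L[ℝ] W) :=
  Unitary.mem_iff.2 ⟨S.g1 a x, S.g2 a x⟩

theorem Sy.ker_norm (S : Sy X μ C) (a : Fin S.n) (F : Z → W →L[ℝ] W) (s : ℝ) (z w : E) :
    ‖S.lift a F s (S.ψ a z) (S.ψ a w)‖ = ‖F (s, z, w)‖ := by
  rw [S.ker_on, CStarRing.norm_mul_mem_unitary _ (S.ker_unit a _),
    CStarRing.norm_mem_unitary_mul _ (Unitary.star_mem (S.ker_unit a _))]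

theorem Sy.ker_meas (S : Sy X μ C) (a : Fin S.n) {n : ℤ} {F : Z → W →L[ℝ] W}
    (h : (S.L a).T n F) : StronglyMeasurable fun p : ℝ × X × X =>
      if 0 < p.1 then S.lift a F p.1 p.2.1 p.2.2 else 0 := by
  classical
  borelize (W →L[ℝ] W)
  have hm : MeasurableEmbedding (Prod.map id (Prod.map (S.ψ a) (S.ψ a)) : Z → ℝ × X × X) :=
    MeasurableEmbedding.id.prodMap ((S.toAtl.sec_me a).prodMap (S.toAtl.sec_me a))
  have h1 : StronglyMeasurable ({z : Z | 0 < z.1}.piecewise F 0) :=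
    (h.smooth.continuousOn.measurable_piecewise continuousOn_const
      (isOpen_lt continuous_const continuous_fst).measurableSet).stronglyMeasurable
  have h2 := hm.stronglyMeasurable_extend h1 (stronglyMeasurable_zero (β := W →L[ℝ] W))
  have h3 : StronglyMeasurable fun p : ℝ × X × X => star (S.g a p.2.1) :=
    continuous_star.comp_stronglyMeasurable ((S.g_meas a).comp_measurable measurable_snd.fst)
  have h4 : StronglyMeasurable fun p : ℝ × X × X => S.g a p.2.2 :=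
    (S.g_meas a).comp_measurable measurable_snd.snd
  convert (h3.mul h2).mul h4 using 2 with ⟨s, x, y⟩
  simp only [Pi.mul_apply]
  rcases S.ker_cases a x y with ⟨z, w, rfl, rfl⟩ | h
  · have h5 := hm.injective.extend_apply ({z : Z | 0 < z.1}.piecewise F 0) 0 (s, z, w)
    simp only [Prod.map, id] at h5
    rw [S.ker_on]
    erw [h5]
    split_ifs with hs
    · rw [piecewise_eq_of_mem _ _ _ (by exact hs)]
    · rw [piecewise_eq_of_notMem _ _ _ (by exact hs), Pi.zero_apply, mul_zero, zero_mul]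
  · rw [S.ker_off a F s h, ite_self, extend_apply', Pi.zero_apply, mul_zero, zero_mul]
    rintro ⟨⟨t, z, w⟩, hq⟩
    obtain ⟨h1, h2⟩ := Prod.ext_iff.1 (Prod.ext_iff.1 hq).2
    exact h.elim (fun h => h ⟨z, h1⟩) fun h => h ⟨w, h2⟩

theorem Sy.Ker.meas3 {S : Sy X μ C} {n : ℤ} {K : ℝ → X → X → W →L[ℝ] W} (h : S.Ker n K) :
    StronglyMeasurable fun p : ℝ × X × X => if 0 < p.1 then K p.1 p.2.1 p.2.2 else 0 := by
  obtain ⟨F, hF, hK⟩ := h
  convert Finset.stronglyMeasurable_fun_sum Finset.univ fun a _ => S.ker_meas a (hF a).1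
    using 2 with p
  split_ifs with hs
  · exact hK _ hs _ _
  · simp

theorem Sy.ker_sup (S : Sy X μ C) (a : Fin S.n) {n : ℤ} {F : Z → W →L[ℝ] W}
    (h : (S.L a).T n F) (hs : Supp F) :
    ∃ c : ℝ, ∀ s ∈ Ioc (0 : ℝ) 1, ∀ x y, ‖S.lift a F s x y‖ ≤ c * √s ^ n := by
  obtain ⟨c, hc⟩ := h.sup hs
  refine ⟨c, fun s hs x y => ?_⟩
  rcases S.ker_cases a x y with ⟨z, w, rfl, rfl⟩ | h
  · rw [S.ker_norm]; exact hc s hs _
  · rw [S.ker_off a F s h, norm_zero]; exact (norm_nonneg _).trans (hc s hs 0)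

theorem Sy.Ker.sup {S : Sy X μ C} {n : ℤ} {K : ℝ → X → X → W →L[ℝ] W} (h : S.Ker n K) :
    ∃ c : ℝ, ∀ s ∈ Ioc (0 : ℝ) 1, ∀ x y, ‖K s x y‖ ≤ c * √s ^ n := by
  obtain ⟨F, hF, hK⟩ := h
  choose c hc using fun a => S.ker_sup a (hF a).1 (hF a).2
  refine ⟨∑ a, c a, fun s hs x y => ?_⟩
  rw [hK s hs.1, Finset.sum_mul]
  exact (norm_sum_le _ _).trans (Finset.sum_le_sum fun a _ => hc a s hs x y)

theorem ker_slice {Y V : Type} [MeasurableSpace Y] [TopologicalSpace V] [Zero V]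
    {K : ℝ → Y → Y → V} (h : StronglyMeasurable fun p : ℝ × Y × Y =>
      if 0 < p.1 then K p.1 p.2.1 p.2.2 else 0) {s : ℝ} (hs : 0 < s) :
    StronglyMeasurable (uncurry (K s)) := by
  have h1 := h.comp_measurable (measurable_prodMk_left (x := s))
  have h2 : uncurry (K s) = (fun p : ℝ × Y × Y => if 0 < p.1 then K p.1 p.2.1 p.2.2 else 0) ∘
      Prod.mk s := funext fun q => (if_pos hs).symm
  rw [h2]
  exact h1

theorem Sy.Ker.bm {S : Sy X μ C} {n : ℤ} {K : ℝ → X → X → W →L[ℝ] W} (h : S.Ker n K) {s : ℝ}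
    (hs : s ∈ Ioc (0 : ℝ) 1) : Bm (K s) := by
  obtain ⟨c, hc⟩ := h.sup
  exact ⟨ker_slice h.meas3 hs.1, _, hc s hs⟩

theorem Bm.ker_int {Y : Type} [MeasurableSpace Y] {ν : Measure Y} [IsFiniteMeasure ν]
    {k : Y → Y → W →L[ℝ] W} (h : Bm k) (y : Y) :
    Integrable (fun x => ‖k x y‖) ν ∧ Integrable (fun x => ‖k y x‖) ν := by
  obtain ⟨h1, c, hc⟩ := h
  exact ⟨(Integrable.of_bound (h1.comp_measurable measurable_prodMk_right).aestronglyMeasurable c
      (ae_of_all _ fun x => hc x y)).norm,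
    (Integrable.of_bound (h1.comp_measurable measurable_prodMk_left).aestronglyMeasurable c
      (ae_of_all _ fun x => hc y x)).norm⟩

theorem Sy.ker_l1 (S : Sy X μ C) (a : Fin S.n) {n : ℤ} {F : Z → W →L[ℝ] W}
    (h : (S.L a).T n F) (hs : Supp F) :
    ∃ c : ℝ, ∀ s ∈ Ioc (0 : ℝ) 1, ∀ y, (∫ x, ‖S.lift a F s x y‖ ∂μ) ≤ c * √s ^ (n + 4) ∧
      (∫ x, ‖S.lift a F s y x‖ ∂μ) ≤ c * √s ^ (n + 4) := by
  have hw : Continuous fun z => S.κ * (S.L a).m z :=
    continuous_const.mul (S.L a).toFr.sec_m_cont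
  have hp : ∀ z, |S.κ * (S.L a).m z| = S.κ * (S.L a).m z := fun z =>
    abs_of_pos (mul_pos S.hκ ((S.L a).toFr.sec_m_pos z))
  obtain ⟨c, hc⟩ := h.l1 hs hw
  refine ⟨c, fun s hs y => ?_⟩
  by_cases hy : y ∈ range (S.ψ a)
  · obtain ⟨w, rfl⟩ := hy
    have h1 : (fun x => ‖S.lift a F s x (S.ψ a w)‖) =
        extend (S.ψ a) (fun z => ‖F (s, z, w)‖) 0 := funext fun x => by
      by_cases hx : x ∈ range (S.ψ a)
      · obtain ⟨z, rfl⟩ := hx
        rw [S.ker_norm, S.toAtl.sec_ext]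
      · rw [S.ker_off a F s (.inl hx), S.toAtl.sec_off a _ hx, norm_zero]
    have h2 : (fun x => ‖S.lift a F s (S.ψ a w) x‖) =
        extend (S.ψ a) (fun z => ‖F (s, w, z)‖) 0 := funext fun x => by
      by_cases hx : x ∈ range (S.ψ a)
      · obtain ⟨z, rfl⟩ := hx
        rw [S.ker_norm, S.toAtl.sec_ext]
      · rw [S.ker_off a F s (.inr hx), S.toAtl.sec_off a _ hx, norm_zero]
    rw [h1, h2, S.toAtl.integral_ext, S.toAtl.integral_ext]
    have h3 := hc s hs w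
    simp only [hp] at h3
    simp only [smul_eq_mul, mul_comm (S.κ * _)]
    exact h3
  · have h0 : 0 ≤ c * √s ^ (n + 4) :=
      (integral_nonneg fun x => mul_nonneg (norm_nonneg _) (abs_nonneg _)).trans (hc s hs 0).1
    simp only [S.ker_off a F s (.inl hy), S.ker_off a F s (.inr hy), norm_zero, integral_zero]
    exact ⟨h0, h0⟩

theorem Sy.Ker.l1 {S : Sy X μ C} {n : ℤ} {K : ℝ → X → X → W →L[ℝ] W} (h : S.Ker n K) :
    ∃ c : ℝ, ∀ s ∈ Ioc (0 : ℝ) 1, ∀ y, (∫ x, ‖K s x y‖ ∂μ) ≤ c * √s ^ (n + 4) ∧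
      (∫ x, ‖K s y x‖ ∂μ) ≤ c * √s ^ (n + 4) := by
  have := S.toAtl.fin
  obtain ⟨F, hF, hK⟩ := h
  choose c hc using fun a => S.ker_l1 a (hF a).1 (hF a).2
  refine ⟨∑ a, c a, fun s hs y => ?_⟩
  have hb : ∀ a, Bm (S.lift a (F a) s) := fun a => by
    obtain ⟨d, hd⟩ := S.ker_sup a (hF a).1 (hF a).2
    exact ⟨ker_slice (S.ker_meas a (hF a).1) hs.1, _, hd s hs⟩
  simp only [hK s hs.1, Finset.sum_mul]
  constructor
  · refine (integral_mono_of_nonneg (ae_of_all _ fun x => norm_nonneg _)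
      (integrable_finsetSum _ fun a _ => ((hb a).ker_int y).1)
      (ae_of_all _ fun x => norm_sum_le _ _)).trans ?_
    rw [integral_finsetSum _ fun a _ => ((hb a).ker_int y).1]
    exact Finset.sum_le_sum fun a _ => (hc a s hs y).1
  · refine (integral_mono_of_nonneg (ae_of_all _ fun x => norm_nonneg _)
      (integrable_finsetSum _ fun a _ => ((hb a).ker_int y).2)
      (ae_of_all _ fun x => norm_sum_le _ _)).trans ?_
    rw [integral_finsetSum _ fun a _ => ((hb a).ker_int y).2]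
    exact Finset.sum_le_sum fun a _ => (hc a s hs y).2

theorem Sy.ker_smx (S : Sy X μ C) (a : Fin S.n) {n : ℤ} {F : Z → W →L[ℝ] W}
    (h : (S.L a).T n F) (hF : Supp F) {s : ℝ} (hs : 0 < s) (y : X) (w : W) :
    S.Sm ∞ fun x => S.lift a F s x y w := by
  by_cases hy : y ∈ range (S.ψ a)
  · obtain ⟨v, rfl⟩ := hy
    simp only [S.lift_apply]
    refine S.up_sm le_rfl a (((h.smooth_s hs).comp
      (contDiff_id.prodMk contDiff_const)).clm_apply contDiff_const) ?_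
    obtain ⟨K, hK, h1⟩ := hF
    refine HasCompactSupport.intro hK fun z hz => ?_
    by_contra h2
    exact hz (h1 (s, z, v) hs fun h3 => h2 (by rw [h3]; rfl)).1
  · simp only [S.lift_off a F s _ hy]
    exact S.sec.zero_mem

theorem Sy.Ker.smx {S : Sy X μ C} {n : ℤ} {K : ℝ → X → X → W →L[ℝ] W} (h : S.Ker n K) {s : ℝ}
    (hs : 0 < s) (y : X) (w : W) : S.Sm ∞ fun x => K s x y w := by
  obtain ⟨F, hF, hK⟩ := h
  have h1 := S.sec.sum_mem (t := Finset.univ) (f := fun a x => S.lift a (F a) s x y w)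
    fun a _ => S.ker_smx a (hF a).1 (hF a).2 hs y w
  have h2 : (fun x => K s x y w) = ∑ a, fun x => S.lift a (F a) s x y w := funext fun x => by
    rw [hK s hs, Finset.sum_apply, _root_.sum_apply]
  rw [h2]
  exact h1

theorem Sy.Ker.ds {S : Sy X μ C} {n : ℤ} {K : ℝ → X → X → W →L[ℝ] W} (h : S.Ker n K) :
    ∃ K', S.Ker (n - 2) K' ∧ ∀ s, 0 < s → ∀ x y, HasDerivAt (fun t => K t x y) (K' s x y) s := by
  obtain ⟨F, hF, hK⟩ := h
  refine ⟨fun s x y => ∑ a, S.lift a (Nz.ds (F a)) s x y, ⟨fun a => Nz.ds (F a),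
    fun a => ⟨(hF a).1.ds, (hF a).2.ds⟩, fun _ _ _ _ => rfl⟩, fun s hs x y => ?_⟩
  have h1 : ∀ a, HasDerivAt (fun t => S.lift a (F a) t x y) (S.lift a (Nz.ds (F a)) s x y) s :=
    fun a => by
    rcases S.ker_cases a x y with ⟨z, w, rfl, rfl⟩ | h
    · simp only [S.ker_on]
      exact (((hF a).1.hasDerivAt hs (z, w)).const_mul _).mul_const _
    · simp only [S.ker_off a _ _ h]
      exact hasDerivAt_const _ _
  refine (HasDerivAt.fun_sum fun a _ => h1 a).congr_of_eventuallyEq ?_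
  filter_upwards [Ioi_mem_nhds hs] with t ht
  exact hK t ht x y

end Pool.Agent.Lib.MP_1c0d65_gt.Nz
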