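import Pool.Agent.Lib.MP_1c0d65_gt.Nz.Weitz

/-! A second name for the Weitzenboeck formula; the supertrace lemmas are in the import. -/

set_option autoImplicit false

open scoped ContDiff

namespace Pool.Agent.Lib.MP_1c0d65_gt.Nz

open Pool.Agent.Lib.MP_1c0d65_gt.PW

variable {W : Type} [NormedAddCommGroup W] [InnerProductSpace ℝ W] [FiniteDimensional ℝ W]
  [CompleteSpace W] {C : Cl W}

theorem Loc.weitzb (L : Loc C) {u : E → W} (hu : ContDiff ℝ ∞ u) (z : E) : L.D (L.D u) z =
    -∑ i, L.nab i (L.nab i u) z + ∑ k, L.b k z • L.nab k u z - L.En z (u z) := L.weitz hu z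

end Pool.Agent.Lib.MP_1c0d65_gt.Nz
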