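import Pool.Agent.Lib.MP_1c0d65_gt.Nz.Delta
import Pool.Agent.Lib.MP_1c0d65_gt.Nz.Ker
import Pool.Agent.Lib.MP_1c0d65_gt.Nz.Dop
import Pool.Agent.Lib.MP_1c0d65_gt.Nz.Cut
import Pool.Agent.Lib.MP_1c0d65_gt.Nz.Str

/-! The glued kernel is a global parametrix. -/

set_option autoImplicit false

open scoped ContDiff Topology
open Set MeasureTheory Function Filter

noncomputable section

namespace Pool.Agent.Lib.MP_1c0d65_gt.Nz

open Pool.Agent.Lib.MP_1c0d65_gt.PW

section loc
variable {V : Type} [NormedAddCommGroup V] [NormedSpace ℝ V]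

theorem gl_m_cont (f : Fr) : Continuous f.m :=
  (ContinuousLinearMap.continuous_det.comp f.hθ.continuous).abs

omit [NormedSpace ℝ V] in
theorem gl_supp_x {F : Z → V} (h : Supp F) {s : ℝ} (hs : 0 < s) (y : E) :
    HasCompactSupport fun x => F (s, x, y) := by
  obtain ⟨K, hK, h⟩ := h
  exact HasCompactSupport.intro hK fun x hx => by
    by_contra h0
    exact hx (h (s, x, y) hs h0).1

omit [NormedSpace ℝ V] in
theorem gl_supp_d {F : Z → V} (h : Supp F) {s : ℝ} (hs : 0 < s) :
    HasCompactSupport fun x => F (s, x, x) := by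
  obtain ⟨K, hK, h⟩ := h
  exact HasCompactSupport.intro hK fun x hx => by
    by_contra h0
    exact hx (h (s, x, x) hs h0).1

theorem gl_smooth_x {f : Fr} {n : ℤ} {F : Z → V} (h : f.T n F) {s : ℝ} (hs : 0 < s) (y : E) :
    ContDiff ℝ ∞ fun x => F (s, x, y) :=
  (h.smooth_s hs).comp (contDiff_id.prodMk contDiff_const)

theorem gl_sqrt : Tendsto (fun s : ℝ => √s) (𝓝[>] 0) (𝓝 0) := by
  have h := Real.continuous_sqrt.tendsto 0
  rw [Real.sqrt_zero] at h
  exact h.mono_left nhdsWithin_le_nhds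

theorem gl_ev : ∀ᶠ s : ℝ in 𝓝[>] 0, s ∈ Ioc (0 : ℝ) 1 := Ioc_mem_nhdsGT one_pos

omit [NormedSpace ℝ V] in
theorem gl_ext_cont {X : Type} [TopologicalSpace X] [T2Space X] {ψ : E → X}
    (hψ : Topology.IsOpenEmbedding ψ) {u : E → V} (hu : Continuous u) (hc : HasCompactSupport u) :
    Continuous (extend ψ u 0) :=
  continuous_of_tsupport fun x h => by
    obtain ⟨z, -, rfl⟩ := hc.tsupport_extend_zero_subset hψ.continuous h
    rw [← hψ.continuousAt_iff, extend_comp hψ.injective]
    exact hu.continuousAt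

end loc

variable {W : Type} [NormedAddCommGroup W] [InnerProductSpace ℝ W] [FiniteDimensional ℝ W]
  [CompleteSpace W] {C : Cl W}

theorem gl_D_cs (L : Loc C) {u : E → W} (hc : HasCompactSupport u) :
    HasCompactSupport (L.D u) :=
  HasCompactSupport.intro hc fun x hx => by
    have h1 : u x = 0 := image_eq_zero_of_notMem_tsupport hx
    have h2 : fderiv ℝ u x = 0 := by
      by_contra h
      exact hx (support_fderiv_subset ℝ h)
    simp [Loc.D, Loc.nab, Fr.d, h1, h2]

theorem Loc.Cut.trace {L : Loc C} {ρ : E → ℝ} (hρ : ContDiff ℝ ∞ ρ) (cρ : HasCompactSupport ρ)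
    {N : ℤ} {K R : Z → W →L[ℝ] W} (h : L.Cut ρ N K R) :
    Tendsto (fun s => ∫ z, L.m z * C.str (K (s, z, z))) (𝓝[>] 0)
      (𝓝 (c0 * ∫ z, ρ z * L.dens z * L.m z)) := by
  obtain ⟨K', hT, hd⟩ := h.diag
  obtain ⟨l, hl⟩ := C.exists_str
  obtain ⟨c, m, hm, hb⟩ := hT.bound (K := tsupport ρ) cρ
  have hm' := gl_m_cont L.toFr
  have cw : Continuous fun z => ρ z * L.m z := hρ.continuous.mul hm'
  have sw : HasCompactSupport fun z => ρ z * L.m z := cρ.mul_right
  have iw : Integrable fun z => ‖ρ z * L.m z‖ := (cw.integrable_of_hasCompactSupport sw).norm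
  have t1 : Tendsto (fun s => ∫ z, ρ z * L.m z * l (K' (s, z, z))) (𝓝[>] 0) (𝓝 0) := by
    have h0 : Tendsto (fun s : ℝ => (∫ z, ‖ρ z * L.m z‖) * (‖l‖ * (|c| * √s))) (𝓝[>] 0) (𝓝 0) := by
      simpa using ((gl_sqrt.const_mul |c|).const_mul ‖l‖).const_mul (∫ z, ‖ρ z * L.m z‖)
    refine squeeze_zero_norm' ?_ h0
    filter_upwards [gl_ev] with s hs
    rw [← integral_mul_const]
    refine norm_integral_le_of_norm_le (iw.mul_const _) (Eventually.of_forall fun z => ?_)
    by_cases g : ρ z = 0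
    · simp [g]
    · have hz : z ∈ tsupport ρ := subset_tsupport _ g
      have h1 := hb s hs z hz z hz
      simp only [sub_self, norm_zero, zpow_one, ne_eq, OfNat.ofNat_ne_zero, not_false_eq_true,
        zero_pow, mul_zero, zero_div, neg_zero, Real.exp_zero, mul_one] at h1
      rw [norm_mul]
      refine mul_le_mul_of_nonneg_left ((l.le_opNorm _).trans ?_) (norm_nonneg _)
      refine mul_le_mul_of_nonneg_left (h1.trans ?_) (norm_nonneg _)
      exact mul_le_mul_of_nonneg_right (le_abs_self c) (Real.sqrt_nonneg s)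
  have t2 := t1.const_add (c0 * ∫ z, ρ z * L.dens z * L.m z)
  rw [add_zero] at t2
  refine t2.congr' ?_
  filter_upwards [self_mem_nhdsWithin] with s hs
  have i1 : Integrable fun z => c0 * (ρ z * L.dens z * L.m z) :=
    (((hρ.continuous.mul L.dens_smooth.continuous).mul hm').integrable_of_hasCompactSupport
      cρ.mul_right.mul_right).const_mul c0
  have c2 : Continuous fun z => l (K' (s, z, z)) :=
    l.continuous.comp ((hT.smooth_s hs).continuous.comp (continuous_id.prodMk continuous_id))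
  have i2 : Integrable fun z => ρ z * L.m z * l (K' (s, z, z)) :=
    (cw.mul c2).integrable_of_hasCompactSupport sw.mul_right
  rw [← integral_const_mul, ← integral_add i1 i2]
  refine integral_congr_ae (Eventually.of_forall fun z => ?_)
  simp only [hd s hs z, hl]
  ring

variable {X : Type} [TopologicalSpace X] [T2Space X] [CompactSpace X] [MeasurableSpace X]
  [BorelSpace X] {μ : Measure X}

theorem gl_D_sum (S : Sy X μ C) {ι : Type} (t : Finset ι) {u : ι → X → W}
    (hu : ∀ i, S.Sm ∞ (u i)) : S.D (∑ i ∈ t, u i) = ∑ i ∈ t, S.D (u i) := by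
  classical
  induction t using Finset.induction_on with
  | empty =>
    have h := S.D_smul 0 (u := 0) S.sec.zero_mem
    simpa using h
  | insert i t hi ih =>
    rw [Finset.sum_insert hi, Finset.sum_insert hi,
      S.D_add (hu i) (S.sec.sum_mem fun j _ => hu j), ih]

theorem gl_one (S : Sy X μ C) {N : ℤ} (a : Fin S.n) {ρ : E → ℝ} {K R : Z → W →L[ℝ] W}
    (h : (S.L a).Cut ρ N K R) {s : ℝ} (hs : 0 < s) (x y : X) (w : W) :
    (S.Sm ∞ fun x' => S.lift a K s x' y w) ∧ HasDerivAt (fun t => S.lift a K t x y w)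
      (S.lift a R s x y w - S.D (S.D fun x' => S.lift a K s x' y w) x) s := by
  by_cases hy : y ∈ range (S.ψ a)
  · obtain ⟨y, rfl⟩ := hy
    simp only [S.lift_apply]
    generalize S.g a (S.ψ a y) w = v
    have h1 : ContDiff ℝ ∞ fun z => K (s, z, y) v :=
      (gl_smooth_x h.hK hs y).clm_apply contDiff_const
    have h2 : HasCompactSupport fun z => K (s, z, y) v :=
      (gl_supp_x h.sK hs y).mono fun x hx h0 => hx (by
        have h1 : K (s, x, y) = 0 := h0
        simp [h1])
    refine ⟨S.up_sm le_rfl a h1 h2, ?_⟩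
    have e : S.D (S.D fun x' => S.up a (fun z => K (s, z, y) v) x') = _ :=
      (congrArg S.D (S.D_up a h1 h2)).trans
        (S.D_up a ((S.L a).D_smooth h1) (gl_D_cs _ h2))
    rw [e]
    by_cases hx : ∃ z, S.ψ a z = x
    · obtain ⟨z, rfl⟩ := hx
      simp only [Sy.up, (S.emb a).injective.extend_apply]
      generalize star (S.g a (S.ψ a z)) = g
      rw [← map_sub]
      exact g.hasFDerivAt.comp_hasDerivAt s (h.heat s hs z y v)
    · simp only [Sy.up, extend_apply' _ _ _ hx, Pi.zero_apply, map_zero, sub_self]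
      exact hasDerivAt_const _ _
  · have e0 : S.D (fun _ => 0) = fun _ => 0 := by
      have h := S.D_smul 0 (u := 0) S.sec.zero_mem
      rw [zero_smul, zero_smul] at h
      exact h
    simp only [S.lift_off a _ _ _ hy, zero_apply, e0, sub_self]
    exact ⟨S.sec.zero_mem, hasDerivAt_const _ _⟩

theorem Sy.glue_heat (S : Sy X μ C) {N : ℤ} {K R : Fin S.n → Z → W →L[ℝ] W}
    (h : ∀ a, (S.L a).Cut (S.ρ a) N (K a) (R a)) {s : ℝ} (hs : 0 < s) (x y : X) (w : W) :
    HasDerivAt (fun t => S.glue K t x y w)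
      (S.glue R s x y w - S.D (S.D fun x' => S.glue K s x' y w) x) s := by
  have hu : ∀ a, S.Sm ∞ fun x' => S.lift a (K a) s x' y w :=
    fun a => (gl_one S a (h a) hs x y w).1
  have e1 : (fun x' => S.glue K s x' y w)
      = S.κ⁻¹ • ∑ a, fun x' => S.lift a (K a) s x' y w := by
    funext x'
    simp only [Sy.glue, smul_apply, sum_apply, Pi.smul_apply, Finset.sum_apply]
  have s1 : S.Sm ∞ (∑ a, fun x' => S.lift a (K a) s x' y w) := S.sec.sum_mem fun a _ => hu a
  have e2 : S.D (S.D fun x' => S.glue K s x' y w)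
      = S.κ⁻¹ • ∑ a, S.D (S.D fun x' => S.lift a (K a) s x' y w) := by
    rw [e1, S.D_smul _ s1, S.D_smul _ s1.D, gl_D_sum S _ hu, gl_D_sum S _ fun a => (hu a).D]
  have d := (HasDerivAt.fun_sum (u := Finset.univ)
    fun a _ => (gl_one S a (h a) hs x y w).2).fun_const_smul S.κ⁻¹
  rw [e2]
  simp only [Sy.glue, smul_apply, sum_apply, Pi.smul_apply, Finset.sum_apply]
  rw [← smul_sub, ← Finset.sum_sub_distrib]
  exact d

omit [T2Space X] [CompactSpace X] [BorelSpace X] in
theorem gl_str (S : Sy X μ C) (a : Fin S.n) (F : Z → W →L[ℝ] W) (s : ℝ) (y : X) :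
    C.str (S.lift a F s y y) = extend (S.ψ a) (fun z => C.str (F (s, z, z))) 0 y := by
  have hi := (S.emb a).injective
  by_cases hx : ∃ z, S.ψ a z = y
  · obtain ⟨z, rfl⟩ := hx
    have e : extend (Prod.map (S.ψ a) (S.ψ a)) (fun q => F (s, q)) 0 (S.ψ a z, S.ψ a z)
        = F (s, z, z) := (hi.prodMap hi).extend_apply _ _ (z, z)
    rw [hi.extend_apply, Sy.lift, e]
    exact (C.str_conj (S.g2 a _) (S.g_even a _)).1
  · have e : extend (Prod.map (S.ψ a) (S.ψ a)) (fun q => F (s, q)) 0 (y, y) = 0 :=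
      extend_apply' _ _ _ fun ⟨q, hq⟩ => hx ⟨q.1, congrArg Prod.fst hq⟩
    rw [extend_apply' _ _ _ hx, Sy.lift, e]
    simp [Cl.str]

theorem Sy.glue_diag (S : Sy X μ C) {N : ℤ} {K R : Fin S.n → Z → W →L[ℝ] W}
    (h : ∀ a, (S.L a).Cut (S.ρ a) N (K a) (R a)) :
    Tendsto (fun s => ∫ y, C.str (S.glue K s y y) ∂μ) (𝓝[>] 0) (𝓝 S.ind) := by
  have := S.toAtl.fin
  obtain ⟨l, hl⟩ := C.exists_str
  have t := tendsto_finsetSum Finset.univ fun a _ => (h a).trace (S.hρ a) (S.cρ a)
  rw [← Finset.mul_sum] at t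
  refine t.congr' ?_
  filter_upwards [self_mem_nhdsWithin] with s hs
  have e : ∀ y, C.str (S.glue K s y y)
      = ∑ a, S.κ⁻¹ * extend (S.ψ a) (fun z => C.str (K a (s, z, z))) 0 y := fun y => by
    rw [← hl, Sy.glue, map_smul, map_sum, smul_eq_mul, Finset.mul_sum]
    simp only [hl, gl_str]
  have i : ∀ a, Integrable (extend (S.ψ a) (fun z => C.str (K a (s, z, z))) 0) μ := fun a => by
    have c1 : Continuous fun z => l (K a (s, z, z)) := l.continuous.comp
      (((h a).hK.smooth_s hs).continuous.comp (continuous_id.prodMk continuous_id))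
    have c2 : HasCompactSupport fun z => l (K a (s, z, z)) :=
      (gl_supp_d (h a).sK hs).comp_left (g := fun w => l w) (map_zero l)
    simp only [hl] at c1 c2
    exact (gl_ext_cont (S.emb a) c1 c2).integrable_of_hasCompactSupport
      (HasCompactSupport.of_compactSpace _)
  simp only [e]
  rw [integral_finsetSum _ fun a _ => (i a).const_mul _]
  refine Finset.sum_congr rfl fun a _ => ?_
  rw [integral_const_mul, S.toAtl.integral_ext, ← integral_const_mul]
  refine integral_congr_ae (Eventually.of_forall fun z => ?_)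
  simp only [smul_eq_mul, mul_assoc]
  rw [inv_mul_cancel_left₀ S.hκ.ne']

theorem Sy.exists_par (S : Sy X μ C) (N : ℤ) : ∃ K R, S.Par N K R := by
  choose K R h using fun a => (S.L a).cut (S.strE a) (S.hρ a) (S.cρ a) N
  exact ⟨S.glue K, S.glue R, Sy.Ker.glue fun a => ⟨(h a).hK, (h a).sK⟩,
    Sy.Ker.glue fun a => ⟨(h a).hR, (h a).sR⟩, fun s hs => S.glue_heat h hs,
    fun u hu => S.glue_delta h hu, S.glue_diag h⟩

end Pool.Agent.Lib.MP_1c0d65_gt.Nz
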