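import Pool.Agent.Lib.MP_1c0d65_gt.Nz.Op

/-! Hilbert-Schmidt estimates for operators with bounded kernels. -/

set_option autoImplicit false
set_option linter.unusedSectionVars false

open scoped ContDiff Topology
open Set MeasureTheory Function Filter

noncomputable section

namespace Pool.Agent.Lib.MP_1c0d65_gt.Nz

open Pool.Agent.Lib.MP_1c0d65_gt.PW

variable {W : Type} [NormedAddCommGroup W] [InnerProductSpace ℝ W] [FiniteDimensional ℝ W]
  [CompleteSpace W]
variable {Y : Type} [MeasurableSpace Y] {ν : Measure Y} [IsFiniteMeasure ν]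
  {k k' : Y → Y → W →L[ℝ] W}

theorem hs_compact {H : Type} [NormedAddCommGroup H] [InnerProductSpace ℝ H] [CompleteSpace H]
    {ι : Type} (b : HilbertBasis ι ℝ H) (T : H →L[ℝ] H) (hs : Summable fun i => ‖T (b i)‖ ^ 2) :
    IsCompactOperator T := by
  classical
  have hc := isClosed_setOfPred_isCompactOperator (𝕜₁ := ℝ) (𝕜₂ := ℝ) (σ₁₂ := RingHom.id ℝ)
    (M₁ := H) (M₂ := H)
  refine hc.closure_subset (Metric.mem_closure_iff.2 fun ε hε => ?_)
  obtain ⟨F, hF⟩ := summable_iff_vanishing_norm.1 hs ((ε / 2) ^ 2) (by positivity)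
  refine ⟨∑ i ∈ F, (innerSL ℝ (b i)).smulRight (T (b i)), ?_, ?_⟩
  · refine (compactOperator (RingHom.id ℝ) H H).sum_mem fun i _ => ?_
    exact (isCompactOperator_of_locallyCompactSpace_dom (innerSL ℝ (b i))).clm_comp
      (ContinuousLinearMap.toSpanSingleton ℝ (T (b i)))
  · rw [dist_eq_norm]
    refine lt_of_le_of_lt (ContinuousLinearMap.opNorm_le_bound _ (half_pos hε).le fun φ => ?_)
      (half_lt_self hε)
    have h1 : HasSum (fun i => inner ℝ (b i) φ • T (b i)) (T φ) := by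
      simpa [b.repr_apply_apply] using (b.hasSum_repr φ).mapL T
    have h2 : Tendsto (fun G : Finset ι => ‖∑ i ∈ G, inner ℝ (b i) φ • T (b i) -
        ∑ i ∈ F, inner ℝ (b i) φ • T (b i)‖) atTop
        (𝓝 ‖T φ - ∑ i ∈ F, inner ℝ (b i) φ • T (b i)‖) := (Tendsto.sub_const h1 _).norm
    simp only [sub_apply, sum_apply,
      ContinuousLinearMap.smulRight_apply, innerSL_apply_apply]
    refine le_of_tendsto h2 ((eventually_ge_atTop F).mono fun G hG => ?_)
    rw [← Finset.sum_sdiff_eq_sub hG]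
    have h3 := hF (G \ F) Finset.sdiff_disjoint
    have h4 := b.orthonormal.sum_inner_products_le (s := G \ F) φ
    have h5 := Finset.sum_mul_sq_le_sq_mul_sq (G \ F) (fun i => ‖inner ℝ (b i) φ‖)
      fun i => ‖T (b i)‖
    have h6 : ‖∑ i ∈ G \ F, inner ℝ (b i) φ • T (b i)‖ ≤
        ∑ i ∈ G \ F, ‖inner ℝ (b i) φ‖ * ‖T (b i)‖ :=
      (norm_sum_le _ _).trans (le_of_eq (Finset.sum_congr rfl fun i _ => norm_smul _ _))
    refine h6.trans (abs_le_of_sq_le_sq' ?_ (by positivity)).2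
    rw [mul_pow, mul_comm]
    exact h5.trans (mul_le_mul h4 ((le_abs_self _).trans h3.le) (by positivity) (by positivity))

theorem Bm.hs_meas (h : Bm k) (y : Y) : StronglyMeasurable fun x => k x y :=
  h.1.comp_measurable measurable_prodMk_right

theorem Bm.hs_mem (h : Bm k) (y : Y) (w : W) : MemLp (fun x => k x y w) 2 ν := by
  obtain ⟨c, hc⟩ := h.2
  exact MemLp.of_bound ((ContinuousLinearMap.apply ℝ W w).continuous.comp_stronglyMeasurable
    (h.hs_meas y)).aestronglyMeasurable (c * ‖w‖)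
    (Eventually.of_forall fun x => (k x y).le_of_opNorm_le (hc x y) w)

theorem Bm.hs_inner (h : Bm k) (φ : Lp W 2 ν) (y : Y) (w : W) :
    inner ℝ w (op ν k φ y) = inner ℝ φ ((h.hs_mem (ν := ν) y w).toLp _) := by
  obtain ⟨c, hc⟩ := h.2
  have hφ : Integrable φ ν := (Lp.memLp φ).integrable (by norm_num)
  have hi : Integrable (fun x => star (k x y) (φ x)) ν := by
    refine (hφ.norm.const_mul c).mono'
      (isBoundedBilinearMap_apply.continuous.comp_aestronglyMeasurable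
        ((continuous_star.comp_stronglyMeasurable (h.hs_meas y)).aestronglyMeasurable.prodMk hφ.1))
      (Eventually.of_forall fun x => (star (k x y)).le_of_opNorm_le ?_ _)
    exact (ContinuousLinearMap.adjoint.norm_map (k x y)).le.trans (hc x y)
  rw [op, ← integral_inner hi, L2.inner_def]
  refine integral_congr_ae ((h.hs_mem (ν := ν) y w).coeFn_toLp.mono fun x hx => ?_)
  simp only [hx]
  rw [ContinuousLinearMap.star_eq_adjoint, ContinuousLinearMap.adjoint_inner_right,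
    real_inner_comm]

theorem hs_norm_sq (φ : Lp W 2 ν) :
    Integrable (fun y => ‖φ y‖ ^ 2) ν ∧ ‖φ‖ ^ 2 = ∫ y, ‖φ y‖ ^ 2 ∂ν :=
  ⟨(memLp_two_iff_integrable_sq_norm (Lp.memLp φ).1).1 (Lp.memLp φ), by
    rw [← real_inner_self_eq_norm_sq, L2.inner_def]
    simp only [real_inner_self_eq_norm_sq]⟩

theorem Bm.hs_op (h : Bm k) (φ : Lp W 2 ν) :
    Integrable (fun y => ‖op ν k φ y‖ ^ 2) ν ∧ ‖Op ν k φ‖ ^ 2 = ∫ y, ‖op ν k φ y‖ ^ 2 ∂ν := by
  have e : (fun y => ‖Op ν k φ y‖ ^ 2) =ᵐ[ν] fun y => ‖op ν k φ y‖ ^ 2 :=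
    (h.isOp φ).mono fun y hy => by simp only [hy]
  exact ⟨(hs_norm_sq _).1.congr e, (hs_norm_sq _).2.trans (integral_congr_ae e)⟩

theorem Bm.hs_pt (h : Bm k) (φ : Lp W 2 ν) (y : Y) : ‖op ν k φ y‖ ^ 2 =
    ∑ j, inner ℝ φ ((h.hs_mem (ν := ν) y (stdOrthonormalBasis ℝ W j)).toLp _) ^ 2 := by
  rw [← (stdOrthonormalBasis ℝ W).sum_sq_inner_right]
  simp only [h.hs_inner]

theorem Bm.hs_sq_int (h : Bm k) (y : Y) : Integrable (fun x => ‖k x y‖ ^ 2) ν := by
  obtain ⟨c, hc⟩ := h.2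
  exact (memLp_two_iff_integrable_sq_norm (h.hs_meas y).aestronglyMeasurable).1
    (MemLp.of_bound (h.hs_meas y).aestronglyMeasurable c (Eventually.of_forall fun x => hc x y))

theorem Bm.bessel (h : Bm k) {ι : Type} {b : ι → Lp W 2 ν} (hb : Orthonormal ℝ b) (s : Finset ι)
    {c : ℝ} (hc : ∀ y, (∫ x, ‖k x y‖ ^ 2 ∂ν) ≤ c) :
    ∑ i ∈ s, ‖Op ν k (b i)‖ ^ 2 ≤ Module.finrank ℝ W * (ν.real univ * c) := by
  have h1 : ∀ y, ∑ i ∈ s, ‖op ν k (b i) y‖ ^ 2 ≤ Module.finrank ℝ W * c := fun y => by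
    simp only [h.hs_pt]
    rw [Finset.sum_comm]
    refine (Finset.sum_le_card_nsmul _ _ c fun j _ => ?_).trans (by simp)
    have h2 := hb.sum_inner_products_le (s := s)
      ((h.hs_mem (ν := ν) y (stdOrthonormalBasis ℝ W j)).toLp _)
    simp only [Real.norm_eq_abs, sq_abs] at h2
    refine h2.trans (((hs_norm_sq _).2.trans_le ?_).trans (hc y))
    refine integral_mono_ae (hs_norm_sq _).1 (h.hs_sq_int y)
      ((h.hs_mem (ν := ν) y (stdOrthonormalBasis ℝ W j)).coeFn_toLp.mono fun x hx => ?_)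
    simp only [hx]
    have := (k x y).le_opNorm (stdOrthonormalBasis ℝ W j)
    rw [(stdOrthonormalBasis ℝ W).orthonormal.1 j, mul_one] at this
    gcongr
  simp only [fun i => (h.hs_op (b i)).2]
  rw [← integral_finsetSum _ fun i _ => (h.hs_op (b i)).1]
  refine (integral_mono (integrable_finsetSum _ fun i _ => (h.hs_op (b i)).1)
    (integrable_const _) h1).trans (le_of_eq ?_)
  rw [integral_const, smul_eq_mul]
  ring

theorem Bm.hs_summable (h : Bm k) {ι : Type} {b : ι → Lp W 2 ν} (hb : Orthonormal ℝ b) :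
    Summable fun i => ‖Op ν k (b i)‖ ^ 2 := by
  obtain ⟨c, hc⟩ := h.2
  refine summable_of_sum_le (fun i => by positivity) fun s => h.bessel hb s
    (c := ∫ _, c ^ 2 ∂ν) fun y => integral_mono (h.hs_sq_int y) (integrable_const _) fun x => ?_
  have := hc x y
  simp only
  gcongr

theorem Bm.compact (h : Bm k) : IsCompactOperator (Op ν k) := by
  obtain ⟨w, b, -⟩ := exists_hilbertBasis ℝ (Lp W 2 ν)
  exact hs_compact b _ (h.hs_summable b.orthonormal)

theorem Bm.parseval (C : Cl W) (h : Bm k) {ι : Type} [Countable ι]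
    (b : HilbertBasis ι ℝ (Lp W 2 ν)) {σ : ι → ℝ} (hσ : ∀ i, σ i = 1 ∨ σ i = -1)
    (hb : ∀ i, ∀ᵐ x ∂ν, C.ε (b i x) = σ i • b i x) :
    HasSum (fun i => σ i * ‖Op ν k (b i)‖ ^ 2) (∫ y, C.col ν k y ∂ν) := by
  have hε : ∀ u v : W, inner ℝ (C.ε u) v = inner ℝ u (C.ε v) := fun u v => by
    rw [← ContinuousLinearMap.adjoint_inner_right, ← ContinuousLinearMap.star_eq_adjoint, C.ε_star]
  have h1 : ∀ (f : Lp W 2 ν) i, inner ℝ (C.ε.compLp f) (b i) = σ i * inner ℝ (b i) f := by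
    intro f i
    rw [L2.inner_def, L2.inner_def, ← integral_const_mul]
    refine integral_congr_ae ?_
    filter_upwards [C.ε.coeFn_compLp f, hb i] with x h2 h3
    rw [h2, hε, h3, real_inner_smul_right, real_inner_comm]
  have h2 : ∀ y, HasSum (fun i => σ i * ‖op ν k (b i) y‖ ^ 2) (C.col ν k y) := fun y => by
    have h3 := hasSum_sum (s := Finset.univ) fun j _ => b.hasSum_inner_mul_inner
      (C.ε.compLp ((h.hs_mem (ν := ν) y (stdOrthonormalBasis ℝ W j)).toLp _))
      ((h.hs_mem (ν := ν) y (stdOrthonormalBasis ℝ W j)).toLp _)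
    refine (congrArg₂ HasSum (funext fun i => ?_) ?_).mpr h3
    · rw [h.hs_pt, Finset.mul_sum]
      refine Finset.sum_congr rfl fun j _ => ?_
      rw [h1]
      ring
    · simp only [L2.inner_def]
      rw [Cl.col, ← integral_finsetSum _ fun j _ => L2.integrable_inner _ _]
      refine integral_congr_ae ?_
      filter_upwards [ae_all_iff.2 fun j => C.ε.coeFn_compLp
          ((h.hs_mem (ν := ν) y (stdOrthonormalBasis ℝ W j)).toLp _),
        ae_all_iff.2 fun j => (h.hs_mem (ν := ν) y (stdOrthonormalBasis ℝ W j)).coeFn_toLp]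
        with x h4 h5
      simp only [h4, h5]
  have h3 : ∀ i, ∫ y, ‖σ i * ‖op ν k (b i) y‖ ^ 2‖ ∂ν = ‖Op ν k (b i)‖ ^ 2 := fun i => by
    rw [(h.hs_op (b i)).2]
    rcases hσ i with e | e <;> simp [e]
  have h4 := hasSum_integral_of_summable_integral_norm
    (fun i => (h.hs_op (b i)).1.const_mul (σ i))
    (by simpa only [h3] using h.hs_summable b.orthonormal)
  simpa only [integral_const_mul, (h2 _).tsum_eq, ← fun i => (h.hs_op (b i)).2] using h4

end Pool.Agent.Lib.MP_1c0d65_gt.Nz
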