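import Pool.Agent.Lib.MP_1c0d65_gt.Nz.Id
import Pool.Agent.Lib.MP_21f752_an.PInt

/-! Hadamard's lemma and the Euler identity for the ideal of the diagonal. -/

set_option autoImplicit false

open scoped ContDiff Topology
open Set MeasureTheory Function Filter

noncomputable section

namespace Pool.Agent.Lib.MP_1c0d65_gt.Nz

open Pool.Agent.Lib.MP_1c0d65_gt.PW

variable {V : Type} [NormedAddCommGroup V] [NormedSpace ℝ V] {f : Fr}

theorem Fr.had1 [CompleteSpace V] (f : Fr) {c : E × E → V} (hc : ContDiff ℝ ∞ c)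
    (h0 : ∀ y, c (y, y) = 0) : f.I 1 c := by
  have hp : ContDiff ℝ ∞ fun p : (E × E) × ℝ => (p.1.2 + p.2 • (p.1.1 - p.1.2), p.1.2) := by
    fun_prop
  have hF : ∀ i, ContDiff ℝ ∞ fun p : (E × E) × ℝ =>
      fderiv ℝ c (p.1.2 + p.2 • (p.1.1 - p.1.2), p.1.2) (f.e i p.1.2, 0) := fun i =>
    ((hc.fderiv_right (m := ∞) (by simp)).comp hp).clm_apply
      (((f.e_smooth i).comp (contDiff_snd.comp contDiff_fst)).prodMk contDiff_const)
  refine ⟨fun i q => ∫ t in (0 : ℝ)..1, fderiv ℝ c (q.2 + t • (q.1 - q.2), q.2) (f.e i q.2, 0),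
    fun i => MP_21f752_an.contDiff_int (n := ⊤) (hF i) 0 1, funext fun q => ?_⟩
  have hd : ∀ t : ℝ, HasDerivAt (fun t : ℝ => c (q.2 + t • (q.1 - q.2), q.2))
      (∑ i, f.eta i q • fderiv ℝ c (q.2 + t • (q.1 - q.2), q.2) (f.e i q.2, 0)) t := fun t => by
    have h1 : HasDerivAt (fun t : ℝ => (q.2 + t • (q.1 - q.2), q.2)) (q.1 - q.2, 0) t := by
      simpa using (((hasDerivAt_id t).smul_const (q.1 - q.2)).const_add q.2).prodMk
        (hasDerivAt_const t q.2)
    have h2 := (hc.differentiable (by simp) _).hasFDerivAt.comp_hasDerivAt t h1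
    have e : ((q.1 - q.2, 0) : E × E) = ∑ i, f.eta i q • (f.e i q.2, (0 : E)) := by
      ext1
      · simp [Prod.fst_sum, Fr.sum_eta]
      · simp [Prod.snd_sum]
    rw [e, map_sum] at h2
    simp only [map_smul] at h2
    exact h2
  have hc' : ∀ i, Continuous fun t : ℝ => fderiv ℝ c (q.2 + t • (q.1 - q.2), q.2) (f.e i q.2, 0) :=
    fun i => (hF i).continuous.comp (Continuous.prodMk_right q)
  have h := intervalIntegral.integral_eq_sub_of_hasDerivAt (a := 0) (b := 1) (fun t _ => hd t)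
    ((continuous_finsetSum _ fun i _ => (hc' i).const_smul _).intervalIntegrable _ _)
  rw [intervalIntegral.integral_finsetSum (f := fun i t => f.eta i q •
    fderiv ℝ c (q.2 + t • (q.1 - q.2), q.2) (f.e i q.2, 0))
    fun i _ => ((hc' i).const_smul _).intervalIntegrable _ _] at h
  simp only [intervalIntegral.integral_smul] at h
  rw [h]; simp [h0]

theorem Fr.had_dx (f : Fr) (i : Fin 4) {d : Fin 4 → E × E → V} (h : ∀ j, ContDiff ℝ ∞ (d j))
    (q : E × E) : f.dx i (fun q => ∑ j, f.eta j q • d j q) q =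
      ∑ j, (f.eta j q • f.dx i (d j) q + f.dx i (f.eta j) q • d j q) := by
  have h := HasFDerivAt.fun_sum (u := Finset.univ) fun j _ =>
    (((f.eta_smooth j).differentiable (by simp) q).hasFDerivAt.fun_smul
      ((h j).differentiable (by simp) q).hasFDerivAt)
  unfold Fr.dx
  rw [h.fderiv]; simp

theorem Fr.had2 [CompleteSpace V] (f : Fr) {c : E × E → V} (hc : ContDiff ℝ ∞ c)
    (h0 : ∀ y, c (y, y) = 0) (h1 : ∀ i y, f.dx i c (y, y) = 0) : f.I 2 c := by
  obtain ⟨d, hd, rfl⟩ := f.had1 hc h0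
  refine ⟨d, fun i => f.had1 (hd i) fun y => ?_, rfl⟩
  have := h1 i y
  rw [f.had_dx i hd] at this
  simpa [f.eta_diag, f.dx_eta_diag] using this

theorem Fr.dx_eta (f : Fr) (i j : Fin 4) :
    f.I 1 fun q => f.dx i (f.eta j) q - if j = i then 1 else 0 :=
  f.had1 ((Fr.I.dx (r := 0) (f.eta_smooth j) i).smooth.sub contDiff_const) fun y => by
    rw [f.dx_eta_diag, sub_self]

theorem Fr.I.euler {r : ℕ} {c : E × E → V} (hc : f.I r c) :
    f.I (r + 1) fun q => ∑ i, f.eta i q • f.dx i c q - (r : ℝ) • c q := by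
  induction r generalizing c with
  | zero => exact ⟨fun i => f.dx i c, fun i => hc.dx i, by simp⟩
  | succ r ih =>
    obtain ⟨d, hd, rfl⟩ := hc
    have h1 : ∀ j, f.I 2 fun q => ∑ i, f.eta i q * f.dx i (f.eta j) q - f.eta j q := fun j => by
      have := Fr.I.sum Finset.univ fun i _ => (f.dx_eta i j).eta_smul i
      simpa [mul_sub, Finset.sum_sub_distrib] using this
    have h2 := (Fr.I.sum Finset.univ fun j _ => ((h1 j).bil (hd j)
      (ContinuousLinearMap.lsmul ℝ ℝ)).mono (show r + 1 + 1 ≤ 2 + r by omega)).add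
      (Fr.I.sum Finset.univ fun j _ => (ih (hd j)).eta_smul j)
    convert h2 using 2 with q
    simp only [f.had_dx _ fun j => (hd j).smooth]
    simp only [Fin.sum_univ_four, ContinuousLinearMap.lsmul_apply]
    push_cast
    module

theorem Fr.offdiag (f : Fr) {c : E × E → V} (hc : ContDiff ℝ ∞ c)
    (h0 : ∀ y, ∀ᶠ q in 𝓝 (y, y), c q = 0) (r : ℕ) : f.I r c := by
  induction r generalizing c with
  | zero => exact hc
  | succ r ih =>
    have hq : ContDiff ℝ ∞ fun q => ∑ j, f.eta j q ^ 2 :=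
      ContDiff.sum fun j _ => (f.eta_smooth j).pow 2
    have hz : ∀ q : E × E, ∑ j, f.eta j q ^ 2 = 0 → ∀ᶠ q' in 𝓝 q, c q' = 0 := fun q h => by
      have h1 : ∀ j, f.eta j q = 0 := fun j => pow_eq_zero_iff two_ne_zero |>.1
        ((Finset.sum_eq_zero_iff_of_nonneg fun j _ => sq_nonneg (f.eta j q)).1 h j
          (Finset.mem_univ j))
      have h2 := f.sum_eta q
      simp only [h1, zero_smul, Finset.sum_const_zero] at h2
      have h3 : q = (q.2, q.2) := Prod.ext (sub_eq_zero.1 h2.symm) rfl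
      rw [h3]; exact h0 q.2
    have hb : ContDiff ℝ ∞ fun q => (∑ j, f.eta j q ^ 2)⁻¹ • c q :=
      contDiff_iff_contDiffAt.2 fun q => by
        by_cases h : ∑ j, f.eta j q ^ 2 = 0
        · exact (contDiffAt_const (c := (0 : V))).congr_of_eventuallyEq
            ((hz q h).mono fun y hy => by simp only [hy, smul_zero])
        · exact (hq.contDiffAt.inv h).smul hc.contDiffAt
    have h2 := ih hb fun y => (h0 y).mono fun q hq => by simp only [hq, smul_zero]
    refine ⟨fun i q => f.eta i q • (∑ j, f.eta j q ^ 2)⁻¹ • c q,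
      fun i => (h2.eta_smul i).mono (Nat.le_succ r), funext fun q => ?_⟩
    by_cases h : ∑ j, f.eta j q ^ 2 = 0
    · simp [(hz q h).self_of_nhds]
    · simp only [smul_smul, ← mul_assoc, ← sq, ← Finset.sum_smul, ← Finset.sum_mul]
      rw [mul_inv_cancel₀ h, one_smul]

end Pool.Agent.Lib.MP_1c0d65_gt.Nz
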