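import Pool.Agent.Lib.MP_1c0d65_gt.Nz.Cls

/-! The powers of the ideal of the diagonal. -/

set_option autoImplicit false

open scoped ContDiff Topology
open Set MeasureTheory Function Filter

noncomputable section

namespace Pool.Agent.Lib.MP_1c0d65_gt.Nz

open Pool.Agent.Lib.MP_1c0d65_gt.PW

section loc
variable {V V' V'' : Type} [NormedAddCommGroup V] [NormedSpace ℝ V] [NormedAddCommGroup V']
  [NormedSpace ℝ V'] [NormedAddCommGroup V''] [NormedSpace ℝ V''] {f : Fr}

theorem co_bs (i j : Fin 4) : co i (bs j) = if i = j then 1 else 0 := by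
  fin_cases i <;> fin_cases j <;> simp [co, bs]

theorem sum_co (v : E) : ∑ i, co i v • bs i = v := by
  obtain ⟨a, b⟩ := v
  simp only [Fin.sum_univ_four, co, bs]
  ext <;> simp

theorem Fr.e_smooth (f : Fr) (i : Fin 4) : ContDiff ℝ ∞ (f.e i) :=
  f.hM.clm_apply contDiff_const

theorem Fr.eta_smooth (f : Fr) (i : Fin 4) : ContDiff ℝ ∞ (f.eta i) :=
  (co i).contDiff.comp ((f.hθ.comp contDiff_snd).clm_apply (contDiff_fst.sub contDiff_snd))

theorem Fr.eta_diag (f : Fr) (i : Fin 4) (y : E) : f.eta i (y, y) = 0 := by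
  simp [Fr.eta]

theorem Fr.sum_eta (f : Fr) (q : E × E) : ∑ i, f.eta i q • f.e i q.2 = q.1 - q.2 := by
  have h := congrArg (f.M q.2) (sum_co (f.θ q.2 (q.1 - q.2)))
  rw [f.Mθ, map_sum] at h
  simp only [map_smul] at h
  exact h

theorem Fr.dx_eta_diag (f : Fr) (i j : Fin 4) (y : E) :
    f.dx i (f.eta j) (y, y) = if j = i then 1 else 0 := by
  have h1 : HasFDerivAt (fun x : E => f.eta j (x, y))
      ((fderiv ℝ (f.eta j) (y, y)).comp (ContinuousLinearMap.inl ℝ E E)) y :=
    HasFDerivAt.comp (f := fun x : E => (x, y)) y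
      ((f.eta_smooth j).differentiable (by simp) (y, y)).hasFDerivAt (hasFDerivAt_prodMk_left y y)
  have h2 : HasFDerivAt (fun x : E => f.eta j (x, y)) ((co j).comp (f.θ y)) y := by
    have h := ((co j).comp (f.θ y)).hasFDerivAt.comp y ((hasFDerivAt_id y).sub_const y)
    simpa [Fr.eta, Function.comp_def] using h
  have h3 := congrArg (fun L : E →L[ℝ] ℝ => L (f.e i y)) (h1.unique h2)
  simp only [ContinuousLinearMap.comp_apply, ContinuousLinearMap.inl_apply] at h3
  rw [Fr.dx, h3, Fr.e, f.θM, co_bs]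

theorem Fr.I.smooth {r : ℕ} {c : E × E → V} (h : f.I r c) : ContDiff ℝ ∞ c := by
  induction r generalizing c with
  | zero => exact h
  | succ r ih =>
    obtain ⟨d, hd, rfl⟩ := h
    exact ContDiff.sum fun i _ => (f.eta_smooth i).smul (ih (hd i))

theorem Fr.I.clm {r : ℕ} {c : E × E → V} (h : f.I r c) {a : E × E → V →L[ℝ] V'}
    (ha : ContDiff ℝ ∞ a) : f.I r fun q => a q (c q) := by
  induction r generalizing c with
  | zero => exact ContDiff.clm_apply ha h
  | succ r ih =>
    obtain ⟨d, hd, rfl⟩ := h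
    exact ⟨fun i q => a q (d i q), fun i => ih (hd i), funext fun q => by simp⟩

theorem Fr.I.zero (f : Fr) (r : ℕ) : f.I r fun _ => (0 : V) := by
  induction r with
  | zero => exact contDiff_const
  | succ r ih => exact ⟨fun _ _ => 0, fun _ => ih, funext fun q => by simp⟩

theorem Fr.I.add {r : ℕ} {c d : E × E → V} (hc : f.I r c) (hd : f.I r d) :
    f.I r fun q => c q + d q := by
  induction r generalizing c d with
  | zero => exact ContDiff.add hc hd
  | succ r ih =>
    obtain ⟨a, ha, rfl⟩ := hc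
    obtain ⟨b, hb, rfl⟩ := hd
    exact ⟨fun i q => a i q + b i q, fun i => ih (ha i) (hb i),
      funext fun q => by simp [Finset.sum_add_distrib]⟩

theorem Fr.I.map {r : ℕ} {c : E × E → V} (hc : f.I r c) (L : V →L[ℝ] V') :
    f.I r fun q => L (c q) := hc.clm (a := fun _ => L) contDiff_const

theorem Fr.I.fsmul {r : ℕ} {c : E × E → V} (h : f.I r c) {g : E × E → ℝ} (hg : ContDiff ℝ ∞ g) :
    f.I r fun q => g q • c q :=
  h.clm (a := fun q => g q • ContinuousLinearMap.id ℝ V) (hg.smul contDiff_const)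

theorem Fr.I.smul {r : ℕ} {c : E × E → V} (hc : f.I r c) (a : ℝ) : f.I r fun q => a • c q :=
  hc.fsmul (g := fun _ => a) contDiff_const

theorem Fr.I.neg {r : ℕ} {c : E × E → V} (h : f.I r c) : f.I r fun q => -c q := by
  simpa using h.smul (-1)

theorem Fr.I.sub {r : ℕ} {c d : E × E → V} (hc : f.I r c) (hd : f.I r d) :
    f.I r fun q => c q - d q := by
  simpa [sub_eq_add_neg] using hc.add hd.neg

theorem Fr.I.sum {ι : Type} {r : ℕ} (s : Finset ι) {c : ι → E × E → V} (h : ∀ i ∈ s, f.I r (c i)) :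
    f.I r fun q => ∑ i ∈ s, c i q := by
  classical
  induction s using Finset.induction_on with
  | empty => simpa using Fr.I.zero f r
  | insert a s ha ih =>
    simp only [Finset.sum_insert ha]
    exact (h a (by simp)).add (ih fun i hi => h i (by simp [hi]))

theorem Fr.I.pred {r : ℕ} {c : E × E → V} (h : f.I (r + 1) c) : f.I r c := by
  obtain ⟨d, hd, rfl⟩ := h
  exact Fr.I.sum _ fun i _ => (hd i).fsmul (f.eta_smooth i)

theorem Fr.I.mono {r t : ℕ} {c : E × E → V} (h : f.I t c) (hr : r ≤ t) : f.I r c := by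
  induction hr with
  | refl => exact h
  | step _ ih => exact ih h.pred

theorem Fr.I.bil {r t : ℕ} {c : E × E → V} {d : E × E → V'} (hc : f.I r c) (hd : f.I t d)
    (L : V →L[ℝ] V' →L[ℝ] V'') : f.I (r + t) fun q => L (c q) (d q) := by
  rw [Nat.add_comm]
  induction r generalizing c with
  | zero => exact hd.clm (a := fun q => L (c q)) (L.contDiff.comp hc)
  | succ r ih =>
    obtain ⟨a, ha, rfl⟩ := hc
    exact ⟨fun i q => L (a i q) (d q), fun i => ih (ha i), funext fun q => by simp⟩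

theorem Fr.I.eta_smul {r : ℕ} {c : E × E → V} (hc : f.I r c) (i : Fin 4) :
    f.I (r + 1) fun q => f.eta i q • c q := by
  refine ⟨fun j => if j = i then c else fun _ => 0, fun j => ?_, funext fun q => ?_⟩
  · by_cases e : j = i
    · simpa [e] using hc
    · simpa [e] using Fr.I.zero f r
  · rw [Finset.sum_eq_single i] <;> simp +contextual

theorem Fr.I.eta (f : Fr) (i : Fin 4) : f.I 1 (f.eta i) := by
  have h := Fr.I.eta_smul (f := f) (r := 0) (c := fun _ => (1 : ℝ)) contDiff_const i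
  simpa using h

theorem Fr.I.diag {r : ℕ} {c : E × E → V} (hc : f.I (r + 1) c) (y : E) : c (y, y) = 0 := by
  obtain ⟨d, -, rfl⟩ := hc
  simp [Fr.eta_diag]

theorem id_fd {c : E × E → V} (hc : ContDiff ℝ ∞ c) {v : E × E → E × E} (hv : ContDiff ℝ ∞ v) :
    ContDiff ℝ ∞ fun q => fderiv ℝ c q (v q) :=
  (hc.fderiv_right (m := ∞) (by simp)).clm_apply hv

theorem Fr.I.der_succ {r : ℕ} {c : E × E → V} (h : f.I (r + 1) c) {v : E × E → E × E}
    (hv : ContDiff ℝ ∞ v) : f.I r fun q => fderiv ℝ c q (v q) := by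
  induction r generalizing c with
  | zero => exact id_fd h.smooth hv
  | succ r ih =>
    obtain ⟨d, hd, rfl⟩ := h
    have e : (fun q => fderiv ℝ (fun q => ∑ i, f.eta i q • d i q) q (v q)) = fun q =>
        ∑ i, (f.eta i q • fderiv ℝ (d i) q (v q) + fderiv ℝ (f.eta i) q (v q) • d i q) := by
      funext q
      have h := HasFDerivAt.fun_sum (u := Finset.univ) fun i _ =>
        (((f.eta_smooth i).differentiable (by simp) q).hasFDerivAt.fun_smul
          ((hd i).smooth.differentiable (by simp) q).hasFDerivAt)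
      rw [h.fderiv]; simp
    rw [e]
    exact Fr.I.sum _ fun i _ =>
      ((ih (hd i)).eta_smul i).add ((hd i).fsmul (id_fd (f.eta_smooth i) hv))

theorem Fr.I.der {r : ℕ} {c : E × E → V} (hc : f.I r c) {v : E × E → E × E}
    (hv : ContDiff ℝ ∞ v) : f.I (r - 1) fun q => fderiv ℝ c q (v q) := by
  cases r with
  | zero => exact id_fd hc hv
  | succ r => exact hc.der_succ hv

theorem Fr.I.dx {r : ℕ} {c : E × E → V} (hc : f.I r c) (i : Fin 4) : f.I (r - 1) (f.dx i c) :=
  hc.der (v := fun q => (f.e i q.1, 0)) (((f.e_smooth i).comp contDiff_fst).prodMk contDiff_const)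

theorem Fr.eta_bound (f : Fr) {K : Set (E × E)} (hK : IsCompact K) :
    ∃ C : ℝ, 0 ≤ C ∧ ∀ i, ∀ q ∈ K, |f.eta i q| ≤ C * ‖q.1 - q.2‖ := by
  have hc : ∀ i, Continuous fun q : E × E => (co i).comp (f.θ q.2) := fun i =>
    continuous_const.clm_comp (f.hθ.continuous.comp continuous_snd)
  choose C hC using fun i => hK.exists_bound_of_continuousOn (hc i).continuousOn
  refine ⟨∑ i, |C i|, Finset.sum_nonneg fun i _ => abs_nonneg _, fun i q hq => ?_⟩
  have h1 : |f.eta i q| ≤ ‖(co i).comp (f.θ q.2)‖ * ‖q.1 - q.2‖ :=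
    ((co i).comp (f.θ q.2)).le_opNorm (q.1 - q.2)
  refine h1.trans (mul_le_mul_of_nonneg_right ?_ (norm_nonneg _))
  exact (hC i q hq).trans ((le_abs_self _).trans
    (Finset.single_le_sum (f := fun i => |C i|) (fun i _ => abs_nonneg _) (Finset.mem_univ i)))

theorem Fr.I.bound {r : ℕ} {c : E × E → V} (hc : f.I r c) {K : Set (E × E)} (hK : IsCompact K) :
    ∃ C : ℝ, ∀ q ∈ K, ‖c q‖ ≤ C * ‖q.1 - q.2‖ ^ r := by
  induction r generalizing c with
  | zero =>
    obtain ⟨C, hC⟩ := hK.exists_bound_of_continuousOn hc.smooth.continuous.continuousOn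
    exact ⟨C, fun q hq => by simpa using hC q hq⟩
  | succ r ih =>
    obtain ⟨d, hd, rfl⟩ := hc
    obtain ⟨A, hA0, hA⟩ := f.eta_bound hK
    choose C hC using fun i => ih (hd i)
    refine ⟨∑ i, A * C i, fun q hq => (norm_sum_le _ _).trans ?_⟩
    rw [Finset.sum_mul]
    refine Finset.sum_le_sum fun i _ => ?_
    rw [norm_smul, Real.norm_eq_abs]
    calc |f.eta i q| * ‖d i q‖ ≤ (A * ‖q.1 - q.2‖) * (C i * ‖q.1 - q.2‖ ^ r) :=
          mul_le_mul (hA i q hq) (hC i q hq) (norm_nonneg _) (by positivity)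
      _ = A * C i * ‖q.1 - q.2‖ ^ (r + 1) := by ring

end loc

end Pool.Agent.Lib.MP_1c0d65_gt.Nz
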