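import Pool.Agent.Lib.MP_1c0d65_gt.Nz.Res

/-! The joint spectral decomposition and the cancellation of the non-zero eigenvalues. -/

set_option autoImplicit false

open Set Function Module

noncomputable section

namespace Pool.Agent.Lib.MP_1c0d65_gt.Nz

variable {H S : Type} [NormedAddCommGroup H] [InnerProductSpace ℝ H] [AddCommGroup S] [Module ℝ S]
  (A : Ab H S)

/-- The sign of a parity. -/
def spS (b : Bool) : ℝ := if b then 1 else -1

/-- The joint eigenspaces. -/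
def Ab.spE (p : ℝ × Bool) : Submodule ℝ S :=
  End.eigenspace (A.D ∘ₗ A.D) p.1 ⊓ End.eigenspace A.e (spS p.2)

theorem Ab.sp_mem {p : ℝ × Bool} {u : S} :
    u ∈ A.spE p ↔ A.D (A.D u) = p.1 • u ∧ A.e u = spS p.2 • u := by
  simp [Ab.spE]

theorem Ab.sp_sq (u : S) : inner ℝ (A.j (A.D (A.D u))) (A.j u) = ‖A.j (A.D u)‖ ^ 2 := by
  rw [A.symm, real_inner_self_eq_norm_sq]

theorem Ab.sp_zero (b : Bool) : A.spE (0, b) = A.ker (spS b) := by
  ext u
  rw [A.sp_mem, Ab.ker, Submodule.mem_inf, LinearMap.mem_ker, End.mem_eigenspace_iff, zero_smul]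
  refine and_congr_left fun _ => ⟨fun h => ?_, fun h => by rw [h, map_zero]⟩
  have := A.sp_sq u
  rw [h, map_zero, inner_zero_left] at this
  exact A.inj ((norm_eq_zero.1 (pow_eq_zero_iff two_ne_zero |>.1 this.symm)).trans
    (map_zero _).symm)

theorem Ab.sp_orth {p q : ℝ × Bool} (h : p ≠ q) {u v : S} (hu : u ∈ A.spE p) (hv : v ∈ A.spE q) :
    inner ℝ (A.j u) (A.j v) = 0 := by
  obtain ⟨u1, u2⟩ := A.sp_mem.1 hu
  obtain ⟨v1, v2⟩ := A.sp_mem.1 hv
  have e1 := (A.symm (A.D u) v).trans (A.symm u (A.D v))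
  have e2 := A.e_symm u v
  rw [u1, v1, map_smul, map_smul, real_inner_smul_left, real_inner_smul_right] at e1
  rw [u2, v2, map_smul, map_smul, real_inner_smul_left, real_inner_smul_right] at e2
  by_contra h0
  refine h (Prod.ext (mul_right_cancel₀ h0 e1) ?_)
  have := mul_right_cancel₀ h0 e2
  revert this
  cases p.2 <;> cases q.2 <;> simp [spS] <;> norm_num

theorem Ab.sp_le {l : ℝ} (hl : l ≠ 0) (b : Bool) [FiniteDimensional ℝ (A.spE (l, !b))] :
    finrank ℝ (A.spE (l, b)) ≤ finrank ℝ (A.spE (l, !b)) := by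
  have m : ∀ u ∈ A.spE (l, b), A.D u ∈ A.spE (l, !b) := fun u hu => by
    obtain ⟨u1, u2⟩ := A.sp_mem.1 hu
    refine A.sp_mem.2 ⟨by rw [u1, map_smul], ?_⟩
    rw [A.anti, u2, map_smul, ← neg_smul]
    cases b <;> simp [spS]
  refine LinearMap.finrank_le_finrank_of_injective (f := A.D.restrict m)
    ((injective_iff_map_eq_zero _).2 fun u hu => Subtype.ext ?_)
  have h1 : A.D u.1 = 0 := congrArg Subtype.val hu
  have h2 := (A.sp_mem.1 u.2).1
  rw [h1, map_zero] at h2
  exact (smul_eq_zero.1 h2.symm).resolve_left hl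

theorem Ab.sp_split {l : ℝ} {u : S} (hu : A.D (A.D u) = l • u) :
    ∃ v ∈ A.spE (l, true), ∃ w ∈ A.spE (l, false), u = v + w := by
  have e : A.D (A.D (A.e u)) = l • A.e u := by
    rw [← map_smul, ← hu, A.anti, A.anti, map_neg, neg_neg]
  refine ⟨(1 / 2 : ℝ) • (u + A.e u), A.sp_mem.2 ⟨?_, ?_⟩, (1 / 2 : ℝ) • (u - A.e u),
    A.sp_mem.2 ⟨?_, ?_⟩, by module⟩
  · simp only [map_smul, map_add, hu, e]; module
  · simp only [map_smul, map_add, A.e_sq, spS, if_true]; module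
  · simp only [map_smul, map_sub, hu, e]; module
  · simp only [map_smul, map_sub, A.e_sq, spS, Bool.false_eq_true, if_false]; module

theorem Ab.spec [CompleteSpace H] (A : Ab H S) :
    FiniteDimensional ℝ (A.ker 1) ∧ FiniteDimensional ℝ (A.ker (-1)) ∧
    ∃ (ι : Type) (b : HilbertBasis ι ℝ H) (φ : ι → S) (l σ : ι → ℝ),
      (∀ i, b i = A.j (φ i) ∧ A.D (A.D (φ i)) = l i • φ i ∧ 0 ≤ l i ∧ (σ i = 1 ∨ σ i = -1) ∧
        A.e (φ i) = σ i • φ i) ∧ ∀ F : ℝ → ℝ, (Summable fun i => F (l i)) →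
      HasSum (fun i => σ i * F (l i))
        (F 0 * ((Module.finrank ℝ (A.ker 1) : ℝ) - Module.finrank ℝ (A.ker (-1)))) := by
  obtain ⟨h1, h2⟩ := A.res
  have fd : ∀ p, FiniteDimensional ℝ (A.spE p) := fun p =>
    have := h1 p.1
    Submodule.finiteDimensional_of_le (inf_le_left : A.spE p ≤ _)
  let V : ℝ × Bool → Submodule ℝ H := fun p => (A.spE p).map A.j
  have rk : ∀ p, finrank ℝ (V p) = finrank ℝ (A.spE p) := fun p =>
    (Submodule.equivMapOfInjective A.j A.inj _).finrank_eq.symm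
  have ho : OrthogonalFamily ℝ (fun p => V p) fun p => (V p).subtypeₗᵢ := by
    rintro p q h ⟨_, u, hu, rfl⟩ ⟨_, v, hv, rfl⟩
    exact A.sp_orth h hu hv
  have hon := ho.orthonormal_sigma_orthonormal fun p => (stdOrthonormalBasis ℝ (V p)).orthonormal
  have sp : (Submodule.span ℝ (range fun i : Σ p, Fin (finrank ℝ (V p)) =>
      (V i.1).subtypeₗᵢ (stdOrthonormalBasis ℝ (V i.1) i.2)))ᗮ = ⊥ := by
    refine eq_bot_iff.2 ((Submodule.orthogonal_le (iSup_le fun l => ?_)).trans h2.le)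
    have hV : ∀ p, V p ≤ Submodule.span ℝ (range fun i : Σ p, Fin (finrank ℝ (V p)) =>
        (V i.1).subtypeₗᵢ (stdOrthonormalBasis ℝ (V i.1) i.2)) := fun p x hx => by
      have := congrArg (V p).subtype ((stdOrthonormalBasis ℝ (V p)).sum_repr ⟨x, hx⟩)
      rw [map_sum] at this
      refine (show _ = x from this) ▸ Submodule.sum_mem _ fun k _ => ?_
      rw [map_smul]
      exact Submodule.smul_mem _ _ (Submodule.subset_span ⟨⟨p, k⟩, rfl⟩)
    rintro _ ⟨u, hu, rfl⟩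
    obtain ⟨v, hv, w, hw, rfl⟩ := A.sp_split (End.mem_eigenspace_iff.1 hu)
    rw [map_add]
    exact add_mem (hV _ ⟨v, hv, rfl⟩) (hV _ ⟨w, hw, rfl⟩)
  choose φ φ1 φ2 using fun i : Σ p, Fin (finrank ℝ (V p)) =>
    (stdOrthonormalBasis ℝ (V i.1) i.2).2
  refine ⟨A.sp_zero true ▸ fd (0, true), A.sp_zero false ▸ fd (0, false), _,
    HilbertBasis.mkOfOrthogonalEqBot hon sp, φ, fun i => i.1.1, fun i => spS i.1.2,
    fun i => ⟨?_, (A.sp_mem.1 (φ1 i)).1, ?_, ?_, (A.sp_mem.1 (φ1 i)).2⟩, fun F hF => ?_⟩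
  · rw [HilbertBasis.coe_mkOfOrthogonalEqBot]
    exact (φ2 i).symm
  · have := A.sp_sq (φ i)
    have n1 : ‖A.j (φ i)‖ = 1 := by rw [φ2]; exact hon.1 i
    rw [(A.sp_mem.1 (φ1 i)).1, map_smul, real_inner_smul_left, real_inner_self_eq_norm_sq, n1,
      one_pow, mul_one] at this
    exact (sq_nonneg _).trans this.ge
  · change spS i.1.2 = 1 ∨ spS i.1.2 = -1
    cases i.1.2 <;> simp [spS]
  · have s1 : Summable fun i : Σ p, Fin (finrank ℝ (V p)) => spS i.1.2 * F i.1.1 :=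
      Summable.of_norm (hF.norm.congr fun i => by cases i.1.2 <;> simp [spS])
    have s2 := (s1.hasSum.sigma fun p => hasSum_fintype _).prod_fiberwise
      fun l => hasSum_fintype _
    have s3 := hasSum_single (f := fun l : ℝ => ∑ b : Bool,
        ∑ _k : Fin (finrank ℝ (V (l, b))), spS b * F l) 0 fun l hl => by
      have a := A.sp_le hl true
      have b := A.sp_le hl false
      have c : finrank ℝ (A.spE (l, true)) = finrank ℝ (A.spE (l, false)) := le_antisymm a b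
      simp [spS, rk, c]
    convert s1.hasSum using 1
    rw [s2.unique s3, ← show A.spE (0, true) = A.ker 1 from A.sp_zero true,
      ← show A.spE (0, false) = A.ker (-1) from A.sp_zero false]
    simp [spS, rk]
    ring

end Pool.Agent.Lib.MP_1c0d65_gt.Nz
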