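import Pool.Agent.Lib.MP_1c0d65_gt.Nz.Cls

/-! The graded trace of an approximate heat semigroup. -/

set_option autoImplicit false

open scoped Topology
open Set Function Filter

namespace Pool.Agent.Lib.MP_1c0d65_gt.Nz

variable {H : Type} [NormedAddCommGroup H] [InnerProductSpace ℝ H]

theorem tr_duh {ι : Type} {u r : ℝ → ι → H} {b : ι → H} {l : ι → ℝ} {c : ℝ} (hl : ∀ i, 0 ≤ l i)
    (hd : ∀ i, ∀ s ∈ Ioo (0 : ℝ) 1, HasDerivAt (fun t => u t i) (r s i - l i • u s i) s)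
    (h0 : ∀ i, Tendsto (fun s => u s i) (𝓝[>] 0) (𝓝 (b i)))
    (hr : ∀ s ∈ Ioo (0 : ℝ) 1, ∀ F : Finset ι, ∑ i ∈ F, ‖r s i‖ ^ 2 ≤ c * s ^ 2)
    {t : ℝ} (ht : t ∈ Ioo (0 : ℝ) 1) (F : Finset ι) :
    ∑ i ∈ F, ‖u t i - Real.exp (-(l i * t)) • b i‖ ^ 2 ≤ c * t ^ 4 := by
  have t0 := ht.1
  have hc : 0 ≤ c := by
    have := hr t ht ∅
    rw [Finset.sum_empty] at this
    exact nonneg_of_mul_nonneg_left this (by positivity)
  obtain ⟨w, hw⟩ : ∃ w : ι → H, ∀ i, w i = u t i - Real.exp (-(l i * t)) • b i := ⟨_, fun _ => rfl⟩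
  simp only [← hw]
  let g : ℝ → ℝ := fun s => ∑ i ∈ F, inner ℝ (w i) (Real.exp (l i * (s - t)) • u s i)
  let g' : ℝ → ℝ := fun s => ∑ i ∈ F, inner ℝ (w i) (Real.exp (l i * (s - t)) • r s i)
  have dg : ∀ s ∈ Ioo (0 : ℝ) 1, HasDerivAt g (g' s) s := fun s hs =>
    HasDerivAt.fun_sum fun i _ => by
      have h1 := (((hasDerivAt_id' s).sub_const t).const_mul (l i)).exp.fun_smul (hd i s hs)
      rw [smul_sub, mul_one, mul_smul, sub_add_cancel] at h1
      exact (innerSL ℝ (w i)).hasFDerivAt.comp_hasDerivAt s h1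
  have bg : ∀ s ∈ Ioo (0 : ℝ) t, t * g' s ≤ (∑ i ∈ F, ‖w i‖ ^ 2) / 2 + c * t ^ 4 / 2 :=
    fun s hs => by
      have h1 := hr s ⟨hs.1, hs.2.trans ht.2⟩ F
      have h2 : c * s ^ 2 ≤ c * t ^ 2 :=
        mul_le_mul_of_nonneg_left (pow_le_pow_left₀ hs.1.le hs.2.le 2) hc
      have h3 : t * g' s ≤ ∑ i ∈ F, (‖w i‖ ^ 2 / 2 + t ^ 2 / 2 * ‖r s i‖ ^ 2) := by
        rw [Finset.mul_sum]
        refine Finset.sum_le_sum fun i _ => ?_
        have e1 : Real.exp (l i * (s - t)) ≤ 1 :=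
          Real.exp_le_one_iff.2 (mul_nonpos_of_nonneg_of_nonpos (hl i) (sub_nonpos.2 hs.2.le))
        have e2 : inner ℝ (w i) (Real.exp (l i * (s - t)) • r s i) ≤ ‖w i‖ * ‖r s i‖ := by
          refine (real_inner_le_norm _ _).trans (mul_le_mul_of_nonneg_left ?_ (norm_nonneg _))
          rw [norm_smul, Real.norm_of_nonneg (Real.exp_pos _).le]
          exact mul_le_of_le_one_left (norm_nonneg _) e1
        nlinarith [sq_nonneg (‖w i‖ - t * ‖r s i‖), mul_le_mul_of_nonneg_left e2 t0.le]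
      rw [Finset.sum_add_distrib, ← Finset.sum_div, ← Finset.mul_sum] at h3
      nlinarith [mul_le_mul_of_nonneg_left (h1.trans h2) (sq_nonneg t)]
  have lim : Tendsto (fun s => g t - g s) (𝓝[>] 0) (𝓝 (∑ i ∈ F, ‖w i‖ ^ 2)) := by
    have e : ∑ i ∈ F, ‖w i‖ ^ 2 =
        g t - ∑ i ∈ F, inner ℝ (w i) (Real.exp (l i * (0 - t)) • b i) := by
      rw [← Finset.sum_sub_distrib]
      refine Finset.sum_congr rfl fun i _ => ?_
      rw [← inner_sub_right, sub_self, mul_zero, Real.exp_zero, one_smul, zero_sub, mul_neg, ← hw,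
        real_inner_self_eq_norm_sq]
    rw [e]
    refine tendsto_const_nhds.sub (tendsto_finsetSum _ fun i _ =>
      tendsto_const_nhds.inner (Tendsto.smul ?_ (h0 i)))
    exact (show Continuous fun s => Real.exp (l i * (s - t)) by fun_prop).continuousAt.tendsto.mono_left
      nhdsWithin_le_nhds
  have := le_of_tendsto lim (b := (∑ i ∈ F, ‖w i‖ ^ 2) / 2 + c * t ^ 4 / 2) (by
    filter_upwards [Ioo_mem_nhdsGT t0] with s hs
    obtain ⟨x, hx, e⟩ := exists_hasDerivAt_eq_slope g g' hs.2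
      (fun x hx => (dg x ⟨hs.1.trans_le hx.1, hx.2.trans_lt ht.2⟩).continuousAt.continuousWithinAt)
      fun x hx => dg x ⟨hs.1.trans hx.1, hx.2.trans ht.2⟩
    rw [eq_div_iff (sub_pos.2 hs.2).ne'] at e
    have h1 := bg x ⟨hs.1.trans hx.1, hx.2⟩
    rw [← e]
    rcases le_total 0 (g' x) with h | h
    · nlinarith [mul_nonneg hs.1.le h]
    · exact (mul_nonpos_of_nonpos_of_nonneg h (sub_pos.2 hs.2).le).trans (by positivity))
  linarith

theorem trace_limit {ι : Type} {u r : ℝ → ι → H} {b : ι → H} {l σ : ι → ℝ} {c ind : ℝ}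
    (hb : ∀ i, ‖b i‖ = 1) (hl : ∀ i, 0 ≤ l i) (hσ : ∀ i, σ i = 1 ∨ σ i = -1)
    (hd : ∀ i, ∀ s ∈ Ioo (0 : ℝ) 1, HasDerivAt (fun t => u t i) (r s i - l i • u s i) s)
    (h0 : ∀ i, Tendsto (fun s => u s i) (𝓝[>] 0) (𝓝 (b i)))
    (hu : ∀ s ∈ Ioo (0 : ℝ) 1, ∀ F : Finset ι, ∑ i ∈ F, ‖u s i‖ ^ 2 ≤ c / s ^ 2)
    (hr : ∀ s ∈ Ioo (0 : ℝ) 1, ∀ F : Finset ι, ∑ i ∈ F, ‖r s i‖ ^ 2 ≤ c * s ^ 2)
    (hi : ∀ F : ℝ → ℝ, (Summable fun i => F (l i)) → HasSum (fun i => σ i * F (l i)) (F 0 * ind)) :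
    Countable ι ∧ Tendsto (fun s => ∑' i, σ i * ‖u s i‖ ^ 2) (𝓝[>] 0) (𝓝 ind) := by
  have a1 : ∀ i, |σ i| = 1 := fun i => by rcases hσ i with h | h <;> simp [h]
  have key : ∀ t ∈ Ioo (0 : ℝ) 1, (Summable fun i => Real.exp (-(l i * t)) ^ 2) ∧
      |∑' i, σ i * ‖u t i‖ ^ 2 - ind| ≤ c * (2 * t + t ^ 4) := fun t ht => by
    have t0 := ht.1
    have hw := tr_duh hl hd h0 hr ht
    obtain ⟨w, ew⟩ : ∃ w : ι → H, ∀ i, w i = u t i - Real.exp (-(l i * t)) • b i := ⟨_, fun _ => rfl⟩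
    simp only [← ew] at hw
    have e1 : ∀ i, Real.exp (-(l i * t)) = ‖u t i - w i‖ := fun i => by
      rw [ew, sub_sub_cancel, norm_smul, hb, mul_one, Real.norm_of_nonneg (Real.exp_pos _).le]
    have su := summable_of_sum_le (fun i => sq_nonneg ‖u t i‖) (hu t ht)
    have sw := summable_of_sum_le (fun i => sq_nonneg ‖w i‖) hw
    have e2 : ∀ i, |‖u t i‖ ^ 2 - Real.exp (-(l i * t)) ^ 2| ≤
        t ^ 3 * ‖u t i‖ ^ 2 + ((t ^ 3)⁻¹ + 1) * ‖w i‖ ^ 2 := fun i => by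
      have h1 := abs_le.1 (abs_real_inner_le_norm (u t i) (w i))
      have h2 : 2 * (‖u t i‖ * ‖w i‖) ≤ t ^ 3 * ‖u t i‖ ^ 2 + (t ^ 3)⁻¹ * ‖w i‖ ^ 2 := by
        have p : 0 < t ^ 3 := by positivity
        refine le_of_mul_le_mul_left ?_ p
        rw [mul_add, ← mul_assoc (t ^ 3) (t ^ 3)⁻¹, mul_inv_cancel₀ p.ne']
        nlinarith [sq_nonneg (t ^ 3 * ‖u t i‖ - ‖w i‖)]
      rw [e1, norm_sub_sq_real, abs_le]
      constructor <;> nlinarith [sq_nonneg ‖w i‖]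
    have sb := (su.mul_left (t ^ 3)).add (sw.mul_left ((t ^ 3)⁻¹ + 1))
    have sd : Summable fun i => ‖u t i‖ ^ 2 - Real.exp (-(l i * t)) ^ 2 :=
      Summable.of_norm_bounded sb e2
    have se : Summable fun i => Real.exp (-(l i * t)) ^ 2 :=
      (su.sub sd).congr fun i => sub_sub_cancel _ _
    have h1 := hi (fun x => Real.exp (-(x * t)) ^ 2) se
    simp only [zero_mul, neg_zero, Real.exp_zero, one_pow, one_mul] at h1
    have s1 : Summable fun i => σ i * ‖u t i‖ ^ 2 :=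
      Summable.of_norm_bounded su fun i => by rw [norm_mul, Real.norm_eq_abs, a1]; simp
    refine ⟨se, (tsum_of_norm_bounded sb.hasSum (f := fun i => σ i * ‖u t i‖ ^ 2 -
      σ i * Real.exp (-(l i * t)) ^ 2) fun i => ?_).trans' (le_of_eq ?_) |>.trans ?_⟩
    · rw [← mul_sub, norm_mul, Real.norm_eq_abs, a1, one_mul]
      exact e2 i
    · rw [(s1.hasSum.sub h1).tsum_eq, Real.norm_eq_abs]
    · rw [(su.mul_left _).tsum_add (sw.mul_left _), tsum_mul_left, tsum_mul_left]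
      have b1 := mul_le_mul_of_nonneg_left (su.tsum_le_of_sum_le (hu t ht))
        (show 0 ≤ t ^ 3 by positivity)
      have b2 := mul_le_mul_of_nonneg_left (sw.tsum_le_of_sum_le hw)
        (show 0 ≤ (t ^ 3)⁻¹ + 1 by positivity)
      refine (add_le_add b1 b2).trans (le_of_eq ?_)
      field_simp
      ring
  refine ⟨?_, ?_⟩
  · have := (key (1 / 2) ⟨by norm_num, by norm_num⟩).1.countable_support
    rw [show support (fun i => Real.exp (-(l i * (1 / 2))) ^ 2) = univ from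
      eq_univ_of_forall fun i => by rw [mem_support]; positivity] at this
    exact countable_univ_iff.1 this
  · rw [tendsto_iff_dist_tendsto_zero]
    refine squeeze_zero' (Eventually.of_forall fun _ => dist_nonneg)
      (mem_of_superset (Ioo_mem_nhdsGT one_pos) fun t ht => (key t ht).2) ?_
    have : Continuous fun t : ℝ => c * (2 * t + t ^ 4) := by fun_prop
    simpa using (this.tendsto 0).mono_left (nhdsWithin_le_nhds (s := Ioi 0))

end Pool.Agent.Lib.MP_1c0d65_gt.Nz
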