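import Pool.Agent.Lib.MP_1c0d65_gt.Nz.AbOf
import Pool.Agent.Lib.MP_1c0d65_gt.Nz.Col
import Pool.Agent.Lib.MP_1c0d65_gt.Nz.Spec
import Pool.Agent.Lib.MP_1c0d65_gt.Nz.Trace
import Pool.Agent.Lib.MP_1c0d65_gt.Nz.Conv

/-! The index theorem. -/

set_option autoImplicit false

open scoped ContDiff Topology
open Set MeasureTheory Function Filter

noncomputable section

namespace Pool.Agent.Lib.MP_1c0d65_gt.Nz

open Pool.Agent.Lib.MP_1c0d65_gt.PW

variable {W : Type} [NormedAddCommGroup W] [InnerProductSpace ℝ W] [FiniteDimensional ℝ W]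
  [CompleteSpace W] {C : Cl W}
  {X : Type} [TopologicalSpace X] [T2Space X] [CompactSpace X] [MeasurableSpace X]
  [BorelSpace X] {μ : Measure X}

theorem Sy.Ker.l2 [IsFiniteMeasure μ] {S : Sy X μ C} {n : ℤ} {K : ℝ → X → X → W →L[ℝ] W}
    (h : S.Ker n K) : ∃ c : ℝ, 0 ≤ c ∧ ∀ s ∈ Ioc (0 : ℝ) 1, ∀ y,
      (∫ x, ‖K s x y‖ ^ 2 ∂μ) ≤ c * s ^ (n + 2) := by
  obtain ⟨c1, h1⟩ := h.sup
  obtain ⟨c2, h2⟩ := h.l1
  refine ⟨|c1| * |c2|, by positivity, fun s hs y => ?_⟩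
  have hs0 : 0 < √s := Real.sqrt_pos.2 hs.1
  obtain ⟨hm, c, hc⟩ := h.bm hs
  have hmy : StronglyMeasurable fun x => K s x y :=
    hm.comp_measurable (g := fun x => (x, y)) (by fun_prop)
  have hi : Integrable (fun x => ‖K s x y‖) μ :=
    (Integrable.of_bound hmy.aestronglyMeasurable c (.of_forall fun x => hc x y)).norm
  have hp : 0 ≤ |c1| * √s ^ n := by positivity
  calc (∫ x, ‖K s x y‖ ^ 2 ∂μ) ≤ ∫ x, (|c1| * √s ^ n) * ‖K s x y‖ ∂μ := by
        refine integral_mono_of_nonneg (.of_forall fun x => by positivity) (hi.const_mul _)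
          (.of_forall fun x => ?_)
        have := (h1 s hs x y).trans
          (mul_le_mul_of_nonneg_right (le_abs_self c1) (by positivity : 0 ≤ √s ^ n))
        simp only [sq]
        exact mul_le_mul_of_nonneg_right this (norm_nonneg _)
    _ = (|c1| * √s ^ n) * ∫ x, ‖K s x y‖ ∂μ := integral_const_mul _ _
    _ ≤ (|c1| * √s ^ n) * (|c2| * √s ^ (n + 4)) := by
        refine mul_le_mul_of_nonneg_left ((h2 s hs y).1.trans ?_) hp
        exact mul_le_mul_of_nonneg_right (le_abs_self c2) (by positivity)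
    _ = |c1| * |c2| * (√s ^ n * √s ^ (n + 4)) := by ring
    _ = |c1| * |c2| * s ^ (n + 2) := by
        rw [← zpow_add₀ hs0.ne', show n + (n + 4) = 2 * (n + 2) by ring, zpow_mul]
        congr 2
        rw [zpow_ofNat, Real.sq_sqrt hs.1.le]

theorem Sy.index (S : Sy X μ C) (A : Ab (Lp W 2 μ) S.sec)
    (hj : ∀ u, (A.j u : X → W) =ᵐ[μ] u.1) (hD : ∀ u, (A.D u).1 = S.D u.1)
    (he : ∀ u x, (A.e u).1 x = C.ε (u.1 x)) :
    FiniteDimensional ℝ (A.ker 1) ∧ FiniteDimensional ℝ (A.ker (-1)) ∧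
    (Module.finrank ℝ (A.ker 1) : ℝ) - Module.finrank ℝ (A.ker (-1)) = S.ind := by
  have := S.fin
  obtain ⟨f1, f2, ι, b, φ, l, σ, hb, hi⟩ := A.spec
  refine ⟨f1, f2, ?_⟩
  obtain ⟨K, R, h⟩ := S.exists_par 2
  obtain ⟨c1, hc1, h1⟩ := h.hK.l2
  obtain ⟨c2, hc2, h2⟩ := h.hR.l2
  set d : ℝ := Module.finrank ℝ W * μ.real univ with hd
  have hd0 : 0 ≤ d := by positivity
  have hbφ : ∀ i, (b i : X → W) =ᵐ[μ] (φ i).1 := fun i => by rw [(hb i).1]; exact hj _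
  have hw : ∀ i, S.Weak (b i : Lp W 2 μ) (l i • b i : Lp W 2 μ) := by
    intro i u hu
    have e1 := A.symm (φ i) (A.D ⟨u, hu⟩)
    have e2 := A.symm (A.D (φ i)) ⟨u, hu⟩
    have e3 : inner ℝ (b i) (A.j (A.D (A.D ⟨u, hu⟩))) = inner ℝ (l i • b i) (A.j ⟨u, hu⟩) := by
      rw [(hb i).1, ← e1, ← e2, (hb i).2.1, map_smul]
    rw [L2.inner_def, L2.inner_def] at e3
    have a1 : ∫ x, inner ℝ ((b i : X → W) x) (S.D (S.D u) x) ∂μ =
        ∫ x, inner ℝ ((b i : X → W) x) ((A.j (A.D (A.D ⟨u, hu⟩)) : X → W) x) ∂μ := by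
      refine integral_congr_ae ?_
      filter_upwards [hj (A.D (A.D ⟨u, hu⟩))] with x hx
      rw [hx, hD, hD]
    have a2 : ∫ x, inner ℝ (((l i • b i : Lp W 2 μ) : X → W) x) (u x) ∂μ =
        ∫ x, inner ℝ (((l i • b i : Lp W 2 μ) : X → W) x) ((A.j ⟨u, hu⟩ : X → W) x) ∂μ := by
      refine integral_congr_ae ?_
      filter_upwards [hj ⟨u, hu⟩] with x hx
      rw [hx]
    rw [a1, a2, e3]
  obtain ⟨hc, ht⟩ := trace_limit (u := fun s i => Op μ (K s) (b i))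
    (r := fun s i => Op μ (R s) (b i)) (b := fun i => b i) (l := l) (σ := σ)
    (c := d * (c1 + c2)) (fun i => b.orthonormal.1 i) (fun i => (hb i).2.2.1)
    (fun i => (hb i).2.2.2.1)
    (fun i s hs => by simpa only [map_smul] using h.weak (hw i) hs)
    (fun i => h.tendsto (b i))
    (fun s hs F => by
      have hs' : s ∈ Ioc (0 : ℝ) 1 := ⟨hs.1, hs.2.le⟩
      refine ((h.hK.bm hs').bessel b.orthonormal F (h1 s hs')).trans ?_
      have : s ^ ((-4 : ℤ) + 2) = (s ^ 2)⁻¹ := by norm_num [zpow_neg, zpow_ofNat]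
      rw [this, ← mul_assoc, ← hd, div_eq_mul_inv, mul_assoc d]
      have : 0 ≤ (s ^ 2)⁻¹ := by positivity
      gcongr; linarith)
    (fun s hs F => by
      have hs' : s ∈ Ioc (0 : ℝ) 1 := ⟨hs.1, hs.2.le⟩
      refine ((h.hR.bm hs').bessel b.orthonormal F (h2 s hs')).trans ?_
      have e : s ^ ((2 : ℤ) + 2) = s ^ 2 * s ^ 2 := by norm_num [zpow_ofNat]; ring
      have h0 := hs.1
      have h3 : s ^ 2 ≤ 1 := pow_le_one₀ h0.le hs.2.le
      rw [e, ← mul_assoc, ← hd, mul_assoc d]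
      refine mul_le_mul_of_nonneg_left ?_ hd0
      have : s ^ 2 * s ^ 2 ≤ s ^ 2 := by nlinarith [sq_nonneg s]
      nlinarith [sq_nonneg s])
    hi
  refine tendsto_nhds_unique ht (h.col.congr' ?_)
  filter_upwards [Ioc_mem_nhdsGT (zero_lt_one' ℝ)] with s hs
  refine (((h.hK.bm hs).parseval C b (fun i => (hb i).2.2.2.1) fun i => ?_).tsum_eq).symm
  filter_upwards [hbφ i] with x hx
  rw [hx, ← he, (hb i).2.2.2.2]; rfl

/-- The index theorem. -/
theorem Sys.index (S : Sys X μ C) :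
    FiniteDimensional ℝ (S.ker 1) ∧ FiniteDimensional ℝ (S.ker (-1)) ∧
    (Module.finrank ℝ (S.ker 1) : ℝ) - Module.finrank ℝ (S.ker (-1)) = S.ind := by
  obtain ⟨T, hT, hP⟩ := S.exists_sy
  obtain ⟨A, hj, hD, he⟩ := T.exists_ab
  obtain ⟨f1, f2, h⟩ := T.index A hj hD he
  have key : ∀ σ : ℝ, Nonempty (A.ker σ ≃ₗ[ℝ] S.ker σ) := fun σ => hP σ _ fun u => by
    simp only [Ab.ker, Submodule.mem_inf, LinearMap.mem_ker, Module.End.mem_eigenspace_iff]
    refine and_congr ?_ ?_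
    · rw [← hD]; exact Subtype.ext_iff
    · rw [Subtype.ext_iff, funext_iff]
      exact forall_congr' fun x => by rw [he]; rfl
  obtain ⟨e1⟩ := key 1
  obtain ⟨e2⟩ := key (-1)
  refine ⟨Module.Finite.equiv e1, Module.Finite.equiv e2, ?_⟩
  rw [← e1.finrank_eq, ← e2.finrank_eq, h, hT]

end Pool.Agent.Lib.MP_1c0d65_gt.Nz
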