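import Pool.Agent.Lib.MP_1c0d65_gt.Nz.Sec
import Pool.Agent.Lib.MP_1c0d65_gt.Nz.Tb

/-! Integral operators with kernels of the class `Ker` are smoothing. -/

set_option autoImplicit false

open scoped ContDiff Topology
open Set MeasureTheory Function Filter

noncomputable section

namespace Pool.Agent.Lib.MP_1c0d65_gt.Nz

open Pool.Agent.Lib.MP_1c0d65_gt.PW

section par
variable {V V' V'' : Type} [NormedAddCommGroup V] [NormedSpace ℝ V] [NormedAddCommGroup V']
  [NormedSpace ℝ V'] [NormedAddCommGroup V''] [NormedSpace ℝ V''] {f : Fr}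
  {Ω : Type} [MeasurableSpace Ω] {m : Measure Ω} {σ : Ω → ℝ} {ξ : Ω → E}

theorem kr_open : IsOpen {z : Z | 0 < z.1} := isOpen_lt continuous_const continuous_fst

omit [NormedSpace ℝ V] in
theorem kr_meas {F : Z → V} (hF : ContinuousOn F {z | 0 < z.1}) (hσ : Measurable σ)
    (hξ : Measurable ξ) (pos : ∀ o, 0 < σ o) (y : E) :
    StronglyMeasurable fun o => F (σ o, ξ o, y) := by
  have h1 : StronglyMeasurable (({z : Z | 0 < z.1}).domRestrict F) :=
    (continuousOn_iff_continuous_domRestrict.1 hF).stronglyMeasurable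
  have h2 : Measurable fun o => (⟨(σ o, ξ o, y), pos o⟩ : {z : Z | 0 < z.1}) :=
    (hσ.prodMk (hξ.prodMk measurable_const)).subtype_mk
  exact h1.comp_measurable h2

/-- The inclusion of the last variable. -/
def kr_in : E →L[ℝ] Z := (ContinuousLinearMap.inr ℝ ℝ (E × E)).comp (.inr ℝ E E)

theorem kr_der {F : Z → V} (hF : ContDiffOn ℝ ∞ F {z | 0 < z.1}) {s : ℝ} (hs : 0 < s) (x y : E) :
    HasFDerivAt (fun y => F (s, x, y)) ((fderiv ℝ F (s, x, y)).comp kr_in) y := by
  have h1 : DifferentiableAt ℝ F (s, x, y) :=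
    (hF.contDiffAt (kr_open.mem_nhds hs)).differentiableAt (by simp)
  have h2 : HasFDerivAt (fun y : E => ((s, x, y) : Z)) kr_in y :=
    (hasFDerivAt_prodMk_right s (x, y)).comp y (hasFDerivAt_prodMk_right x y)
  exact h1.hasFDerivAt.comp y h2

theorem kr_bd (B : V →L[ℝ] V' →L[ℝ] V'') (c : ℝ) :
    ∃ b : ℝ, ∀ x y, ‖x‖ ≤ c → ‖B x y‖ ≤ b * ‖y‖ :=
  ⟨‖B‖ * c, fun x y h => (B.le_opNorm₂ _ _).trans (by gcongr)⟩

theorem kr_int (B : V →L[ℝ] V' →L[ℝ] V'') {G : Ω → V} (hG : StronglyMeasurable G) {c : ℝ}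
    (hc : ∀ o, ‖G o‖ ≤ c) {v : Ω → V'} (hv : Integrable v m) :
    Integrable (fun o => B (G o) (v o)) m := by
  refine (hv.norm.const_mul (‖B‖ * c)).mono'
    (B.continuous₂.comp_aestronglyMeasurable₂ hG.aestronglyMeasurable hv.1) (.of_forall fun o => ?_)
  exact (B.le_opNorm₂ _ _).trans (by gcongr; exact hc o)

/-- The parametric integral of a kernel of weight `n + l` is of class `C ^ l`. -/
theorem kr_par [CompleteSpace V''] (B : V →L[ℝ] V' →L[ℝ] V'') (hσ : Measurable σ)
    (hξ : Measurable ξ) (pos : ∀ o, 0 < σ o) {v : Ω → V'} (hv : Integrable v m) {n : ℤ}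
    (bd : ∀ F : Z → V, f.T n F → Supp F → ∃ c, ∀ o q, ‖F (σ o, q)‖ ≤ c) (l : ℕ) :
    ∀ F : Z → V, f.T (n + l) F → Supp F →
      ContDiff ℝ l fun y => ∫ o, B (F (σ o, ξ o, y)) (v o) ∂m := by
  induction l with
  | zero =>
    intro F hF sF
    obtain ⟨c, hc⟩ := bd F (hF.mono (by simp)) sF
    rw [Nat.cast_zero, contDiff_zero]
    refine continuous_of_dominated (bound := fun o => ‖B‖ * c * ‖v o‖) (fun y =>
      (kr_int B (kr_meas hF.smooth.continuousOn hσ hξ pos y) (fun o => hc o _) hv).1)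
      (fun y => .of_forall fun o => (B.le_opNorm₂ _ _).trans (by gcongr; exact hc o _))
      (hv.norm.const_mul _) (.of_forall fun o => ?_)
    have : Continuous fun y => F (σ o, ξ o, y) :=
      continuous_iff_continuousAt.2 fun y => (kr_der hF.smooth (pos o) _ y).continuousAt
    exact (B.continuous.comp this).clm_apply continuous_const
  | succ l ih =>
    intro F hF sF
    have hd (e : E) : f.T (n + l) (dv (fun _ => (0, e)) F) :=
      (hF.dv contDiff_const).mono (by push_cast; omega)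
    obtain ⟨c, hc⟩ := bd F (hF.mono (by omega)) sF
    choose c' hc' using fun e : E => bd _ ((hd e).mono (by omega)) (sF.dv _)
    obtain ⟨C0, hC0, hC⟩ := (Module.finBasis ℝ E).exists_opNorm_le (F := V)
    obtain ⟨M, hM⟩ := (Set.finite_range fun i => c' (Module.finBasis ℝ E i)).bddAbove
    let G : Z → E →L[ℝ] V := fun z => (fderiv ℝ F z).comp kr_in
    have hG : ContinuousOn G {z | 0 < z.1} :=
      (hF.smooth.continuousOn_fderiv_of_isOpen kr_open (by simp)).clm_comp continuousOn_const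
    have bG (o : Ω) (q : E × E) : ‖G (σ o, q)‖ ≤ C0 * max M 0 :=
      hC (le_max_right _ _) fun i =>
        ((hc' _ o q).trans (hM ⟨i, rfl⟩)).trans (le_max_left _ _)
    let B' : (E →L[ℝ] V) →L[ℝ] V' →L[ℝ] E →L[ℝ] V'' :=
      ((ContinuousLinearMap.compL ℝ E V V'').comp B.flip).flip
    obtain ⟨b, hb⟩ := kr_bd B' (C0 * max M 0)
    have key (y : E) : HasFDerivAt (fun y => ∫ o, B (F (σ o, ξ o, y)) (v o) ∂m)
        (∫ o, B' (G (σ o, ξ o, y)) (v o) ∂m) y := by
      refine hasFDerivAt_integral_of_dominated_of_fderiv_le (s := univ) univ_mem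
        (F' := fun y o => B' (G (σ o, ξ o, y)) (v o))
        (bound := fun o => b * ‖v o‖) (.of_forall fun y =>
          (kr_int B (kr_meas hF.smooth.continuousOn hσ hξ pos y) (fun o => hc o _) hv).1)
        (kr_int B (kr_meas hF.smooth.continuousOn hσ hξ pos y) (fun o => hc o _) hv)
        (kr_int B' (kr_meas hG hσ hξ pos y) (fun o => bG o _) hv).1
        (.of_forall fun o y _ => hb _ _ (bG o _))
        (hv.norm.const_mul _) (.of_forall fun o y _ => ?_)
      exact (B.flip (v o)).hasFDerivAt.comp y (kr_der hF.smooth (pos o) _ y)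
    rw [Nat.cast_succ, contDiff_succ_iff_fderiv_apply]
    refine ⟨fun y => (key y).differentiableAt, by simp, fun e => ?_⟩
    convert ih _ (hd e) (sF.dv _) using 2 with y
    rw [(key y).fderiv, ContinuousLinearMap.integral_apply
      (kr_int B' (kr_meas hG hσ hξ pos y) (fun o => bG o _) hv)]
    rfl

end par

variable {W : Type} [NormedAddCommGroup W] [InnerProductSpace ℝ W] [FiniteDimensional ℝ W]
  [CompleteSpace W] {C : Cl W} {X : Type} [TopologicalSpace X] [T2Space X] [CompactSpace X]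
  [MeasurableSpace X] [BorelSpace X] {μ : Measure X}

/-- The adjoint as a bilinear map. -/
def kr_star (W : Type) [NormedAddCommGroup W] [InnerProductSpace ℝ W] [CompleteSpace W] :
    (W →L[ℝ] W) →L[ℝ] W →L[ℝ] W := (starL' ℝ (A := W →L[ℝ] W)).toContinuousLinearMap

omit [T2Space X] [CompactSpace X] [BorelSpace X] in
theorem Sy.kr_lift (S : Sy X μ C) (a : Fin S.n) (F : Z → W →L[ℝ] W) (s : ℝ) (x y : X) (w : W) :
    star (S.lift a F s x y) w = S.up a (fun z => kr_star W (F (s, extend (S.ψ a) id 0 x, z))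
      ((range (S.ψ a)).indicator (fun x => S.g a x) x w)) y := by
  have hi := (S.emb a).injective
  unfold Sy.lift Sy.up
  by_cases hy : ∃ z, S.ψ a z = y
  · obtain ⟨z', rfl⟩ := hy
    rw [hi.extend_apply]
    by_cases hx : ∃ z, S.ψ a z = x
    · obtain ⟨z, rfl⟩ := hx
      have := (hi.prodMap hi).extend_apply (fun q => F (s, q)) 0 (z, z')
      rw [Prod.map_apply] at this
      rw [this, hi.extend_apply, indicator_of_mem (mem_range_self z)]
      simp [kr_star]
    · rw [extend_apply' _ _ _ fun ⟨q, hq⟩ => hx ⟨q.1, congrArg Prod.fst hq⟩,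
        indicator_of_notMem (show x ∉ range (S.ψ a) from hx)]
      simp
  · rw [extend_apply' _ _ _ fun ⟨q, hq⟩ => hy ⟨q.2, congrArg Prod.snd hq⟩, extend_apply' _ _ _ hy]
    simp

omit [T2Space X] [CompactSpace X] [BorelSpace X] in
theorem Sy.kr_up (S : Sy X μ C) (a : Fin S.n) {Ω : Type} [MeasurableSpace Ω] {m : Measure Ω}
    {u : Ω → E → W} (hu : ∀ z, Integrable (fun o => u o z) m) (y : X) :
    Integrable (fun o => S.up a (u o) y) m ∧
      ∫ o, S.up a (u o) y ∂m = S.up a (fun z => ∫ o, u o z ∂m) y := by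
  unfold Sy.up
  by_cases hy : ∃ z, S.ψ a z = y
  · obtain ⟨z, rfl⟩ := hy
    simp only [(S.emb a).injective.extend_apply]
    exact ⟨ContinuousLinearMap.integrable_comp _ (hu z),
      ContinuousLinearMap.integral_comp_comm _ (hu z)⟩
  · simp [extend_apply' _ _ _ hy]

omit [T2Space X] [CompactSpace X] [BorelSpace X] in
theorem Sy.kr_sum (S : Sy X μ C) {l : WithTop ℕ∞} {ι : Type} (s : Finset ι) {u : ι → X → W}
    (h : ∀ i ∈ s, S.Sm l (u i)) : S.Sm l fun x => ∑ i ∈ s, u i x := fun a => by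
  have : S.loc a (fun x => ∑ i ∈ s, u i x) = fun z => ∑ i ∈ s, S.loc a (u i) z := by
    funext z; simp [Sy.loc]
  rw [this]
  exact ContDiff.sum fun i hi => h i hi a

omit [T2Space X] [CompactSpace X] [BorelSpace X] in
theorem Sy.kr_norm (S : Sy X μ C) (a : Fin S.n) (x : X) : ‖S.g a x‖ ≤ 1 := by
  refine ContinuousLinearMap.opNorm_le_bound _ zero_le_one fun w => ?_
  have : inner ℝ (S.g a x w) (S.g a x w) = inner ℝ w w := by
    rw [← ContinuousLinearMap.adjoint_inner_right, ← ContinuousLinearMap.star_eq_adjoint,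
      ← mul_apply_eq_comp, S.g1]; rfl
  rw [real_inner_self_eq_norm_sq, real_inner_self_eq_norm_sq] at this
  rw [one_mul, (sq_eq_sq₀ (norm_nonneg _) (norm_nonneg _)).1 this]

/-- The common form of the two regularity statements. -/
theorem Sy.Ker.kr_gen {S : Sy X μ C} {n : ℤ} {l : ℕ} {K : ℝ → X → X → W →L[ℝ] W}
    (h : S.Ker (n + l) K) {Ω : Type} [MeasurableSpace Ω] {m : Measure Ω} {σ : Ω → ℝ} {χ : Ω → X}
    (hσ : Measurable σ) (hχ : Measurable χ) (pos : ∀ o, 0 < σ o) {v : Ω → W} (hv : Integrable v m)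
    (bd : ∀ (f : Fr) (F : Z → W →L[ℝ] W), f.T n F → Supp F → ∃ c, ∀ o q, ‖F (σ o, q)‖ ≤ c) :
    (∀ y, Integrable (fun o => star (K (σ o) (χ o) y) (v o)) m) ∧
      S.Sm l fun y => ∫ o, star (K (σ o) (χ o) y) (v o) ∂m := by
  obtain ⟨F, hF, hK⟩ := h
  let ξ (a : Fin S.n) (o : Ω) : E := extend (S.ψ a) id 0 (χ o)
  let w (a : Fin S.n) (o : Ω) : W := (range (S.ψ a)).indicator (fun x => S.g a x) (χ o) (v o)
  have hξ (a : Fin S.n) : Measurable (ξ a) :=
    ((S.emb a).measurableEmbedding.measurable_extend measurable_id measurable_const).comp hχ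
  have hw (a : Fin S.n) : Integrable (w a) m :=
    kr_int (.id ℝ (W →L[ℝ] W)) (c := 1) (((S.g_meas a).indicator
      (S.emb a).isOpen_range.measurableSet).comp_measurable hχ)
      (fun o => (norm_indicator_le_norm_self _ _).trans (S.kr_norm a _)) hv
  let u (a : Fin S.n) (o : Ω) (z : E) : W := kr_star W (F a (σ o, ξ a o, z)) (w a o)
  have hu (a : Fin S.n) (z : E) : Integrable (fun o => u a o z) m := by
    obtain ⟨c, hc⟩ := bd _ _ ((hF a).1.mono (by omega)) (hF a).2
    exact kr_int _ (kr_meas (hF a).1.smooth.continuousOn hσ (hξ a) pos z) (fun o => hc o _) (hw a)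
  have e (y : X) (o : Ω) : star (K (σ o) (χ o) y) (v o) = ∑ a, S.up a (u a o) y := by
    rw [hK _ (pos o), star_sum, sum_apply]
    exact Finset.sum_congr rfl fun a _ => S.kr_lift a _ _ _ _ _
  simp only [e]
  refine ⟨fun y => integrable_finsetSum _ fun a _ => (S.kr_up a (hu a) y).1, ?_⟩
  have e' (y : X) : ∫ o, ∑ a, S.up a (u a o) y ∂m = ∑ a, S.up a (fun z => ∫ o, u a o z ∂m) y := by
    rw [integral_finsetSum _ fun a _ => (S.kr_up a (hu a) y).1]
    exact Finset.sum_congr rfl fun a _ => (S.kr_up a (hu a) y).2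
  simp only [e']
  refine S.kr_sum _ fun a _ => S.up_sm (by exact_mod_cast le_top) a
    (kr_par (kr_star W) hσ (hξ a) pos (hw a) (bd _) l _ (hF a).1 (hF a).2) ?_
  obtain ⟨Q, hQ, sQ⟩ := (hF a).2
  refine HasCompactSupport.intro hQ fun z hz => ?_
  have (o : Ω) : u a o z = 0 := by
    have : F a (σ o, ξ a o, z) = 0 := by_contra fun k => hz (sQ _ (pos o) k).2
    simp [u, this]
  simp [this]

theorem Sy.Ker.reg0 {S : Sy X μ C} {n : ℤ} {K : ℝ → X → X → W →L[ℝ] W} (h : S.Ker n K) {s : ℝ}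
    (hs : 0 < s) {φ : X → W} (hφ : Integrable φ μ) : S.Sm ∞ (op μ (K s) φ) := fun a => by
  refine contDiff_infty.2 fun l => (Sy.Ker.kr_gen (n := n - l) (l := l) (σ := fun _ => s)
    (by simpa using h) measurable_const measurable_id (fun _ => hs) hφ fun f F hF sF => ?_).2 a
  obtain ⟨Q, hQ, sQ⟩ := sF
  have hc : HasCompactSupport fun q : E × E => F (s, q) :=
    HasCompactSupport.intro (hQ.prod hQ) fun q hq => by_contra fun k => hq (sQ (s, q) hs k)
  obtain ⟨c, hc⟩ := (hF.smooth_s hs).continuous.bounded_above_of_compact_support hc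
  exact ⟨c, fun _ q => hc q⟩

theorem Sy.Ker.reg {S : Sy X μ C} {l : ℕ} {K : ℝ → X → X → W →L[ℝ] W} (h : S.Ker l K)
    {φ : X → W} (hφ : Integrable φ μ) {a : ℝ → ℝ} (ha : Continuous a) {t : ℝ}
    (ht : t ∈ Ioc (0 : ℝ) 1) : S.Sm l fun y => ∫ s in Ioc 0 t, a s • op μ (K s) φ y := by
  have := S.toAtl.fin
  let σ (p : ℝ × X) : ℝ := (Ioc 0 t).piecewise id (fun _ => t) p.1
  have hσ : Measurable σ :=
    (measurable_id.piecewise measurableSet_Ioc measurable_const).comp measurable_fst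
  have mem (p : ℝ × X) : σ p ∈ Ioc 0 t := by
    by_cases k : p.1 ∈ Ioc 0 t
    · simpa only [σ, piecewise_eq_of_mem _ _ _ k, id] using k
    · simpa only [σ, piecewise_eq_of_notMem _ _ _ k] using ⟨ht.1, le_rfl⟩
  have hv : Integrable (fun p : ℝ × X => a p.1 • φ p.2) ((volume.restrict (Ioc 0 t)).prod μ) :=
    (ha.integrableOn_Ioc (a := 0) (b := t)).smul_prod hφ
  obtain ⟨h1, h2⟩ := Sy.Ker.kr_gen (n := 0) (l := l) (by simpa using h) hσ measurable_snd
    (fun p => (mem p).1) hv fun f F hF sF => by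
      obtain ⟨c, hc⟩ := hF.sup sF
      exact ⟨c, fun p q => by simpa using hc _ ⟨(mem p).1, (mem p).2.trans ht.2⟩ q⟩
  convert h2 using 2 with y
  rw [integral_prod _ (h1 y)]
  refine setIntegral_congr_fun measurableSet_Ioc fun s hs => ?_
  simp only [σ, piecewise_eq_of_mem _ _ _ hs, id, map_smul, integral_smul, op]

end Pool.Agent.Lib.MP_1c0d65_gt.Nz
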