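import Pool.Agent.Lib.MP_1c0d65_gt.Nz.Had
import Pool.Agent.Lib.MP_1c0d65_gt.Nz.Tc

/-! The heat operator on the generators, and the formal solution of the heat equation. -/

set_option autoImplicit false

open scoped ContDiff Topology
open Set MeasureTheory Function Filter

noncomputable section

namespace Pool.Agent.Lib.MP_1c0d65_gt.Nz

open Pool.Agent.Lib.MP_1c0d65_gt.PW

variable {V : Type} [NormedAddCommGroup V] [NormedSpace ℝ V] {f : Fr}

section
variable {A : Type} [NormedRing A] [NormedAlgebra ℝ A] {β : Fin 4 → E × E → A} {γ : E × E → A}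

theorem ky_ev {F G : Z → V} (h : ∀ z : Z, 0 < z.1 → F z = G z) {z : Z} (hz : 0 < z.1) :
    fderiv ℝ F z = fderiv ℝ G z :=
  Filter.EventuallyEq.fderiv_eq
    (((isOpen_lt continuous_const continuous_fst).mem_nhds hz : _) |> fun H =>
      Filter.mem_of_superset H fun w hw => h w hw)

theorem Fr.T.ky_diff {n : ℤ} {F : Z → V} (h : f.T n F) {z : Z} (hz : 0 < z.1) :
    DifferentiableAt ℝ F z :=
  (h.smooth.contDiffAt ((isOpen_lt continuous_const continuous_fst).mem_nhds hz)).differentiableAt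
    (by simp)

theorem Fr.ky_eX_add {n m : ℤ} {F G : Z → V} (hF : f.T n F) (hG : f.T m G) (i : Fin 4) (z : Z)
    (hz : 0 < z.1) : f.eX i (F + G) z = (f.eX i F + f.eX i G) z := by
  simp only [Fr.eX, dv, fderiv_add (hF.ky_diff hz) (hG.ky_diff hz), Pi.add_apply,
    add_apply]

theorem Fr.ky_eX_congr {F G : Z → V} (h : ∀ z : Z, 0 < z.1 → F z = G z) (i : Fin 4) (z : Z)
    (hz : 0 < z.1) : f.eX i F z = f.eX i G z := by
  simp only [Fr.eX, dv, ky_ev h hz]

theorem Fr.heat_add (f : Fr) {n m : ℤ} {F G : Z → A} (hF : f.T n F) (hG : f.T m G) {z : Z}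
    (hz : 0 < z.1) : f.heat β γ (F + G) z = f.heat β γ F z + f.heat β γ G z := by
  have h1 : ds (F + G) z = ds F z + ds G z := by
    simp only [ds, fderiv_add (hF.ky_diff hz) (hG.ky_diff hz), add_apply]
  have h2 : ∀ i, f.eX i (f.eX i (F + G)) z = f.eX i (f.eX i F) z + f.eX i (f.eX i G) z := fun i =>
    (Fr.ky_eX_congr (Fr.ky_eX_add hF hG i) i z hz).trans (Fr.ky_eX_add (hF.eX i) (hG.eX i) i z hz)
  simp only [Fr.heat, h1, h2, Fr.ky_eX_add hF hG _ z hz, Pi.add_apply, mul_add,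
    Finset.sum_add_distrib]
  abel

/-- `η · ∂ η`. -/
def Fr.kyN (f : Fr) (i : Fin 4) (q : E × E) : ℝ := ∑ j, f.eta j q * f.dx i (f.eta j) q

theorem Fr.ky_dx (f : Fr) (i : Fin 4) {c : E × E → V} (hc : ContDiff ℝ ∞ c) :
    ContDiff ℝ ∞ (f.dx i c) := Fr.I.dx (r := 0) hc i

theorem Fr.ky_N (f : Fr) (i : Fin 4) : ContDiff ℝ ∞ (f.kyN i) :=
  ContDiff.sum fun j _ => (f.eta_smooth j).mul (f.ky_dx i (f.eta_smooth j))

theorem Fr.ky_dx_smul (f : Fr) (i : Fin 4) {a : E × E → ℝ} {c : E × E → V} (ha : ContDiff ℝ ∞ a)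
    (hc : ContDiff ℝ ∞ c) (q : E × E) :
    f.dx i (fun q => a q • c q) q = f.dx i a q • c q + a q • f.dx i c q := by
  unfold Fr.dx
  rw [fderiv_fun_smul (ha.differentiable (by simp) q) (hc.differentiable (by simp) q)]
  simp [add_comm]

theorem Fr.I.ky_mul {k r : ℕ} {a : E × E → ℝ} {c : E × E → V} (ha : f.I k a) (hc : f.I r c) :
    f.I (k + r) fun q => a q • c q := ha.bil hc (ContinuousLinearMap.lsmul ℝ ℝ)

theorem Fr.I.ky_congr {r : ℕ} {c c' : E × E → V} (h : f.I r c) (e : ∀ q, c' q = c q) : f.I r c' :=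
  (funext e : c' = c) ▸ h

theorem Fr.ky_N2 (f : Fr) (i : Fin 4) : f.I 2 fun q => f.kyN i q - f.eta i q :=
  (Fr.I.sum Finset.univ fun j _ => (f.dx_eta i j).eta_smul j).ky_congr fun q => by
    simp [Fr.kyN, mul_sub, Finset.sum_sub_distrib]

theorem Fr.I.ky_euler {r : ℕ} {c : E × E → V} (h : f.I r c) :
    f.I (r + 1) fun q => ∑ i, f.kyN i q • f.dx i c q - (r : ℝ) • c q := by
  refine (h.euler.add (Fr.I.sum Finset.univ fun i _ =>
    ((f.ky_N2 i).ky_mul (h.dx i)).mono (by omega))).ky_congr fun q => ?_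
  simp only [sub_smul, Finset.sum_sub_distrib]; abel

theorem Fr.ky_dN (f : Fr) : f.I 1 fun q => ∑ i, f.dx i (f.kyN i) q - 4 := by
  refine (Fr.I.sum Finset.univ fun i _ => ((f.ky_N2 i).dx i).add (f.dx_eta i i)).ky_congr
    fun q => ?_
  have : ∀ i, f.dx i (fun q => f.kyN i q - f.eta i q) q = f.dx i (f.kyN i) q - f.dx i (f.eta i) q :=
    fun i => by
      unfold Fr.dx
      rw [fderiv_fun_sub ((f.ky_N i).differentiable (by simp) q)
        ((f.eta_smooth i).differentiable (by simp) q)]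
      rfl
  simp only [this, Fin.sum_univ_four, if_true]; ring

theorem Fr.ky_NN (f : Fr) : f.I 3 fun q => ∑ i, f.kyN i q ^ 2 - ∑ i, f.eta i q ^ 2 := by
  refine (Fr.I.sum Finset.univ fun i _ => (((f.ky_N2 i).ky_mul (f.ky_N2 i)).mono
    (show 3 ≤ 2 + 2 by omega)).add (((f.ky_N2 i).eta_smul i).smul 2)).ky_congr fun q => ?_
  simp only [Fin.sum_univ_four, smul_eq_mul]; ring

theorem Fr.ky_eX (f : Fr) (p : ℤ) {c : E × E → V} (hc : ContDiff ℝ ∞ c) (i : Fin 4) (z : Z)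
    (hz : 0 < z.1) : f.eX i (f.gen p c) z =
      (f.gen p (f.dx i c) + f.gen (p - 1) fun q => f.kyN i q • (-1 / 2 : ℝ) • c q) z := by
  rw [f.eX_gen p hc i hz]
  simp only [Pi.add_apply, Fr.gen, Fr.kyN]
  module

theorem Fr.ky_eX2 (f : Fr) (p : ℤ) {c : E × E → V} (hc : ContDiff ℝ ∞ c) (i : Fin 4) (z : Z)
    (hz : 0 < z.1) : f.eX i (f.eX i (f.gen p c)) z = f.gen p (f.dx i (f.dx i c)) z
      - f.gen (p - 1) (fun q => f.kyN i q • f.dx i c q + (f.dx i (f.kyN i) q / 2) • c q) z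
      + f.gen (p - 2) (fun q => (f.kyN i q ^ 2 / 4) • c q) z := by
  have h1 := f.ky_dx i hc
  have h2 : ContDiff ℝ ∞ fun q => (-1 / 2 : ℝ) • c q := hc.const_smul _
  have h3 : ContDiff ℝ ∞ fun q => f.kyN i q • (-1 / 2 : ℝ) • c q := (f.ky_N i).smul h2
  rw [Fr.ky_eX_congr (f.ky_eX p hc i) i z hz, Fr.ky_eX_add (.gen p 0 _ h1 le_rfl)
    (.gen (p - 1) 0 _ h3 le_rfl) i z hz, Pi.add_apply, f.ky_eX p h1 i z hz,
    f.ky_eX (p - 1) h3 i z hz, show p - 1 - 1 = p - 2 by ring]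
  have h4 : f.dx i (fun q => (-1 / 2 : ℝ) • c q) z.2 = (-1 / 2 : ℝ) • f.dx i c z.2 := by
    rw [f.ky_dx_smul i contDiff_const hc]; simp [Fr.dx]
  simp only [Pi.add_apply, Fr.gen, f.ky_dx_smul i (f.ky_N i) h2, h4]
  module

theorem Fr.key (f : Fr) (hβ : ∀ i, ContDiff ℝ ∞ (β i)) (hγ : ContDiff ℝ ∞ γ) (p : ℤ) {r : ℕ}
    {c : E × E → A} (hc : f.I r c) : f.T (2 * p + r - 1) fun z => f.heat β γ (f.gen p c) z -
      (((p : ℝ) + 2 + r) • f.gen (p - 1) c z - f.gen p (fun q => ∑ i, f.dx i (f.dx i c) q) z) := by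
  have h0 : f.T (2 * p + r) (f.gen p c) := .gen p r c hc le_rfl
  have a1 : f.T (2 * p + r - 1) _ := .gen (p - 1) (r + 1) _ hc.ky_euler (by push_cast; omega)
  have a2 : f.T (2 * p + r - 1) _ := .gen (p - 1) (1 + r) _ ((f.ky_dN.ky_mul hc).smul (1 / 2))
    (by push_cast; omega)
  have a3 : f.T (2 * p + r - 1) _ := .gen (p - 2) (3 + r) _ ((f.ky_NN.ky_mul hc).smul (-1 / 4))
    (by push_cast; omega)
  have a4 : f.T (2 * p + r - 1) fun z => ∑ i, β i z.2 * f.eX i (f.gen p c) z :=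
    Fr.T.sum Finset.univ fun i _ => (Fr.T.bil (r := 0) (hβ i) (h0.eX i)
      (ContinuousLinearMap.mul ℝ A)).mono (by simp)
  have a5 : f.T (2 * p + r - 1) fun z => γ z.2 * f.gen p c z :=
    (Fr.T.bil (r := 0) hγ h0 (ContinuousLinearMap.mul ℝ A)).mono (by simp)
  refine ((((a1.add a2).add a3).add a4).add a5).congr fun z hz => ?_
  simp only [Fr.heat, f.ds_gen p hc.smooth hz, f.ky_eX2 p hc.smooth _ z hz, Pi.add_apply]
  generalize (∑ i, β i z.2 * f.eX i (f.gen p c) z) = u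
  generalize γ z.2 * f.gen p c z = v
  simp only [Fr.gen, Fin.sum_univ_four]
  module

theorem Fr.ky_heat_zero (f : Fr) (z : Z) : f.heat β γ (0 : Z → A) z = 0 := by
  have : ∀ i, f.eX i (0 : Z → A) = 0 := fun i => by funext z; simp [Fr.eX, dv]
  simp [Fr.heat, this, ds]

theorem Fr.ky_gen (f : Fr) (hβ : ∀ i, ContDiff ℝ ∞ (β i)) (hγ : ContDiff ℝ ∞ γ) (r : ℕ) :
    ∀ (p : ℤ) (c : E × E → A), f.I r c → -6 < 2 * p + r → ∃ F : Z → A,
      f.T (2 * p + r + 2) F ∧ f.T (2 * p + r + 1) (f.heat β γ F - f.gen p c) := by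
  induction r using Nat.strong_induction_on with
  | _ r ih =>
    intro p c hc hn
    have hk : (0 : ℝ) < p + 3 + r := by
      have : (0 : ℤ) < p + 3 + r := by omega
      exact_mod_cast this
    have hc' := hc.smul (p + 3 + r : ℝ)⁻¹
    set c' : E × E → A := fun q => (p + 3 + r : ℝ)⁻¹ • c q with hcq
    have h0 : f.T (2 * p + r + 2) (f.gen (p + 1) c') := .gen (p + 1) r c' hc' (by omega)
    have hL : f.I (r - 1 - 1) fun q => ∑ i, f.dx i (f.dx i c') q :=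
      Fr.I.sum Finset.univ fun i _ => (hc'.dx i).dx i
    have h1 : f.T (2 * p + r + 1) fun z => f.heat β γ (f.gen (p + 1) c') z - (f.gen p c z -
        f.gen (p + 1) (fun q => ∑ i, f.dx i (f.dx i c') q) z) := by
      refine ((f.key hβ hγ (p + 1) hc').mono (by omega)).congr fun z _ => ?_
      congr 2
      rw [add_sub_cancel_right]
      simp only [Fr.gen, hcq, smul_smul]
      congr 1
      push_cast
      rw [show (p : ℝ) + 1 + 2 + r = p + 3 + r by ring]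
      field_simp
    by_cases hr : r < 2
    · refine ⟨_, h0, (h1.sub (.gen (p + 1) _ _ hL (by omega))).congr fun z _ => ?_⟩
      simp only [Pi.sub_apply]; abel
    · obtain ⟨F, hF, hF'⟩ := ih (r - 1 - 1) (by omega) (p + 1) _ hL (by omega)
      refine ⟨_, h0.add (hF.mono (by omega)), (h1.add (hF'.mono (by omega))).congr fun z hz => ?_⟩
      simp only [Pi.sub_apply, Pi.add_apply, f.heat_add h0 hF hz]; abel

theorem Fr.ky_step (f : Fr) (hβ : ∀ i, ContDiff ℝ ∞ (β i)) (hγ : ContDiff ℝ ∞ γ) {n : ℤ}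
    (hn : -6 < n) {G : Z → A} (hG : f.T n G) :
    ∃ F : Z → A, f.T (n + 2) F ∧ f.T (n + 1) (f.heat β γ F - G) := by
  induction hG with
  | gen p r c hc h =>
    obtain ⟨F, h1, h2⟩ := f.ky_gen hβ hγ r p c hc (by omega)
    exact ⟨F, h1.mono (by omega), h2.mono (by omega)⟩
  | add _ _ a b =>
    obtain ⟨F, h1, h2⟩ := a
    obtain ⟨F', h1', h2'⟩ := b
    refine ⟨_, h1.add h1', (h2.add h2').congr fun z hz => ?_⟩
    simp only [Pi.sub_apply, Pi.add_apply, f.heat_add h1 h1' hz]; abel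
  | congr _ e a =>
    obtain ⟨F, h1, h2⟩ := a
    exact ⟨F, h1, h2.congr fun z hz => by simp only [Pi.sub_apply, e z hz]⟩

theorem Fr.solve (f : Fr) (hβ : ∀ i, ContDiff ℝ ∞ (β i)) (hγ : ContDiff ℝ ∞ γ) {n : ℤ}
    (hn : -6 < n) {G : Z → A} (hG : f.T n G) (N : ℤ) :
    ∃ F : Z → A, f.T (n + 2) F ∧ f.T N (f.heat β γ F - G) := by
  have key : ∀ k : ℕ, ∃ F : Z → A, f.T (n + 2) F ∧ f.T (n + k) (f.heat β γ F - G) := by
    intro k
    induction k with
    | zero =>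
      exact ⟨0, Fr.T.zero f _, (hG.neg.mono (by simp)).congr fun z _ => by
        simp [f.ky_heat_zero]⟩
    | succ k ih =>
      obtain ⟨F, h1, h2⟩ := ih
      obtain ⟨F', h1', h2'⟩ := f.ky_step hβ hγ (by omega) h2.neg
      refine ⟨_, h1.add (h1'.mono (by omega)), (h2'.mono (by push_cast; omega)).congr
        fun z hz => ?_⟩
      simp only [Pi.sub_apply, Pi.neg_apply, f.heat_add h1 h1' hz]; abel
  obtain ⟨F, h1, h2⟩ := key (N - n).toNat
  exact ⟨F, h1, h2.mono (by omega)⟩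
end

end Pool.Agent.Lib.MP_1c0d65_gt.Nz
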