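import Pool.Agent.Lib.MP_1c0d65_gt.Nz.Ker
import Pool.Agent.Lib.MP_1c0d65_gt.Nz.Dop
import Pool.Agent.Lib.MP_1c0d65_gt.Nz.HS

/-! The parametrix acting on weak solutions. -/

set_option autoImplicit false

open scoped ContDiff Topology
open Set MeasureTheory Function Filter

noncomputable section

namespace Pool.Agent.Lib.MP_1c0d65_gt.Nz

open Pool.Agent.Lib.MP_1c0d65_gt.PW

variable {W : Type} [NormedAddCommGroup W] [InnerProductSpace ℝ W] [FiniteDimensional ℝ W]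
  [CompleteSpace W] {C : Cl W}

section
variable {Y : Type} [MeasurableSpace Y] {ν : Measure Y} {k : Y → Y → W →L[ℝ] W}

theorem wk_star (a : W →L[ℝ] W) : ‖star a‖ = ‖a‖ :=
  ContinuousLinearMap.adjoint.norm_map a

theorem Bm.wk_int (h : Bm k) {φ : Y → W} (hφ : Integrable φ ν) (y : Y) :
    Integrable (fun x => star (k x y) (φ x)) ν := by
  obtain ⟨c, hc⟩ := h.2
  have m1 : StronglyMeasurable fun x => star (k x y) :=
    continuous_star.comp_stronglyMeasurable (h.1.comp_measurable measurable_prodMk_right)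
  refine (hφ.norm.const_mul c).mono'
    (isBoundedBilinearMap_apply.continuous.comp_aestronglyMeasurable
      (m1.aestronglyMeasurable.prodMk hφ.1)) (Eventually.of_forall fun x => ?_)
  refine ((star (k x y)).le_opNorm _).trans ?_
  rw [wk_star]
  exact mul_le_mul_of_nonneg_right (hc x y) (norm_nonneg _)

theorem Bm.wk_inner (h : Bm k) {φ : Y → W} (hφ : Integrable φ ν) (y : Y) (w : W) :
    Integrable (fun x => inner ℝ (φ x) (k x y w)) ν ∧
      inner ℝ (op ν k φ y) w = ∫ x, inner ℝ (φ x) (k x y w) ∂ν := by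
  have e : ∀ x, inner ℝ (φ x) (k x y w) = inner ℝ w (star (k x y) (φ x)) := fun x => by
    rw [ContinuousLinearMap.star_eq_adjoint, ContinuousLinearMap.adjoint_inner_right,
      real_inner_comm]
  simp only [e]
  exact ⟨(h.wk_int hφ y).const_inner w, by
    rw [real_inner_comm, op, integral_inner (h.wk_int hφ y)]⟩

end

variable {X : Type} [TopologicalSpace X] [T2Space X] [CompactSpace X] [MeasurableSpace X]
  [BorelSpace X] {μ : Measure X}

theorem Sy.Ker.wk_norm [IsFiniteMeasure μ] {S : Sy X μ C} {n : ℤ} {K : ℝ → X → X → W →L[ℝ] W}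
    (h : S.Ker n K) (hn : -4 ≤ n) : ∃ c : ℝ, 0 < c ∧ ∀ s ∈ Ioc (0 : ℝ) 1,
      ‖Op μ (K s)‖ ≤ c ∧ ∀ y, (∫ x, ‖K s x y‖ ∂μ) ≤ c := by
  obtain ⟨c, hc⟩ := h.l1
  refine ⟨|c| + 1, by positivity, fun s hs => ?_⟩
  have h1 : c * √s ^ (n + 4) ≤ |c| + 1 := by
    have h2 : √s ^ (n + 4) ≤ 1 :=
      zpow_le_one₀ (Real.sqrt_pos.2 hs.1) (Real.sqrt_le_one.2 hs.2) (by omega)
    have h3 : 0 ≤ √s ^ (n + 4) := by positivity
    nlinarith [le_abs_self c, abs_nonneg c]
  exact ⟨(h.bm hs).schur (by positivity) (fun y => (hc s hs y).1.trans h1)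
    fun y => (hc s hs y).2.trans h1, fun y => (hc s hs y).1.trans h1⟩

theorem Sy.Par.weak [IsFiniteMeasure μ] {S : Sy X μ C} {N : ℤ} {K R : ℝ → X → X → W →L[ℝ] W}
    (h : S.Par N K R) {φ f : Lp W 2 μ} (hw : S.Weak φ f) {s : ℝ} (hs : s ∈ Ioo (0 : ℝ) 1) :
    HasDerivAt (fun t => Op μ (K t) φ) (Op μ (R s) φ - Op μ (K s) f) s := by
  obtain ⟨K', k1, d1⟩ := h.hK.ds
  obtain ⟨K'', k2, d2⟩ := k1.ds
  obtain ⟨c, hc⟩ := k2.sup
  have hs' : s ∈ Ioc (0 : ℝ) 1 := ⟨hs.1, hs.2.le⟩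
  have hδ : 0 < min (s / 2) (1 - s) := lt_min (half_pos hs.1) (sub_pos.2 hs.2)
  have hb : ∀ t ∈ Metric.ball s (min (s / 2) (1 - s)), s / 2 ≤ t ∧ t ∈ Ioc (0 : ℝ) 1 := by
    intro t ht
    rw [Metric.mem_ball, Real.dist_eq, lt_min_iff, abs_lt, abs_lt] at ht
    exact ⟨by linarith [ht.1.1], by linarith [ht.1.1, hs.1], by linarith [ht.2.2]⟩
  have hD := Bm.hasDerivAt_Op (ν := μ) (c := |c| * √(s / 2) ^ (-8 : ℤ)) hδ
    (fun t ht => h.hK.bm (hb t ht).2) (k1.bm hs') (fun t ht => d1 t (hb t ht).2.1)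
    (fun t ht => d2 t (hb t ht).2.1) fun t ht x y => by
      refine (hc t (hb t ht).2 x y).trans (mul_le_mul (le_abs_self c) ?_ (by positivity)
        (abs_nonneg c))
      have : (-4 - 2 - 2 : ℤ) = -8 := by norm_num
      rw [this]
      have h0 := Real.sqrt_pos.2 (half_pos hs.1)
      rw [zpow_neg, zpow_neg]
      exact inv_anti₀ (by positivity)
        (zpow_le_zpow_left₀ (by norm_num) h0.le (Real.sqrt_le_sqrt (hb t ht).1))
  have hD' := hD.clm_apply (hasDerivAt_const s φ)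
  simp only [map_zero, add_zero] at hD'
  refine hD'.congr_deriv (Eq.symm ?_)
  have iφ : Integrable φ μ := (Lp.memLp φ).integrable (by norm_num)
  have jf : Integrable f μ := (Lp.memLp f).integrable (by norm_num)
  refine Lp.ext ?_
  filter_upwards [Lp.coeFn_sub (Op μ (R s) φ) (Op μ (K s) f), (h.hR.bm hs').isOp φ,
    (h.hK.bm hs').isOp f, (k1.bm hs').isOp φ] with y e1 e2 e3 e4
  rw [e1, Pi.sub_apply, e2, e3, e4]
  refine ext_inner_right ℝ fun w => ?_
  obtain ⟨i1, a1⟩ := (h.hR.bm hs').wk_inner iφ y w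
  obtain ⟨-, a2⟩ := (h.hK.bm hs').wk_inner jf y w
  obtain ⟨i3, a3⟩ := (k1.bm hs').wk_inner iφ y w
  rw [inner_sub_left, a1, a2, a3, ← hw _ (h.hK.smx hs.1 y w), sub_eq_iff_eq_add, add_comm,
    ← sub_eq_iff_eq_add, ← integral_sub i1 i3]
  refine integral_congr_ae (Eventually.of_forall fun x => ?_)
  have e := (d1 s hs.1 x y).clm_apply (hasDerivAt_const s w)
  simp only [map_zero, add_zero] at e
  simp only [e.unique (h.heat s hs.1 x y w), inner_sub_right, sub_sub_cancel]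

theorem Sy.Par.tendsto [IsFiniteMeasure μ] {S : Sy X μ C} {N : ℤ} {K R : ℝ → X → X → W →L[ℝ] W}
    (h : S.Par N K R) (φ : Lp W 2 μ) :
    Tendsto (fun s => Op μ (K s) φ) (𝓝[>] 0) (𝓝 φ) := by
  obtain ⟨c, c0, hc⟩ := h.hK.wk_norm le_rfl
  have ev : ∀ᶠ s in 𝓝[>] (0 : ℝ), s ∈ Ioc (0 : ℝ) 1 := Ioc_mem_nhdsGT one_pos
  let P : Submodule ℝ (Lp W 2 μ) :=
    { carrier := {ψ | Tendsto (fun s => Op μ (K s) ψ) (𝓝[>] 0) (𝓝 ψ)}
      zero_mem' := by simp
      add_mem' := fun {a b} ha hb => by simpa using ha.add hb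
      smul_mem' := fun r {a} ha => by simpa using ha.const_smul r }
  have hP : IsClosed (P : Set (Lp W 2 μ)) := by
    refine isClosed_of_closure_subset fun ψ hψ => Metric.tendsto_nhds.2 fun ε hε => ?_
    obtain ⟨χ, h1, h2⟩ := Metric.mem_closure_iff.1 hψ (ε / (2 * (c + 1))) (by positivity)
    filter_upwards [ev, Metric.tendsto_nhds.1 h1 (ε / 2) (half_pos hε)] with s hs h3
    rw [dist_eq_norm] at h2 h3 ⊢
    have e : Op μ (K s) ψ - ψ = Op μ (K s) (ψ - χ) + (Op μ (K s) χ - χ) - (ψ - χ) := by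
      rw [map_sub]; abel
    have h4 : ‖Op μ (K s) (ψ - χ)‖ ≤ c * ‖ψ - χ‖ := (Op μ (K s)).le_of_opNorm_le (hc s hs).1 _
    have h5 := norm_sub_le (Op μ (K s) (ψ - χ) + (Op μ (K s) χ - χ)) (ψ - χ)
    have h6 := norm_add_le (Op μ (K s) (ψ - χ)) (Op μ (K s) χ - χ)
    rw [lt_div_iff₀ (by positivity)] at h2
    rw [e]; linarith
  have hsm : ∀ (u : X → W) (hu : S.Sm ∞ u) (m : MemLp u 2 μ), m.toLp u ∈ P := by
    intro u hu m
    have u0 : S.Sm 0 u := fun a => (hu a).of_le (by simp)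
    obtain ⟨b, hb⟩ := u0.bdd
    have iu : Integrable u μ := m.integrable (by norm_num)
    have e1 : ∀ s ∈ Ioc (0 : ℝ) 1, (Op μ (K s) (m.toLp u) - m.toLp u : Lp W 2 μ) =ᵐ[μ]
        fun y => op μ (K s) u y - u y := by
      intro s hs
      filter_upwards [Lp.coeFn_sub (Op μ (K s) (m.toLp u)) (m.toLp u),
        (h.hK.bm hs).isOp (m.toLp u), m.coeFn_toLp] with y a1 a2 a3
      rw [a1, Pi.sub_apply, a2, a3]
      congr 1
      exact integral_congr_ae (m.coeFn_toLp.mono fun x hx => by simp only [hx])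
    have e2 : ∀ s ∈ Ioc (0 : ℝ) 1, ‖Op μ (K s) (m.toLp u) - m.toLp u‖ ^ 2 =
        ∫ y, ‖op μ (K s) u y - u y‖ ^ 2 ∂μ := by
      intro s hs
      rw [← real_inner_self_eq_norm_sq, L2.inner_def]
      refine integral_congr_ae ((e1 s hs).mono fun y hy => ?_)
      simp only [hy, real_inner_self_eq_norm_sq]
    have e3 : ∀ s ∈ Ioc (0 : ℝ) 1, ∀ y, ‖op μ (K s) u y - u y‖ ≤ c * |b| + |b| := by
      intro s hs y
      refine (norm_sub_le _ _).trans (add_le_add ?_ ((hb y).trans (le_abs_self b)))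
      obtain ⟨d, hd⟩ := (h.hK.bm hs).2
      have m1 : StronglyMeasurable fun x => K s x y :=
        (h.hK.bm hs).1.comp_measurable measurable_prodMk_right
      have i1 : Integrable (fun x => ‖K s x y‖ * |b|) μ :=
        (Integrable.of_bound m1.aestronglyMeasurable d (Eventually.of_forall fun x =>
          hd x y)).norm.mul_const _
      refine (norm_integral_le_of_norm_le i1 (Eventually.of_forall fun x => ?_)).trans ?_
      · refine ((star (K s x y)).le_opNorm _).trans ?_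
        rw [wk_star]
        exact mul_le_mul_of_nonneg_left ((hb x).trans (le_abs_self b)) (norm_nonneg _)
      · rw [integral_mul_const]
        exact mul_le_mul_of_nonneg_right ((hc s hs).2 y) (abs_nonneg b)
    have t1 : Tendsto (fun s => ∫ y, ‖op μ (K s) u y - u y‖ ^ 2 ∂μ) (𝓝[>] 0)
        (𝓝 (∫ _ : X, (0 : ℝ) ∂μ)) := by
      refine tendsto_integral_filter_of_dominated_convergence (fun _ => (c * |b| + |b|) ^ 2)
        (ev.mono fun s hs => ((Lp.aestronglyMeasurable _).congr (e1 s hs)).norm.pow 2)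
        (ev.mono fun s hs => Eventually.of_forall fun y => ?_) (integrable_const _)
        (Eventually.of_forall fun y => ?_)
      · rw [norm_pow, norm_norm]
        exact pow_le_pow_left₀ (norm_nonneg _) (e3 s hs y) 2
      · simpa using (tendsto_iff_norm_sub_tendsto_zero.1 (h.delta u hu y)).pow 2
    rw [integral_zero] at t1
    refine tendsto_iff_norm_sub_tendsto_zero.2 ?_
    have t2 := (t1.congr' (ev.mono fun s hs => (e2 s hs).symm)).sqrt
    simpa using t2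
  have : CompleteSpace P := hP.completeSpace_coe
  have hT : P = ⊤ := by
    rw [← Submodule.orthogonal_eq_bot_iff, Submodule.eq_bot_iff]
    refine fun ψ hψ => S.dense ψ fun u hu => ?_
    have m : MemLp u 2 μ := Sy.Sm.memLp (fun a => (hu a).of_le (by simp)) 2
    have := (Submodule.mem_orthogonal' _ _).1 hψ _ (hsm u hu m)
    rw [L2.inner_def] at this
    rw [← this]
    exact integral_congr_ae (m.coeFn_toLp.mono fun x hx => by simp only [hx])
  exact (hT ▸ Submodule.mem_top : φ ∈ P)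

theorem Sy.Par.cpt [IsFiniteMeasure μ] {S : Sy X μ C} {K R : ℝ → X → X → W →L[ℝ] W}
    (h : S.Par 0 K R) {δ : ℝ} (hδ : 0 < δ) : ∃ T : Lp W 2 μ →L[ℝ] Lp W 2 μ, IsCompactOperator T ∧
      ∀ φ f : Lp W 2 μ, S.Weak φ f → ‖φ - T φ‖ ≤ δ * (‖φ‖ + ‖f‖) := by
  obtain ⟨c, c0, hc⟩ := h.hK.wk_norm le_rfl
  obtain ⟨d, d0, hd⟩ := h.hR.wk_norm (by norm_num)
  obtain ⟨t, t0, t1, t2⟩ : ∃ t : ℝ, 0 < t ∧ t < 1 ∧ (c + d) * t ≤ δ :=
    ⟨min (1 / 2) (δ / (c + d)), by positivity, (min_le_left _ _).trans_lt (by norm_num), by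
      rw [mul_comm, ← le_div_iff₀ (by positivity)]; exact min_le_right _ _⟩
  refine ⟨Op μ (K t), (h.hK.bm ⟨t0, t1.le⟩).compact, fun φ f hw => ?_⟩
  have hb : ∀ s ∈ Ioo (0 : ℝ) 1, ‖Op μ (R s) φ - Op μ (K s) f‖ ≤ (c + d) * (‖φ‖ + ‖f‖) := by
    intro s hs
    have h1 := (Op μ (R s)).le_of_opNorm_le (hd s ⟨hs.1, hs.2.le⟩).1 φ
    have h2 := (Op μ (K s)).le_of_opNorm_le (hc s ⟨hs.1, hs.2.le⟩).1 f
    have h3 := norm_sub_le (Op μ (R s) φ) (Op μ (K s) f)
    nlinarith [norm_nonneg φ, norm_nonneg f]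
  refine le_of_tendsto ((h.tendsto φ).sub_const (Op μ (K t) φ)).norm ?_
  filter_upwards [Ioo_mem_nhdsGT t0] with s hs
  have h1 := (convex_Ioo (0 : ℝ) 1).norm_image_sub_le_of_norm_hasDerivWithin_le
    (fun s hs => (h.weak hw hs).hasDerivWithinAt) hb ⟨t0, t1⟩ ⟨hs.1, hs.2.trans t1⟩
  refine h1.trans ?_
  rw [Real.norm_eq_abs, abs_sub_comm, abs_of_pos (sub_pos.2 hs.2)]
  have h2 : 0 ≤ ‖φ‖ + ‖f‖ := by positivity
  have h3 : (c + d) * (t - s) ≤ δ := by nlinarith [hs.1]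
  nlinarith

end Pool.Agent.Lib.MP_1c0d65_gt.Nz
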