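import Pool.Agent.Lib.MP_1c0d65_gt.Nz.KReg
import Pool.Agent.Lib.MP_1c0d65_gt.Nz.Weak
import Pool.Agent.Lib.MP_1c0d65_gt.Nz.Glue

/-! Weak eigensections are smooth. -/

set_option autoImplicit false

open scoped ContDiff Topology
open Set MeasureTheory Function Filter

noncomputable section

namespace Pool.Agent.Lib.MP_1c0d65_gt.Nz

open Pool.Agent.Lib.MP_1c0d65_gt.PW

variable {W : Type} [NormedAddCommGroup W] [InnerProductSpace ℝ W] [FiniteDimensional ℝ W]
  [CompleteSpace W] {C : Cl W} {X : Type} [TopologicalSpace X] [T2Space X] [CompactSpace X]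
  [MeasurableSpace X] [BorelSpace X] {μ : Measure X}

theorem rg_meas {V V' V'' Ω : Type} [NormedAddCommGroup V] [NormedSpace ℝ V]
    [NormedAddCommGroup V'] [NormedSpace ℝ V'] [NormedAddCommGroup V''] [NormedSpace ℝ V'']
    [MeasurableSpace Ω] (B : V →L[ℝ] V' →L[ℝ] V'') {f : Ω → V} {g : Ω → V'}
    (hf : StronglyMeasurable f) (hg : StronglyMeasurable g) :
    StronglyMeasurable fun o => B (f o) (g o) :=
  B.continuous₂.comp_stronglyMeasurable (hf.prodMk hg)

/-- The functions `op μ (R s) φ` are jointly measurable and uniformly bounded. -/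
theorem Sy.Ker.rg_op [IsFiniteMeasure μ] {S : Sy X μ C} {l : ℕ} {R : ℝ → X → X → W →L[ℝ] W}
    (h : S.Ker l R) (φ : Lp W 2 μ) : ∃ (G : ℝ × X → W) (c : ℝ), StronglyMeasurable G ∧
      ∀ s ∈ Ioc (0 : ℝ) 1, ∀ y, G (s, y) = op μ (R s) φ y ∧ ‖G (s, y)‖ ≤ c := by
  obtain ⟨c, hc⟩ := h.sup
  have hφ : Integrable φ μ := (Lp.memLp φ).integrable one_le_two
  let R' : ℝ × X × X → W →L[ℝ] W := fun p => if 0 < p.1 then R p.1 p.2.1 p.2.2 else 0
  have m0 : StronglyMeasurable R' := h.meas3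
  have e0 {s : ℝ} (hs : 0 < s) (x y : X) : R' (s, x, y) = R s x y := if_pos hs
  clear_value R'
  have m1 : StronglyMeasurable fun p : (ℝ × X) × X => R' (p.1.1, p.2, p.1.2) :=
    m0.comp_measurable (by fun_prop)
  have m2 : StronglyMeasurable fun p : (ℝ × X) × X =>
      kr_star W (R' (p.1.1, p.2, p.1.2)) (φ p.2) :=
    rg_meas (kr_star W) m1 ((Lp.stronglyMeasurable φ).comp_measurable measurable_snd)
  obtain ⟨b, hb⟩ := kr_bd (kr_star W) (max c 0)
  refine ⟨fun p => ∫ x, kr_star W (R' (p.1, x, p.2)) (φ x) ∂μ, ∫ x, b * ‖φ x‖ ∂μ,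
    m2.integral_prod_right', fun s hs y => ⟨?_, ?_⟩⟩
  · simp only [e0 hs.1, op]; rfl
  · refine norm_integral_le_of_norm_le (hφ.norm.const_mul b) (.of_forall fun x => hb _ _ ?_)
    rw [e0 hs.1]
    refine (hc s hs x y).trans ?_
    have h0 : 0 ≤ √s ^ (l : ℤ) := by positivity
    have h1 : √s ^ (l : ℤ) ≤ 1 := by
      rw [zpow_natCast]
      exact pow_le_one₀ (Real.sqrt_nonneg s) (Real.sqrt_le_one.2 hs.2)
    nlinarith [le_max_left c 0, le_max_right c 0]

omit [TopologicalSpace X] [T2Space X] [CompactSpace X] [BorelSpace X] [FiniteDimensional ℝ W]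
  [CompleteSpace W] in
theorem rg_inner (ψ T : Lp W 2 μ) {g : X → W} (h : (T : X → W) =ᵐ[μ] g) :
    inner ℝ ψ T = ∫ y, inner ℝ (ψ y) (g y) ∂μ := by
  rw [L2.inner_def]
  exact integral_congr_ae (h.mono fun y hy => by simp only [hy])

theorem Sy.Par.reg [IsFiniteMeasure μ] {S : Sy X μ C} {l : ℕ} {K R : ℝ → X → X → W →L[ℝ] W}
    (h : S.Par l K R) {φ : Lp W 2 μ} {a : ℝ} (hw : S.Weak φ fun x => a • φ x) :
    ∃ u, S.Sm l u ∧ (φ : X → W) =ᵐ[μ] u := by
  have hφ : Integrable φ μ := (Lp.memLp φ).integrable one_le_two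
  have ht : (1 / 2 : ℝ) ∈ Ioo (0 : ℝ) 1 := by norm_num
  have ht' := Ioo_subset_Ioc_self ht
  have he : Continuous fun s : ℝ => Real.exp (a * s) := by fun_prop
  have hw' : S.Weak φ (a • φ : Lp W 2 μ) := fun u hu => by
    rw [hw u hu]
    exact integral_congr_ae ((Lp.coeFn_smul a φ).mono fun x hx => by simp only [hx, Pi.smul_apply])
  let u1 : X → W := op μ (K (1 / 2)) φ
  let u2 : X → W := fun y => ∫ s in Ioc 0 (1 / 2), Real.exp (a * s) • op μ (R s) φ y
  have s1 : S.Sm l u1 := fun b => (h.hK.reg0 ht.1 hφ b).of_le (by exact_mod_cast le_top)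
  have s2 : S.Sm l u2 := h.hR.reg hφ he ht'
  have m2 : MemLp u2 2 μ := Sy.Sm.memLp (S := S) (fun b => (s2 b).of_le (by simp)) 2
  obtain ⟨G, c, mG, hG⟩ := h.hR.rg_op φ
  have key : φ = Real.exp (a * (1 / 2)) • Op μ (K (1 / 2)) φ - m2.toLp u2 := by
    refine ext_inner_left ℝ fun ψ => ?_
    have hψ : Integrable ψ μ := (Lp.memLp ψ).integrable one_le_two
    have d (s : ℝ) (hs : s ∈ Ioo (0 : ℝ) 1) :
        HasDerivAt (fun s => Real.exp (a * s) * inner ℝ ψ (Op μ (K s) φ))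
          (Real.exp (a * s) * inner ℝ ψ (Op μ (R s) φ)) s := by
      have h1 : HasDerivAt (fun s => inner ℝ ψ (Op μ (K s) φ))
          (inner ℝ ψ (Op μ (R s) φ - Op μ (K s) (a • φ))) s :=
        (innerSL ℝ ψ).hasFDerivAt.comp_hasDerivAt s (h.weak hw' hs)
      have h2 : HasDerivAt (fun s => Real.exp (a * s)) (Real.exp (a * s) * (a * 1)) s :=
        ((hasDerivAt_id s).const_mul a).exp
      refine (h2.mul h1).congr_deriv ?_
      rw [map_smul, inner_sub_right, inner_smul_right]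
      ring
    let H : ℝ × X → ℝ := fun p => inner ℝ (ψ p.2) (Real.exp (a * p.1) • G p)
    have iH : Integrable H ((volume.restrict (Ioc 0 (1 / 2))).prod μ) := by
      have b1 : Integrable (fun p : ℝ × X => (Real.exp (a * p.1) * c) * ‖ψ p.2‖)
          ((volume.restrict (Ioc 0 (1 / 2))).prod μ) :=
        ((he.mul continuous_const).integrableOn_Ioc (a := 0) (b := 1 / 2)).mul_prod hψ.norm
      refine b1.mono' (((Lp.stronglyMeasurable ψ).comp_measurable measurable_snd).inner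
        (((he.comp continuous_fst).measurable.stronglyMeasurable).smul mG)).aestronglyMeasurable ?_
      have : ∀ᵐ p : ℝ × X ∂(volume.restrict (Ioc 0 (1 / 2))).prod μ, p.1 ∈ Ioc 0 (1 / 2) :=
        Measure.quasiMeasurePreserving_fst.ae (ae_restrict_mem measurableSet_Ioc)
      refine this.mono fun p hp => (norm_inner_le_norm _ _).trans ?_
      rw [norm_smul, Real.norm_of_nonneg (Real.exp_pos _).le, mul_comm]
      gcongr
      exact (hG p.1 ⟨hp.1, hp.2.trans ht'.2⟩ p.2).2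
    have e1 (s : ℝ) (hs : s ∈ Ioc (0 : ℝ) (1 / 2)) :
        Real.exp (a * s) * inner ℝ ψ (Op μ (R s) φ) = ∫ y, H (s, y) ∂μ := by
      have hs' : s ∈ Ioc (0 : ℝ) 1 := ⟨hs.1, hs.2.trans ht'.2⟩
      rw [rg_inner ψ _ ((h.hR.bm hs').isOp φ), ← integral_const_mul]
      simp only [H, (hG s hs' _).1, inner_smul_right]
    have e2 (y : X) : ∫ s in Ioc 0 (1 / 2), H (s, y) = inner ℝ (ψ y) (u2 y) := by
      have i1 : IntegrableOn (fun s => Real.exp (a * s) • G (s, y)) (Ioc 0 (1 / 2)) := by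
        refine ((he.mul continuous_const (g := fun _ => c)).integrableOn_Ioc (a := 0)
          (b := 1 / 2)).mono' (he.stronglyMeasurable.smul
            (mG.comp_measurable measurable_prodMk_right)).aestronglyMeasurable
          ((ae_restrict_mem measurableSet_Ioc).mono fun s hs => ?_)
        rw [norm_smul, Real.norm_of_nonneg (Real.exp_pos _).le]
        exact mul_le_mul_of_nonneg_left (hG s ⟨hs.1, hs.2.trans ht'.2⟩ y).2 (Real.exp_pos _).le
      simp only [H]
      rw [integral_inner i1]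
      congr 1
      exact setIntegral_congr_fun measurableSet_Ioc fun s hs => by
        simp only [(hG s ⟨hs.1, hs.2.trans ht'.2⟩ y).1]
    have t0 : Tendsto (fun s => Real.exp (a * s) * inner ℝ ψ (Op μ (K s) φ)) (𝓝[>] 0)
        (𝓝 (inner ℝ ψ φ)) := by
      have := ((he.tendsto 0).mono_left nhdsWithin_le_nhds).mul
        ((tendsto_const_nhds (x := ψ)).inner (𝕜 := ℝ) (h.tendsto φ))
      simpa using this
    have ftc := intervalIntegral.integral_eq_sub_of_hasDerivAt_of_tendsto ht.1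
      (fun s hs => d s ⟨hs.1, hs.2.trans ht.2⟩)
      ((intervalIntegrable_iff_integrableOn_Ioc_of_le ht.1.le).2
        (iH.integral_prod_left.congr ((ae_restrict_mem measurableSet_Ioc).mono fun s hs =>
          (e1 s hs).symm))) t0 ((d _ ht).continuousAt.tendsto.mono_left nhdsWithin_le_nhds)
    rw [intervalIntegral.integral_of_le ht.1.le, setIntegral_congr_fun measurableSet_Ioc e1,
      integral_integral_swap (f := fun s y => H (s, y)) iH] at ftc
    simp only [e2] at ftc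
    rw [inner_sub_right, inner_smul_right, rg_inner ψ _ m2.coeFn_toLp, ftc]
    ring
  refine ⟨fun y => Real.exp (a * (1 / 2)) • u1 y - u2 y, fun b => ?_, ?_⟩
  · have : S.loc b (fun y => Real.exp (a * (1 / 2)) • u1 y - u2 y) =
        fun z => Real.exp (a * (1 / 2)) • S.loc b u1 z - S.loc b u2 z := by
      funext z; simp [Sy.loc]
    rw [this]
    exact ((s1 b).const_smul _).sub (s2 b)
  · filter_upwards [Lp.coeFn_sub (Real.exp (a * (1 / 2)) • Op μ (K (1 / 2)) φ) (m2.toLp u2),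
      Lp.coeFn_smul (Real.exp (a * (1 / 2))) (Op μ (K (1 / 2)) φ), (h.hK.bm ht').isOp φ,
      m2.coeFn_toLp] with y h1 h2 h3 h4
    rw [← key] at h1
    rw [h1, Pi.sub_apply, h2, Pi.smul_apply, h3, h4]

theorem Sy.reg (S : Sy X μ C) {φ : Lp W 2 μ} {a : ℝ} (hw : S.Weak φ fun x => a • φ x) :
    ∃ u, S.Sm ∞ u ∧ (φ : X → W) =ᵐ[μ] u := by
  have := S.toAtl.fin
  have h (l : ℕ) : ∃ u, S.Sm l u ∧ (φ : X → W) =ᵐ[μ] u := by
    obtain ⟨K, R, h⟩ := S.exists_par l
    exact h.reg hw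
  choose u h1 h2 using h
  have h0 (l : ℕ) : S.Sm 0 (u l) := fun b => (h1 l b).of_le (by simp)
  refine ⟨u 0, fun b => contDiff_infty.2 fun l => ?_, h2 0⟩
  rw [(h0 0).eq_of_ae (h0 l) ((h2 0).symm.trans (h2 l))]
  exact h1 l b

end Pool.Agent.Lib.MP_1c0d65_gt.Nz
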