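import Pool.Agent.Lib.MP_1c0d65_gt.Nz.Cls

/-! The resolvent of the square of a symmetric operator. -/

set_option autoImplicit false

open scoped Topology
open Set Function Filter

namespace Pool.Agent.Lib.MP_1c0d65_gt.Nz

variable {H S : Type} [NormedAddCommGroup H] [InnerProductSpace ℝ H] [CompleteSpace H]
  [AddCommGroup S] [Module ℝ S]

omit [CompleteSpace H] in
theorem Ab.res_ext (A : Ab H S) {x y : H} (h : ∀ u, inner ℝ x (A.j u) = inner ℝ y (A.j u)) :
    x = y := A.dense.eq_of_inner_left ℝ h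

omit [CompleteSpace H] in
theorem Ab.res_dd (A : Ab H S) (u v : S) :
    inner ℝ (A.j (A.D (A.D u))) (A.j v) = inner ℝ (A.j u) (A.j (A.D (A.D v))) := by
  rw [A.symm, A.symm]

/-- The inverse of `D D + 1`. -/
theorem Ab.res_ex (A : Ab H S) : ∃ G : H →L[ℝ] H, G.IsSymmetric ∧ (∀ f, ‖G f‖ ≤ ‖f‖) ∧
    (∀ f u, inner ℝ (G f) (A.j (A.D (A.D u))) = inner ℝ (f - G f) (A.j u)) ∧
    ∀ w, G (A.j (A.D (A.D w)) + A.j w) = A.j w := by
  let γ : S →ₗ[ℝ] WithLp 2 (H × H) :=
    (WithLp.linearEquiv 2 ℝ (H × H)).symm.toLinearMap ∘ₗ A.j.prod (A.j ∘ₗ A.D)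
  let V := (LinearMap.range γ).topologicalClosure
  let ι : H →L[ℝ] WithLp 2 (H × H) :=
    (WithLp.prodContinuousLinearEquiv 2 ℝ H H).symm.toContinuousLinearMap ∘L
      ContinuousLinearMap.inl ℝ H H
  have hι : ∀ (f : H) (p : WithLp 2 (H × H)), inner ℝ (ι f) p = inner ℝ f p.fst := fun f p => by
    simp [ι]
  have hγ : ∀ (p : WithLp 2 (H × H)) u, inner ℝ p (γ u) =
      inner ℝ p.fst (A.j u) + inner ℝ p.snd (A.j (A.D u)) := fun p u => by simp [γ]
  have mem : ∀ u, γ u ∈ V := fun u => Submodule.le_topologicalClosure _ ⟨u, rfl⟩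
  have cl : ∀ p ∈ V, ∀ u, inner ℝ p.fst (A.j (A.D u)) = inner ℝ p.snd (A.j u) := fun p hp u => by
    refine closure_minimal (t := {p : WithLp 2 (H × H) |
      inner ℝ p.fst (A.j (A.D u)) = inner ℝ p.snd (A.j u)}) ?_
      (isClosed_eq (by fun_prop) (by fun_prop)) hp
    rintro _ ⟨w, rfl⟩
    exact (A.symm w u).symm
  refine ⟨WithLp.fstL 2 ℝ H H ∘L V.starProjection ∘L ι, fun f g => ?_, fun f => ?_, fun f u => ?_,
    fun w => ?_⟩
  · change inner ℝ (V.starProjection (ι f)).fst g = inner ℝ f (V.starProjection (ι g)).fst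
    rw [real_inner_comm, ← hι, ← hι, real_inner_comm, V.inner_starProjection_left_eq_right]
  · refine (WithLp.norm_fst_le _ _).trans ((V.norm_starProjection_apply_le _).trans ?_)
    simp [ι]
  · change inner ℝ (V.starProjection (ι f)).fst _ = inner ℝ (f - (V.starProjection (ι f)).fst) _
    have h := V.starProjection_inner_eq_zero (ι f) _ (mem u)
    rw [inner_sub_left, hι, hγ] at h
    rw [cl _ (V.starProjection_apply_mem _), inner_sub_left]
    change inner ℝ f (A.j u) - _ = 0 at h
    linarith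
  · change (V.starProjection (ι _)).fst = (γ w).fst
    refine congrArg _ (Submodule.eq_starProjection_of_mem_orthogonal (mem w) ?_)
    rw [Submodule.orthogonal_closure, Submodule.mem_orthogonal']
    rintro _ ⟨u, rfl⟩
    rw [inner_sub_left, hι, hγ]
    change inner ℝ _ (A.j u) - (inner ℝ (A.j w) _ + inner ℝ (A.j (A.D w)) _) = 0
    rw [inner_add_left, A.symm (A.D w)]
    ring

theorem Ab.res (A : Ab H S) :
    (∀ l : ℝ, FiniteDimensional ℝ (Module.End.eigenspace (A.D ∘ₗ A.D) l)) ∧
    (⨆ l : ℝ, (Module.End.eigenspace (A.D ∘ₗ A.D) l).map A.j)ᗮ = ⊥ := by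
  obtain ⟨G, hs, hn, hw, hi⟩ := A.res_ex
  have hc : IsCompactOperator G := by
    refine isClosed_setOfPred_isCompactOperator.closure_subset
      (Metric.mem_closure_iff.2 fun δ hδ => ?_)
    obtain ⟨T, hT, h⟩ := A.cpt (δ / 4) (by positivity)
    refine ⟨T ∘L G, hT.comp_clm G, ?_⟩
    rw [dist_eq_norm]
    refine (ContinuousLinearMap.opNorm_le_bound _ (M := δ / 4 * 3) (by positivity)
      fun f => (h _ _ (hw f)).trans ?_).trans_lt (by linarith)
    have := norm_sub_le f (G f)
    have := hn f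
    rw [mul_assoc]
    exact mul_le_mul_of_nonneg_left (by linarith) (by positivity)
  refine ⟨fun l => ?_, ?_⟩
  · have e : ∀ w ∈ Module.End.eigenspace (A.D ∘ₗ A.D) l, (l + 1) • G (A.j w) = A.j w :=
      fun w h => by
        have h1 : A.D (A.D w) = l • w := Module.End.mem_eigenspace_iff.1 h
        rw [← map_smul, add_smul, one_smul, ← map_smul, ← h1, hi]
    by_cases hl : l + 1 = 0
    · rw [(Submodule.eq_bot_iff (Module.End.eigenspace (A.D ∘ₗ A.D) l)).2 fun w h =>
        A.inj (by rw [← e w h, hl, zero_smul, map_zero])]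
      infer_instance
    · have := ContinuousLinearMap.finite_dimensional_eigenspace hc _ (inv_ne_zero hl)
      refine FiniteDimensional.of_injective (A.j.restrict
        (q := Module.End.eigenspace G.toLinearMap (l + 1)⁻¹) fun w h =>
          Module.End.mem_eigenspace_iff.2 ((eq_inv_smul_iff₀ hl).2 (e w h))) fun u v h => ?_
      exact Subtype.ext (A.inj (congrArg Subtype.val h))
  · refine le_bot_iff.1 (le_trans (Submodule.orthogonal_le (iSup_le fun m f hf => ?_))
      (ContinuousLinearMap.orthogonalComplement_iSup_eigenspaces_eq_bot hc hs).le)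
    have h1 : G f = m • f := Module.End.mem_eigenspace_iff.1 hf
    have h2 := hw f
    simp only [h1, inner_sub_left, real_inner_smul_left] at h2
    by_cases hm : m = 0
    · rw [A.res_ext (x := f) (y := 0) fun u => by simpa [hm] using (h2 u).symm]
      exact zero_mem _
    · have h3 : ∀ u, inner ℝ f (A.j (A.D (A.D u))) = (1 - m) / m * inner ℝ f (A.j u) := fun u => by
        field_simp
        linarith [h2 u]
      obtain ⟨w, rfl⟩ := A.reg f _ h3
      refine Submodule.mem_iSup_of_mem ((1 - m) / m) ⟨w, Module.End.mem_eigenspace_iff.2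
        (A.inj (A.res_ext fun u => ?_)), rfl⟩
      rw [map_smul, real_inner_smul_left, ← h3]
      exact A.res_dd w u

end Pool.Agent.Lib.MP_1c0d65_gt.Nz
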