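import Pool.Agent.Lib.MP_1c0d65_gt.PW.Defs

/-! Dirac systems on a compact four-manifold: the interface of the index theorem. -/

set_option autoImplicit false

open scoped ContDiff Topology
open Set MeasureTheory Function

noncomputable section

namespace Pool.Agent.Lib.MP_1c0d65_gt.Nz

open Pool.Agent.Lib.MP_1c0d65_gt.PW

/-- The standard basis of `E`. -/
def bs : Fin 4 → E := ![(1, 0), (.I, 0), (0, 1), (0, .I)]

/-- The dual basis. -/
def co : Fin 4 → E →L[ℝ] ℝ :=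
  ![Complex.reCLM.comp (.fst ℝ ℂ ℂ), Complex.imCLM.comp (.fst ℝ ℂ ℂ),
    Complex.reCLM.comp (.snd ℝ ℂ ℂ), Complex.imCLM.comp (.snd ℝ ℂ ℂ)]

/-- A smooth frame `e i z = M z (bs i)` on `E`, with its coframe `θ`. -/
structure Fr where
  M : E → E →L[ℝ] E
  θ : E → E →L[ℝ] E
  hM : ContDiff ℝ ∞ M
  hθ : ContDiff ℝ ∞ θ
  θM : ∀ z v, θ z (M z v) = v
  Mθ : ∀ z v, M z (θ z v) = v

namespace Fr

variable (f : Fr) {V : Type} [NormedAddCommGroup V] [NormedSpace ℝ V]

/-- The frame vectors. -/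
def e (i : Fin 4) (z : E) : E := f.M z (bs i)

/-- The derivative along a frame vector. -/
def d (i : Fin 4) (u : E → V) (z : E) : V := fderiv ℝ u z (f.e i z)

/-- The volume density of the frame. -/
def m (z : E) : ℝ := |(f.θ z).det|

/-- The structure functions: `[e i, e j] = ∑ k, γ i j k • e k`. -/
def γ (i j k : Fin 4) (z : E) : ℝ := co k (f.θ z (f.d i (f.e j) z - f.d j (f.e i) z))

end Fr

/-- A graded Clifford module whose two halves have the same dimension. -/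
structure Cl (W : Type) [NormedAddCommGroup W] [InnerProductSpace ℝ W] [FiniteDimensional ℝ W]
    [CompleteSpace W] where
  ε : W →L[ℝ] W
  c : Fin 4 → W →L[ℝ] W
  ε_star : star ε = ε
  ε_sq : ε * ε = 1
  c_star : ∀ i, star (c i) = -c i
  c_sq : ∀ i, c i * c i = -1
  c_anti : ∀ i j, i ≠ j → c i * c j = -(c j * c i)
  odd : ∀ i, ε * c i = -(c i * ε)

variable {W : Type} [NormedAddCommGroup W] [InnerProductSpace ℝ W] [FiniteDimensional ℝ W]
  [CompleteSpace W]

/-- The supertrace. -/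
def Cl.str (C : Cl W) (a : W →L[ℝ] W) : ℝ := LinearMap.trace ℝ W (C.ε * a : W →L[ℝ] W)

/-- A frame, its Levi-Civita connection `∇ (e i) (e j) = ∑ k, Γ i k j • e k`, and a Clifford
connection `A`. -/
structure Loc (C : Cl W) extends Fr where
  A : Fin 4 → E → W →L[ℝ] W
  Γ : Fin 4 → Fin 4 → Fin 4 → E → ℝ
  hA : ∀ i, ContDiff ℝ ∞ (A i)
  hΓ : ∀ i j k, ContDiff ℝ ∞ (Γ i j k)
  skew : ∀ i z, star (A i z) = -A i z
  even : ∀ i z, C.ε * A i z = A i z * C.ε
  Γ_skew : ∀ i j k z, Γ i j k z = -Γ i k j z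
  comm : ∀ i j z, A i z * C.c j - C.c j * A i z = ∑ k, Γ i k j z • C.c k
  tors : ∀ i j k z, toFr.γ i j k z = Γ i k j z - Γ j k i z

namespace Loc

variable {C : Cl W} (L : Loc C)

/-- The covariant derivative. -/
def nab (i : Fin 4) (u : E → W) (z : E) : W := L.d i u z + L.A i z (u z)

/-- The Dirac operator. -/
def D (u : E → W) (z : E) : W := ∑ i, C.c i (L.nab i u z)

/-- The curvature. -/
def Om (i j : Fin 4) (z : E) : W →L[ℝ] W :=
  L.d i (L.A j) z - L.d j (L.A i) z + (L.A i z * L.A j z - L.A j z * L.A i z)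
    - ∑ k, L.γ i j k z • L.A k z

/-- The Weitzenboeck term: `D D = ∇* ∇ - En`. -/
def En (z : E) : W →L[ℝ] W := -((1 / 2 : ℝ) • ∑ i, ∑ j, C.c i * C.c j * L.Om i j z)

/-- The index density (times `16 π ^ 2`). -/
def dens (z : E) : ℝ := C.str ((1 / 2 : ℝ) • (L.En z * L.En z)
  + (1 / 12 : ℝ) • ∑ i, ∑ j, L.Om i j z * L.Om i j z)

end Loc

/-- Charts defined on all of `E`, frames, volume, a partition of unity. -/
structure Atl (X : Type) [TopologicalSpace X] [MeasurableSpace X] (μ : Measure X) (C : Cl W) where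
  n : ℕ
  ψ : Fin n → E → X
  emb : ∀ a, Topology.IsOpenEmbedding (ψ a)
  tr : ∀ a b, ContDiffOn ℝ ∞ (fun z => invFun (ψ b) (ψ a z)) (ψ a ⁻¹' range (ψ b))
  L : Fin n → Loc C
  strE : ∀ a z, C.str ((L a).En z) = 0
  κ : ℝ
  hκ : 0 < κ
  vol : ∀ a S, MeasurableSet S → μ (ψ a '' S) = ∫⁻ z in S, ENNReal.ofReal (κ * (L a).m z)
  ρ : Fin n → E → ℝ
  hρ : ∀ a, ContDiff ℝ ∞ (ρ a)
  cρ : ∀ a, HasCompactSupport (ρ a)
  sum : ∀ x, ∑ a, extend (ψ a) (ρ a) 0 x = 1

variable {X : Type} [TopologicalSpace X] [MeasurableSpace X] {μ : Measure X} {C : Cl W}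

/-- The integral of the index density. -/
def Atl.ind (T : Atl X μ C) : ℝ :=
  (16 * Real.pi ^ 2)⁻¹ * ∑ a, ∫ z, T.ρ a z * (T.L a).dens z * (T.L a).m z

/-- A family of local functions that is compatible with the transition maps `h`. -/
def Atl.Cp (T : Atl X μ C) (h : Fin T.n → Fin T.n → X → W →L[ℝ] W) (u : Fin T.n → E → W) : Prop :=
  ∀ a b z z', T.ψ a z = T.ψ b z' → u b z' = h b a (T.ψ a z) (u a z)

/-- A Dirac system: an orthogonal cocycle for which the local Dirac operators agree. -/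
structure Sys (X : Type) [TopologicalSpace X] [MeasurableSpace X] (μ : Measure X) (C : Cl W)
    extends Atl X μ C where
  h : Fin n → Fin n → X → W →L[ℝ] W
  h_self : ∀ a z, h a a (ψ a z) = 1
  h_coc : ∀ a b c x, x ∈ range (ψ a) → x ∈ range (ψ b) → x ∈ range (ψ c) →
    h a b x * h b c x = h a c x
  h_star : ∀ a b x, x ∈ range (ψ a) → x ∈ range (ψ b) → star (h a b x) = h b a x
  h_even : ∀ a b x, x ∈ range (ψ a) → x ∈ range (ψ b) → C.ε * h a b x = h a b x * C.ε
  h_sm : ∀ a b, ContDiffOn ℝ ∞ (fun z => h b a (ψ a z)) (ψ a ⁻¹' range (ψ b))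
  cov : ∀ u : Fin n → E → W, (∀ a, ContDiff ℝ ∞ (u a)) → toAtl.Cp h u →
    toAtl.Cp h fun a => (L a).D (u a)

theorem Loc.D_add (L : Loc C) {u v : E → W} (hu : ContDiff ℝ ∞ u) (hv : ContDiff ℝ ∞ v) (z : E) :
    L.D (u + v) z = L.D u z + L.D v z := by
  have h := fderiv_add (𝕜 := ℝ) (hu.differentiable (by simp) z) (hv.differentiable (by simp) z)
  simp only [Loc.D, Loc.nab, Fr.d, h, ← Finset.sum_add_distrib, ← map_add]
  refine Finset.sum_congr rfl fun i _ => congrArg _ ?_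
  simp only [add_apply, Pi.add_apply, map_add]; abel

theorem Loc.D_smul (L : Loc C) (r : ℝ) {u : E → W} (hu : ContDiff ℝ ∞ u) (z : E) :
    L.D (r • u) z = r • L.D u z := by
  have h := fderiv_const_smul (𝕜 := ℝ) (hu.differentiable (by simp) z) r
  simp only [Loc.D, Loc.nab, Fr.d, h, Finset.smul_sum, ← map_smul]
  refine Finset.sum_congr rfl fun i _ => congrArg _ ?_
  simp only [smul_apply, Pi.smul_apply, map_smul, smul_add]

/-- Smooth sections of parity `σ` that are killed by the Dirac operator. -/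
def Sys.ker (S : Sys X μ C) (σ : ℝ) : Submodule ℝ (Fin S.n → E → W) where
  carrier := {u | (∀ a, ContDiff ℝ ∞ (u a)) ∧ S.Cp S.h u ∧ (∀ a z, (S.L a).D (u a) z = 0) ∧
    ∀ a z, C.ε (u a z) = σ • u a z}
  zero_mem' := ⟨fun _ => contDiff_const, fun _ _ _ _ _ => by simp,
    fun a z => by simp [Loc.D, Loc.nab, Fr.d], fun _ _ => by simp⟩
  add_mem' := fun {u v} hu hv => ⟨fun a => (hu.1 a).add (hv.1 a),
    fun a b z z' h => by simp [hu.2.1 a b z z' h, hv.2.1 a b z z' h],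
    fun a z => by
      rw [Pi.add_apply, Loc.D_add _ (hu.1 a) (hv.1 a), hu.2.2.1, hv.2.2.1, add_zero],
    fun a z => by simp [hu.2.2.2 a z, hv.2.2.2 a z]⟩
  smul_mem' := fun r {u} hu => ⟨fun a => (hu.1 a).const_smul r,
    fun a b z z' h => by simp [hu.2.1 a b z z' h],
    fun a z => by rw [Pi.smul_apply, Loc.D_smul _ r (hu.1 a), hu.2.2.1, smul_zero],
    fun a z => by simp [hu.2.2.2 a z, smul_comm r σ]⟩

end Pool.Agent.Lib.MP_1c0d65_gt.Nz
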